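import Pool.Agent.Lib_MP_4270a5_nt.GalB

open Polynomial IntermediateField

namespace MP4270

/-- The field of the elements on which two homomorphisms agree. -/
private noncomputable def abc_eqz (f g : Qb →ₐ[ℚ] Qb) : IntermediateField ℚ Qb where
  toSubalgebra := AlgHom.equalizer f g
  inv_mem' := by
    intro x hx
    have h : f x = g x := hx
    show f x⁻¹ = g x⁻¹
    rw [map_inv₀, map_inv₀, h]

/-- Cyclotomic extensions are abelian. -/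
theorem ab_comm (E : IntermediateField ℚ Qb) {m : ℕ} (hm : 0 < m) (σ τ : Qb ≃ₐ[ℚ] Qb)
    (hσ : ∀ x ∈ E, σ x = x) (hτ : ∀ x ∈ E, τ x = x) {x : Qb} (hx : x ∈ E ⊔ adjoin ℚ {x : Qb | x ^ m = 1}) :
    σ (τ x) = τ (σ x) := by
  have key : E ⊔ adjoin ℚ {x : Qb | x ^ m = 1} ≤
      abc_eqz ((σ : Qb →ₐ[ℚ] Qb).comp (τ : Qb →ₐ[ℚ] Qb))
        ((τ : Qb →ₐ[ℚ] Qb).comp (σ : Qb →ₐ[ℚ] Qb)) := by
    refine sup_le ?_ (adjoin_le_iff.2 ?_)
    · intro y hy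
      show σ (τ y) = τ (σ y)
      rw [hτ y hy, hσ y hy, hτ y hy]
    · intro y hy
      show σ (τ y) = τ (σ y)
      have hy1 : y ^ m = 1 := hy
      have h0 : 0 < orderOf y := orderOf_pos_iff.2 (isOfFinOrder_iff_pow_eq_one.2 ⟨m, hm, hy1⟩)
      have : NeZero (orderOf y) := ⟨h0.ne'⟩
      have hp := IsPrimitiveRoot.orderOf y
      have hpow : ∀ ρ : Qb ≃ₐ[ℚ] Qb, ∃ i : ℕ, y ^ i = ρ y := by
        intro ρ
        obtain ⟨i, -, hi⟩ := hp.eq_pow_of_pow_eq_one (ξ := ρ y) (by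
          rw [← map_pow, pow_orderOf_eq_one, map_one])
        exact ⟨i, hi⟩
      obtain ⟨i, hi⟩ := hpow σ
      obtain ⟨j, hj⟩ := hpow τ
      rw [← hj, ← hi, map_pow, map_pow, ← hi, ← hj, ← pow_mul, ← pow_mul, mul_comm]
  exact key hx

/-- `E(μ_m)` is stable. -/
theorem cyc_stable (E : IntermediateField ℚ Qb) {m : ℕ} (σ : Qb ≃ₐ[ℚ] Qb)
    (hσ : ∀ x ∈ E, σ x = x) {x : Qb} (hx : x ∈ E ⊔ adjoin ℚ {x : Qb | x ^ m = 1}) :
    σ x ∈ E ⊔ adjoin ℚ {x : Qb | x ^ m = 1} := by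
  have key : (E ⊔ adjoin ℚ {x : Qb | x ^ m = 1}).map (σ : Qb →ₐ[ℚ] Qb) ≤
      E ⊔ adjoin ℚ {x : Qb | x ^ m = 1} := by
    rw [IntermediateField.map_sup, IntermediateField.adjoin_map]
    refine sup_le ?_ (adjoin_le_iff.2 ?_)
    · rintro _ ⟨y, hy, rfl⟩
      show σ y ∈ E ⊔ adjoin ℚ {x : Qb | x ^ m = 1}
      rw [hσ y hy]
      exact (le_sup_left : E ≤ _) hy
    · rintro _ ⟨y, hy, rfl⟩
      have hy1 : y ^ m = 1 := hy
      refine (le_sup_right : _ ≤ E ⊔ adjoin ℚ {x : Qb | x ^ m = 1}) (subset_adjoin ℚ _ ?_)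
      show (σ y) ^ m = 1
      rw [← map_pow, hy1, map_one]
  exact key ⟨x, hx, rfl⟩

end MP4270
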