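import Pool.Agent.Lib_MP_4270a5_nt.AbC

open Polynomial IntermediateField

namespace MP4270

/-- `y ∈ K(μ_M)`, `y^q ∈ K`: for `σ` over `K`, `σ y = ω_σ y` with `ω_σ^q = 1`; `τ σ = σ τ` on `K(μ_M)` (`ab_comm`) gives
`ω_σ^(t-1) = σ(ω_τ)/ω_τ`, so `y^(t-1)/ω_τ` is fixed by all `σ`. -/
theorem ab_step (K : IntermediateField ℚ Qb) {M q t : ℕ} (hM : 0 < M) (hq : 0 < q) (ht : 1 ≤ t) {y : Qb}
    (hy : y ∈ K ⊔ adjoin ℚ {x : Qb | x ^ M = 1}) (hy0 : y ≠ 0) (hyq : y ^ q ∈ K) (τ : Qb ≃ₐ[ℚ] Qb)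
    (hτ : ∀ x ∈ K, τ x = x) (hτq : ∀ x : Qb, x ^ q = 1 → τ x = x ^ t) :
    ∃ y₀ ∈ K, ∃ w : Qb, w ^ q = 1 ∧ y ^ (t - 1) = w * y₀ := by
  have hyq0 : y ^ q ≠ 0 := pow_ne_zero q hy0
  have hw : ∀ σ : Qb ≃ₐ[ℚ] Qb, (∀ x ∈ K, σ x = x) → (σ y / y) ^ q = 1 := by
    intro σ hσ
    rw [div_pow, ← map_pow, hσ _ hyq, div_self hyq0]
  have hw0 : ∀ σ : Qb ≃ₐ[ℚ] Qb, σ y ≠ 0 := fun σ => by
    intro h
    exact hy0 ((map_eq_zero σ).1 h)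
  set w : Qb := τ y / y with hwdef
  have hwne : w ≠ 0 := div_ne_zero (hw0 τ) hy0
  refine ⟨y ^ (t - 1) / w, ?_, w, hw τ hτ, ?_⟩
  · apply mem_of_fixed_Qb
    intro σ hσ
    have hc := ab_comm K hM σ τ hσ hτ hy
    have e1 : τ y = w * y := by rw [hwdef, div_mul_cancel₀ _ hy0]
    set v : Qb := σ y / y with hvdef
    have e2 : σ y = v * y := by rw [hvdef, div_mul_cancel₀ _ hy0]
    have hvne : v ≠ 0 := div_ne_zero (hw0 σ) hy0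
    have e3 : τ v = v ^ t := hτq v (hw σ hσ)
    rw [e1, e2, map_mul, map_mul, e1, e2, e3] at hc
    -- σ w * (v * y) = v ^ t * (w * y)
    have e4 : v ^ t = v ^ (t - 1) * v := by
      rw [← pow_succ]; congr 1; omega
    have e5 : σ w = v ^ (t - 1) * w := by
      have h6 : (σ w) * (v * y) = (v ^ (t - 1) * w) * (v * y) := by
        rw [hc, e4]; ring
      exact mul_right_cancel₀ (mul_ne_zero hvne hy0) h6
    rw [map_div₀, map_pow, e5, e2, mul_pow]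
    have hv1 : v ^ (t - 1) ≠ 0 := pow_ne_zero _ hvne
    field_simp
  · rw [mul_div_cancel₀ _ hwne]

end MP4270
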