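import Pool.Agent.Lib_MP_4270a5_nt.HProp

open Polynomial IntermediateField

namespace MP4270

private lemma metric_C (a b : Qb) (hab : a ≠ b) :
    Real.log (nmC (a - b)) ≤ Real.log 2 + Real.log (max 1 (nmC a)) + Real.log (max 1 (nmC b)) := by
  have h1 : nmC (a - b) ≤ nmC a + nmC b := by
    unfold nmC
    rw [map_sub]
    exact norm_sub_le _ _
  have h0 : 0 < nmC (a - b) := by
    unfold nmC
    rw [norm_pos_iff]
    intro h
    exact hab (sub_eq_zero.mp ((map_eq_zero ii).mp h))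
  have ha : 1 ≤ max 1 (nmC a) := le_max_left _ _
  have hb : 1 ≤ max 1 (nmC b) := le_max_left _ _
  have ha' : nmC a ≤ max 1 (nmC a) := le_max_right _ _
  have hb' : nmC b ≤ max 1 (nmC b) := le_max_right _ _
  rw [← Real.log_mul (by norm_num) (by positivity), ← Real.log_mul (by positivity) (by positivity)]
  apply Real.log_le_log h0
  nlinarith

private lemma metric_F (ℓ : ℕ) (a b : Qb) (hab : a ≠ b) :
    Real.log (nm ℓ (a - b)) ≤ Real.log (max 1 (nm ℓ a)) + Real.log (max 1 (nm ℓ b)) := by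
  have h1 : nm ℓ (a - b) ≤ max (nm ℓ a) (nm ℓ b) := nm_sub_le ℓ a b
  have h0 : 0 < nm ℓ (a - b) := nm_pos ℓ (sub_ne_zero.mpr hab)
  have ha : 1 ≤ max 1 (nm ℓ a) := le_max_left _ _
  have hb : 1 ≤ max 1 (nm ℓ b) := le_max_left _ _
  have ha' : nm ℓ a ≤ max 1 (nm ℓ a) := le_max_right _ _
  have hb' : nm ℓ b ≤ max 1 (nm ℓ b) := le_max_right _ _
  rw [← Real.log_mul (by positivity) (by positivity)]
  apply Real.log_le_log h0
  refine h1.trans (max_le ?_ ?_) <;> nlinarith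

/-- METRIC INEQUALITY: product formula for `A - B` and the decompositions of `hW A`, `hW B` (one finite set `T'` of
primes, containing `p`, for the three): `log |σA - σB| ≤ log 2 + log max(1,|σA|) + log max(1,|σB|)` at `∞`, without `log 2`
at `ℓ`, and `-lam log p` is gained at `p` for `σ ∈ T`. (Every `σ ∈ Gal(M/ℚ)` is the restriction of an automorphism of
`Qb`.) -/
theorem metric_ineq (p : ℕ) [Fact p.Prime] (M : IntermediateField ℚ Qb) [FiniteDimensional ℚ M]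
    [Normal ℚ M] {A B : Qb} (hA : A ∈ M) (hB : B ∈ M) (hAB : A ≠ B) (T : Finset (M ≃ₐ[ℚ] M)) (lam : ℝ)
    (hT : ∀ σ : Qb ≃ₐ[ℚ] Qb, AlgEquiv.restrictNormal σ M ∈ T →
      ‖jj p (σ A) - jj p (σ B)‖ ≤ (p : ℝ) ^ (-lam) * (max 1 ‖jj p (σ A)‖ * max 1 ‖jj p (σ B)‖)) :
    (T.card : ℝ) * (lam * Real.log p) ≤ (Module.finrank ℚ M : ℝ) * (Real.log 2 + hW A + hW B) := by
  classical
  set x : M := ⟨A, hA⟩ with hx
  set y : M := ⟨B, hB⟩ with hy
  have hxy : x - y ≠ 0 := by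
    intro h
    apply hAB
    have := congrArg (fun z : M => (z : Qb)) (sub_eq_zero.mp h)
    simpa [hx, hy] using this
  have hp0 : (0 : ℝ) < p := by exact_mod_cast (Fact.out : p.Prime).pos
  obtain ⟨T1, h1⟩ := product_formula M (x - y) hxy
  obtain ⟨T2, h2⟩ := decomp M x
  obtain ⟨T3, h3⟩ := decomp M y
  set T' : Finset ℕ := T1 ∪ T2 ∪ T3 ∪ {p} with hT'
  have e1 := h1 T' (by intro z hz; simp [hT', hz])
  have e2 := h2 T' (by intro z hz; simp [hT', hz])
  have e3 := h3 T' (by intro z hz; simp [hT', hz])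
  have hpT : p ∈ T' := by simp [hT']
  have hne : ∀ σ : M ≃ₐ[ℚ] M, ((σ x : M) : Qb) ≠ ((σ y : M) : Qb) := by
    intro σ h
    apply hxy
    have h' : σ x = σ y := Subtype.ext h
    rw [sub_eq_zero]
    exact σ.injective h'
  have hsub : ∀ σ : M ≃ₐ[ℚ] M, ((σ (x - y) : M) : Qb) = ((σ x : M) : Qb) - ((σ y : M) : Qb) := by
    intro σ
    rw [map_sub]
    rfl
  have hcard : (Fintype.card (M ≃ₐ[ℚ] M) : ℝ) = Module.finrank ℚ M := by
    have : IsGalois ℚ M := ⟨⟩
    have := IsGalois.card_aut_eq_finrank ℚ M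
    rw [← this, Nat.card_eq_fintype_card]
  -- gain at p
  have hgain : ∀ σ ∈ T, Real.log (nm p (((σ x : M) : Qb) - ((σ y : M) : Qb))) ≤
      -(lam * Real.log p) + (Real.log (max 1 (nm p ((σ x : M) : Qb))) +
        Real.log (max 1 (nm p ((σ y : M) : Qb)))) := by
    intro σ hσ
    have hres : AlgEquiv.restrictNormal (AlgEquiv.liftNormal σ Qb) M = σ :=
      AlgEquiv.restrict_liftNormal Qb σ
    have hA' : (AlgEquiv.liftNormal σ Qb) A = ((σ x : M) : Qb) := by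
      have := AlgEquiv.liftNormal_commutes σ Qb x
      exact this
    have hB' : (AlgEquiv.liftNormal σ Qb) B = ((σ y : M) : Qb) := by
      have := AlgEquiv.liftNormal_commutes σ Qb y
      exact this
    have h := hT (AlgEquiv.liftNormal σ Qb) (by rw [hres]; exact hσ)
    rw [hA', hB', ← map_sub, ← nm_eq, ← nm_eq, ← nm_eq] at h
    have h0 : 0 < nm p (((σ x : M) : Qb) - ((σ y : M) : Qb)) :=
      nm_pos p (sub_ne_zero.mpr (hne σ))
    have ha : 0 < max 1 (nm p ((σ x : M) : Qb)) := lt_of_lt_of_le one_pos (le_max_left _ _)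
    have hb : 0 < max 1 (nm p ((σ y : M) : Qb)) := lt_of_lt_of_le one_pos (le_max_left _ _)
    have hpl : 0 < (p : ℝ) ^ (-lam) := Real.rpow_pos_of_pos hp0 _
    have := Real.log_le_log h0 h
    rw [Real.log_mul hpl.ne' (by positivity), Real.log_mul ha.ne' hb.ne', Real.log_rpow hp0] at this
    linarith
  -- the sum at p
  have hsump : ∑ σ : M ≃ₐ[ℚ] M, Real.log (nm p (((σ x : M) : Qb) - ((σ y : M) : Qb))) ≤
      ∑ σ : M ≃ₐ[ℚ] M, ((Real.log (max 1 (nm p ((σ x : M) : Qb))) +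
        Real.log (max 1 (nm p ((σ y : M) : Qb)))) - if σ ∈ T then lam * Real.log p else 0) := by
    apply Finset.sum_le_sum
    intro σ _
    by_cases hσ : σ ∈ T
    · rw [if_pos hσ]
      have := hgain σ hσ
      linarith
    · rw [if_neg hσ]
      have := metric_F p _ _ (hne σ)
      linarith
  have hite : ∑ σ : M ≃ₐ[ℚ] M, (if σ ∈ T then lam * Real.log p else 0) =
      (T.card : ℝ) * (lam * Real.log p) := by
    rw [Finset.sum_ite_mem, Finset.univ_inter, Finset.sum_const, nsmul_eq_mul]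
  rw [Finset.sum_sub_distrib, hite] at hsump
  -- all primes
  have hsumall : ∑ ℓ ∈ T', ∑ σ : M ≃ₐ[ℚ] M, Real.log (nm ℓ (((σ x : M) : Qb) - ((σ y : M) : Qb))) ≤
      ∑ ℓ ∈ T', (∑ σ : M ≃ₐ[ℚ] M, (Real.log (max 1 (nm ℓ ((σ x : M) : Qb))) +
        Real.log (max 1 (nm ℓ ((σ y : M) : Qb))))) - (T.card : ℝ) * (lam * Real.log p) := by
    rw [← Finset.add_sum_erase _ _ hpT, ← Finset.add_sum_erase _ (fun ℓ => ∑ σ : M ≃ₐ[ℚ] M,
      (Real.log (max 1 (nm ℓ ((σ x : M) : Qb))) + Real.log (max 1 (nm ℓ ((σ y : M) : Qb))))) hpT]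
    have : ∑ ℓ ∈ T'.erase p, ∑ σ : M ≃ₐ[ℚ] M,
        Real.log (nm ℓ (((σ x : M) : Qb) - ((σ y : M) : Qb))) ≤
        ∑ ℓ ∈ T'.erase p, ∑ σ : M ≃ₐ[ℚ] M, (Real.log (max 1 (nm ℓ ((σ x : M) : Qb))) +
        Real.log (max 1 (nm ℓ ((σ y : M) : Qb)))) := by
      apply Finset.sum_le_sum
      intro ℓ _
      apply Finset.sum_le_sum
      intro σ _
      exact metric_F ℓ _ _ (hne σ)
    linarith
  have hsumC : ∑ σ : M ≃ₐ[ℚ] M, Real.log (nmC (((σ x : M) : Qb) - ((σ y : M) : Qb))) ≤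
      ∑ σ : M ≃ₐ[ℚ] M, (Real.log 2 + Real.log (max 1 (nmC ((σ x : M) : Qb))) +
        Real.log (max 1 (nmC ((σ y : M) : Qb)))) :=
    Finset.sum_le_sum fun σ _ => metric_C _ _ (hne σ)
  simp only [Finset.sum_add_distrib, Finset.sum_const, Finset.card_univ, nsmul_eq_mul] at hsumC
  simp only [Finset.sum_add_distrib] at hsumall
  simp only [hsub] at e1
  rw [hcard] at hsumC
  have hxA : hW (x : Qb) = hW A := rfl
  have hyB : hW (y : Qb) = hW B := rfl
  rw [hxA] at e2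
  rw [hyB] at e3
  rw [mul_add, mul_add, e2, e3]
  linarith

end MP4270
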