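import Pool.Agent.Lib_MP_4270a5_nt.Defs

open Polynomial IntermediateField

namespace MP4270

theorem PowC_norm_p (p : ℕ) [Fact p.Prime] : ‖(p : PadicAlgCl p)‖ = (p : ℝ)⁻¹ := by
  rw [← map_natCast (algebraMap ℚ_[p] (PadicAlgCl p)), PadicAlgCl.norm_extends, Padic.norm_p]

theorem PowC_sub_le {p : ℕ} [Fact p.Prime] (x y : PadicAlgCl p) : ‖x - y‖ ≤ max ‖x‖ ‖y‖ := by
  rw [sub_eq_add_neg, ← norm_neg y]
  exact IsUltrametricDist.norm_add_le_max _ _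

theorem PowC_step (p : ℕ) [Fact p.Prime] {x y : PadicAlgCl p} (hy : ‖y‖ ≤ 1)
    (hd : ‖x - y‖ ≤ 1) : ‖x ^ p - y ^ p‖ ≤ max (‖x - y‖ ^ p) ((p : ℝ)⁻¹ * ‖x - y‖) := by
  have hp : p.Prime := Fact.out
  set d := x - y with hdd
  have h1 := add_pow_prime_eq hp y d
  have h2 : y + d = x := by rw [hdd]; ring
  rw [h2] at h1
  set S := ∑ k ∈ Finset.Ioo 0 p, y ^ (k - 1) * d ^ (p - k - 1) * ((p.choose k / p : ℕ) : PadicAlgCl p)
    with hS
  have hS1 : ‖S‖ ≤ 1 := by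
    refine IsUltrametricDist.norm_sum_le_of_forall_le_of_nonneg zero_le_one fun k _ => ?_
    rw [norm_mul, norm_mul, norm_pow, norm_pow]
    have g1 : ‖y‖ ^ (k - 1) ≤ 1 := pow_le_one₀ (norm_nonneg _) hy
    have g2 : ‖d‖ ^ (p - k - 1) ≤ 1 := pow_le_one₀ (norm_nonneg _) hd
    have g3 : ‖((p.choose k / p : ℕ) : PadicAlgCl p)‖ ≤ 1 :=
      IsUltrametricDist.norm_natCast_le_one _ _
    exact mul_le_one₀ (mul_le_one₀ g1 (by positivity) g2) (norm_nonneg _) g3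
  have h3 : x ^ p - y ^ p = d ^ p + p * y * d * S := by rw [h1]; ring
  rw [h3]
  refine (IsUltrametricDist.norm_add_le_max _ _).trans (max_le_max ?_ ?_)
  · rw [norm_pow]
  · rw [norm_mul, norm_mul, norm_mul, PowC_norm_p]
    have g1 : (p : ℝ)⁻¹ * ‖y‖ ≤ (p : ℝ)⁻¹ * 1 := mul_le_mul_of_nonneg_left hy (by positivity)
    calc (p : ℝ)⁻¹ * ‖y‖ * ‖d‖ * ‖S‖ ≤ (p : ℝ)⁻¹ * ‖y‖ * ‖d‖ * 1 :=
          mul_le_mul_of_nonneg_left hS1 (by positivity)
      _ ≤ (p : ℝ)⁻¹ * 1 * ‖d‖ * 1 := by gcongr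
      _ = (p : ℝ)⁻¹ * ‖d‖ := by ring

theorem PowC_step_exp (p : ℕ) [Fact p.Prime] {x y : PadicAlgCl p} {e m : ℝ} (hy : ‖y‖ ≤ 1)
    (he : 0 ≤ e) (h : ‖x - y‖ ≤ (p : ℝ) ^ (-e)) (hm : m ≤ e + 1) (hm2 : m ≤ 2 * e) :
    ‖x ^ p - y ^ p‖ ≤ (p : ℝ) ^ (-m) := by
  have hp : p.Prime := Fact.out
  have hp1 : (1 : ℝ) ≤ p := by exact_mod_cast hp.one_lt.le
  have hp0 : (0 : ℝ) < p := by linarith
  have hd : ‖x - y‖ ≤ 1 := h.trans (Real.rpow_le_one_of_one_le_of_nonpos hp1 (by linarith))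
  refine (PowC_step p hy hd).trans (max_le ?_ ?_)
  · calc ‖x - y‖ ^ p ≤ ((p : ℝ) ^ (-e)) ^ p := pow_le_pow_left₀ (norm_nonneg _) h p
      _ ≤ ((p : ℝ) ^ (-e)) ^ 2 :=
          pow_le_pow_of_le_one (Real.rpow_nonneg hp0.le _)
            (Real.rpow_le_one_of_one_le_of_nonpos hp1 (by linarith)) hp.two_le
      _ = (p : ℝ) ^ (-(2 * e)) := by
          rw [← Real.rpow_natCast, ← Real.rpow_mul hp0.le]
          congr 1
          push_cast
          ring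
      _ ≤ (p : ℝ) ^ (-m) := Real.rpow_le_rpow_of_exponent_le hp1 (by linarith)
  · calc (p : ℝ)⁻¹ * ‖x - y‖ ≤ (p : ℝ)⁻¹ * (p : ℝ) ^ (-e) :=
          mul_le_mul_of_nonneg_left h (by positivity)
      _ = (p : ℝ) ^ (-(e + 1)) := by
          rw [neg_add, Real.rpow_add hp0, Real.rpow_neg_one]
          ring
      _ ≤ (p : ℝ) ^ (-m) := Real.rpow_le_rpow_of_exponent_le hp1 (by linarith)

/-- `p`-th powers contract: if `‖x - y‖ ≤ p^(-δ)`, `x`, `y` integral, then `‖x^(p^s) - y^(p^s)‖ ≤ p^(-(s - s₀))`, where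
`s₀` depends only on `δ`. (One step: `x^p - y^p = (x-y)^p + p(...)(x-y)`, so the exponent `e` becomes
`≥ min(p e, e + 1)`; after `s₀` steps it is `≥ 1`, then it grows by at least `1` in each step... take
`s₀ = ⌈1/δ⌉ + 1` or any other value that works.) -/
theorem pow_contract (p : ℕ) [Fact p.Prime] (δ : ℝ) (hδ : 0 < δ) : ∃ s₀ : ℕ, ∀ (x y : PadicAlgCl p) (s : ℕ),
    ‖x‖ ≤ 1 → ‖y‖ ≤ 1 → ‖x - y‖ ≤ (p : ℝ) ^ (-δ) →
      ‖x ^ p ^ s - y ^ p ^ s‖ ≤ (p : ℝ) ^ (-((s : ℝ) - s₀)) := by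
  have hp : p.Prime := Fact.out
  have hp1 : (1 : ℝ) ≤ p := by exact_mod_cast hp.one_lt.le
  have hp0 : (0 : ℝ) < p := by linarith
  obtain ⟨μ, hμ, hμδ, hμ1⟩ : ∃ μ : ℝ, 0 < μ ∧ μ ≤ δ ∧ μ ≤ 1 :=
    ⟨min δ 1, by positivity, min_le_left _ _, min_le_right _ _⟩
  obtain ⟨s₁, hs₁⟩ := exists_nat_gt (1 / μ)
  rw [div_lt_iff₀ hμ] at hs₁
  refine ⟨s₁, fun x y s hx hy h => ?_⟩
  have hyn : ∀ s : ℕ, ‖y ^ p ^ s‖ ≤ 1 := fun s => by
    rw [norm_pow]
    exact pow_le_one₀ (norm_nonneg _) hy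
  have hxn : ∀ s : ℕ, ‖x ^ p ^ s‖ ≤ 1 := fun s => by
    rw [norm_pow]
    exact pow_le_one₀ (norm_nonneg _) hx
  -- slow growth
  have key1 : ∀ s : ℕ, ‖x ^ p ^ s - y ^ p ^ s‖ ≤ (p : ℝ) ^ (-(μ + s * μ)) := by
    intro s
    induction s with
    | zero =>
      simp only [pow_zero, pow_one, Nat.cast_zero, zero_mul, add_zero]
      exact h.trans (Real.rpow_le_rpow_of_exponent_le hp1 (by linarith))
    | succ s ih =>
      rw [pow_succ, pow_mul, pow_mul]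
      refine PowC_step_exp p (hyn s) (by positivity) ih ?_ ?_
      · push_cast
        linarith
      · have : (0 : ℝ) ≤ s * μ := by positivity
        push_cast
        linarith
  -- fast growth
  have key2 : ∀ t : ℕ, ‖x ^ p ^ (s₁ + t) - y ^ p ^ (s₁ + t)‖ ≤ (p : ℝ) ^ (-((t : ℝ) + 1)) := by
    intro t
    induction t with
    | zero =>
      refine (key1 s₁).trans (Real.rpow_le_rpow_of_exponent_le hp1 ?_)
      simp only [Nat.cast_zero]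
      linarith
    | succ t ih =>
      rw [← add_assoc, pow_succ, pow_mul, pow_mul]
      refine PowC_step_exp p (hyn _) (by positivity) ih ?_ ?_
      · push_cast
        linarith
      · have : (0 : ℝ) ≤ t := by positivity
        push_cast
        linarith
  rcases le_total s₁ s with hs | hs
  · obtain ⟨t, rfl⟩ := Nat.exists_eq_add_of_le hs
    refine (key2 t).trans (Real.rpow_le_rpow_of_exponent_le hp1 ?_)
    push_cast
    linarith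
  · have h1 : ‖x ^ p ^ s - y ^ p ^ s‖ ≤ 1 :=
      (PowC_sub_le _ _).trans (max_le (hxn s) (hyn s))
    refine h1.trans (Real.one_le_rpow hp1 ?_)
    have : (s : ℝ) ≤ s₁ := by exact_mod_cast hs
    linarith

end MP4270
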