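import Pool.Agent.Lib_MP_4270a5_nt.FrobG
import Pool.Agent.Lib_MP_4270a5_nt.Metric
import Pool.Agent.Lib_MP_4270a5_nt.PowC

open Polynomial IntermediateField

namespace MP4270

/-- `‖b‖ ≤ 1` if `‖a‖ ≤ 1` and `‖a - b‖ ≤ 1`. -/
private theorem bprop_norm {p : ℕ} [Fact p.Prime] {a b : PadicAlgCl p} (ha : ‖a‖ ≤ 1) (hab : ‖a - b‖ ≤ 1) :
    ‖b‖ ≤ 1 := by
  have h := IsUltrametricDist.norm_add_le_max a (-(a - b))
  rw [norm_neg, ← sub_eq_add_neg, sub_sub_cancel] at h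
  exact h.trans (max_le ha hab)

/-- the local estimate -/
private theorem bprop_local (p : ℕ) [Fact p.Prime] (δ : ℝ) (hδ : 0 < δ) (s₀ : ℕ)
    (hs₀ : ∀ (x y : PadicAlgCl p) (s : ℕ),
      ‖x‖ ≤ 1 → ‖y‖ ≤ 1 → ‖x - y‖ ≤ (p : ℝ) ^ (-δ) →
        ‖x ^ p ^ s - y ^ p ^ s‖ ≤ (p : ℝ) ^ (-((s : ℝ) - s₀)))
    (Q : ℕ) (s : ℕ) (a b : PadicAlgCl p) (ha0 : a ≠ 0) (hb0 : b ≠ 0)
    (h1 : ‖a‖ ≤ 1 → ‖a ^ Q - b‖ ≤ (p : ℝ) ^ (-δ))
    (h2 : ‖a⁻¹‖ ≤ 1 → ‖a⁻¹ ^ Q - b⁻¹‖ ≤ (p : ℝ) ^ (-δ)) :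
    ‖(a ^ Q) ^ p ^ s - b ^ p ^ s‖ ≤ (p : ℝ) ^ (-((s : ℝ) - s₀)) *
      (max 1 ‖(a ^ Q) ^ p ^ s‖ * max 1 ‖b ^ p ^ s‖) := by
  have hp1 : (1 : ℝ) ≤ p := by exact_mod_cast (Fact.out : p.Prime).one_lt.le
  have hpδ : (p : ℝ) ^ (-δ) ≤ 1 := Real.rpow_le_one_of_one_le_of_nonpos hp1 (by linarith)
  have hp0 : (0 : ℝ) < (p : ℝ) ^ (-((s : ℝ) - s₀)) := Real.rpow_pos_of_pos (by linarith) _
  rcases le_total ‖a‖ 1 with h | h
  · have e1 := h1 h
    have hq : ‖a ^ Q‖ ≤ 1 := by rw [norm_pow]; exact pow_le_one₀ (norm_nonneg _) h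
    have hb : ‖b‖ ≤ 1 := bprop_norm hq (e1.trans hpδ)
    refine (hs₀ _ _ s hq hb e1).trans ?_
    refine le_mul_of_one_le_right hp0.le ?_
    exact one_le_mul_of_one_le_of_one_le (le_max_left _ _) (le_max_left _ _)
  · have h' : ‖a⁻¹‖ ≤ 1 := by rw [norm_inv]; exact inv_le_one_of_one_le₀ h
    have e1 := h2 h'
    have hq : ‖a⁻¹ ^ Q‖ ≤ 1 := by rw [norm_pow]; exact pow_le_one₀ (norm_nonneg _) h'
    have hb : ‖b⁻¹‖ ≤ 1 := bprop_norm hq (e1.trans hpδ)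
    have e2 := hs₀ _ _ s hq hb e1
    set A := (a ^ Q) ^ p ^ s with hA
    set B := b ^ p ^ s with hB
    have hA0 : A ≠ 0 := pow_ne_zero _ (pow_ne_zero _ ha0)
    have hB0 : B ≠ 0 := pow_ne_zero _ hb0
    have e3 : (a⁻¹ ^ Q) ^ p ^ s = A⁻¹ := by rw [hA, inv_pow, inv_pow]
    have e4 : b⁻¹ ^ p ^ s = B⁻¹ := by rw [hB, inv_pow]
    rw [e3, e4] at e2
    have e5 : A - B = (B⁻¹ - A⁻¹) * (A * B) := by field_simp
    rw [e5, norm_mul, norm_mul, norm_sub_rev]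
    refine mul_le_mul e2 ?_ (by positivity) hp0.le
    exact mul_le_mul (le_max_right _ _) (le_max_right _ _) (norm_nonneg _) (by positivity)

/-- the elements of the Galois group of `M` which fix `E` -/
private theorem bprop_card (E M : IntermediateField ℚ Qb) [FiniteDimensional ℚ M] [Normal ℚ M] (hEM : E ≤ M) :
    ∃ T : Finset (M ≃ₐ[ℚ] M), T.card * Module.finrank ℚ E = Module.finrank ℚ M ∧
      ∀ τ ∈ T, ∀ x : M, (x : Qb) ∈ E → τ x = x := by
  classical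
  have : IsGalois ℚ M := ⟨⟩
  let E' : IntermediateField ℚ M := IntermediateField.restrict hEM
  have : Fintype (M ≃ₐ[ℚ] M) := Fintype.ofFinite _
  refine ⟨Finset.univ.filter (fun τ => τ ∈ E'.fixingSubgroup), ?_, ?_⟩
  · have h1 : (Finset.univ.filter (fun τ => τ ∈ E'.fixingSubgroup)).card = Nat.card E'.fixingSubgroup := by
      rw [Nat.card_eq_fintype_card, Fintype.card_subtype]
    have h2 := IsGalois.card_fixingSubgroup_eq_finrank E'
    have h3 : Module.finrank ℚ E' = Module.finrank ℚ E :=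
      (IntermediateField.restrictAlgEquiv hEM).toLinearEquiv.finrank_eq.symm
    rw [h1, h2, ← h3, mul_comm]
    exact Module.finrank_mul_finrank ℚ E' M
  · intro τ hτ x hx
    rw [Finset.mem_filter] at hτ
    have := (IntermediateField.mem_fixingSubgroup_iff _ _).1 hτ.2 x
      ((IntermediateField.mem_restrict hEM x).2 hx)
    exact this

/-- THE FIELDS `E(μ_m)`, `p ∤ m` (method of Amoroso and Dvornicich). `Q` from `frob_global`, `δ = 1/d`, `s₀` from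
`pow_contract`, `s = s₀ + 2 d`; `A = x^(Q p^s)`, `B = (φ x)^(p^s)`; in a normal `M` which contains `E(μ_m)` let `T` be the set of
elements which fix `E`: `[M:ℚ] = d |T|`. For `σ` over `E`: `σ φ x = φ σ x` (`ab_comm`), so with `y = σ x`: if `‖jj y‖ ≤ 1` then
`‖y^Q - φ y‖ ≤ p^(-1/d)` and `‖σA - σB‖ ≤ p^(-(s-s₀))`; if `‖jj y‖ > 1` use `y⁻¹` (note `‖jj φ y‖ > 1` too, because
`‖y^(-Q) - φ y⁻¹‖ < 1`...; `‖σA - σB‖ ≤ p^(-(s-s₀)) ‖σA‖ ‖σB‖`). If `A ≠ B`, `metric_ineq` gives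
`(s - s₀) log p / d ≤ log 2 + (Q+1) p^s hW x`, so `hW x ≥ log 2/((Q+1) p^s)`. If `A = B` then `Q p^s hW x = p^s hW x`, `hW x = 0`,
`hW_kronecker`. -/
theorem bprop (E : IntermediateField ℚ Qb) [FiniteDimensional ℚ E] (p : ℕ) [Fact p.Prime] :
    ∃ c : ℝ, 0 < c ∧ ∀ m : ℕ, 0 < m → m.Coprime p → ∀ x ∈ E ⊔ adjoin ℚ {x : Qb | x ^ m = 1}, x ≠ 0 →
      hW x < c → ∃ N : ℕ, 0 < N ∧ x ^ N = 1 := by
  classical
  obtain ⟨Q, f, hQ2, hQf, hfrob⟩ := frob_global E p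
  have hd : 0 < Module.finrank ℚ E := Module.finrank_pos
  set d := Module.finrank ℚ E with hddef
  have hdR : (0 : ℝ) < d := by exact_mod_cast hd
  obtain ⟨s₀, hs₀⟩ := pow_contract p (1 / (d : ℝ)) (by positivity)
  have hp2 : 2 ≤ p := (Fact.out : p.Prime).two_le
  have hpR : (2 : ℝ) ≤ p := by exact_mod_cast hp2
  set s := s₀ + 2 * d with hs
  have hlog2 : 0 < Real.log 2 := Real.log_pos (by norm_num)
  have hden : (0 : ℝ) < ((Q : ℝ) + 1) * (p : ℝ) ^ s := by positivity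
  refine ⟨Real.log 2 / (((Q : ℝ) + 1) * (p : ℝ) ^ s), by positivity, ?_⟩
  intro m hm hmp x hx hx0 hlt
  obtain ⟨φ, hφE, hφ⟩ := hfrob m hm hmp
  by_cases hAB : (x ^ Q) ^ p ^ s = (φ x) ^ p ^ s
  · -- equality
    have h1 : hW ((x ^ Q) ^ p ^ s) = (p ^ s : ℕ) * ((Q : ℕ) * hW x) := by rw [hW_pow, hW_pow]
    have h2 : hW ((φ x) ^ p ^ s) = (p ^ s : ℕ) * hW x := by rw [hW_pow, hW_conj]
    rw [hAB, h2] at h1
    have hps : ((p ^ s : ℕ) : ℝ) ≠ 0 := by positivity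
    have h3 : hW x = (Q : ℕ) * hW x := mul_left_cancel₀ hps h1
    have hQR : (2 : ℝ) ≤ Q := by exact_mod_cast hQ2
    have h4 : hW x = 0 := by
      have h5 : ((Q : ℝ) - 1) * hW x = 0 := by linarith
      rcases mul_eq_zero.1 h5 with h | h
      · linarith
      · exact h
    exact hW_kronecker hx0 h4
  · exfalso
    obtain ⟨M, hMfd, hMn, hEM, hMX⟩ := exists_normal E {x, φ x}
    have hxM : x ∈ M := hMX x (by simp)
    have hφxM : φ x ∈ M := hMX (φ x) (by simp)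
    obtain ⟨T, hTc, hT⟩ := bprop_card E M hEM
    have key := metric_ineq p M (A := (x ^ Q) ^ p ^ s) (B := (φ x) ^ p ^ s)
      (pow_mem (pow_mem hxM _) _) (pow_mem hφxM _) hAB T ((s : ℝ) - s₀) ?_
    · have h1 : hW ((x ^ Q) ^ p ^ s) = (p ^ s : ℕ) * ((Q : ℕ) * hW x) := by rw [hW_pow, hW_pow]
      have h2 : hW ((φ x) ^ p ^ s) = (p ^ s : ℕ) * hW x := by rw [hW_pow, hW_conj]
      rw [h1, h2] at key
      have hTpos : 0 < T.card := by
        rcases Nat.eq_zero_or_pos T.card with h | h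
        · rw [h, zero_mul] at hTc
          exact absurd hTc.symm (Module.finrank_pos (R := ℚ) (M := M)).ne'
        · exact h
      have hTR : (0 : ℝ) < T.card := by exact_mod_cast hTpos
      have hM : (Module.finrank ℚ M : ℝ) = T.card * d := by exact_mod_cast hTc.symm
      rw [hM] at key
      have hss : (s : ℝ) - s₀ = 2 * d := by rw [hs]; push_cast; ring
      rw [hss] at key
      have key2 : (T.card : ℝ) * d * (2 * Real.log p) ≤ (T.card : ℝ) * d *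
          (Real.log 2 + (p ^ s : ℕ) * ((Q : ℕ) * hW x) + (p ^ s : ℕ) * hW x) := by
        calc (T.card : ℝ) * d * (2 * Real.log p) = (T.card : ℝ) * (2 * d * Real.log p) := by ring
          _ ≤ _ := key
      have key3 := le_of_mul_le_mul_left key2 (by positivity)
      have hlogp : Real.log 2 ≤ Real.log p := Real.log_le_log (by norm_num) hpR
      rw [lt_div_iff₀ hden] at hlt
      push_cast at key3
      nlinarith
    · intro σ hσ
      have hσE : ∀ z ∈ E, σ z = z := by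
        intro z hz
        have h1 := hT _ hσ ⟨z, hEM hz⟩ hz
        have h2 := AlgEquiv.restrictNormal_commutes σ M ⟨z, hEM hz⟩
        rw [h1] at h2
        exact h2.symm
      have hcomm : σ (φ x) = φ (σ x) := ab_comm E hm σ φ hσE hφE hx
      have hy : σ x ∈ E ⊔ adjoin ℚ {x : Qb | x ^ m = 1} := cyc_stable E σ hσE hx
      have hy' : (σ x)⁻¹ ∈ E ⊔ adjoin ℚ {x : Qb | x ^ m = 1} := inv_mem hy
      have hσx0 : σ x ≠ 0 := by simpa using hx0
      have hφσ0 : φ (σ x) ≠ 0 := by simpa using hσx0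
      have e1 := bprop_local p (1 / (d : ℝ)) (by positivity) s₀ hs₀ Q s (jj p (σ x)) (jj p (φ (σ x)))
        (by simpa using hσx0) (by simpa using hφσ0)
        (fun h => by have := hφ _ hy h; rwa [neg_div] at this)
        (fun h => by
          have h' : ‖jj p (σ x)⁻¹‖ ≤ 1 := by rw [map_inv₀]; exact h
          have := hφ _ hy' h'
          rwa [neg_div, map_inv₀, map_inv₀, map_inv₀] at this)
      simpa only [map_pow, hcomm] using e1

end MP4270
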