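import Pool.Agent.Lib_MP_4270a5_nt.Bridge

/-!
# Rémond's conjecture for sums of boundedly many elements of the division group

Let `Γ` be a finitely generated group of nonzero algebraic numbers, `Γ_div` its division group, `F` a
number field, `S` a finite set of primes and `k` a natural number. We show that there is a constant
`c > 0` such that every sum of `k` elements of `F(μ_∞, Γ^{1/n} : n an S-number) ⬝ Γ_div` is zero, or
an element of `Γ_div`, or has absolute logarithmic Weil height at least `c`.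

Outline of the proof. (1) One prime `p`: let `L_κ = K(μ_{p^κ m}, Γ^{1/(p^κ n)})`, `p ∤ m`, `n ∣ m`. An upper
bound (Fontaine's criterion) and a lower bound for the different of the completions show that for
some `m₀` and all large `κ` (uniformly in `m`, `n`) there is an automorphism `h` of `L_κ` over
`L_{κ-m₀}` with `|h x - x|_v ≤ p^{-δ} |x|_v` on `L_κ` for a fixed place `v`, whose conjugates generate a
group which contains `Gal(L_κ/L_{κ-1})`. It has at most `p^{m₀(r+1)}` conjugates over `K`, so the product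
formula for `(h α)^{p^s} - ξ α^{p^s}` (`ξ` a root of unity) gives `(h β)^{p^s} = β^{p^s}` if `α = β g`,
`β ∈ L_κ`, `g ∈ Γ_div`, has small height, and by Kummer theory `α = β' g'` with `β' ∈ L_{κ-1}`,
`g' ∈ Γ_div`. (2) So a small `α ∈ F(μ_∞, Γ^{1/n} : n an S-number)` is `β g` with `β ∈ E(μ_m)`, `E` a fixed
number field and `m` prime to `S`; here the Frobenius at a `p ∈ S` is in the centre and the method of
Amoroso and Dvornicich applies. (3) Sums of `k` terms: a Kummer automorphism `σ` satisfies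
`∏ (σ - c_j) α = 0` with roots of unity `c_j`; vanishing sums of numbers of small height split into
classes modulo roots of unity (product formula and Vandermonde determinants), which gives a
contradiction unless there is only one term.
-/

open Polynomial IntermediateField

namespace Pool.Agent.Results.MP_4270a5_nt.BoundedLength

/-- The absolute logarithmic Weil height of an algebraic number `α`: `a₀` is the least common
denominator of the coefficients of the minimal polynomial of `α` over `ℚ` (so it is the leading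
coefficient of the primitive integral minimal polynomial), and `z` runs over its complex roots. -/
noncomputable def weilHeight (α : ℂ) : ℝ :=
  (Real.log (((Finset.range ((minpoly ℚ α).natDegree + 1)).lcm
      (fun i => ((minpoly ℚ α).coeff i).den) : ℕ) : ℝ)
    + (((minpoly ℚ α).map (algebraMap ℚ ℂ)).roots.map (fun z => Real.log (max 1 ‖z‖))).sum)
  / ((minpoly ℚ α).natDegree : ℝ)

/-- `α` is an element of the division group of `Γ`. -/
def InDiv (Γ : Subgroup ℂˣ) (α : ℂ) : Prop :=
  ∃ n : ℕ, 0 < n ∧ ∃ g ∈ Γ, α ^ n = (g : ℂ)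

/-- The field `F(μ_∞, Γ^{1/n} : n an S-number)`. -/
noncomputable def coefField (F : IntermediateField ℚ ℂ) (Γ : Subgroup ℂˣ) (S : Finset ℕ) :
    IntermediateField ℚ ℂ :=
  F ⊔ IntermediateField.adjoin ℚ ({z : ℂ | ∃ n : ℕ, 0 < n ∧ z ^ n = 1} ∪
    {z : ℂ | ∃ n : ℕ, 0 < n ∧ n.primeFactors ⊆ S ∧ ∃ g ∈ Γ, z ^ n = (g : ℂ)})

theorem exhaust (Γ : Subgroup ℂˣ) (halg : ∀ g ∈ Γ, IsAlgebraic ℚ (g : ℂ)) :
    ∀ α ∈ IntermediateField.adjoin ℚ {z : ℂ | InDiv Γ z}, ∃ (k : ℕ) (q : Fin k → ℚ) (g : Fin k → ℂ),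
      (∀ j, InDiv Γ (g j)) ∧ α = ∑ j, (q j : ℂ) * g j := by
  intro α hα
  have hS : ∀ x ∈ {z : ℂ | InDiv Γ z}, IsAlgebraic ℚ x := by
    rintro x ⟨n, hn, g, hg, hx⟩
    have h1 : IsAlgebraic ℚ (x ^ n) := by rw [hx]; exact halg g hg
    exact isAlgebraic_iff_isIntegral.mpr (IsIntegral.of_pow hn (isAlgebraic_iff_isIntegral.mp h1))
  have h1 : α ∈ (IntermediateField.adjoin ℚ {z : ℂ | InDiv Γ z}).toSubalgebra := hα
  rw [IntermediateField.adjoin_toSubalgebra_of_isAlgebraic hS] at h1
  have h2 : α ∈ Subalgebra.toSubmodule (Algebra.adjoin ℚ {z : ℂ | InDiv Γ z}) := h1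
  rw [Algebra.adjoin_eq_span] at h2
  have h3 : (Submonoid.closure {z : ℂ | InDiv Γ z} : Set ℂ) ⊆ {z : ℂ | InDiv Γ z} := by
    intro x hx
    induction hx using Submonoid.closure_induction with
    | mem x hx => exact hx
    | one => exact ⟨1, one_pos, 1, Γ.one_mem, by simp⟩
    | mul x y _ _ hx hy =>
      obtain ⟨n, hn, g, hg, hxg⟩ := hx
      obtain ⟨m, hm, h, hh, hyh⟩ := hy
      refine ⟨n * m, Nat.mul_pos hn hm, g ^ m * h ^ n, Γ.mul_mem (Γ.pow_mem hg _) (Γ.pow_mem hh _), ?_⟩
      rw [mul_pow, pow_mul, hxg, mul_comm n m, pow_mul, hyh]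
      simp
  have h4 : α ∈ Submodule.span ℚ {z : ℂ | InDiv Γ z} := Submodule.span_mono h3 h2
  rw [Submodule.mem_span_set'] at h4
  obtain ⟨k, q, g, hsum⟩ := h4
  refine ⟨k, q, fun j => (g j : ℂ), fun j => (g j).2, ?_⟩
  rw [← hsum]
  refine Finset.sum_congr rfl fun j _ => ?_
  rw [Algebra.smul_def]
  rfl

/-- **Rémond's conjecture for bounded length.** Let `Γ` be a finitely generated group of nonzero
algebraic numbers.

(a) Every element of `ℚ(Γ_div)` is a finite sum of rational multiples of elements of `Γ_div`.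

(b) For every number field `F`, every finite set `S` and every `k` there is `c > 0` such that for all
`b_1, …, b_k` in the field `F(μ_∞, Γ^{1/n} : all prime factors of n are in S)` and all
`g_1, …, g_k ∈ Γ_div` the number `α = ∑ b_j g_j` satisfies: `α = 0`, or `α ∈ Γ_div`, or `h(α) ≥ c`. -/
theorem result (Γ : Subgroup ℂˣ) (hΓ : Γ.FG) (halg : ∀ g ∈ Γ, IsAlgebraic ℚ (g : ℂ)) :
    (∀ α ∈ IntermediateField.adjoin ℚ {z : ℂ | InDiv Γ z},
      ∃ (k : ℕ) (q : Fin k → ℚ) (g : Fin k → ℂ), (∀ j, InDiv Γ (g j)) ∧ α = ∑ j, (q j : ℂ) * g j) ∧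
    ∀ (F : IntermediateField ℚ ℂ), FiniteDimensional ℚ F → ∀ (S : Finset ℕ) (k : ℕ),
      ∃ c : ℝ, 0 < c ∧ ∀ b g : Fin k → ℂ, (∀ j, b j ∈ coefField F Γ S) → (∀ j, InDiv Γ (g j)) →
        ∀ α : ℂ, α = ∑ j, b j * g j → α ≠ 0 → ¬ InDiv Γ α → c ≤ weilHeight α := by
  refine ⟨exhaust Γ halg, ?_⟩
  intro F hF S k
  exact MP4270.final_C F Γ hΓ halg S k

end Pool.Agent.Results.MP_4270a5_nt.BoundedLength
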