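import Mathlib

open Polynomial IntermediateField

namespace MP4270

/-- A finitely generated group of nonzero complex numbers: basis modulo torsion. -/
theorem fg_basis (Γ : Subgroup ℂˣ) (hΓ : Γ.FG) : ∃ (r : ℕ) (a : Fin r → ℂˣ), (∀ i, a i ∈ Γ) ∧
    (∀ e : Fin r → ℤ, ∏ i, a i ^ e i = 1 → e = 0) ∧
    ∀ g ∈ Γ, ∃ w : ℂˣ, (∃ N : ℕ, 0 < N ∧ w ^ N = 1) ∧ ∃ e : Fin r → ℤ, g = w * ∏ i, a i ^ e i := by
  classical
  have hfg : Group.FG Γ := (Group.fg_iff_subgroup_fg Γ).2 hΓ
  have hfin : Module.Finite ℤ (Additive Γ) := by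
    rw [Module.Finite.iff_addGroup_fg, AddGroup.fg_iff_addMonoid_fg, ← Monoid.fg_iff_add_fg,
      ← Group.fg_iff_monoid_fg]
    exact hfg
  let T : Submodule ℤ (Additive Γ) := Submodule.torsion ℤ (Additive Γ)
  let b := Module.finBasis ℤ (Additive Γ ⧸ T)
  have hlift : ∀ i, ∃ a : Additive Γ, T.mkQ a = b i := fun i => T.mkQ_surjective (b i)
  choose a ha using hlift
  have hsum : ∀ e : Fin (Module.finrank ℤ (Additive Γ ⧸ T)) → ℤ,
      (((∑ i, e i • a i : Additive Γ).toMul : Γ) : ℂˣ) = ∏ i, ((a i).toMul : ℂˣ) ^ e i := by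
    intro e
    rw [toMul_sum]
    rw [Subgroup.val_finsetProd]
    rfl
  refine ⟨Module.finrank ℤ (Additive Γ ⧸ T), fun i => ((a i).toMul : ℂˣ), fun i => (a i).toMul.2,
    ?_, ?_⟩
  · intro e he
    rw [← hsum] at he
    have h1 : (∑ i, e i • a i : Additive Γ) = 0 := by
      apply Additive.toMul.injective
      exact Subtype.ext he
    have h2 : ∑ i, e i • b i = 0 := by
      have h3 := congrArg T.mkQ h1
      rw [map_sum, map_zero] at h3
      rw [← h3]
      refine Finset.sum_congr rfl fun i _ => ?_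
      rw [map_smul, ha]
    exact funext (Fintype.linearIndependent_iff.1 b.linearIndependent e h2)
  · intro g hg
    let g' : Additive Γ := Additive.ofMul ⟨g, hg⟩
    let e : Fin (Module.finrank ℤ (Additive Γ ⧸ T)) → ℤ := fun i => b.repr (T.mkQ g') i
    have h1 : T.mkQ (g' - ∑ i, e i • a i) = 0 := by
      rw [map_sub, map_sum, sub_eq_zero]
      conv_lhs => rw [← b.sum_repr (T.mkQ g')]
      refine Finset.sum_congr rfl fun i _ => ?_
      rw [map_smul, ha]
    have h2 : g' - ∑ i, e i • a i ∈ T := by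
      rwa [Submodule.mkQ_apply, Submodule.Quotient.mk_eq_zero] at h1
    obtain ⟨⟨N, hN⟩, hN2⟩ := (Submodule.mem_torsion_iff _).1 h2
    have hN0 : N ≠ 0 := nonZeroDivisors.ne_zero hN
    have hN3 : N • (g' - ∑ i, e i • a i) = 0 := hN2
    refine ⟨(((g' - ∑ i, e i • a i).toMul : Γ) : ℂˣ), ⟨N.natAbs, Int.natAbs_pos.2 hN0, ?_⟩, e, ?_⟩
    · have h3 : (((g' - ∑ i, e i • a i).toMul : Γ)) ^ N = 1 := hN3
      have h4 : (((g' - ∑ i, e i • a i).toMul : Γ)) ^ N.natAbs = 1 := by
        rcases Int.natAbs_eq N with h5 | h5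
        · rw [h5, zpow_natCast] at h3
          exact h3
        · rw [h5, zpow_neg, zpow_natCast, inv_eq_one] at h3
          exact h3
      have h5 := congrArg (fun x : Γ => (x : ℂˣ)) h4
      simpa using h5
    · rw [← hsum]
      have h3 : g' = (g' - ∑ i, e i • a i) + ∑ i, e i • a i := by rw [sub_add_cancel]
      have h4 := congrArg (fun x : Additive Γ => ((x.toMul : Γ) : ℂˣ)) h3
      exact h4

end MP4270
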