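import Pool.Agent.Lib_MP_4270a5_nt.FinalK
import Pool.Agent.Lib_MP_4270a5_nt.FgB

open Polynomial IntermediateField

namespace MP4270

/-- `ii` as an algebra homomorphism. -/
noncomputable def iiA : Qb →ₐ[ℚ] ℂ := IsAlgClosed.lift

theorem iiA_apply (x : Qb) : iiA x = ii x := rfl

theorem exists_ii (z : ℂ) (hz : IsAlgebraic ℚ z) : ∃ x : Qb, ii x = z := by
  have hint : IsIntegral ℚ z := hz.isIntegral
  have hspl : ((minpoly ℚ z).map (algebraMap ℚ Qb)).Splits := IsAlgClosed.splits _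
  have h1 := hspl.image_rootSet iiA
  have h2 : z ∈ (minpoly ℚ z).rootSet ℂ := by
    rw [Polynomial.mem_rootSet]
    exact ⟨minpoly.ne_zero hint, minpoly.aeval ℚ z⟩
  rw [← h1] at h2
  obtain ⟨x, _, hx⟩ := h2
  exact ⟨x, hx⟩

theorem minpoly_ii (x : Qb) : minpoly ℚ (ii x) = minpoly ℚ x :=
  minpoly.algHom_eq iiA (RingHom.injective _) x

theorem ii_inj {x y : Qb} (h : ii x = ii y) : x = y := RingHom.injective ii h

theorem root_ii (z : ℂ) (n : ℕ) (hn : 0 < n) (hz : z ^ n = 1) : ∃ x : Qb, x ^ n = 1 ∧ ii x = z := by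
  have halg : IsAlgebraic ℚ z := by
    refine ⟨X ^ n - 1, X_pow_sub_C_ne_zero hn 1, ?_⟩
    simp [hz]
  obtain ⟨x, hx⟩ := exists_ii z halg
  refine ⟨x, ?_, hx⟩
  apply ii_inj
  rw [map_pow, hx, hz, map_one]

theorem final_C (F : IntermediateField ℚ ℂ) [FiniteDimensional ℚ F] (Γ : Subgroup ℂˣ) (hΓ : Γ.FG)
    (halg : ∀ g ∈ Γ, IsAlgebraic ℚ (g : ℂ)) (S : Finset ℕ) (k : ℕ) :
    ∃ c : ℝ, 0 < c ∧ ∀ b g : Fin k → ℂ,
      (∀ j, b j ∈ F ⊔ IntermediateField.adjoin ℚ
          ({z : ℂ | ∃ n : ℕ, 0 < n ∧ z ^ n = 1} ∪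
            {z : ℂ | ∃ n : ℕ, 0 < n ∧ n.primeFactors ⊆ S ∧ ∃ γ ∈ Γ, z ^ n = (γ : ℂ)})) →
      (∀ j, ∃ n : ℕ, 0 < n ∧ ∃ γ ∈ Γ, g j ^ n = (γ : ℂ)) →
      ∀ α : ℂ, α = ∑ j, b j * g j → α ≠ 0 →
      (¬ ∃ n : ℕ, 0 < n ∧ ∃ γ ∈ Γ, α ^ n = (γ : ℂ)) →
      c ≤ (Real.log (((Finset.range ((minpoly ℚ α).natDegree + 1)).lcm
              (fun i => ((minpoly ℚ α).coeff i).den) : ℕ) : ℝ)
            + (((minpoly ℚ α).map (algebraMap ℚ ℂ)).roots.map
                (fun z => Real.log (max 1 ‖z‖))).sum)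
          / ((minpoly ℚ α).natDegree : ℝ) := by
  classical
  obtain ⟨r, a, haΓ, hind, hbas⟩ := fg_basis Γ hΓ
  have hex : ∀ i, ∃ x : Qb, ii x = (a i : ℂ) := fun i => exists_ii _ (halg _ (haΓ i))
  choose a' ha' using hex
  have ha0 : ∀ i, a' i ≠ 0 := by
    intro i h0
    have := ha' i
    rw [h0, map_zero] at this
    exact (a i).ne_zero this.symm
  -- the base field
  set F' : IntermediateField ℚ Qb := F.comap iiA with hF'
  have hF'fd : FiniteDimensional ℚ F' := by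
    let f : F' →ₗ[ℚ] F :=
      { toFun := fun x => ⟨iiA x, x.2⟩
        map_add' := fun x y => by
          apply Subtype.ext
          change iiA ((x : Qb) + y) = iiA x + iiA y
          exact map_add _ _ _
        map_smul' := fun q x => by
          apply Subtype.ext
          change iiA (q • (x : Qb)) = q • iiA x
          rw [Algebra.smul_def, Algebra.smul_def, map_mul, AlgHom.commutes] }
    refine FiniteDimensional.of_injective f ?_
    intro x y hxy
    apply Subtype.ext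
    have := congrArg Subtype.val hxy
    exact ii_inj this
  set K : IntermediateField ℚ Qb := F' ⊔ adjoin ℚ (Set.range a') with hK
  have hfd : FiniteDimensional ℚ K := by
    have h1 : Finite (Set.range a') := Set.finite_range a'
    have h2 : FiniteDimensional ℚ (adjoin ℚ (Set.range a')) :=
      IntermediateField.finiteDimensional_adjoin fun x _ => (Algebra.IsAlgebraic.isAlgebraic x).isIntegral
    exact IntermediateField.finiteDimensional_sup _ _
  have haK : ∀ i, a' i ∈ K := fun i =>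
    (le_sup_right : adjoin ℚ (Set.range a') ≤ _) (subset_adjoin _ _ (Set.mem_range_self i))
  have hprod : ∀ e : Fin r → ℤ, ii (∏ i, a' i ^ e i) = ((∏ i, a i ^ e i : ℂˣ) : ℂ) := by
    intro e
    rw [map_prod, Units.coe_prod]
    refine Finset.prod_congr rfl fun i _ => ?_
    rw [map_zpow₀, ha', Units.val_zpow_eq_zpow_val]
  have hind' : ∀ e : Fin r → ℤ, ∏ i, a' i ^ e i = 1 → e = 0 := by
    intro e he
    apply hind
    apply Units.ext
    rw [← hprod, he, map_one, Units.val_one]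
  set S' := S.filter Nat.Prime with hS'
  obtain ⟨c, hc, H⟩ := final_K K a' haK ha0 hind' S' (fun p hp => (Finset.mem_filter.mp hp).2) k
  refine ⟨c, hc, ?_⟩
  -- elements of `Γ`
  have hΓ2 : ∀ γ ∈ Γ, ∃ (N : ℕ) (w : ℂ) (e : Fin r → ℤ), 0 < N ∧ w ^ N = 1 ∧
      (γ : ℂ) = w * ii (∏ i, a' i ^ e i) := by
    intro γ hγ
    obtain ⟨w, ⟨N, hN, hw⟩, e, he⟩ := hbas γ hγ
    refine ⟨N, (w : ℂ), e, hN, ?_, ?_⟩
    · rw [← Units.val_pow_eq_pow_val, hw, Units.val_one]
    · rw [he, Units.val_mul, hprod]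
  -- the coefficient field
  have hcoef : F ⊔ IntermediateField.adjoin ℚ
          ({z : ℂ | ∃ n : ℕ, 0 < n ∧ z ^ n = 1} ∪
            {z : ℂ | ∃ n : ℕ, 0 < n ∧ n.primeFactors ⊆ S ∧ ∃ γ ∈ Γ, z ^ n = (γ : ℂ)}) ≤
      (FS K a' S').map iiA := by
    refine sup_le ?_ ?_
    · intro x hx
      have hxalg : IsAlgebraic ℚ x := by
        have h1 := Algebra.IsAlgebraic.isAlgebraic (R := ℚ) (⟨x, hx⟩ : F)
        have h2 : algebraMap F ℂ ⟨x, hx⟩ = x := rfl
        rw [← h2]
        exact h1.algebraMap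
      obtain ⟨x', hx'⟩ := exists_ii x hxalg
      refine ⟨x', K_le_FS K a' S' ((le_sup_left : F' ≤ K) ?_), hx'⟩
      change iiA x' ∈ F
      rw [iiA_apply, hx']
      exact hx
    · rw [adjoin_le_iff]
      rintro z (⟨n, hn, hz⟩ | ⟨n, hn, hnS, γ, hγ, hzγ⟩)
      · obtain ⟨x, hx, hxz⟩ := root_ii z n hn hz
        exact ⟨x, root_mem_FS K a' S' hn hx, hxz⟩
      · have hnS' : n.primeFactors ⊆ S' := by
          intro q hq
          exact Finset.mem_filter.mpr ⟨hnS hq, Nat.prime_of_mem_primeFactors hq⟩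
        obtain ⟨N, w, e, hN, hwN, hge⟩ := hΓ2 γ hγ
        have hβex : ∀ i, ∃ β : Qb, β ^ n = a' i := fun i => IsAlgClosed.exists_pow_nat_eq (a' i) hn
        choose β hβ using hβex
        have hβ0 : ∀ i, β i ≠ 0 := by
          intro i h0
          apply ha0 i
          rw [← hβ i, h0, zero_pow hn.ne']
        set y : Qb := ∏ i, β i ^ e i with hy
        have hy0 : y ≠ 0 := Finset.prod_ne_zero_iff.mpr fun i _ => zpow_ne_zero _ (hβ0 i)
        have hyn : y ^ n = ∏ i, a' i ^ e i := by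
          rw [hy, ← Finset.prod_pow]
          refine Finset.prod_congr rfl fun i _ => ?_
          rw [← hβ i, ← zpow_natCast, ← zpow_mul, mul_comm, zpow_mul, zpow_natCast]
        have hiy : ii y ≠ 0 := by
          intro h0
          apply hy0
          apply ii_inj
          rw [h0, map_zero]
        have hzn : (z / ii y) ^ (n * N) = 1 := by
          rw [pow_mul, div_pow, ← map_pow, hyn, hzγ, hge]
          have h2 : ii (∏ i, a' i ^ e i) ≠ 0 := by
            rw [← hyn, map_pow]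
            exact pow_ne_zero _ hiy
          rw [mul_div_assoc, div_self h2, mul_one, hwN]
        obtain ⟨x, hx1, hx2⟩ := root_ii (z / ii y) (n * N) (Nat.mul_pos hn hN) hzn
        refine ⟨x * y, mul_mem (root_mem_FS K a' S' (Nat.mul_pos hn hN) hx1) ?_, ?_⟩
        · exact prod_mem fun i _ => zpow_mem (kum_mem_FS K a' S' hn hnS' (hβ i)) _
        · change ii (x * y) = z
          rw [map_mul, hx2, div_mul_cancel₀ _ hiy]
  intro b g hb hg α hα hα0 hαΓ
  have hb' : ∀ j, ∃ x ∈ FS K a' S', ii x = b j := by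
    intro j
    obtain ⟨x, hx, hxz⟩ := hcoef (hb j)
    exact ⟨x, hx, hxz⟩
  choose b' hb'F hb'e using hb'
  have hg' : ∀ j, ∃ x : Qb, DivG a' x ∧ ii x = g j := by
    intro j
    obtain ⟨n, hn, γ, hγ, hgγ⟩ := hg j
    have hgalg : IsAlgebraic ℚ (g j) := by
      have h1 : IsAlgebraic ℚ ((g j) ^ n) := by rw [hgγ]; exact halg γ hγ
      exact (isAlgebraic_iff_isIntegral.mpr (IsIntegral.of_pow hn (isAlgebraic_iff_isIntegral.mp h1)))
    obtain ⟨x, hx⟩ := exists_ii _ hgalg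
    obtain ⟨N, w, e, hN, hwN, hge⟩ := hΓ2 γ hγ
    refine ⟨x, ⟨n * N, Nat.mul_pos hn hN, fun i => e i * N, ?_⟩, hx⟩
    apply ii_inj
    rw [pow_mul, map_pow, map_pow, hx, hgγ, hge, mul_pow, hwN, one_mul, ← map_pow]
    congr 1
    rw [← Finset.prod_pow]
    refine Finset.prod_congr rfl fun i _ => ?_
    rw [zpow_mul, zpow_natCast]
  choose g' hg'D hg'e using hg'
  set x : Qb := ∑ j, b' j * g' j with hx
  have hxα : ii x = α := by
    rw [hx, map_sum, hα]
    refine Finset.sum_congr rfl fun j _ => ?_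
    rw [map_mul, hb'e, hg'e]
  have hx0 : x ≠ 0 := by
    intro h0
    rw [h0, map_zero] at hxα
    exact hα0 hxα.symm
  have hxD : ¬ DivG a' x := by
    rintro ⟨N, hN, e, he⟩
    apply hαΓ
    refine ⟨N, hN, ∏ i, a i ^ e i, Subgroup.prod_mem _ fun i _ => Subgroup.zpow_mem _ (haΓ i) _, ?_⟩
    rw [← hprod, ← he, map_pow, hxα]
  have := H b' g' hb'F hg'D hx0 hxD
  rw [← hx] at this
  unfold hW dn at this
  rw [← minpoly_ii, hxα] at this
  exact this

end MP4270
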