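import Pool.Agent.Lib_MP_4270a5_nt.Bridge

open Polynomial IntermediateField

namespace MP4270

/-- Splitting off the `S`-part of a number. -/
theorem split_S (S : Finset ℕ) (hS : ∀ p ∈ S, p.Prime) {M : ℕ} (hM : 0 < M) :
    ∃ N m : ℕ, M = N * m ∧ 0 < N ∧ 0 < m ∧ N.primeFactors ⊆ S ∧ (∀ p ∈ S, ¬ p ∣ m) := by
  classical
  set M₁ : ℕ := ∏ p ∈ S, p ^ M.factorization p with hM₁def
  have hM₁ : 0 < M₁ := Finset.prod_pos fun p hp => pow_pos (hS p hp).pos _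
  have hfac : ∀ q, q.Prime → M₁.factorization q = if q ∈ S then M.factorization q else 0 := by
    intro q hq
    rw [hM₁def, Nat.factorization_prod (fun p hp => (pow_pos (hS p hp).pos _).ne')]
    rw [Finsupp.finsetSum_apply]
    rw [Finset.sum_congr rfl (fun p hp => by
      rw [Nat.Prime.factorization_pow (hS p hp)])]
    simp only [Finsupp.single_apply]
    rw [Finset.sum_ite_eq']
  have hdvd : M₁ ∣ M := by
    rw [← Nat.factorization_prime_le_iff_dvd hM₁.ne' hM.ne']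
    intro q hq
    rw [hfac q hq]
    split_ifs with h
    · exact le_refl _
    · exact Nat.zero_le _
  obtain ⟨M₂, hM₂e⟩ := hdvd
  have hM₂ : 0 < M₂ := by
    rcases Nat.eq_zero_or_pos M₂ with h | h
    · rw [h, mul_zero] at hM₂e
      exact absurd hM₂e hM.ne'
    · exact h
  refine ⟨M₁, M₂, hM₂e, hM₁, hM₂, ?_, ?_⟩
  · intro q hq
    have hq' := Nat.mem_primeFactors.mp hq
    by_contra hqS
    have h1 := hfac q hq'.1
    rw [if_neg hqS] at h1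
    have h2 := (Nat.factorization_eq_zero_iff M₁ q).mp h1
    rcases h2 with h2 | h2 | h2
    · exact h2 hq'.1
    · exact h2 hq'.2.1
    · exact hM₁.ne' h2
  · intro p hp hdvd
    have hpp := hS p hp
    have h1 : M.factorization p = M₁.factorization p + M₂.factorization p := by
      conv_lhs => rw [hM₂e]
      rw [Nat.factorization_mul hM₁.ne' hM₂.ne']
      rfl
    rw [hfac p hpp, if_pos hp] at h1
    have h2 : M₂.factorization p = 0 := by omega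
    rcases (Nat.factorization_eq_zero_iff M₂ p).mp h2 with h2 | h2 | h2
    · exact h2 hpp
    · exact h2 hdvd
    · exact hM₂.ne' h2

/-- Reduction of the exponents at the primes of `S`, all fields `Lf K a m n`. -/
theorem reduce_Q (K : IntermediateField ℚ Qb) [FiniteDimensional ℚ K] {r : ℕ} (a : Fin r → Qb)
    (ha : ∀ i, a i ∈ K) (ha0 : ∀ i, a i ≠ 0) (hind : ∀ e : Fin r → ℤ, ∏ i, a i ^ e i = 1 → e = 0)
    (S : Finset ℕ) (hS : ∀ p ∈ S, p.Prime) : ∃ N₀ : ℕ, 0 < N₀ ∧ N₀.primeFactors ⊆ S ∧ ∃ c : ℝ, 0 < c ∧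
      ∀ m n : ℕ, 0 < m → 0 < n → ∀ β ∈ Lf K a m n, β ≠ 0 → hW β < c →
        ∃ m' n' : ℕ, 0 < m' ∧ 0 < n' ∧ (∀ p ∈ S, ¬ p ∣ n') ∧
          ∃ β' ∈ Lf K a (N₀ * m') (N₀ * n'), β' ≠ 0 ∧ ∃ g : Qb, g ≠ 0 ∧ DivG a g ∧ β = β' * g := by
  obtain ⟨N₀, hN₀, hN₀S, c, hc, H⟩ := several_primes K a ha ha0 hind S hS
  refine ⟨N₀, hN₀, hN₀S, c, hc, ?_⟩
  intro m n hm hn β hβ hβ0 hlt
  obtain ⟨N, m₁, hNm, hN, hm₁, hNS, hm₁S⟩ := split_S S hS (Nat.mul_pos hm hn)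
  obtain ⟨N', n₁, hNn, hN', hn₁, hN'S, hn₁S⟩ := split_S S hS hn
  -- `N' ∣ N`, `n₁ ∣ m₁`
  have hcop : ∀ {x y : ℕ}, 0 < x → x.primeFactors ⊆ S → (∀ p ∈ S, ¬ p ∣ y) → Nat.Coprime x y := by
    intro x y hx hxS hyS
    refine Nat.coprime_of_dvd ?_
    intro q hq hqx hqy
    exact hyS q (hxS (Nat.mem_primeFactors.mpr ⟨hq, hqx, hx.ne'⟩)) hqy
  have hdvd1 : n ∣ N * m₁ := by rw [← hNm]; exact Dvd.intro_left _ rfl
  have hN'N : N' ∣ N := by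
    have h1 : N' ∣ N * m₁ := (Dvd.intro _ hNn.symm).trans hdvd1
    exact (hcop hN' hN'S hm₁S).dvd_of_dvd_mul_right h1
  have hn₁m₁ : n₁ ∣ m₁ := by
    have h1 : n₁ ∣ N * m₁ := (Dvd.intro_left _ hNn.symm).trans hdvd1
    exact (hcop hN hNS hn₁S).symm.dvd_of_dvd_mul_left h1
  have hle : Lf K a m n ≤ Lf K a (N * m₁) (N * n₁) := by
    refine lf_mono K a (Nat.mul_pos hN hm₁) (Nat.mul_pos hN hn₁) ?_ ?_ (Nat.mul_dvd_mul_left _ hn₁m₁)
    · rw [← hNm]; exact Dvd.intro _ rfl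
    · rw [hNn]; exact Nat.mul_dvd_mul_right hN'N _
  have hDiv1 : DivG a (1 : Qb) := ⟨1, one_pos, 0, by simp⟩
  obtain ⟨β', hβ', hβ'0, g', hg'0, hg', he⟩ := H N m₁ n₁ hN hNS hm₁ hn₁ hn₁m₁
    (fun p hp => ((Nat.Prime.coprime_iff_not_dvd (hS p hp)).mpr (hm₁S p hp)).symm) β (hle hβ) hβ0 1
    one_ne_zero hDiv1 (by rw [mul_one]; exact hlt)
  rw [mul_one] at he
  exact ⟨m₁, n₁, hm₁, hn₁, hn₁S, β', hβ', hβ'0, g', hg'0, hg', he⟩

/-- The complex version. -/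
theorem reduce_C (F : IntermediateField ℚ ℂ) [FiniteDimensional ℚ F] (Γ : Subgroup ℂˣ) (hΓ : Γ.FG)
    (halg : ∀ g ∈ Γ, IsAlgebraic ℚ (g : ℂ)) (S : Finset ℕ) (hS : ∀ p ∈ S, p.Prime) :
    ∃ N₀ : ℕ, 0 < N₀ ∧ N₀.primeFactors ⊆ S ∧ ∃ c : ℝ, 0 < c ∧ ∀ α : ℂ,
      α ∈ F ⊔ IntermediateField.adjoin ℚ {z : ℂ | ∃ n : ℕ, 0 < n ∧ ∃ γ ∈ Γ, z ^ n = (γ : ℂ)} →
      α ≠ 0 →
      (Real.log (((Finset.range ((minpoly ℚ α).natDegree + 1)).lcm
              (fun i => ((minpoly ℚ α).coeff i).den) : ℕ) : ℝ)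
            + (((minpoly ℚ α).map (algebraMap ℚ ℂ)).roots.map
                (fun z => Real.log (max 1 ‖z‖))).sum)
          / ((minpoly ℚ α).natDegree : ℝ) < c →
      ∃ β γ : ℂ, α = β * γ ∧ (∃ n : ℕ, 0 < n ∧ ∃ g ∈ Γ, γ ^ n = (g : ℂ)) ∧
        β ∈ F ⊔ IntermediateField.adjoin ℚ ({z : ℂ | ∃ n : ℕ, 0 < n ∧ z ^ n = 1} ∪
          {z : ℂ | ∃ n : ℕ, 0 < n ∧ (∀ p ∈ S, ¬ p ∣ n) ∧ ∃ g ∈ Γ, z ^ (N₀ * n) = (g : ℂ)}) := by
  classical
  obtain ⟨r, a, haΓ, hind, hbas⟩ := fg_basis Γ hΓ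
  have hex : ∀ i, ∃ x : Qb, ii x = (a i : ℂ) := fun i => exists_ii _ (halg _ (haΓ i))
  choose a' ha' using hex
  have ha0 : ∀ i, a' i ≠ 0 := by
    intro i h0
    have := ha' i
    rw [h0, map_zero] at this
    exact (a i).ne_zero this.symm
  set F' : IntermediateField ℚ Qb := F.comap iiA with hF'
  have hF'fd : FiniteDimensional ℚ F' := by
    let f : F' →ₗ[ℚ] F :=
      { toFun := fun x => ⟨iiA x, x.2⟩
        map_add' := fun x y => by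
          apply Subtype.ext
          change iiA ((x : Qb) + y) = iiA x + iiA y
          exact map_add _ _ _
        map_smul' := fun q x => by
          apply Subtype.ext
          change iiA (q • (x : Qb)) = q • iiA x
          rw [Algebra.smul_def, Algebra.smul_def, map_mul, AlgHom.commutes] }
    refine FiniteDimensional.of_injective f ?_
    intro x y hxy
    apply Subtype.ext
    have := congrArg Subtype.val hxy
    exact ii_inj this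
  set K : IntermediateField ℚ Qb := F' ⊔ adjoin ℚ (Set.range a') with hK
  have hfd : FiniteDimensional ℚ K := by
    have h1 : Finite (Set.range a') := Set.finite_range a'
    have h2 : FiniteDimensional ℚ (adjoin ℚ (Set.range a')) :=
      IntermediateField.finiteDimensional_adjoin fun x _ => (Algebra.IsAlgebraic.isAlgebraic x).isIntegral
    exact IntermediateField.finiteDimensional_sup _ _
  have haK : ∀ i, a' i ∈ K := fun i =>
    (le_sup_right : adjoin ℚ (Set.range a') ≤ _) (subset_adjoin _ _ (Set.mem_range_self i))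
  have hprod : ∀ e : Fin r → ℤ, ii (∏ i, a' i ^ e i) = ((∏ i, a i ^ e i : ℂˣ) : ℂ) := by
    intro e
    rw [map_prod, Units.coe_prod]
    refine Finset.prod_congr rfl fun i _ => ?_
    rw [map_zpow₀, ha', Units.val_zpow_eq_zpow_val]
  have hind' : ∀ e : Fin r → ℤ, ∏ i, a' i ^ e i = 1 → e = 0 := by
    intro e he
    apply hind
    apply Units.ext
    rw [← hprod, he, map_one, Units.val_one]
  obtain ⟨N₀, hN₀, hN₀S, c, hc, H⟩ := reduce_Q K a' haK ha0 hind' S hS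
  refine ⟨N₀, hN₀, hN₀S, c, hc, ?_⟩
  have hΓ2 : ∀ γ ∈ Γ, ∃ (N : ℕ) (w : ℂ) (e : Fin r → ℤ), 0 < N ∧ w ^ N = 1 ∧
      (γ : ℂ) = w * ii (∏ i, a' i ^ e i) := by
    intro γ hγ
    obtain ⟨w, ⟨N, hN, hw⟩, e, he⟩ := hbas γ hγ
    refine ⟨N, (w : ℂ), e, hN, ?_, ?_⟩
    · rw [← Units.val_pow_eq_pow_val, hw, Units.val_one]
    · rw [he, Units.val_mul, hprod]
  have hmemK : ∀ x ∈ F, ∃ x' ∈ K, ii x' = x := by
    intro x hx
    have hxalg : IsAlgebraic ℚ x := by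
      have h1 := Algebra.IsAlgebraic.isAlgebraic (R := ℚ) (⟨x, hx⟩ : F)
      have h2 : algebraMap F ℂ ⟨x, hx⟩ = x := rfl
      rw [← h2]
      exact h1.algebraMap
    obtain ⟨x', hx'⟩ := exists_ii x hxalg
    refine ⟨x', (le_sup_left : F' ≤ K) ?_, hx'⟩
    change iiA x' ∈ F
    rw [iiA_apply, hx']
    exact hx
  -- every element of `F(Γ_div)` comes from some `Lf`
  have hall : ∀ α : ℂ, α ∈ F ⊔ IntermediateField.adjoin ℚ
      {z : ℂ | ∃ n : ℕ, 0 < n ∧ ∃ γ ∈ Γ, z ^ n = (γ : ℂ)} →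
      ∃ m n : ℕ, 0 < m ∧ 0 < n ∧ n ∣ m ∧ ∃ x ∈ Lf K a' m n, ii x = α := by
    intro α hα
    have hdir : ∀ {m₁ n₁ m₂ n₂ : ℕ}, 0 < m₁ → 0 < n₁ → n₁ ∣ m₁ → 0 < m₂ → 0 < n₂ → n₂ ∣ m₂ →
        ∃ m n : ℕ, 0 < m ∧ 0 < n ∧ n ∣ m ∧ Lf K a' m₁ n₁ ≤ Lf K a' m n ∧
          Lf K a' m₂ n₂ ≤ Lf K a' m n := by
      intro m₁ n₁ m₂ n₂ hm₁ hn₁ hd₁ hm₂ hn₂ hd₂
      refine ⟨m₁ * m₂, n₁ * n₂, Nat.mul_pos hm₁ hm₂, Nat.mul_pos hn₁ hn₂, mul_dvd_mul hd₁ hd₂, ?_, ?_⟩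
      · exact lf_mono K a' (Nat.mul_pos hm₁ hm₂) (Nat.mul_pos hn₁ hn₂) (Dvd.intro _ rfl) (Dvd.intro _ rfl)
          (mul_dvd_mul hd₁ hd₂)
      · exact lf_mono K a' (Nat.mul_pos hm₁ hm₂) (Nat.mul_pos hn₁ hn₂) (Dvd.intro_left _ rfl)
          (Dvd.intro_left _ rfl) (mul_dvd_mul hd₁ hd₂)
    have hFS : F ⊔ IntermediateField.adjoin ℚ {z : ℂ | ∃ n : ℕ, 0 < n ∧ ∃ γ ∈ Γ, z ^ n = (γ : ℂ)} =
        adjoin ℚ ((F : Set ℂ) ∪ {z : ℂ | ∃ n : ℕ, 0 < n ∧ ∃ γ ∈ Γ, z ^ n = (γ : ℂ)}) := by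
      rw [adjoin_union, adjoin_self]
    rw [hFS] at hα
    induction hα using IntermediateField.adjoin_induction with
    | mem z hz =>
      rcases hz with hz | ⟨n, hn, γ, hγ, hzγ⟩
      · obtain ⟨x', hx', hxz⟩ := hmemK z hz
        exact ⟨1, 1, one_pos, one_pos, dvd_rfl, x', lf_le K a' 1 1 hx', hxz⟩
      · obtain ⟨N, w, e, hN, hwN, hge⟩ := hΓ2 γ hγ
        have hβex : ∀ i, ∃ β : Qb, β ^ n = a' i := fun i => IsAlgClosed.exists_pow_nat_eq (a' i) hn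
        choose β hβ using hβex
        have hβ0 : ∀ i, β i ≠ 0 := by
          intro i h0
          apply ha0 i
          rw [← hβ i, h0, zero_pow hn.ne']
        set y : Qb := ∏ i, β i ^ e i with hy
        have hy0 : y ≠ 0 := Finset.prod_ne_zero_iff.mpr fun i _ => zpow_ne_zero _ (hβ0 i)
        have hyn : y ^ n = ∏ i, a' i ^ e i := by
          rw [hy, ← Finset.prod_pow]
          refine Finset.prod_congr rfl fun i _ => ?_
          rw [← hβ i, ← zpow_natCast, ← zpow_mul, mul_comm, zpow_mul, zpow_natCast]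
        have hiy : ii y ≠ 0 := by
          intro h0
          apply hy0
          apply ii_inj
          rw [h0, map_zero]
        have hzn : (z / ii y) ^ (n * N) = 1 := by
          rw [pow_mul, div_pow, ← map_pow, hyn, hzγ, hge]
          have h2 : ii (∏ i, a' i ^ e i) ≠ 0 := by
            rw [← hyn, map_pow]
            exact pow_ne_zero _ hiy
          rw [mul_div_assoc, div_self h2, mul_one, hwN]
        obtain ⟨x, hx1, hx2⟩ := root_ii (z / ii y) (n * N) (Nat.mul_pos hn hN) hzn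
        refine ⟨n * N, n, Nat.mul_pos hn hN, hn, Dvd.intro _ rfl, x * y, ?_, ?_⟩
        · refine mul_mem ?_ ?_
          · exact (le_sup_right : adjoin ℚ ({x : Qb | x ^ (n * N) = 1} ∪ {x | ∃ i, x ^ n = a' i}) ≤ _)
              (subset_adjoin _ _ (Or.inl hx1))
          · refine prod_mem fun i _ => zpow_mem ?_ _
            exact (le_sup_right : adjoin ℚ ({x : Qb | x ^ (n * N) = 1} ∪ {x | ∃ i, x ^ n = a' i}) ≤ _)
              (subset_adjoin _ _ (Or.inr ⟨i, hβ i⟩))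
        · rw [map_mul, hx2, div_mul_cancel₀ _ hiy]
    | algebraMap q =>
      refine ⟨1, 1, one_pos, one_pos, dvd_rfl, algebraMap ℚ Qb q, ?_, ?_⟩
      · exact lf_le K a' 1 1 (K.algebraMap_mem q)
      · exact AlgHom.commutes iiA q
    | add x y _ _ hx hy =>
      obtain ⟨m₁, n₁, hm₁, hn₁, hd₁, x', hx', hxe⟩ := hx
      obtain ⟨m₂, n₂, hm₂, hn₂, hd₂, y', hy', hye⟩ := hy
      obtain ⟨m, n, hm, hn, hd, hle1, hle2⟩ := hdir hm₁ hn₁ hd₁ hm₂ hn₂ hd₂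
      exact ⟨m, n, hm, hn, hd, x' + y', add_mem (hle1 hx') (hle2 hy'), by rw [map_add, hxe, hye]⟩
    | inv x _ hx =>
      obtain ⟨m₁, n₁, hm₁, hn₁, hd₁, x', hx', hxe⟩ := hx
      exact ⟨m₁, n₁, hm₁, hn₁, hd₁, x'⁻¹, inv_mem hx', by rw [map_inv₀, hxe]⟩
    | mul x y _ _ hx hy =>
      obtain ⟨m₁, n₁, hm₁, hn₁, hd₁, x', hx', hxe⟩ := hx
      obtain ⟨m₂, n₂, hm₂, hn₂, hd₂, y', hy', hye⟩ := hy
      obtain ⟨m, n, hm, hn, hd, hle1, hle2⟩ := hdir hm₁ hn₁ hd₁ hm₂ hn₂ hd₂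
      exact ⟨m, n, hm, hn, hd, x' * y', mul_mem (hle1 hx') (hle2 hy'), by rw [map_mul, hxe, hye]⟩
  intro α hα hα0 hlt
  obtain ⟨m, n, hm, hn, _, x, hx, hxα⟩ := hall α hα
  have hx0 : x ≠ 0 := by
    rintro rfl
    rw [map_zero] at hxα
    exact hα0 hxα.symm
  have hWlt : hW x < c := by
    unfold hW dn
    rw [← minpoly_ii, hxα]
    exact hlt
  obtain ⟨m', n', hm', hn', hn'S, β', hβ', _, g, hg0, hg, hxe⟩ := H m n hm hn x hx hx0 hWlt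
  refine ⟨ii β', ii g, by rw [← hxα, hxe, map_mul], ?_, ?_⟩
  · obtain ⟨N, hN, e, he⟩ := hg
    refine ⟨N, hN, ∏ i, a i ^ e i, Subgroup.prod_mem _ fun i _ => Subgroup.zpow_mem _ (haΓ i) _, ?_⟩
    rw [← hprod, ← he, map_pow]
  · have hle : (Lf K a' (N₀ * m') (N₀ * n')).map iiA ≤ F ⊔ IntermediateField.adjoin ℚ
        ({z : ℂ | ∃ n : ℕ, 0 < n ∧ z ^ n = 1} ∪
          {z : ℂ | ∃ n : ℕ, 0 < n ∧ (∀ p ∈ S, ¬ p ∣ n) ∧ ∃ g ∈ Γ, z ^ (N₀ * n) = (g : ℂ)}) := by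
      rw [map_le_iff_le_comap]
      have hgen : ∀ z : ℂ, (∃ n : ℕ, 0 < n ∧ (∀ p ∈ S, ¬ p ∣ n) ∧ ∃ g ∈ Γ, z ^ (N₀ * n) = (g : ℂ)) →
          z ∈ F ⊔ IntermediateField.adjoin ℚ ({z : ℂ | ∃ n : ℕ, 0 < n ∧ z ^ n = 1} ∪
          {z : ℂ | ∃ n : ℕ, 0 < n ∧ (∀ p ∈ S, ¬ p ∣ n) ∧ ∃ g ∈ Γ, z ^ (N₀ * n) = (g : ℂ)}) := by
        intro z hz
        exact (le_sup_right : IntermediateField.adjoin ℚ ({z : ℂ | ∃ n : ℕ, 0 < n ∧ z ^ n = 1} ∪
          {z : ℂ | ∃ n : ℕ, 0 < n ∧ (∀ p ∈ S, ¬ p ∣ n) ∧ ∃ g ∈ Γ, z ^ (N₀ * n) = (g : ℂ)}) ≤ _)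
          (subset_adjoin _ _ (Or.inr hz))
      refine sup_le (sup_le ?_ ?_) ?_
      · intro y hy
        have : iiA y ∈ F := hy
        exact (le_sup_left : F ≤ _) this
      · rw [adjoin_le_iff]
        rintro y ⟨i, rfl⟩
        refine hgen _ ⟨1, one_pos, fun p hp h => (hS p hp).one_lt.ne' (Nat.dvd_one.mp h), (a i) ^ N₀,
          Γ.pow_mem (haΓ i) _, ?_⟩
        change (ii (a' i)) ^ (N₀ * 1) = _
        rw [mul_one, ha', Units.val_pow_eq_pow_val]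
      · rw [adjoin_le_iff]
        rintro y (hy | ⟨i, hy⟩)
        · refine (le_sup_right : IntermediateField.adjoin ℚ ({z : ℂ | ∃ n : ℕ, 0 < n ∧ z ^ n = 1} ∪
            {z : ℂ | ∃ n : ℕ, 0 < n ∧ (∀ p ∈ S, ¬ p ∣ n) ∧ ∃ g ∈ Γ, z ^ (N₀ * n) = (g : ℂ)}) ≤ _)
            (subset_adjoin _ _ (Or.inl ⟨N₀ * m', Nat.mul_pos hN₀ hm', ?_⟩))
          change (ii y) ^ (N₀ * m') = 1
          have hy1 : y ^ (N₀ * m') = 1 := hy
          rw [← map_pow, hy1, map_one]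
        · refine hgen _ ⟨n', hn', hn'S, a i, haΓ i, ?_⟩
          change (ii y) ^ (N₀ * n') = _
          rw [← map_pow, hy, ha']
    exact hle ⟨β', hβ', rfl⟩

end MP4270
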