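import Pool.Agent.Lib_MP_4270a5_nt.Iso

open Polynomial IntermediateField

namespace MP4270

variable {p : ℕ} [Fact p.Prime]

/-- the closed unit ball, as a subring -/
def unitBall (p : ℕ) [Fact p.Prime] : Subring (PadicAlgCl p) where
  carrier := {x | ‖x‖ ≤ 1}
  mul_mem' := by
    intro a b ha hb
    show ‖a * b‖ ≤ 1
    rw [norm_mul]
    exact mul_le_one₀ ha (norm_nonneg _) hb
  one_mem' := by
    show ‖(1 : PadicAlgCl p)‖ ≤ 1
    rw [norm_one]
  add_mem' := by
    intro a b ha hb
    exact (IsUltrametricDist.norm_add_le_max a b).trans (max_le ha hb)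
  zero_mem' := by
    show ‖(0 : PadicAlgCl p)‖ ≤ 1
    rw [norm_zero]
    exact zero_le_one
  neg_mem' := by
    intro a ha
    show ‖-a‖ ≤ 1
    rw [norm_neg]
    exact ha

theorem mem_unitBall {x : PadicAlgCl p} : x ∈ unitBall p ↔ ‖x‖ ≤ 1 := Iff.rfl

theorem mem_lifts_unitBall {g : (PadicAlgCl p)[X]} :
    g ∈ lifts (unitBall p).subtype ↔ ∀ i, ‖g.coeff i‖ ≤ 1 := by
  rw [lifts_iff_coeff_lifts]
  refine forall_congr' fun i => ?_
  constructor
  · rintro ⟨y, hy⟩
    rw [← hy]
    exact y.2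
  · intro h
    exact ⟨⟨g.coeff i, h⟩, rfl⟩

theorem unitBall_prod_mem_lifts (s : Multiset (PadicAlgCl p)) (hs : ∀ a ∈ s, ‖a‖ ≤ 1) :
    (s.map fun a => X - C a).prod ∈ lifts (unitBall p).subtype := by
  apply Multiset.prod_induction _ _ (fun a b ha hb => mul_mem ha hb) (one_mem _)
  intro g hg
  rw [Multiset.mem_map] at hg
  obtain ⟨a, ha, rfl⟩ := hg
  rw [mem_lifts]
  refine ⟨X - C (⟨a, hs a ha⟩ : unitBall p), ?_⟩
  rw [Polynomial.map_sub, map_X, map_C]
  rfl

/-- The minimal polynomial of an integral element has integral coefficients (product over the conjugates). -/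
theorem minpoly_coeff_le (K : IntermediateField ℚ_[p] (PadicAlgCl p)) (x : PadicAlgCl p) (hx : ‖x‖ ≤ 1)
    (i : ℕ) : ‖(((minpoly K x).coeff i : ↥K) : PadicAlgCl p)‖ ≤ 1 := by
  have hint : IsIntegral K x := Algebra.IsIntegral.isIntegral x
  have hmon := minpoly.monic hint
  set P := (minpoly K x).map (algebraMap K (PadicAlgCl p)) with hP
  have hPmon : P.Monic := hmon.map _
  have hsplit : P.Splits := IsAlgClosed.splits P
  have hprod := hsplit.eq_prod_roots_of_monic hPmon
  have hroots : ∀ a ∈ P.roots, ‖a‖ ≤ 1 := by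
    intro a ha
    have h1 : aeval a (minpoly K x) = 0 := by
      have h2 := (mem_roots'.1 ha).2
      rw [IsRoot.def, hP, eval_map_algebraMap] at h2
      exact h2
    obtain ⟨σ, -, hσ⟩ := exists_conj K x a h1
    rw [← hσ, norm_equiv]
    exact hx
  have h3 := unitBall_prod_mem_lifts P.roots hroots
  rw [← hprod, mem_lifts_unitBall] at h3
  have h4 := h3 i
  rw [hP, coeff_map] at h4
  exact h4

/-- Division by monic polynomials with integral roots keeps integrality: if `g` has integral coefficients and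
vanishes at the distinct points of `T` (all integral), then `‖g(x)‖ ≤ ∏ ‖x - θ‖` for integral `x`.
(`g = (∏ (X - θ)) * q`, `q` integral; evaluate.) -/
theorem norm_eval_le_prod (g : (PadicAlgCl p)[X]) (hg : ∀ i, ‖g.coeff i‖ ≤ 1) (T : Finset (PadicAlgCl p))
    (hT : ∀ θ ∈ T, ‖θ‖ ≤ 1 ∧ g.eval θ = 0) (x : PadicAlgCl p) (hx : ‖x‖ ≤ 1) :
    ‖g.eval x‖ ≤ ∏ θ ∈ T, ‖x - θ‖ := by
  classical
  rcases eq_or_ne g 0 with rfl | hg0
  · rw [eval_zero, norm_zero]
    exact Finset.prod_nonneg fun θ _ => norm_nonneg _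
  obtain ⟨g', hg'⟩ := (mem_lifts _).1 (mem_lifts_unitBall.2 hg)
  have hg'0 : g' ≠ 0 := by
    rintro rfl
    rw [Polynomial.map_zero] at hg'
    exact hg0 hg'.symm
  -- the roots in the unit ball
  let e : T → unitBall p := fun θ => ⟨θ.1, mem_unitBall.2 (hT θ.1 θ.2).1⟩
  have he : Function.Injective e := by
    intro a b hab
    exact Subtype.ext (congrArg (fun z : unitBall p => (z : PadicAlgCl p)) hab)
  let y : unitBall p := ⟨x, mem_unitBall.2 hx⟩
  have hroot : ∀ θ : T, e θ ∈ g'.roots := by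
    intro θ
    rw [mem_roots hg'0, IsRoot.def]
    apply (unitBall p).subtype_injective
    rw [map_zero, ← Polynomial.eval_map_apply, hg']
    exact (hT θ.1 θ.2).2
  have hle : ((Finset.univ : Finset T).val.map e) ≤ g'.roots := by
    rw [Multiset.le_iff_subset (Multiset.Nodup.map he Finset.univ.nodup)]
    intro a ha
    rw [Multiset.mem_map] at ha
    obtain ⟨θ, -, rfl⟩ := ha
    exact hroot θ
  obtain ⟨q, hq⟩ := (Multiset.prod_X_sub_C_dvd_iff_le_roots hg'0 _).2 hle
  have h0 : (((Finset.univ : Finset T).val.map e).map fun a => X - C a).prod = ∏ θ : T, (X - C (e θ)) := by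
    rw [Multiset.map_map]
    rfl
  rw [h0] at hq
  have h1 : eval y g' = (∏ θ : T, (y - e θ)) * eval y q := by
    rw [hq, eval_mul, eval_prod]
    congr 1
    refine Finset.prod_congr rfl fun θ _ => ?_
    rw [eval_sub, eval_X, eval_C]
  have h2 : g.eval x = ((eval y g' : unitBall p) : PadicAlgCl p) := by
    rw [← hg']
    exact Polynomial.eval_map_apply (unitBall p).subtype y
  have h3 : ((∏ θ : T, (y - e θ) : unitBall p) : PadicAlgCl p) = ∏ θ : T, (x - (θ : PadicAlgCl p)) := by
    have := map_prod (unitBall p).subtype (fun θ : T => y - e θ) Finset.univ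
    rw [Subring.subtype_apply] at this
    rw [this]
    refine Finset.prod_congr rfl fun θ _ => ?_
    rw [map_sub]
    rfl
  have h6 : (0:ℝ) ≤ ∏ θ ∈ T, ‖x - θ‖ := Finset.prod_nonneg fun θ _ => norm_nonneg _
  have h7 : ‖∏ θ : T, (x - (θ : PadicAlgCl p))‖ = ∏ θ ∈ T, ‖x - θ‖ := by
    rw [norm_prod]
    exact Finset.prod_coe_sort T (fun θ => ‖x - θ‖)
  have h5 : ‖((eval y q : unitBall p) : PadicAlgCl p)‖ ≤ 1 := mem_unitBall.1 (eval y q).2
  rw [h2, h1, Subring.coe_mul, norm_mul, h3, h7]
  calc (∏ θ ∈ T, ‖x - θ‖) * ‖((eval y q : unitBall p) : PadicAlgCl p)‖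
      ≤ (∏ θ ∈ T, ‖x - θ‖) * 1 := mul_le_mul_of_nonneg_left h5 h6
    _ = _ := mul_one _

/-- `dif K x` is the product of the distances to the other conjugates. -/
theorem dif_eq_prod [DecidableEq (PadicAlgCl p)] (K : IntermediateField ℚ_[p] (PadicAlgCl p)) (x : PadicAlgCl p) :
    dif K x = ∏ θ ∈ ((minpoly K x).aroots (PadicAlgCl p)).toFinset.erase x, ‖x - θ‖ := by
  have hint : IsIntegral K x := Algebra.IsIntegral.isIntegral x
  have hmon := minpoly.monic hint
  set P := (minpoly K x).map (algebraMap K (PadicAlgCl p)) with hP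
  have hPmon : P.Monic := hmon.map _
  have hsplit : P.Splits := IsAlgClosed.splits P
  have hsep : P.Separable := by
    have h : (minpoly K x).Separable := Algebra.IsSeparable.isSeparable K x
    exact h.map
  have hx : x ∈ P.roots := by
    rw [mem_roots hPmon.ne_zero, IsRoot.def, hP, eval_map_algebraMap, minpoly.aeval]
  have h1 := hsplit.eval_root_derivative hPmon hx
  have hnd : P.roots.Nodup := nodup_roots hsep
  have h2 : aeval x (derivative (minpoly K x)) = eval x P.derivative := by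
    rw [hP, derivative_map, eval_map_algebraMap]
  unfold dif
  rw [h2, h1]
  have h3 : ((minpoly K x).aroots (PadicAlgCl p)).toFinset.erase x = (P.roots.erase x).toFinset := by
    ext a
    rw [Finset.mem_erase, Multiset.mem_toFinset, Multiset.mem_toFinset, hnd.mem_erase_iff]
  rw [h3, Finset.prod, Multiset.toFinset_val, (hnd.erase x).dedup]
  have h4 : ‖((P.roots.erase x).map (x - ·)).prod‖ = ((P.roots.erase x).map (fun θ => ‖x - θ‖)).prod := by
    have h5 := map_multiset_prod (normHom : PadicAlgCl p →*₀ ℝ) ((P.roots.erase x).map (x - ·))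
    rw [Multiset.map_map] at h5
    exact h5
  exact h4

end MP4270
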