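import Pool.Agent.Lib_MP_4270a5_nt.Defs

open Polynomial IntermediateField

namespace MP4270

variable {p : ℕ} [Fact p.Prime]

theorem norm_root_one {x : PadicAlgCl p} {n : ℕ} (hn : 0 < n) (h : x ^ n = 1) : ‖x‖ = 1 := by
  have h1 : ‖x‖ ^ n = 1 := by rw [← norm_pow, h, norm_one]
  exact (pow_eq_one_iff_of_nonneg (norm_nonneg x) hn.ne').1 h1

theorem RootU_norm_p (p : ℕ) [Fact p.Prime] : ‖(p : PadicAlgCl p)‖ = (p : ℝ)⁻¹ := by
  rw [← map_natCast (algebraMap ℚ_[p] (PadicAlgCl p)), PadicAlgCl.norm_extends, Padic.norm_p]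

/-- `1 - x^i` is a multiple of `1 - x`. -/
theorem RootU_one_sub_pow {x : PadicAlgCl p} (hx : ‖x‖ ≤ 1) (i : ℕ) :
    ‖1 - x ^ i‖ ≤ ‖1 - x‖ := by
  have h1 : 1 - x ^ i = (1 - x) * ∑ j ∈ Finset.range i, x ^ j := (mul_neg_geom_sum x i).symm
  have h2 : ‖∑ j ∈ Finset.range i, x ^ j‖ ≤ 1 := by
    refine IsUltrametricDist.norm_sum_le_of_forall_le_of_nonneg zero_le_one fun j _ => ?_
    rw [norm_pow]
    exact pow_le_one₀ (norm_nonneg _) hx
  rw [h1, norm_mul]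
  exact mul_le_of_le_one_right (norm_nonneg _) h2

/-- Roots of unity of order prime to `p` are distinct modulo the maximal ideal. (`X^n - 1 = ∏ (X - ξ)`, derivative at `1`
is `n`, of norm `1`.) -/
theorem norm_sub_one_coprime {x : PadicAlgCl p} {n : ℕ} (hn : n.Coprime p) (h : x ^ n = 1) (hx : x ≠ 1) :
    ‖x - 1‖ = 1 := by
  have hp : p.Prime := Fact.out
  have hn0 : 0 < n := by
    rcases Nat.eq_zero_or_pos n with h0 | h0
    · rw [h0, Nat.coprime_zero_left] at hn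
      exact absurd hn hp.one_lt.ne'
    · exact h0
  have hx1 : ‖x‖ = 1 := norm_root_one hn0 h
  have hnn : ‖(n : PadicAlgCl p)‖ = 1 := by
    rw [← map_natCast (algebraMap ℚ_[p] (PadicAlgCl p)), PadicAlgCl.norm_extends]
    exact (Padic.norm_natCast_eq_one_iff).2 hn.symm
  have h1 : ∑ i ∈ Finset.range n, x ^ i = 0 := by
    have h2 := geom_sum_mul x n
    rw [h, sub_self] at h2
    exact (mul_eq_zero.1 h2).resolve_right (sub_ne_zero.2 hx)
  have h2 : (n : PadicAlgCl p) = ∑ i ∈ Finset.range n, (1 - x ^ i) := by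
    rw [Finset.sum_sub_distrib, h1, sub_zero, Finset.sum_const, Finset.card_range, nsmul_eq_mul,
      mul_one]
  have h3 : ‖(n : PadicAlgCl p)‖ ≤ ‖1 - x‖ := by
    rw [h2]
    exact IsUltrametricDist.norm_sum_le_of_forall_le_of_nonneg (norm_nonneg _)
      fun i _ => RootU_one_sub_pow hx1.le i
  have h4 : ‖x - 1‖ ≤ 1 := by
    have := IsUltrametricDist.norm_add_le_max x (-1)
    rw [norm_neg, norm_one, hx1, max_self] at this
    rwa [sub_eq_add_neg]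
  rw [hnn, norm_sub_rev] at h3
  exact le_antisymm h4 h3

theorem RootU_prim_eq {ζ μ : PadicAlgCl p} {n : ℕ} (hn : 0 < n) (h : IsPrimitiveRoot ζ n)
    (h' : IsPrimitiveRoot μ n) : ‖1 - μ‖ = ‖1 - ζ‖ := by
  have aux : ∀ {ζ μ : PadicAlgCl p}, IsPrimitiveRoot ζ n → IsPrimitiveRoot μ n →
      ‖1 - μ‖ ≤ ‖1 - ζ‖ := by
    intro ζ μ h h'
    have : NeZero n := ⟨hn.ne'⟩
    obtain ⟨i, _, hi⟩ := h.eq_pow_of_pow_eq_one h'.pow_eq_one
    rw [← hi]
    exact RootU_one_sub_pow (norm_root_one hn h.pow_eq_one).le i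
  exact le_antisymm (aux h h') (aux h' h)

/-- `v(ζ - 1) = 1/φ(p^(k+1))` for a primitive `p^(k+1)`-th root of unity. (Cyclotomic polynomial at `1` is `p`; the
`ζ^u - 1`, `u` prime to `p`, all have the same norm.) -/
theorem norm_primitive_sub_one {ζ : PadicAlgCl p} {k : ℕ} (h : IsPrimitiveRoot ζ (p ^ (k + 1))) :
    ‖ζ - 1‖ = (p : ℝ) ^ (-(1 : ℝ) / (p ^ k * (p - 1))) := by
  have hp : p.Prime := Fact.out
  have hp1 : (1 : ℝ) < p := by exact_mod_cast hp.one_lt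
  have hp0 : (0 : ℝ) < p := by linarith
  have hn : 0 < p ^ (k + 1) := pow_pos hp.pos _
  have h1 : (Polynomial.cyclotomic (p ^ (k + 1)) (PadicAlgCl p)).eval 1 = p :=
    Polynomial.eval_one_cyclotomic_prime_pow k
  rw [Polynomial.cyclotomic_eq_prod_X_sub_primitiveRoots h, Polynomial.eval_prod] at h1
  have h2 : ∏ μ ∈ primitiveRoots (p ^ (k + 1)) (PadicAlgCl p), ‖1 - μ‖ = (p : ℝ)⁻¹ := by
    rw [← RootU_norm_p, ← h1, norm_prod]
    refine Finset.prod_congr rfl fun μ _ => ?_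
    rw [Polynomial.eval_sub, Polynomial.eval_X, Polynomial.eval_C]
  have h3 : ∏ μ ∈ primitiveRoots (p ^ (k + 1)) (PadicAlgCl p), ‖1 - μ‖ =
      ‖1 - ζ‖ ^ (p ^ k * (p - 1)) := by
    rw [Finset.prod_congr rfl fun μ hμ => RootU_prim_eq hn h ((mem_primitiveRoots hn).1 hμ),
      Finset.prod_const, h.card_primitiveRoots, Nat.totient_prime_pow_succ hp]
  rw [h3] at h2
  have h4 : ((p ^ k * (p - 1) : ℕ) : ℝ) = (p : ℝ) ^ k * ((p : ℝ) - 1) := by
    rw [Nat.cast_mul, Nat.cast_pow, Nat.cast_sub hp.one_lt.le, Nat.cast_one]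
  have h5 : (0 : ℝ) < (p : ℝ) ^ k * ((p : ℝ) - 1) := by
    have : 0 < (p : ℝ) - 1 := by linarith
    positivity
  rw [norm_sub_rev ζ 1]
  have h6 : ‖1 - ζ‖ = (‖1 - ζ‖ ^ (p ^ k * (p - 1))) ^ (((p : ℝ) ^ k * ((p : ℝ) - 1))⁻¹) := by
    rw [← Real.rpow_natCast, ← Real.rpow_mul (norm_nonneg _), h4, mul_inv_cancel₀ h5.ne',
      Real.rpow_one]
  rw [h6, h2, ← Real.rpow_neg_one, ← Real.rpow_mul hp0.le]
  congr 1

/-- `‖ζ - ζ'‖ ≥ p^(-1/(p-1))` for different roots of unity `ζ, ζ'` of order a power of `p` (`ζ'/ζ` is a primitive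
`p^(k+1)`-th root of unity for some `k`). -/
theorem norm_sub_ge {ζ ζ' : PadicAlgCl p} {k : ℕ} (h : ζ ^ p ^ k = 1) (h' : ζ' ^ p ^ k = 1) (hne : ζ ≠ ζ') :
    (p : ℝ) ^ (-(1 : ℝ) / (p - 1)) ≤ ‖ζ - ζ'‖ := by
  have hp : p.Prime := Fact.out
  have hp1 : (1 : ℝ) < p := by exact_mod_cast hp.one_lt
  have hpk : 0 < p ^ k := pow_pos hp.pos _
  have hζ : ‖ζ‖ = 1 := norm_root_one hpk h
  have hζ0 : ζ ≠ 0 := by
    intro h0
    rw [h0, norm_zero] at hζ
    exact zero_ne_one hζ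
  set ρ := ζ' / ζ with hρ
  have hρ1 : ρ ≠ 1 := by
    intro h1
    rw [hρ, div_eq_one_iff_eq hζ0] at h1
    exact hne h1.symm
  have hρk : ρ ^ p ^ k = 1 := by rw [hρ, div_pow, h, h', div_one]
  obtain ⟨j, hj, hj2⟩ := (Nat.dvd_prime_pow hp).1 (orderOf_dvd_of_pow_eq_one hρk)
  have hj0 : j ≠ 0 := by
    rintro rfl
    rw [pow_zero, orderOf_eq_one_iff] at hj2
    exact hρ1 hj2
  obtain ⟨i, rfl⟩ := Nat.exists_eq_succ_of_ne_zero hj0
  have hprim : IsPrimitiveRoot ρ (p ^ (i + 1)) := by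
    have := IsPrimitiveRoot.orderOf ρ
    rwa [hj2] at this
  have h1 : ‖ζ - ζ'‖ = ‖ρ - 1‖ := by
    have : ζ - ζ' = ζ * (1 - ρ) := by
      rw [hρ]
      field_simp
    rw [this, norm_mul, hζ, one_mul, norm_sub_rev]
  rw [h1, norm_primitive_sub_one hprim]
  refine Real.rpow_le_rpow_of_exponent_le hp1.le ?_
  have h2 : (0 : ℝ) < (p : ℝ) - 1 := by linarith
  have h3 : (1 : ℝ) ≤ (p : ℝ) ^ i := one_le_pow₀ hp1.le
  rw [neg_div, neg_div, neg_le_neg_iff]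
  refine one_div_le_one_div_of_le h2 ?_
  nlinarith

/-- `∏_{ξ ≠ 1} (1 - ξ) = p^k` over the `p^k`-th roots of unity. -/
theorem prod_one_sub {k : ℕ} {ζ : PadicAlgCl p} (h : IsPrimitiveRoot ζ (p ^ k)) :
    ∏ i ∈ (Finset.range (p ^ k)).erase 0, ‖1 - ζ ^ i‖ = (p : ℝ) ^ (-(k : ℝ)) := by
  have hp : p.Prime := Fact.out
  have hp1 : (1 : ℝ) < p := by exact_mod_cast hp.one_lt
  have hp0 : (0 : ℝ) < p := by linarith
  obtain ⟨n, hn⟩ := Nat.exists_eq_succ_of_ne_zero (pow_pos hp.pos k).ne'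
  rw [Nat.succ_eq_add_one] at hn
  have h0 : IsPrimitiveRoot ζ (n + 1) := by rwa [← hn]
  have h1 := h0.prod_one_sub_pow_eq_order
  have h2 : (Finset.range (n + 1)).erase 0 = (Finset.range n).image (· + 1) := by
    ext i
    simp only [Finset.mem_erase, Finset.mem_range, Finset.mem_image]
    constructor
    · rintro ⟨h1, h2⟩
      exact ⟨i - 1, by omega, by omega⟩
    · rintro ⟨a, h1, rfl⟩
      exact ⟨by omega, by omega⟩
  rw [hn, h2, Finset.prod_image (fun a _ b _ hab => by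
    have : a + 1 = b + 1 := hab
    omega), ← norm_prod, h1]
  have h3 : ((n : PadicAlgCl p) + 1) = (p : PadicAlgCl p) ^ k := by
    have : ((n + 1 : ℕ) : PadicAlgCl p) = ((p ^ k : ℕ) : PadicAlgCl p) := by rw [hn]
    push_cast at this
    exact this
  rw [h3, norm_pow, RootU_norm_p, Real.rpow_neg hp0.le, Real.rpow_natCast, inv_pow]

end MP4270
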