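import Pool.Agent.Lib_MP_4270a5_nt.PowB
import Pool.Agent.Lib_MP_4270a5_nt.IsoB
import Pool.Agent.Lib_MP_4270a5_nt.RootU

open Polynomial IntermediateField

namespace MP4270

variable {p : ℕ} [Fact p.Prime]

/-- ONE CYCLOTOMIC LEVEL. `T` a set of conjugates `θ = σ w` of `w` over `K` with `σ ζ = ζ^(1 + p^(k-i) u)`, `p ∤ u`. Then
`∑_{θ ∈ T} v(w - θ) ≤ 1`. Proof: let `g` be integral over `K`, `g(w) = ζ` (`pow_int`); then `g(θ) = σ ζ`. For a fixed value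
`ζ' = σ ζ`: the polynomial `g - ζ'` vanishes at the `θ ∈ T` with `g(θ) = ζ'`, so (`norm_eval_le_prod` at `w`)
`‖ζ - ζ'‖ ≤ ∏ ‖w - θ‖`, and `‖ζ - ζ'‖ = p^(-1/(p^(i-1)(p-1)))` (`norm_primitive_sub_one`: `ζ'/ζ` is a primitive `p^i`-th root
of unity). There are at most `p^(i-1)(p-1)` values `ζ'`. -/
theorem level_prod (K L : IntermediateField ℚ_[p] (PadicAlgCl p)) [FiniteDimensional ℚ_[p] L]
    (h : ResTriv K L) {w : PadicAlgCl p} (hw : IsUnif L w) {k : ℕ} {ζ : PadicAlgCl p}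
    (hζ : IsPrimitiveRoot ζ (p ^ k)) (hζL : ζ ∈ L) {i : ℕ} (hi : 1 ≤ i) (hik : i ≤ k)
    (T : Finset (PadicAlgCl p))
    (hT : ∀ θ ∈ T, ∃ σ : PadicAlgCl p ≃ₐ[ℚ_[p]] PadicAlgCl p, (∀ x ∈ K, σ x = x) ∧ σ w = θ ∧
      ∃ u : ℕ, ¬ p ∣ u ∧ σ ζ = ζ ^ (1 + p ^ (k - i) * u)) :
    (p : ℝ)⁻¹ ≤ ∏ θ ∈ T, ‖w - θ‖ := by
  classical
  have hp : p.Prime := Fact.out
  have hp1 : (1 : ℝ) < p := by exact_mod_cast hp.one_lt
  have hp0 : (0 : ℝ) < p := by linarith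
  have hζn : ‖ζ‖ = 1 := norm_root_one (pow_pos hp.pos k) hζ.pow_eq_one
  have hζ0 : ζ ≠ 0 := by
    intro h0
    rw [h0, norm_zero] at hζn
    exact zero_ne_one hζn
  obtain ⟨g, hg, hgw⟩ := pow_int K L h hw hζL hζn.le
  have hη0 : IsPrimitiveRoot (ζ ^ p ^ (k - i)) (p ^ i) :=
    hζ.pow (pow_pos hp.pos k) (by rw [← pow_add, Nat.sub_add_cancel hik])
  have hval : ∀ θ ∈ T, ∃ η, IsPrimitiveRoot η (p ^ i) ∧ aeval θ g = ζ * η := by
    intro θ hθ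
    obtain ⟨σ, hσK, hσw, u, hu, hσζ⟩ := hT θ hθ
    refine ⟨(ζ ^ p ^ (k - i)) ^ u, hη0.pow_of_coprime u ?_, ?_⟩
    · exact Nat.Coprime.pow_right i ((hp.coprime_iff_not_dvd.mpr hu).symm)
    · rw [← hσw, ← map_aeval K σ hσK g w, hgw, hσζ, pow_add, pow_one, pow_mul]
  have hθ1 : ∀ θ ∈ T, ‖θ‖ ≤ 1 := by
    intro θ hθ
    obtain ⟨σ, _, hσw, _⟩ := hT θ hθ
    rw [← hσw, norm_equiv]
    exact hw.2.2.1.le
  set V := T.image (fun θ => aeval θ g) with hV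
  set N : ℕ := p ^ (i - 1) * (p - 1) with hN
  have hNpos : 0 < N := Nat.mul_pos (pow_pos hp.pos _) (Nat.sub_pos_of_lt hp.one_lt)
  have hNr : (N : ℝ) = (p : ℝ) ^ (i - 1) * ((p : ℝ) - 1) := by
    rw [hN, Nat.cast_mul, Nat.cast_pow, Nat.cast_sub hp.one_le, Nat.cast_one]
  have hVval : ∀ c ∈ V, ∃ η, IsPrimitiveRoot η (p ^ i) ∧ c = ζ * η := by
    intro c hc
    obtain ⟨θ, hθ, rfl⟩ := Finset.mem_image.mp hc
    exact hval θ hθ
  have hnorm : ∀ c ∈ V, ‖ζ - c‖ = (p : ℝ) ^ (-(1 : ℝ) / N) := by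
    intro c hc
    obtain ⟨η, hη, rfl⟩ := hVval c hc
    have h1 : ζ - ζ * η = -(ζ * (η - 1)) := by ring
    have hη' : IsPrimitiveRoot η (p ^ (i - 1 + 1)) := by rwa [Nat.sub_add_cancel hi]
    rw [h1, norm_neg, norm_mul, hζn, one_mul, norm_primitive_sub_one hη', hNr]
  have hcn : ∀ c ∈ V, ‖c‖ = 1 := by
    intro c hc
    obtain ⟨η, hη, rfl⟩ := hVval c hc
    rw [norm_mul, hζn, norm_root_one (pow_pos hp.pos i) hη.pow_eq_one, mul_one]
  have hfib : ∀ c ∈ V, ‖ζ - c‖ ≤ ∏ θ ∈ T.filter (fun θ => aeval θ g = c), ‖w - θ‖ := by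
    intro c hc
    have key := norm_eval_le_prod (g.map (algebraMap K (PadicAlgCl p)) - C c) ?_
      (T.filter (fun θ => aeval θ g = c)) ?_ w hw.2.2.1.le
    · have he : (g.map (algebraMap K (PadicAlgCl p)) - C c).eval w = ζ - c := by
        rw [eval_sub, eval_C, eval_map_algebraMap, hgw]
      rwa [he] at key
    · intro j
      rw [coeff_sub, coeff_map, coeff_C, sub_eq_add_neg]
      refine (IsUltrametricDist.norm_add_le_max _ _).trans (max_le (hg j) ?_)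
      rw [norm_neg]
      split_ifs
      · exact (hcn c hc).le
      · rw [norm_zero]; exact zero_le_one
    · intro θ hθ
      obtain ⟨hθT, hθc⟩ := Finset.mem_filter.mp hθ
      refine ⟨hθ1 θ hθT, ?_⟩
      rw [eval_sub, eval_C, eval_map_algebraMap, hθc, sub_self]
  have hcard : V.card ≤ N := by
    have hsub : V ⊆ (primitiveRoots (p ^ i) (PadicAlgCl p)).image (fun η => ζ * η) := by
      intro c hc
      obtain ⟨η, hη, rfl⟩ := hVval c hc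
      exact Finset.mem_image_of_mem _ ((mem_primitiveRoots (pow_pos hp.pos i)).mpr hη)
    refine (Finset.card_le_card hsub).trans (Finset.card_image_le.trans ?_)
    rw [hη0.card_primitiveRoots, Nat.totient_prime_pow hp hi]
  have hprod : ∏ θ ∈ T, ‖w - θ‖ =
      ∏ c ∈ V, ∏ θ ∈ T.filter (fun θ => aeval θ g = c), ‖w - θ‖ :=
    (Finset.prod_fiberwise_of_maps_to (fun θ hθ => Finset.mem_image_of_mem _ hθ) _).symm
  rw [hprod]
  calc (p : ℝ)⁻¹ = (p : ℝ) ^ (-(1 : ℝ)) := by rw [Real.rpow_neg_one]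
    _ ≤ (p : ℝ) ^ ((-(1 : ℝ) / N) * (V.card : ℝ)) := by
        refine Real.rpow_le_rpow_of_exponent_le hp1.le ?_
        have hNr0 : (0 : ℝ) < N := by exact_mod_cast hNpos
        have h1 : (V.card : ℝ) / N ≤ 1 := by
          rw [div_le_one hNr0]; exact_mod_cast hcard
        have h2 : -(1 : ℝ) / N * (V.card : ℝ) = -((V.card : ℝ) / N) := by ring
        rw [h2]
        linarith
    _ = ∏ c ∈ V, ‖ζ - c‖ := by
        rw [Finset.prod_congr rfl hnorm, Finset.prod_const, Real.rpow_mul hp0.le,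
          Real.rpow_natCast]
    _ ≤ _ := Finset.prod_le_prod (fun _ _ => norm_nonneg _) hfib

end MP4270
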