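import Pool.Agent.Lib_MP_4270a5_nt.Iso

open Polynomial IntermediateField

namespace MP4270

variable {p : ℕ} [Fact p.Prime]

/-- an automorphism fixing `F` pointwise on generators fixes the field -/
theorem levB_fix (K : IntermediateField ℚ_[p] (PadicAlgCl p)) {r : ℕ} (ζ : PadicAlgCl p)
    (α : Fin r → PadicAlgCl p) (σ : PadicAlgCl p ≃ₐ[ℚ_[p]] PadicAlgCl p) (hK : ∀ x ∈ K, σ x = x)
    (hζ : σ ζ = ζ) (hα : ∀ i, σ (α i) = α i) : ∀ x ∈ KumL K ζ α, σ x = x := by
  have key : ∀ z : PadicAlgCl p, σ z = z →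
      z ∈ (fixedField (Subgroup.zpowers σ) : IntermediateField ℚ_[p] (PadicAlgCl p)) := by
    intro z hz
    rw [mem_fixedField_iff]
    intro g hg
    obtain ⟨n, rfl⟩ := Subgroup.mem_zpowers_iff.1 hg
    have h4 : σ ∈ MulAction.stabilizer (PadicAlgCl p ≃ₐ[ℚ_[p]] PadicAlgCl p) z := hz
    exact (Subgroup.zpow_mem _ h4 n : _)
  have h2 : KumL K ζ α ≤ (fixedField (Subgroup.zpowers σ) : IntermediateField ℚ_[p] (PadicAlgCl p)) := by
    refine sup_le (fun z hz => key z (hK z hz)) (adjoin_le_iff.2 ?_)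
    rintro z (rfl | ⟨i, rfl⟩)
    · exact key _ hζ
    · exact key _ (hα i)
  intro x hx
  exact (mem_fixedField_iff _ _).1 (h2 hx) σ (Subgroup.mem_zpowers _)

/-- two automorphisms which agree on the generators -/
theorem levB_agree (K : IntermediateField ℚ_[p] (PadicAlgCl p)) {r : ℕ} (ζ : PadicAlgCl p)
    (α : Fin r → PadicAlgCl p) (σ τ : PadicAlgCl p ≃ₐ[ℚ_[p]] PadicAlgCl p) (hK : ∀ x ∈ K, σ x = τ x)
    (hζ : σ ζ = τ ζ) (hα : ∀ i, σ (α i) = τ (α i)) : ∀ x ∈ KumL K ζ α, σ x = τ x := by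
  have h : ∀ x ∈ KumL K ζ α, (σ.trans τ.symm) x = x := by
    refine levB_fix K ζ α _ ?_ ?_ ?_
    · intro x hx
      rw [AlgEquiv.trans_apply, hK x hx, AlgEquiv.symm_apply_apply]
    · rw [AlgEquiv.trans_apply, hζ, AlgEquiv.symm_apply_apply]
    · intro i
      rw [AlgEquiv.trans_apply, hα i, AlgEquiv.symm_apply_apply]
  intro x hx
  have h1 := h x hx
  rw [AlgEquiv.trans_apply] at h1
  rw [← h1, AlgEquiv.apply_symm_apply, h1]

/-- The number of conjugates of `w` over `K_m = KumL K (ζ^(p^m)) (α_i^(p^m))` is at most `p^(m(r+1))`: a conjugate is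
`σ w`, `w ∈ L = KumL K ζ α`, and `σ` on `L` is determined by the roots of unity `σ ζ/ζ`, `σ α_i/α_i` of order dividing
`p^m`. -/
theorem card_conj_le (K : IntermediateField ℚ_[p] (PadicAlgCl p)) {r : ℕ} (m : ℕ)
    {ζ : PadicAlgCl p} (hζ0 : ζ ≠ 0) (α : Fin r → PadicAlgCl p) (hα : ∀ i, α i ≠ 0)
    {w : PadicAlgCl p} (hw : w ∈ KumL K ζ α) :
    (minpoly (↥(KumL K (ζ ^ p ^ m) (fun i => α i ^ p ^ m))) w).natDegree ≤ p ^ (m * (r + 1)) := by
  classical
  have hpp : p.Prime := Fact.out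
  set Km := KumL K (ζ ^ p ^ m) (fun i => α i ^ p ^ m) with hKm
  have hint : IsIntegral Km w :=
    ((Algebra.IsAlgebraic.isAlgebraic (R := ℚ_[p]) w).isIntegral).tower_top
  have hsep : (minpoly Km w).Separable := (minpoly.irreducible hint).separable
  have hcard : (minpoly Km w).natDegree = ((minpoly Km w).aroots (PadicAlgCl p)).toFinset.card := by
    rw [aroots, Multiset.toFinset_card_of_nodup (nodup_roots hsep.map),
      IsAlgClosed.card_roots_eq_natDegree, natDegree_map]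
  rw [hcard]
  set R := ((minpoly Km w).aroots (PadicAlgCl p)).toFinset with hR
  have hRmem : ∀ θ ∈ R, aeval θ (minpoly Km w) = 0 := by
    intro θ hθ
    rw [hR, Multiset.mem_toFinset, mem_aroots] at hθ
    exact hθ.2
  have hσ : ∀ θ ∈ R, ∃ σ : PadicAlgCl p ≃ₐ[ℚ_[p]] PadicAlgCl p, (∀ z ∈ Km, σ z = z) ∧ σ w = θ :=
    fun θ hθ => exists_conj Km w θ (hRmem θ hθ)
  choose! σ hσ1 hσ2 using hσ
  have hKKm : K ≤ Km := le_sup_left
  have hgen : ∀ x ∈ ({ζ ^ p ^ m} ∪ Set.range (fun i => α i ^ p ^ m) : Set (PadicAlgCl p)), x ∈ Km :=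
    fun x hx => (le_sup_right : _ ≤ Km) (subset_adjoin _ _ hx)
  let g : Option (Fin r) → PadicAlgCl p := fun o => o.elim ζ α
  have hg0 : ∀ o, g o ≠ 0 := by
    rintro (_ | i)
    · exact hζ0
    · exact hα i
  have hgm : ∀ o, g o ^ p ^ m ∈ Km := by
    rintro (_ | i)
    · exact hgen _ (Or.inl rfl)
    · exact hgen _ (Or.inr ⟨i, rfl⟩)
  let F : Finset (PadicAlgCl p) := (nthRoots (p ^ m) (1 : PadicAlgCl p)).toFinset
  have hF : F.card ≤ p ^ m := (Multiset.toFinset_card_le _).trans (card_nthRoots _ _)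
  let φ : PadicAlgCl p → (Option (Fin r) → PadicAlgCl p) := fun θ o => σ θ (g o) / g o
  have hmaps : ∀ θ ∈ R, φ θ ∈ Fintype.piFinset (fun _ : Option (Fin r) => F) := by
    intro θ hθ
    rw [Fintype.mem_piFinset]
    intro o
    rw [Multiset.mem_toFinset, mem_nthRoots (pow_pos hpp.pos _)]
    change (σ θ (g o) / g o) ^ p ^ m = 1
    rw [div_pow, ← map_pow, hσ1 θ hθ _ (hgm o), div_self (pow_ne_zero _ (hg0 o))]
  have hinj : Set.InjOn φ R := by
    intro θ hθ θ' hθ' h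
    have h1 : ∀ o, σ θ (g o) = σ θ' (g o) := by
      intro o
      have h2 : σ θ (g o) / g o = σ θ' (g o) / g o := congrFun h o
      exact (div_left_inj' (hg0 o)).1 h2
    have h3 := levB_agree K ζ α (σ θ) (σ θ')
      (fun x hx => by rw [hσ1 θ hθ x (hKKm hx), hσ1 θ' hθ' x (hKKm hx)])
      (h1 none) (fun i => h1 (some i)) w hw
    rw [hσ2 θ hθ, hσ2 θ' hθ'] at h3
    exact h3
  calc R.card ≤ (Fintype.piFinset (fun _ : Option (Fin r) => F)).card :=
        Finset.card_le_card_of_injOn φ hmaps hinj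
    _ = F.card ^ (r + 1) := by
        rw [Fintype.card_piFinset]
        simp
    _ ≤ (p ^ m) ^ (r + 1) := Nat.pow_le_pow_left hF _
    _ = p ^ (m * (r + 1)) := by rw [← pow_mul]

end MP4270
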