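import Pool.Agent.Lib_MP_4270a5_nt.CountA
import Pool.Agent.Lib_MP_4270a5_nt.LevA
import Pool.Agent.Lib_MP_4270a5_nt.LevB

open Polynomial IntermediateField

namespace MP4270

variable {p : ℕ} [Fact p.Prime]

/-- the level of a root of unity -/
theorem count_level {k m : ℕ} (hmk : m ≤ k) {ζ ζ' : PadicAlgCl p} (hζ : IsPrimitiveRoot ζ (p ^ k))
    (h : ζ' ^ p ^ m = ζ ^ p ^ m) :
    ∃ i ≤ m, (i = 0 → ζ' = ζ) ∧ (i ≠ 0 → ∃ u : ℕ, ¬ p ∣ u ∧ ζ' = ζ ^ (1 + p ^ (k - i) * u)) := by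
  have hp : p.Prime := Fact.out
  have hζ0 : ζ ≠ 0 := hζ.ne_zero (pow_ne_zero _ hp.ne_zero)
  have h1 : (ζ' / ζ) ^ p ^ m = 1 := by
    rw [div_pow, h, div_self (pow_ne_zero _ hζ0)]
  have h2 : (ζ' / ζ) ^ p ^ k = 1 := by
    obtain ⟨n, rfl⟩ := Nat.exists_eq_add_of_le hmk
    rw [pow_add, pow_mul, h1, one_pow]
  have : NeZero (p ^ k) := ⟨pow_ne_zero _ hp.ne_zero⟩
  obtain ⟨j, hj, hj2⟩ := hζ.eq_pow_of_pow_eq_one h2
  have h3 : ζ' = ζ ^ (1 + j) := by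
    rw [pow_add, pow_one, hj2]
    field_simp
  rcases Nat.eq_zero_or_pos j with hj0 | hj0
  · refine ⟨0, Nat.zero_le _, fun _ => ?_, fun h => absurd rfl h⟩
    rw [h3, hj0]
    simp
  · obtain ⟨v, u, hu, hvu⟩ := Nat.exists_eq_pow_mul_and_not_dvd hj0.ne' p hp.ne_one
    have hv : v < k := by
      have h4 : p ^ v ≤ j := by
        rw [hvu]
        have : 0 < u := by
          rcases Nat.eq_zero_or_pos u with h0 | h0
          · rw [h0] at hu
            exact absurd (dvd_zero p) hu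
          · exact h0
        exact Nat.le_mul_of_pos_right _ this
      exact (Nat.pow_lt_pow_iff_right hp.one_lt).1 (lt_of_le_of_lt h4 hj)
    have h5 : p ^ k ∣ j * p ^ m := by
      rw [← hζ.pow_eq_one_iff_dvd, pow_mul, hj2, h1]
    have h6 : k ≤ v + m := by
      rw [hvu] at h5
      have h7 : p ^ k ∣ p ^ (v + m) * u := by
        rw [pow_add]
        convert h5 using 1
        ring
      have h8 : Nat.Coprime (p ^ k) u := Nat.Coprime.pow_left _ ((Nat.Prime.coprime_iff_not_dvd hp).2 hu)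
      exact (Nat.pow_dvd_pow_iff_le_right hp.one_lt).1 (h8.dvd_of_dvd_mul_right h7)
    refine ⟨k - v, by omega, fun h => by omega, fun _ => ⟨u, hu, ?_⟩⟩
    have h9 : k - (k - v) = v := by omega
    rw [h3, hvu, h9]

theorem count_mem_zeta (K : IntermediateField ℚ_[p] (PadicAlgCl p)) {r : ℕ} (ζ : PadicAlgCl p)
    (α : Fin r → PadicAlgCl p) : ζ ∈ KumL K ζ α := by
  have h : ζ ∈ adjoin ℚ_[p] ({ζ} ∪ Set.range α) := subset_adjoin _ _ (Or.inl rfl)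
  exact (le_sup_right : _ ≤ KumL K ζ α) h

theorem count_mem_alpha (K : IntermediateField ℚ_[p] (PadicAlgCl p)) {r : ℕ} (ζ : PadicAlgCl p)
    (α : Fin r → PadicAlgCl p) (i : Fin r) : α i ∈ KumL K ζ α := by
  have h : α i ∈ adjoin ℚ_[p] ({ζ} ∪ Set.range α) := subset_adjoin _ _ (Or.inr ⟨i, rfl⟩)
  exact (le_sup_right : _ ≤ KumL K ζ α) h

theorem count_kumL_le (K L : IntermediateField ℚ_[p] (PadicAlgCl p)) {r : ℕ} (ζ : PadicAlgCl p)
    (α : Fin r → PadicAlgCl p) (hK : K ≤ L) (hζ : ζ ∈ L) (hα : ∀ i, α i ∈ L) : KumL K ζ α ≤ L := by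
  refine sup_le hK (adjoin_le_iff.2 ?_)
  rintro x (rfl | ⟨i, rfl⟩)
  · exact hζ
  · exact hα i

theorem count_resTriv {B K L M : IntermediateField ℚ_[p] (PadicAlgCl p)} (h : ResTriv B L)
    (hBK : B ≤ K) (hKM : K ≤ M) (hML : M ≤ L) : ResTriv K M := by
  refine ⟨hKM, fun x hx h1 => ?_⟩
  obtain ⟨y, hy, h2⟩ := h.2 x (hML hx) h1
  exact ⟨y, hBK hy, h2⟩

theorem count_root_mem {K : IntermediateField ℚ_[p] (PadicAlgCl p)} {w θ : PadicAlgCl p}
    [DecidableEq (PadicAlgCl p)] (hw : IsIntegral K w) :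
    θ ∈ ((minpoly K w).aroots (PadicAlgCl p)).toFinset ↔ aeval θ (minpoly K w) = 0 := by
  rw [Multiset.mem_toFinset, mem_aroots]
  exact and_iff_right (minpoly.ne_zero hw)

theorem count_norm_sub_le {a b : PadicAlgCl p} (ha : ‖a‖ ≤ 1) (hb : ‖b‖ ≤ 1) : ‖a - b‖ ≤ 1 := by
  have h := PadicAlgCl.isNonarchimedean p a (-b)
  rw [norm_neg, ← sub_eq_add_neg] at h
  exact h.trans (max_le ha hb)

/-- a finite product of factors in `[a, ∞)` with at most `n` factors, `a = p^(-x)` -/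
theorem count_prod_ge {ι : Type*} (s : Finset ι) (f : ι → ℝ) {x y : ℝ}
    (hf : ∀ i ∈ s, (p : ℝ) ^ (-x) ≤ f i) (hy : x * s.card ≤ y) : (p : ℝ) ^ (-y) ≤ ∏ i ∈ s, f i := by
  have hp : (1 : ℝ) < p := by exact_mod_cast (Fact.out : p.Prime).one_lt
  have hp0 : (0 : ℝ) < p := by linarith
  calc (p : ℝ) ^ (-y) ≤ (p : ℝ) ^ (-(x * s.card)) :=
        Real.rpow_le_rpow_of_exponent_le hp.le (by linarith)
    _ = ∏ _i ∈ s, (p : ℝ) ^ (-x) := by
        rw [Finset.prod_const, ← Real.rpow_natCast, ← Real.rpow_mul hp0.le]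
        congr 1
        ring
    _ ≤ ∏ i ∈ s, f i := Finset.prod_le_prod (fun i _ => Real.rpow_nonneg hp0.le _) hf

theorem count_prod_mono {ι : Type*} [DecidableEq ι] {s t : Finset ι} (hst : s ⊆ t) (f : ι → ℝ)
    (h0 : ∀ i ∈ t, 0 ≤ f i) (h1 : ∀ i ∈ t, f i ≤ 1) : ∏ i ∈ t, f i ≤ ∏ i ∈ s, f i := by
  rw [← Finset.prod_sdiff hst]
  have h2 : ∏ i ∈ t \ s, f i ≤ 1 :=
    Finset.prod_le_one (fun i hi => h0 i (Finset.sdiff_subset hi))
      (fun i hi => h1 i (Finset.sdiff_subset hi))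
  have h3 : 0 ≤ ∏ i ∈ s, f i := Finset.prod_nonneg fun i hi => h0 i (hst hi)
  exact mul_le_of_le_one_left h3 h2

/-- THE COUNT. `C = c + d + 4`, `m ≥ 4 C + c' + 4`. There is a conjugate `θ = ρ w` of the uniformizer `w` of
`L = KumL K' ζ α` over `K_m = KumL K' (ζ^(p^m)) (α^(p^m))`, of a level `i ≤ m`, `2 i ≥ m + 1 + c'`, with
`‖θ - w‖ ≤ p^(-δ₁)`, `δ₁ = 1/(2 p^(m(r+1)))`.
Proof. `R` = conjugates of `w` over `K_m` (`card_conj_le`), `D_m = ∑_{θ ∈ R, θ ≠ w} v(θ - w)`. `tower` for `K' ≤ K_m ≤ L`,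
`dif_zeta` with `tower` for `K' ≤ K'(ζ) ≤ L` (`dif K' w ≤ dif K' v`), and `dif_kumL` for `K_m` (level `k - m`) give
`D_m ≥ (k - d - 2) - (k - m + c + 2) = m - C`. Let `θ = σ w ∈ R`, `σ` fixes `K_m ∋ ζ^(p^m)`, so `σ ζ = ζ^(1 + p^(k-m) u')`:
either `σ ζ = ζ` (level 0) or `σ ζ = ζ^(1 + p^(k-i) u)` with `p ∤ u`, `1 ≤ i ≤ m` (level `i`). Level 0 with `θ ≠ w`: these are
conjugates over `K'(ζ)`, so their sum is `≤ D(L/K'(ζ)) = D(L/K') - D(K'(ζ)/K') ≤ (k + c + 2) - (k - d - 2) = C`. Each level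
`i ≥ 1` has sum `≤ 1` (`level_prod`). If no `θ` of a level `i` in `J = {i : m + 1 + c' ≤ 2 i ≤ 2 m}` has
`v(θ - w) ≥ δ₁`, then the levels in `J` have total sum `< #R δ₁ ≤ 1/2`, so `m - C ≤ C + (m - #J) + 1/2`, but
`#J ≥ (m - c' - 1)/2 > 2 C + 1/2`. -/
theorem exists_level (B K' : IntermediateField ℚ_[p] (PadicAlgCl p)) [FiniteDimensional ℚ_[p] K']
    (hB : ∀ x ∈ B, x ≠ 0 → ∃ n : ℤ, ‖x‖ = (p : ℝ) ^ n) (hBK : B ≤ K') {e d : ℕ}
    (he : Module.finrank ℚ_[p] K' = Module.finrank ℚ_[p] B * e) (hd : padicValNat p e ≤ d)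
    {r k c c' m : ℕ} (hm : 4 * (c + d + 4) + c' + 4 ≤ m) (hk : m < k)
    {ζ : PadicAlgCl p} (hζ : IsPrimitiveRoot ζ (p ^ k)) (α : Fin r → PadicAlgCl p)
    (hα : ∀ i, α i ^ (p ^ k) ∈ K')
    (hαc : ∀ i, (p : ℝ) ^ (-(c : ℝ)) ≤ ‖α i ^ (p ^ k)‖ ∧ ‖α i ^ (p ^ k)‖ ≤ (p : ℝ) ^ (c : ℝ))
    (hres : ResTriv B (KumL K' ζ α)) {w : PadicAlgCl p} (hw : IsUnif (KumL K' ζ α) w) :
    ∃ (ρ : PadicAlgCl p ≃ₐ[ℚ_[p]] PadicAlgCl p) (i u : ℕ), i ≤ m ∧ m + 1 + c' ≤ 2 * i ∧ ¬ p ∣ u ∧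
      (∀ x ∈ KumL K' (ζ ^ p ^ m) (fun i => α i ^ p ^ m), ρ x = x) ∧ ρ ζ = ζ ^ (1 + p ^ (k - i) * u) ∧
      ‖ρ w - w‖ ≤ (p : ℝ) ^ (-(1 / (2 * (p : ℝ) ^ (m * (r + 1))))) := by
  classical
  have hpp : p.Prime := Fact.out
  have hp : (1 : ℝ) < p := by exact_mod_cast hpp.one_lt
  have hp0 : (0 : ℝ) < p := by linarith
  have hζ0 : ζ ≠ 0 := hζ.ne_zero (pow_ne_zero _ hpp.ne_zero)
  have hα0 : ∀ i, α i ≠ 0 := by
    intro i h0
    have h1 := (hαc i).1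
    rw [h0, zero_pow (pow_ne_zero _ hpp.ne_zero), norm_zero] at h1
    exact absurd h1 (not_le.2 (Real.rpow_pos_of_pos hp0 _))
  -- the fields
  set L := KumL K' ζ α with hL
  set Km := KumL K' (ζ ^ p ^ m) (fun i => α i ^ p ^ m) with hKm
  set Kz := K' ⊔ ℚ_[p]⟮ζ⟯ with hKz
  have hfL : FiniteDimensional ℚ_[p] L := kumL_finite K' ζ α
  have hfm : FiniteDimensional ℚ_[p] Km := kumL_finite K' _ _
  have hKKm : K' ≤ Km := le_sup_left
  have hKL : K' ≤ L := le_sup_left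
  have hζL : ζ ∈ L := count_mem_zeta K' ζ α
  have hKmL : Km ≤ L := count_kumL_le K' L _ _ hKL (pow_mem hζL _)
    fun i => pow_mem (count_mem_alpha K' ζ α i) _
  have hKKz : K' ≤ Kz := le_sup_left
  have hζz : ζ ∈ Kz := (le_sup_right : ℚ_[p]⟮ζ⟯ ≤ Kz) (mem_adjoin_simple_self _ _)
  have hKzL : Kz ≤ L := by
    refine sup_le hKL ?_
    rw [adjoin_simple_le_iff]
    exact hζL
  have hfz : FiniteDimensional ℚ_[p] Kz := by
    exact FiniteDimensional.of_injective (IntermediateField.inclusion hKzL).toLinearMap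
      (IntermediateField.inclusion hKzL).injective
  have hrKL : ResTriv K' L := count_resTriv hres hBK hKL le_rfl
  have hrKm : ResTriv K' Km := count_resTriv hres hBK hKKm hKmL
  have hrBz : ResTriv B Kz := count_resTriv hres le_rfl (hBK.trans hKKz) hKzL
  -- uniformizers
  obtain ⟨vm, hvm⟩ := exists_unif Km
  obtain ⟨v, hv⟩ := exists_unif Kz
  have hw1 : ‖w‖ ≤ 1 := hw.2.2.1.le
  -- the differents
  have t1 : dif K' w = dif Km w * dif K' vm := tower K' Km L hKKm hKmL hrKL hw hvm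
  have t2 : dif K' w = dif Kz w * dif K' v := tower K' Kz L hKKz hKzL hrKL hw hv
  have e1 : (p : ℝ) ^ (-((k : ℝ) + c + 2)) ≤ dif K' w :=
    dif_kumL K' k c (Nat.cast_nonneg c) hζ α hα hαc hrKL hw
  have hk' : ζ ^ p ^ m = ζ ^ p ^ m := rfl
  have hkm : p ^ m * p ^ (k - m) = p ^ k := by
    rw [← pow_add]
    congr 1
    omega
  have hζm : IsPrimitiveRoot (ζ ^ p ^ m) (p ^ (k - m)) :=
    hζ.pow (pow_pos hpp.pos _) hkm.symm
  have hαm : ∀ i, (α i ^ p ^ m) ^ p ^ (k - m) = α i ^ p ^ k := by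
    intro i
    rw [← pow_mul, hkm]
  have e2 : (p : ℝ) ^ (-(((k - m : ℕ) : ℝ) + c + 2)) ≤ dif K' vm :=
    dif_kumL K' (k - m) c (Nat.cast_nonneg c) hζm (fun i => α i ^ p ^ m)
      (fun i => by rw [hαm i]; exact hα i) (fun i => by rw [hαm i]; exact hαc i) hrKm hvm
  have e3 : dif K' v ≤ (p : ℝ) ^ (-((k : ℝ) - d - 2)) :=
    dif_zeta B K' hB he hd (by omega) hζ hrBz hBK hv
  have e4 : dif Kz w ≤ 1 := dif_le_one Kz hw1
  have hcast : ((k - m : ℕ) : ℝ) = (k : ℝ) - m := by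
    rw [Nat.cast_sub hk.le]
  rw [hcast] at e2
  set C : ℝ := (c : ℝ) + d + 4 with hC
  -- upper bound for `dif Km w`
  have u1 : dif Km w ≤ (p : ℝ) ^ (-((m : ℝ) - C)) := by
    have h1 : dif K' w ≤ (p : ℝ) ^ (-((k : ℝ) - d - 2)) := by
      rw [t2]
      calc dif Kz w * dif K' v ≤ 1 * dif K' v :=
            mul_le_mul_of_nonneg_right e4 (dif_pos K' v).le
        _ ≤ _ := by rw [one_mul]; exact e3
    have h2 : dif Km w * (p : ℝ) ^ (-((k : ℝ) - m + c + 2)) ≤ (p : ℝ) ^ (-((k : ℝ) - d - 2)) := by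
      calc dif Km w * (p : ℝ) ^ (-((k : ℝ) - m + c + 2)) ≤ dif Km w * dif K' vm :=
            mul_le_mul_of_nonneg_left e2 (dif_pos Km w).le
        _ = dif K' w := t1.symm
        _ ≤ _ := h1
    have h3 : (p : ℝ) ^ (-((k : ℝ) - d - 2)) =
        (p : ℝ) ^ (-((m : ℝ) - C)) * (p : ℝ) ^ (-((k : ℝ) - m + c + 2)) := by
      rw [← Real.rpow_add hp0]
      congr 1
      rw [hC]
      ring
    rw [h3] at h2
    exact le_of_mul_le_mul_right h2 (Real.rpow_pos_of_pos hp0 _)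
  -- lower bound for `dif Kz w`
  have u2 : (p : ℝ) ^ (-C) ≤ dif Kz w := by
    have h1 : (p : ℝ) ^ (-((k : ℝ) + c + 2)) ≤ dif Kz w * (p : ℝ) ^ (-((k : ℝ) - d - 2)) := by
      calc (p : ℝ) ^ (-((k : ℝ) + c + 2)) ≤ dif K' w := e1
        _ = dif Kz w * dif K' v := t2
        _ ≤ _ := mul_le_mul_of_nonneg_left e3 (dif_pos Kz w).le
    have h3 : (p : ℝ) ^ (-((k : ℝ) + c + 2)) =
        (p : ℝ) ^ (-C) * (p : ℝ) ^ (-((k : ℝ) - d - 2)) := by
      rw [← Real.rpow_add hp0]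
      congr 1
      rw [hC]
      ring
    rw [h3] at h1
    exact le_of_mul_le_mul_right h1 (Real.rpow_pos_of_pos hp0 _)
  -- the conjugates
  have hwi : ∀ K : IntermediateField ℚ_[p] (PadicAlgCl p), IsIntegral K w := by
    intro K
    exact ((Algebra.IsAlgebraic.isAlgebraic (R := ℚ_[p]) w).isIntegral).tower_top
  set R := ((minpoly Km w).aroots (PadicAlgCl p)).toFinset with hR
  have hRmem : ∀ θ ∈ R, aeval θ (minpoly Km w) = 0 := fun θ hθ => (count_root_mem (hwi Km)).1 hθ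
  have hσ : ∀ θ ∈ R, ∃ σ : PadicAlgCl p ≃ₐ[ℚ_[p]] PadicAlgCl p, (∀ z ∈ Km, σ z = z) ∧ σ w = θ :=
    fun θ hθ => exists_conj Km w θ (hRmem θ hθ)
  choose! σ hσ1 hσ2 using hσ
  have hlv : ∀ θ ∈ R, ∃ i ≤ m, (i = 0 → σ θ ζ = ζ) ∧
      (i ≠ 0 → ∃ u : ℕ, ¬ p ∣ u ∧ σ θ ζ = ζ ^ (1 + p ^ (k - i) * u)) := by
    intro θ hθ
    refine count_level hk.le hζ ?_
    rw [← map_pow]
    exact hσ1 θ hθ _ (count_mem_zeta K' _ _)
  choose! lv hlv1 hlv2 hlv3 using hlv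
  by_contra hcon
  push Not at hcon
  have hcon' : ∀ θ ∈ R, m + 1 + c' ≤ 2 * lv θ →
      (p : ℝ) ^ (-(1 / (2 * (p : ℝ) ^ (m * (r + 1))))) < ‖w - θ‖ := by
    intro θ hθ hl
    obtain ⟨u, hu, hu2⟩ := hlv3 θ hθ (by omega)
    have h1 := hcon (σ θ) (lv θ) u (hlv1 θ hθ) hl hu (hσ1 θ hθ) hu2
    rwa [hσ2 θ hθ, norm_sub_rev] at h1
  set A := R.erase w with hA
  have hdif : dif Km w = ∏ θ ∈ A, ‖w - θ‖ := dif_eq_prod Km w
  have hθ1 : ∀ θ ∈ A, ‖θ‖ ≤ 1 := by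
    intro θ hθ
    have hθR := (Finset.mem_erase.1 hθ).2
    rw [← hσ2 θ hθR, norm_equiv]
    exact hw1
  -- the three parts
  set A0 := A.filter (fun θ => lv θ = 0) with hA0
  set A1 := A.filter (fun θ => lv θ ≠ 0 ∧ 2 * lv θ < m + 1 + c') with hA1
  set A2 := A.filter (fun θ => m + 1 + c' ≤ 2 * lv θ) with hA2
  have hsplit : ∏ θ ∈ A, ‖w - θ‖ =
      (∏ θ ∈ A0, ‖w - θ‖) * ((∏ θ ∈ A1, ‖w - θ‖) * ∏ θ ∈ A2, ‖w - θ‖) := by
    have hd1 : Disjoint A1 A2 := by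
      rw [Finset.disjoint_filter]
      intro θ _ h1 h2
      omega
    have hd2 : Disjoint A0 (A1 ∪ A2) := by
      rw [Finset.disjoint_union_right]
      constructor
      · rw [Finset.disjoint_filter]
        intro θ _ h1 h2
        exact h2.1 h1
      · rw [Finset.disjoint_filter]
        intro θ _ h1 h2
        omega
    rw [← Finset.prod_union hd1, ← Finset.prod_union hd2]
    congr 1
    ext θ
    simp only [hA0, hA1, hA2, Finset.mem_union, Finset.mem_filter]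
    constructor
    · intro h
      by_cases h1 : lv θ = 0
      · exact Or.inl ⟨h, h1⟩
      · by_cases h2 : 2 * lv θ < m + 1 + c'
        · exact Or.inr (Or.inl ⟨h, h1, h2⟩)
        · exact Or.inr (Or.inr ⟨h, by omega⟩)
    · rintro (h | h | h)
      · exact h.1
      · exact h.1
      · exact h.1
  -- level 0
  have b0 : (p : ℝ) ^ (-C) ≤ ∏ θ ∈ A0, ‖w - θ‖ := by
    have h1 : dif Kz w = ∏ θ ∈ ((minpoly Kz w).aroots (PadicAlgCl p)).toFinset.erase w, ‖w - θ‖ :=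
      dif_eq_prod Kz w
    rw [h1] at u2
    refine u2.trans (count_prod_mono ?_ _ (fun _ _ => norm_nonneg _) ?_)
    · intro θ hθ
      obtain ⟨hθA, hθ0⟩ := Finset.mem_filter.1 hθ
      obtain ⟨hθw, hθR⟩ := Finset.mem_erase.1 hθA
      refine Finset.mem_erase.2 ⟨hθw, (count_root_mem (hwi Kz)).2 ?_⟩
      have hfix : ∀ z ∈ Kz, σ θ z = z := by
        have h2 : Kz ≤ (fixedField (Subgroup.zpowers (σ θ)) : IntermediateField ℚ_[p] (PadicAlgCl p)) := by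
          refine sup_le ?_ ?_
          · intro z hz
            rw [mem_fixedField_iff]
            intro g hg
            have h3 : σ θ z = z := hσ1 θ hθR z (hKKm hz)
            obtain ⟨n, rfl⟩ := Subgroup.mem_zpowers_iff.1 hg
            have h4 : σ θ ∈ MulAction.stabilizer (PadicAlgCl p ≃ₐ[ℚ_[p]] PadicAlgCl p) z := h3
            exact (Subgroup.zpow_mem _ h4 n : _)
          · rw [adjoin_simple_le_iff, mem_fixedField_iff]
            intro g hg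
            have h3 : σ θ ζ = ζ := hlv2 θ hθR hθ0
            obtain ⟨n, rfl⟩ := Subgroup.mem_zpowers_iff.1 hg
            have h4 : σ θ ∈ MulAction.stabilizer (PadicAlgCl p ≃ₐ[ℚ_[p]] PadicAlgCl p) ζ := h3
            exact (Subgroup.zpow_mem _ h4 n : _)
        intro z hz
        exact (mem_fixedField_iff _ _).1 (h2 hz) (σ θ) (Subgroup.mem_zpowers _)
      have h5 := map_aeval Kz (σ θ) hfix (minpoly Kz w) w
      rw [minpoly.aeval, map_zero, hσ2 θ hθR] at h5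
      exact h5.symm
    · intro θ hθ
      have hθR := (count_root_mem (hwi Kz)).1 (Finset.mem_erase.1 hθ).2
      obtain ⟨τ, _, hτ⟩ := exists_conj Kz w θ hθR
      refine count_norm_sub_le hw1 ?_
      rw [← hτ, norm_equiv]
      exact hw1
  -- low levels
  set t := (m + c') / 2 with ht
  have b1 : (p : ℝ) ^ (-(t : ℝ)) ≤ ∏ θ ∈ A1, ‖w - θ‖ := by
    have hmaps : ∀ θ ∈ A1, lv θ ∈ Finset.Icc 1 t := by
      intro θ hθ
      obtain ⟨_, h1, h2⟩ := Finset.mem_filter.1 hθ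
      rw [Finset.mem_Icc]
      omega
    rw [← Finset.prod_fiberwise_of_maps_to hmaps]
    refine count_prod_ge (Finset.Icc 1 t) _ (x := 1) ?_ (by simp)
    intro i hi
    rw [Finset.mem_Icc] at hi
    by_cases him : i ≤ m
    · have h1 := level_prod K' L hrKL hw hζ hζL hi.1 (him.trans hk.le)
        (A1.filter (fun θ => lv θ = i)) ?_
      · rwa [Real.rpow_neg_one]
      · intro θ hθ
        obtain ⟨hθ1, hθi⟩ := Finset.mem_filter.1 hθ
        have hθR := (Finset.mem_erase.1 (Finset.mem_filter.1 hθ1).1).2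
        refine ⟨σ θ, fun x hx => hσ1 θ hθR x (hKKm hx), hσ2 θ hθR, ?_⟩
        rw [← hθi]
        exact hlv3 θ hθR (by omega)
    · have h1 : A1.filter (fun θ => lv θ = i) = ∅ := by
        rw [Finset.filter_eq_empty_iff]
        intro θ hθ h2
        have hθR := (Finset.mem_erase.1 (Finset.mem_filter.1 hθ).1).2
        have := hlv1 θ hθR
        omega
      rw [h1, Finset.prod_empty]
      exact Real.rpow_le_one_of_one_le_of_nonpos hp.le (by norm_num)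
  -- high levels
  have hcardR : R.card ≤ p ^ (m * (r + 1)) := by
    refine le_trans ?_ (card_conj_le K' m hζ0 α hα0 hw.1)
    refine (Multiset.toFinset_card_le _).trans ?_
    refine (card_roots' _).trans ?_
    exact natDegree_map_le
  have b2 : (p : ℝ) ^ (-(1 / 2 : ℝ)) ≤ ∏ θ ∈ A2, ‖w - θ‖ := by
    have hq : (0 : ℝ) < (p : ℝ) ^ (m * (r + 1)) := pow_pos hp0 _
    refine count_prod_ge A2 _ (x := 1 / (2 * (p : ℝ) ^ (m * (r + 1)))) ?_ ?_
    · intro θ hθ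
      obtain ⟨hθA, hθl⟩ := Finset.mem_filter.1 hθ
      exact (hcon' θ (Finset.mem_erase.1 hθA).2 hθl).le
    · have h1 : (A2.card : ℝ) ≤ (p : ℝ) ^ (m * (r + 1)) := by
        have h2 : A2.card ≤ R.card :=
          Finset.card_le_card ((Finset.filter_subset _ _).trans (Finset.erase_subset _ _))
        exact_mod_cast h2.trans hcardR
      rw [div_mul_eq_mul_div, one_mul, div_le_div_iff₀ (by positivity) (by norm_num)]
      linarith
  -- conclusion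
  have hfin : (p : ℝ) ^ (-(C + t + 1 / 2)) ≤ (p : ℝ) ^ (-((m : ℝ) - C)) := by
    refine le_trans ?_ u1
    rw [hdif, hsplit]
    have h1 : (p : ℝ) ^ (-(C + t + 1 / 2)) =
        (p : ℝ) ^ (-C) * ((p : ℝ) ^ (-(t : ℝ)) * (p : ℝ) ^ (-(1 / 2 : ℝ))) := by
      rw [← Real.rpow_add hp0, ← Real.rpow_add hp0]
      congr 1
      ring
    rw [h1]
    have g0 : 0 ≤ (p : ℝ) ^ (-C) := (Real.rpow_pos_of_pos hp0 _).le
    have g1 : 0 ≤ (p : ℝ) ^ (-(t : ℝ)) := (Real.rpow_pos_of_pos hp0 _).le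
    have g2 : 0 ≤ (p : ℝ) ^ (-(1 / 2 : ℝ)) := (Real.rpow_pos_of_pos hp0 _).le
    exact mul_le_mul b0 (mul_le_mul b1 b2 g2 (g1.trans b1)) (mul_nonneg g1 g2) (g0.trans b0)
  have hfin2 := (Real.rpow_le_rpow_left_iff hp).1 hfin
  have ht2 : (2 : ℝ) * t ≤ m + c' := by
    have h1 : 2 * t ≤ m + c' := by omega
    exact_mod_cast h1
  have hm2 : (4 : ℝ) * (c + d + 4) + c' + 4 ≤ m := by exact_mod_cast hm
  rw [hC] at hfin2
  linarith

end MP4270
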