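import Pool.Agent.Lib_MP_4270a5_nt.PowB
import Pool.Agent.Lib_MP_4270a5_nt.IsoB
import Pool.Agent.Lib_MP_4270a5_nt.RootU

open Polynomial IntermediateField

namespace MP4270

variable {p : ℕ} [Fact p.Prime]

theorem DifC_integral (B : IntermediateField ℚ_[p] (PadicAlgCl p)) (x : PadicAlgCl p) :
    IsIntegral B x := by
  have h1 : IsIntegral ℚ_[p] x := Algebra.IsIntegral.isIntegral x
  exact h1.tower_top

theorem DifC_norm_coeff (B : IntermediateField ℚ_[p] (PadicAlgCl p)) (x : PadicAlgCl p) :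
    ‖(((minpoly B x).coeff 0 : ↥B) : PadicAlgCl p)‖ = ‖x‖ ^ (minpoly B x).natDegree := by
  have hint := DifC_integral B x
  set P := (minpoly B x).map (algebraMap B (PadicAlgCl p)) with hP
  have hmon : P.Monic := (minpoly.monic hint).map _
  have hspl : P.Splits := IsAlgClosed.splits P
  have h0 : (((minpoly B x).coeff 0 : ↥B) : PadicAlgCl p) = P.coeff 0 := by
    rw [hP, coeff_map]; rfl
  have hdeg : P.natDegree = (minpoly B x).natDegree := by
    rw [hP, natDegree_map]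
  have hroots : ∀ y ∈ P.roots, ‖y‖ = ‖x‖ := by
    intro y hy
    have hy' : aeval y (minpoly B x) = 0 := by
      have := (mem_roots (hmon.ne_zero)).1 hy
      rw [IsRoot.def, hP, eval_map] at this
      exact this
    obtain ⟨σ, -, hσ⟩ := exists_conj B x y hy'
    rw [← hσ, norm_equiv]
  have hcard : P.roots.card = P.natDegree := by
    exact hspl.natDegree_eq_card_roots.symm
  rw [h0, hspl.coeff_zero_eq_prod_roots_of_monic hmon, norm_mul, norm_pow, norm_neg, norm_one,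
    one_pow, one_mul, ← hdeg, ← hcard]
  have : ∀ s : Multiset (PadicAlgCl p), (∀ y ∈ s, ‖y‖ = ‖x‖) → ‖s.prod‖ = ‖x‖ ^ s.card := by
    intro s
    induction s using Multiset.induction_on with
    | empty => intro _; simp
    | cons a s ih =>
      intro h
      rw [Multiset.prod_cons, norm_mul, Multiset.card_cons, pow_succ, mul_comm,
        ih (fun y hy => h y (Multiset.mem_cons_of_mem hy)), h a (Multiset.mem_cons_self a s)]
  exact this _ hroots

theorem DifC_pow (B : IntermediateField ℚ_[p] (PadicAlgCl p))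
    (hB : ∀ x ∈ B, x ≠ 0 → ∃ n : ℤ, ‖x‖ = (p : ℝ) ^ n) (x : PadicAlgCl p) (hx : x ≠ 0) :
    ∃ n : ℤ, ‖x‖ ^ (minpoly B x).natDegree = (p : ℝ) ^ n := by
  rw [← DifC_norm_coeff]
  refine hB _ (SetLike.coe_mem _) ?_
  intro h
  have h' := DifC_norm_coeff B x
  rw [h, norm_zero] at h'
  exact hx (norm_eq_zero.1 (pow_eq_zero_iff (minpoly.natDegree_pos (DifC_integral B x)).ne' |>.1 h'.symm))

/-- degrees of minimal polynomials over `B` of elements of `B(ζ)` divide the degree of `ζ` -/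
theorem DifC_deg_dvd (B : IntermediateField ℚ_[p] (PadicAlgCl p)) (z x : PadicAlgCl p)
    (hx : x ∈ B ⊔ ℚ_[p]⟮z⟯) : (minpoly B x).natDegree ∣ (minpoly B z).natDegree := by
  have hz := DifC_integral B z
  have h1 : x ∈ (B⟮z⟯ : IntermediateField B (PadicAlgCl p)) := by
    rw [← restrictScalars_adjoin_eq_sup] at hx
    exact hx
  have : FiniteDimensional B B⟮z⟯ := adjoin.finiteDimensional hz
  have h2 : (minpoly B (⟨x, h1⟩ : B⟮z⟯)) = minpoly B x := by
    exact (minpoly.algebraMap_eq (algebraMap B⟮z⟯ (PadicAlgCl p)).injective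
      (⟨x, h1⟩ : B⟮z⟯)).symm
  rw [← h2, ← adjoin.finrank hz]
  exact minpoly.degree_dvd (Algebra.IsIntegral.isIntegral _)

/-- The cyclotomic extension of an unramified field `B`: `ζ - 1` is a uniformizer of `B(ζ)`, of degree `φ(p^k)` over `B`
(its norm is `p^(-1/φ(p^k))`), so `minpoly B ζ` is the cyclotomic polynomial `Φ`, and
`Φ'(ζ) (ζ^(p^(k-1)) - 1) = p^k ζ^(-1)` gives `D = k - 1/(p-1)`. -/
theorem dif_cyc (B : IntermediateField ℚ_[p] (PadicAlgCl p)) [FiniteDimensional ℚ_[p] B]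
    (hB : ∀ x ∈ B, x ≠ 0 → ∃ n : ℤ, ‖x‖ = (p : ℝ) ^ n) {k : ℕ} (hk : 1 ≤ k) {ζ : PadicAlgCl p}
    (hζ : IsPrimitiveRoot ζ (p ^ k)) :
    IsUnif (B ⊔ ℚ_[p]⟮ζ⟯) (ζ - 1) ∧ dif B (ζ - 1) = (p : ℝ) ^ (-((k : ℝ) - 1 / (p - 1))) := by
  obtain ⟨k, rfl⟩ : ∃ j, k = j + 1 := ⟨k - 1, by omega⟩
  clear hk
  have hp : p.Prime := Fact.out
  have hp1 : (1 : ℝ) < p := by exact_mod_cast hp.one_lt
  have hp0 : (0 : ℝ) < p := by linarith
  set φ : ℕ := p ^ k * (p - 1) with hφ
  have hφpos : 0 < φ := Nat.mul_pos (pow_pos hp.pos k) (by have := hp.one_lt; omega)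
  have hφcast : ((φ : ℕ) : ℝ) = (p : ℝ) ^ k * ((p : ℝ) - 1) := by
    rw [hφ, Nat.cast_mul, Nat.cast_pow, Nat.cast_sub hp.one_lt.le, Nat.cast_one]
  have hφR : (0 : ℝ) < φ := by exact_mod_cast hφpos
  have hn1 : ‖ζ - 1‖ = (p : ℝ) ^ (-(1 : ℝ) / φ) := by
    rw [norm_primitive_sub_one hζ, hφcast]
  have hne : ζ - 1 ≠ 0 := by
    intro h
    rw [h, norm_zero] at hn1
    exact (Real.rpow_pos_of_pos hp0 _).ne hn1
  have hnφ : ‖ζ - 1‖ ^ φ = (p : ℝ)⁻¹ := by
    rw [hn1, ← Real.rpow_natCast, ← Real.rpow_mul hp0.le, div_mul_cancel₀ _ hφR.ne',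
      Real.rpow_neg_one]
  -- the polynomial of degree φ
  have hcyc : cyclotomic (p ^ (k + 1)) B ≠ 0 := cyclotomic_ne_zero _ _
  have hroot : aeval ζ (cyclotomic (p ^ (k + 1)) B) = 0 := by
    rw [aeval_def, eval₂_eq_eval_map, map_cyclotomic, ← IsRoot.def]
    exact hζ.isRoot_cyclotomic (pow_pos hp.pos _)
  have hdvd : minpoly B ζ ∣ cyclotomic (p ^ (k + 1)) B := minpoly.dvd _ _ hroot
  have hcdeg : (cyclotomic (p ^ (k + 1)) B).natDegree = φ := by
    rw [natDegree_cyclotomic, Nat.totient_prime_pow_succ hp]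
  have hmp : minpoly B (ζ - 1) = (minpoly B ζ).comp (X + C 1) := by
    have := minpoly.sub_algebraMap (A := B) (B := PadicAlgCl p) ζ 1
    rw [map_one] at this
    exact this
  have hdeg1 : (minpoly B (ζ - 1)).natDegree = (minpoly B ζ).natDegree := by
    rw [hmp, natDegree_comp, natDegree_X_add_C, mul_one]
  have hdle : (minpoly B ζ).natDegree ≤ φ := by
    rw [← hcdeg]; exact natDegree_le_of_dvd hdvd hcyc
  have hdge : φ ≤ (minpoly B ζ).natDegree := by
    obtain ⟨n, hn⟩ := DifC_pow B hB (ζ - 1) hne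
    rw [hdeg1] at hn
    set d := (minpoly B ζ).natDegree with hd
    have hdpos : 0 < d := minpoly.natDegree_pos (DifC_integral B ζ)
    have e1 : (p : ℝ) ^ (-(d : ℝ) / φ) = (p : ℝ) ^ ((n : ℤ) : ℝ) := by
      rw [Real.rpow_intCast, ← hn, hn1, ← Real.rpow_natCast, ← Real.rpow_mul hp0.le]
      congr 1
      ring
    have e2 : (-(d : ℝ) / φ) = (n : ℝ) := by
      have h1 := congrArg Real.log e1
      rw [Real.log_rpow hp0, Real.log_rpow hp0] at h1
      exact mul_right_cancel₀ (Real.log_pos hp1).ne' h1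
    have e3 : (d : ℝ) = -(n : ℝ) * φ := by
      field_simp at e2
      linarith
    have e4 : (d : ℤ) = -n * φ := by exact_mod_cast e3
    have e5 : ((φ : ℕ) : ℤ) ∣ (d : ℤ) := ⟨-n, by rw [e4]; ring⟩
    exact Nat.le_of_dvd hdpos (by exact_mod_cast e5)
  have hdeq : (minpoly B ζ).natDegree = φ := le_antisymm hdle hdge
  have hmin : minpoly B ζ = cyclotomic (p ^ (k + 1)) B :=
    (eq_of_monic_of_dvd_of_natDegree_le (minpoly.monic (DifC_integral B ζ))
      (cyclotomic.monic _ _) hdvd (by rw [hcdeg, hdeq])).symm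
  have hζmem : ζ ∈ B ⊔ ℚ_[p]⟮ζ⟯ := le_sup_right (a := B) (mem_adjoin_simple_self ℚ_[p] ζ)
  refine ⟨⟨sub_mem hζmem (one_mem _), hne, ?_, ?_⟩, ?_⟩
  · rw [hn1]
    exact Real.rpow_lt_one_of_one_lt_of_neg hp1 (div_neg_of_neg_of_pos (by norm_num) hφR)
  · intro x hx hx1
    by_cases hx0 : x = 0
    · rw [hx0, norm_zero]; exact norm_nonneg _
    obtain ⟨n, hn⟩ := DifC_pow B hB x hx0
    obtain ⟨m, hm⟩ := DifC_deg_dvd B ζ x hx
    rw [hdeq] at hm
    have h1 : ‖x‖ ^ φ = (p : ℝ) ^ (n * (m : ℤ)) := by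
      rw [hm, pow_mul, hn, zpow_mul, zpow_natCast]
    have h2 : ‖x‖ ^ φ < 1 := pow_lt_one₀ (norm_nonneg _) hx1 hφpos.ne'
    have h3 : n * (m : ℤ) < 0 := by
      rw [h1] at h2
      exact (zpow_lt_one_iff_right₀ hp1).1 h2
    have h4 : ‖x‖ ^ φ ≤ ‖ζ - 1‖ ^ φ := by
      rw [h1, hnφ, ← zpow_neg_one]
      exact zpow_le_zpow_right₀ hp1.le (by omega)
    exact le_of_pow_le_pow_left₀ hφpos.ne' (norm_nonneg _) h4
  · have hder : dif B (ζ - 1) = ‖aeval ζ (derivative (cyclotomic (p ^ (k + 1)) B))‖ := by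
      unfold dif
      rw [hmp, hmin, derivative_comp]
      simp [aeval_comp]
    have hid := cyclotomic_prime_pow_mul_X_pow_sub_one B p k
    have hid2 := congrArg derivative hid
    have hid3 := congrArg (aeval ζ) hid2
    rw [derivative_mul] at hid3
    simp only [map_add, map_mul, hroot, zero_mul, add_zero, map_sub, map_pow, aeval_X, map_one,
      derivative_X_pow, derivative_one, sub_zero, map_natCast] at hid3
    have hζn : ‖ζ‖ = 1 := norm_root_one (pow_pos hp.pos (k + 1)) hζ.pow_eq_one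
    have hnr := congrArg norm hid3
    rw [norm_mul, norm_mul, norm_pow, hζn, one_pow, mul_one] at hnr
    have hz1 : IsPrimitiveRoot (ζ ^ p ^ k) (p ^ (0 + 1)) := by
      have := hζ.pow (pow_pos hp.pos (k + 1)) (pow_succ p k)
      simpa using this
    have hz2 := norm_primitive_sub_one hz1
    rw [pow_zero, one_mul] at hz2
    rw [hz2] at hnr
    have hpn : ‖((p ^ (k + 1) : ℕ) : PadicAlgCl p)‖ = (p : ℝ) ^ (-((k : ℝ) + 1)) := by
      rw [← map_natCast (algebraMap ℚ_[p] (PadicAlgCl p)), PadicAlgCl.norm_extends,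
        Nat.cast_pow, norm_pow, Padic.norm_p, Real.rpow_neg hp0.le, inv_pow]
      congr 1
      rw [← Real.rpow_natCast]
      push_cast
      rfl
    rw [hpn] at hnr
    rw [hder]
    have hpos : (p : ℝ) ^ (-(1 : ℝ) / ((p : ℝ) - 1)) ≠ 0 := (Real.rpow_pos_of_pos hp0 _).ne'
    apply mul_right_cancel₀ hpos
    rw [hnr, ← Real.rpow_add hp0]
    congr 1
    push_cast
    ring

end MP4270
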