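import Pool.Agent.Lib_MP_4270a5_nt.PowB
import Pool.Agent.Lib_MP_4270a5_nt.IsoB

open Polynomial IntermediateField

namespace MP4270

variable {p : ℕ} [Fact p.Prime]

/-- Always `dif K x ≤ 1` for integral `x`, and `0 < dif K x`. -/
theorem dif_le_one (K : IntermediateField ℚ_[p] (PadicAlgCl p)) {x : PadicAlgCl p} (hx : ‖x‖ ≤ 1) :
    dif K x ≤ 1 := by
  classical
  rw [dif_eq_prod]
  refine Finset.prod_le_one (fun _ _ => norm_nonneg _) fun θ hθ => ?_
  have h1 := Finset.mem_of_mem_erase hθ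
  rw [Multiset.mem_toFinset, mem_aroots] at h1
  obtain ⟨σ, _, hσ⟩ := exists_conj K x θ h1.2
  have h2 : ‖θ‖ ≤ 1 := by rw [← hσ, norm_equiv]; exact hx
  rw [sub_eq_add_neg]
  refine (IsUltrametricDist.norm_add_le_max _ _).trans (max_le hx ?_)
  rwa [norm_neg]

theorem dif_pos (K : IntermediateField ℚ_[p] (PadicAlgCl p)) (x : PadicAlgCl p) : 0 < dif K x := by
  classical
  rw [dif_eq_prod]
  refine Finset.prod_pos fun θ hθ => ?_
  rw [norm_pos_iff, sub_ne_zero]
  exact (Finset.ne_of_mem_erase hθ).symm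

/-- `B` unramified, `K'/B` totally ramified of degree `e`, `v_p(e) ≤ d`: `D(K'/B) ≤ d + 1`.
`P' (v) = ∑_i i c_i v^(i-1)`, `c_i ∈ B` integral; the norms of the nonzero terms are different (`‖v‖ = p^(-1/e)`, the norms of
elements of `B` are integral powers of `p`), so `‖P'(v)‖ ≥ ‖e v^(e-1)‖ ≥ p^(-d) ‖v‖^e = p^(-d-1)`. -/
theorem dif_lower (B K' : IntermediateField ℚ_[p] (PadicAlgCl p)) [FiniteDimensional ℚ_[p] K']
    (hB : ∀ x ∈ B, x ≠ 0 → ∃ n : ℤ, ‖x‖ = (p : ℝ) ^ n) (h : ResTriv B K') {v : PadicAlgCl p}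
    (hv : IsUnif K' v) {e d : ℕ} (he : Module.finrank ℚ_[p] K' = Module.finrank ℚ_[p] B * e)
    (hd : padicValNat p e ≤ d) : (p : ℝ) ^ (-((d : ℝ) + 1)) ≤ dif B v := by
  have hp : p.Prime := Fact.out
  have hp1 : (1 : ℝ) < p := by exact_mod_cast hp.one_lt
  have hp0 : (0 : ℝ) < p := by linarith
  -- `p` is a uniformizer of `B`
  have hpn : ‖(p : PadicAlgCl p)‖ = (p : ℝ)⁻¹ := by
    have h1 := PadicAlgCl.norm_extends p (p : ℚ_[p])
    have h2 : ((p : ℚ_[p]) : PadicAlgCl p) = (p : PadicAlgCl p) := map_natCast (algebraMap _ _) p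
    rw [← h2, h1, Padic.norm_p]
  have hpU : IsUnif B (p : PadicAlgCl p) := by
    refine ⟨IntermediateField.natCast_mem B p, ?_, ?_, ?_⟩
    · exact_mod_cast hp.ne_zero
    · rw [hpn]; exact inv_lt_one_of_one_lt₀ hp1
    · intro x hx hx1
      by_cases hx0 : x = 0
      · rw [hx0, norm_zero]; exact norm_nonneg _
      obtain ⟨n, hn⟩ := hB x hx hx0
      rw [hn] at hx1 ⊢
      rw [hpn, ← zpow_neg_one]
      have h1 : n < 0 := by
        by_contra hcon
        exact absurd hx1 (not_lt.mpr (one_le_zpow₀ hp1.le (not_lt.mp hcon)))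
      exact zpow_le_zpow_right₀ hp1.le (by omega)
  obtain ⟨e', he'1, hve, hdeg, -, hrank, hrep⟩ := pow_basis B K' h hv hpU
  have hK'pos : 0 < Module.finrank ℚ_[p] K' := Module.finrank_pos
  have hBne : Module.finrank ℚ_[p] B ≠ 0 := by
    intro h0
    rw [he, h0, zero_mul] at hK'pos
    exact lt_irrefl 0 hK'pos
  have hee : e' = e := by
    have h1 : Module.finrank ℚ_[p] B * e' = Module.finrank ℚ_[p] B * e := hrank.symm.trans he
    exact Nat.eq_of_mul_eq_mul_left (Nat.pos_of_ne_zero hBne) h1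
  subst hee
  set P := minpoly B v with hP
  have hvint : IsIntegral B v := (Algebra.IsAlgebraic.isAlgebraic v).isIntegral
  have hPm : P.Monic := minpoly.monic hvint
  have hx : aeval v (derivative P) ∈ K' := by
    have h1 : ∀ q : (↥B)[X], aeval v q ∈ K' := by
      intro q
      rw [aeval_eq_sum_range]
      refine sum_mem fun i _ => ?_
      rw [Algebra.smul_def]
      exact mul_mem (h.1 (q.coeff i).2) (pow_mem hv.1 i)
    exact h1 _
  obtain ⟨g, hgdeg, hgx, hgn⟩ := hrep _ hx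
  have hdlt : (derivative P).natDegree < e' := by
    rw [← hdeg]
    exact natDegree_derivative_lt (by rw [hdeg]; omega)
  have hgP : g = derivative P := by
    by_contra hne
    have h1 : aeval v (g - derivative P) = 0 := by rw [map_sub, hgx, sub_self]
    have h2 := natDegree_le_natDegree (minpoly.degree_le_of_ne_zero B v (sub_ne_zero.mpr hne) h1)
    have h3 := natDegree_sub_le g (derivative P)
    have h4 : max g.natDegree (derivative P).natDegree < e' := max_lt hgdeg hdlt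
    rw [← hP, hdeg] at h2
    omega
  have hcoef : (g.coeff (e' - 1) : ↥B) = (e' : ↥B) := by
    rw [hgP, coeff_derivative]
    have h1 : e' - 1 + 1 = e' := Nat.sub_add_cancel he'1
    have h2 : P.coeff (e' - 1 + 1) = 1 := by
      rw [h1, ← hdeg]; exact hPm
    rw [h2, one_mul]
    have h3 : ((e' - 1 : ℕ) : ↥B) + 1 = ((e' - 1 + 1 : ℕ) : ↥B) := by push_cast; ring
    rw [h3, h1]
  have hlow := hgn (e' - 1)
  rw [hcoef] at hlow
  have hcast : (((e' : ℕ) : ↥B) : PadicAlgCl p) = (e' : PadicAlgCl p) := by norm_cast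
  rw [hcast, norm_mul, norm_pow] at hlow
  -- the norm of `e`
  have hen : (p : ℝ) ^ (-(d : ℝ)) ≤ ‖(e' : PadicAlgCl p)‖ := by
    have h1 := PadicAlgCl.norm_extends p (e' : ℚ_[p])
    have h2 : ((e' : ℚ_[p]) : PadicAlgCl p) = (e' : PadicAlgCl p) := map_natCast (algebraMap _ _) e'
    have h3 : ‖(e' : ℚ_[p])‖ = (p : ℝ) ^ (-(padicValNat p e' : ℤ)) := by
      have h4 := Padic.eq_padicNorm (p := p) (e' : ℚ)
      have h5 : padicNorm p (e' : ℚ) = (p : ℚ) ^ (-(padicValRat p (e' : ℚ))) :=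
        padicNorm.eq_zpow_of_nonzero (by exact_mod_cast (by omega : e' ≠ 0))
      rw [h5, padicValRat.of_nat] at h4
      have h6 : (((e' : ℚ) : ℚ_[p])) = (e' : ℚ_[p]) := by norm_cast
      rw [h6] at h4
      rw [h4]
      push_cast
      rfl
    rw [← h2, h1, h3, ← Real.rpow_intCast]
    refine Real.rpow_le_rpow_of_exponent_le hp1.le ?_
    rw [Int.cast_neg, Int.cast_natCast]
    have : (padicValNat p e' : ℝ) ≤ d := by exact_mod_cast hd
    linarith
  have hvpos : 0 < ‖v‖ := norm_pos_iff.mpr hv.2.1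
  have hvpow : ‖v‖ ^ e' ≤ ‖v‖ ^ (e' - 1) :=
    pow_le_pow_of_le_one hvpos.le hv.2.2.1.le (Nat.sub_le _ _)
  calc (p : ℝ) ^ (-((d : ℝ) + 1)) = (p : ℝ) ^ (-(d : ℝ)) * (p : ℝ)⁻¹ := by
        rw [neg_add, Real.rpow_add hp0, Real.rpow_neg_one]
    _ = (p : ℝ) ^ (-(d : ℝ)) * ‖v‖ ^ e' := by rw [hve, hpn]
    _ ≤ ‖(e' : PadicAlgCl p)‖ * ‖v‖ ^ (e' - 1) :=
        mul_le_mul hen hvpow (by positivity) (norm_nonneg _)
    _ ≤ dif B v := hlow

end MP4270
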