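import Pool.Agent.Lib_MP_4270a5_nt.PowB
import Pool.Agent.Lib_MP_4270a5_nt.IsoB

open Polynomial IntermediateField

namespace MP4270

variable {p : ℕ} [Fact p.Prime]

theorem fnt_sub_le (x y : PadicAlgCl p) : ‖x - y‖ ≤ max ‖x‖ ‖y‖ := by
  rw [sub_eq_add_neg]
  refine (IsUltrametricDist.norm_add_le_max _ _).trans ?_
  rw [norm_neg]

/-- roots of Eisenstein polynomials -/
theorem fnt_eis {e : ℕ} (he : 1 ≤ e) (c : ℕ → PadicAlgCl p) {a : ℝ} (ha0 : 0 < a) (ha1 : a < 1)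
    (hc : ∀ i < e, ‖c i‖ ≤ a) (hc0 : ‖c 0‖ = a) (β : PadicAlgCl p)
    (hβ : β ^ e = ∑ i ∈ Finset.range e, c i * β ^ i) : ‖β‖ ^ e = a := by
  have hlt : ‖β‖ < 1 := by
    by_contra hge
    push Not at hge
    have h1 : ‖∑ i ∈ Finset.range e, c i * β ^ i‖ ≤ a * ‖β‖ ^ e := by
      refine IsUltrametricDist.norm_sum_le_of_forall_le_of_nonneg (by positivity) ?_
      intro i hi
      have hi' := Finset.mem_range.1 hi
      rw [norm_mul, norm_pow]
      exact mul_le_mul (hc i hi') (pow_le_pow_right₀ hge hi'.le) (by positivity) ha0.le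
    rw [← hβ, norm_pow] at h1
    have h2 : 0 < ‖β‖ ^ e := pow_pos (by linarith) e
    nlinarith
  have h3 := (PadicAlgCl.isNonarchimedean p).apply_sum_eq_of_lt (fun a => (norm_neg a).symm)
    (s := Finset.range e) (k := 0)
    (l := fun i => c i * β ^ i) (Finset.mem_range.2 he) (by
      intro j hj hj0
      have hj' := Finset.mem_range.1 hj
      show ‖c j * β ^ j‖ < ‖c 0 * β ^ 0‖
      rw [pow_zero, mul_one, hc0, norm_mul, norm_pow]
      have h4 : ‖β‖ ^ j < 1 := pow_lt_one₀ (norm_nonneg _) hlt hj0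
      calc ‖c j‖ * ‖β‖ ^ j ≤ a * ‖β‖ ^ j :=
            mul_le_mul_of_nonneg_right (hc j hj') (by positivity)
        _ < a := by nlinarith)
  have h5 : ‖∑ i ∈ Finset.range e, c i * β ^ i‖ = ‖c 0 * β ^ 0‖ := h3
  rw [← hβ, norm_pow, pow_zero, mul_one, hc0] at h5
  exact h5

/-- the minimal polynomial of a uniformizer -/
theorem fnt_min (K L : IntermediateField ℚ_[p] (PadicAlgCl p)) [FiniteDimensional ℚ_[p] L]
    {w v : PadicAlgCl p} (hw : IsUnif L w) (hv : IsUnif K v) {e : ℕ}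
    (he1 : 1 ≤ e) (he : ‖w‖ ^ e = ‖v‖) (hdeg : (minpoly K w).natDegree = e)
    (hpoly : ∀ x ∈ L, ∃ g : (↥K)[X], g.natDegree < e ∧ aeval w g = x ∧
        (∀ i, ‖((g.coeff i : ↥K) : PadicAlgCl p) * w ^ i‖ ≤ ‖x‖)) :
    ∃ g : (↥K)[X], g.natDegree < e ∧ minpoly K w = X ^ e - g ∧
      (∀ i, ‖((g.coeff i : ↥K) : PadicAlgCl p)‖ ≤ ‖v‖) ∧
      ‖((g.coeff 0 : ↥K) : PadicAlgCl p)‖ = ‖v‖ := by
  obtain ⟨g, hg1, hg2, hg3⟩ := hpoly (w ^ e) (pow_mem hw.1 e)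
  have hw0 : 0 < ‖w‖ := norm_pos_iff.2 hw.2.1
  have hlt : g.degree < ((X : (↥K)[X]) ^ e).degree := by
    rw [degree_X_pow]
    by_cases hg0 : g = 0
    · rw [hg0, degree_zero]
      exact WithBot.bot_lt_coe _
    · exact (natDegree_lt_iff_degree_lt hg0).1 hg1
  have hmon : ((X : (↥K)[X]) ^ e - g).Monic := (monic_X_pow e).sub_of_left hlt
  have hnat : ((X : (↥K)[X]) ^ e - g).natDegree = e := by
    rw [natDegree_sub_eq_left_of_natDegree_lt, natDegree_X_pow]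
    rwa [natDegree_X_pow]
  have hcoef : ∀ i, ‖((g.coeff i : ↥K) : PadicAlgCl p)‖ ≤ ‖v‖ := by
    intro i
    by_cases hi : i < e
    · refine hv.2.2.2 _ (g.coeff i).2 ?_
      have h1 := hg3 i
      rw [norm_mul, norm_pow, norm_pow] at h1
      by_contra hc
      push Not at hc
      have h2 : ‖w‖ ^ e < ‖w‖ ^ i := pow_lt_pow_right_of_lt_one₀ hw0 hw.2.2.1 hi
      have h3 : 0 < ‖w‖ ^ i := pow_pos hw0 i
      nlinarith
    · rw [coeff_eq_zero_of_natDegree_lt (by omega)]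
      show ‖((0 : ↥K) : PadicAlgCl p)‖ ≤ _
      rw [show ((0 : ↥K) : PadicAlgCl p) = 0 from rfl, norm_zero]
      exact norm_nonneg _
  refine ⟨g, hg1, ?_, hcoef, ?_⟩
  · symm
    refine minpoly.unique_of_degree_le_degree_minpoly _ _ hmon ?_ ?_
    · rw [map_sub, map_pow, aeval_X, hg2, sub_self]
    · rw [degree_eq_natDegree hmon.ne_zero, hnat,
        degree_eq_natDegree (minpoly.ne_zero
          (Algebra.IsAlgebraic.isAlgebraic (R := ↥K) w).isIntegral), hdeg]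
  · refine le_antisymm (hcoef 0) ?_
    by_contra hc
    push Not at hc
    have hs : w ^ e = ∑ i ∈ Finset.range e, ((g.coeff i : ↥K) : PadicAlgCl p) * w ^ i := by
      rw [← hg2, aeval_eq_sum_range' (n := e) hg1]
      exact Finset.sum_congr rfl fun j _ => rfl
    obtain ⟨i, hi, hle⟩ := IsUltrametricDist.exists_norm_finsetSum_le_of_nonempty
      (t := Finset.range e) ⟨0, Finset.mem_range.2 he1⟩
      (fun i => ((g.coeff i : ↥K) : PadicAlgCl p) * w ^ i)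
    rw [← hs, norm_pow, he, norm_mul, norm_pow] at hle
    rcases Nat.eq_zero_or_pos i with hi0 | hi0
    · rw [hi0, pow_zero, mul_one] at hle
      linarith
    · have h4 : ‖w‖ ^ i < 1 := pow_lt_one₀ (norm_nonneg _) hw.2.2.1 (by omega)
      have h5 := hcoef i
      have hv0 : 0 < ‖v‖ := norm_pos_iff.2 hv.2.1
      have h6 : ‖((g.coeff i : ↥K) : PadicAlgCl p)‖ * ‖w‖ ^ i ≤ ‖v‖ * ‖w‖ ^ i :=
        mul_le_mul_of_nonneg_right h5 (by positivity)
      nlinarith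

theorem fnt_finrank (K L : IntermediateField ℚ_[p] (PadicAlgCl p)) [FiniteDimensional ℚ_[p] L]
    (hKL : K ≤ L) {e : ℕ} (hr : Module.finrank ℚ_[p] L = Module.finrank ℚ_[p] K * e)
    (Q : (↥K)[X]) (hQ : Q ≠ 0) (hQd : Q.natDegree ≤ e) (β : PadicAlgCl p) (hβ : aeval β Q = 0)
    (hL : L ≤ K ⊔ ℚ_[p]⟮β⟯) : β ∈ L := by
  have : FiniteDimensional ℚ_[p] K :=
    FiniteDimensional.of_injective (IntermediateField.inclusion hKL).toLinearMap
      (IntermediateField.inclusion hKL).injective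
  have hint : IsIntegral (↥K) β := (Algebra.IsAlgebraic.isAlgebraic β).isIntegral
  have hint' : IsIntegral ℚ_[p] β := (Algebra.IsAlgebraic.isAlgebraic β).isIntegral
  have : FiniteDimensional ℚ_[p] ℚ_[p]⟮β⟯ := adjoin.finiteDimensional hint'
  have h0 : restrictScalars ℚ_[p] ((↥K)⟮β⟯) = K ⊔ ℚ_[p]⟮β⟯ := restrictScalars_adjoin_eq_sup _ _ _
  have h1 : Module.finrank ℚ_[p] (K ⊔ ℚ_[p]⟮β⟯ : IntermediateField ℚ_[p] (PadicAlgCl p)) =
      Module.finrank ℚ_[p] (↥K) * Module.finrank (↥K) ((↥K)⟮β⟯) := by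
    rw [← h0, Module.finrank_mul_finrank ℚ_[p] (↥K) ((↥K)⟮β⟯)]
    rfl
  have h2 : Module.finrank (↥K) ((↥K)⟮β⟯) ≤ e := by
    rw [adjoin.finrank hint]
    refine le_trans ?_ hQd
    exact natDegree_le_natDegree (minpoly.degree_le_of_ne_zero (↥K) β hQ hβ)
  have h3 : L = K ⊔ ℚ_[p]⟮β⟯ := by
    refine IntermediateField.eq_of_le_of_finrank_le hL ?_
    rw [h1, hr]
    exact Nat.mul_le_mul_left _ h2
  rw [h3]
  exact (le_sup_right : ℚ_[p]⟮β⟯ ≤ K ⊔ ℚ_[p]⟮β⟯) (mem_adjoin_simple_self _ _)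

/-- the product formula for the value of the minimal polynomial -/
theorem fnt_prod [DecidableEq (PadicAlgCl p)] (K : IntermediateField ℚ_[p] (PadicAlgCl p))
    (w β : PadicAlgCl p) :
    ‖aeval β (minpoly K w)‖ = ∏ θ ∈ ((minpoly K w).aroots (PadicAlgCl p)).toFinset, ‖β - θ‖ := by
  have hint : IsIntegral (↥K) w := (Algebra.IsAlgebraic.isAlgebraic w).isIntegral
  have hsp : ((minpoly K w).map (algebraMap (↥K) (PadicAlgCl p))).Splits := IsAlgClosed.splits _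
  rw [hsp.aeval_eq_prod_aroots_of_monic (minpoly.monic hint)]
  have hnd : ((minpoly K w).aroots (PadicAlgCl p)).Nodup :=
    nodup_roots (Polynomial.Separable.map (minpoly.irreducible hint).separable)
  rw [Finset.prod, Multiset.toFinset_val, hnd.dedup]
  have : ∀ s : Multiset (PadicAlgCl p), ‖(s.map (β - ·)).prod‖ = (s.map (fun θ => ‖β - θ‖)).prod := by
    intro s
    induction s using Multiset.induction_on with
    | empty => simp
    | cons a s ih => rw [Multiset.map_cons, Multiset.prod_cons, norm_mul, ih, Multiset.map_cons,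
        Multiset.prod_cons]
  exact this _

/-- the auxiliary element `β` -/
theorem fnt_beta (K L : IntermediateField ℚ_[p] (PadicAlgCl p)) [FiniteDimensional ℚ_[p] L]
    (h : ResTriv K L) {w : PadicAlgCl p} (hw : IsUnif L w)
    (t : ℝ) (ht : 1 < t)
    (hP : ∀ β : PadicAlgCl p, ‖β‖ ≤ 1 → ‖aeval β (minpoly K w)‖ ≤ (p : ℝ) ^ (-t) → L ≤ K ⊔ ℚ_[p]⟮β⟯)
    (q : ℕ) (hq : ‖w‖ ^ q < (p : ℝ) ^ (-t)) :
    ∃ β ∈ L, ‖β‖ = ‖w‖ ∧ ‖aeval β (minpoly K w)‖ = ‖w‖ ^ q := by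
  have hKfd : FiniteDimensional ℚ_[p] K :=
    FiniteDimensional.of_injective (IntermediateField.inclusion h.1).toLinearMap
      (IntermediateField.inclusion h.1).injective
  obtain ⟨v, hv⟩ := exists_unif K
  obtain ⟨e, he1, he, hdeg, -, hfr, hpoly⟩ := pow_basis K L h hw hv
  obtain ⟨g, hg1, hg2, hg3, hg4⟩ := fnt_min K L hw hv he1 he hdeg hpoly
  have hw0 : 0 < ‖w‖ := norm_pos_iff.2 hw.2.1
  have hv0 : 0 < ‖v‖ := norm_pos_iff.2 hv.2.1
  have hp1 : (1 : ℝ) < p := by exact_mod_cast (Fact.out : p.Prime).one_lt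
  have hqe : e < q := by
    by_contra hc
    push Not at hc
    have h1 : ‖w‖ ^ e ≤ ‖w‖ ^ q := pow_le_pow_of_le_one hw0.le hw.2.2.1.le hc
    have h2 := unif_ge K hv
    have h3 : (p : ℝ) ^ (-t) < (p : ℝ)⁻¹ := by
      rw [← Real.rpow_neg_one]
      exact Real.rpow_lt_rpow_of_exponent_lt hp1 (by linarith)
    rw [he] at h1
    linarith
  set r := q / e with hr
  set s := q % e with hs
  have hrs : e * r + s = q := Nat.div_add_mod q e
  have hse : s < e := Nat.mod_lt _ he1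
  have hr1 : 1 ≤ r := by
    rw [hr]
    exact (Nat.one_le_div_iff he1).2 hqe.le
  let vK : ↥K := ⟨v, hv.1⟩
  let g' : (↥K)[X] := g + C (vK ^ r) * X ^ s
  have hg'c : ∀ i, ((g'.coeff i : ↥K) : PadicAlgCl p) =
      ((g.coeff i : ↥K) : PadicAlgCl p) + if i = s then v ^ r else 0 := by
    intro i
    show (((g + C (vK ^ r) * X ^ s).coeff i : ↥K) : PadicAlgCl p) = _
    rw [coeff_add, coeff_C_mul_X_pow]
    split_ifs <;> simp [vK]
  have hg'd : g'.natDegree < e := by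
    have h1 : g'.natDegree ≤ max g.natDegree (C (vK ^ r) * X ^ s : (↥K)[X]).natDegree :=
      natDegree_add_le _ _
    have h2 : (C (vK ^ r) * X ^ s : (↥K)[X]).natDegree ≤ s := natDegree_C_mul_X_pow_le _ _
    exact lt_of_le_of_lt h1 (max_lt hg1 (lt_of_le_of_lt h2 hse))
  have hvr : ‖v ^ r‖ ≤ ‖v‖ := by
    rw [norm_pow]
    calc ‖v‖ ^ r ≤ ‖v‖ ^ 1 := pow_le_pow_of_le_one hv0.le hv.2.2.1.le hr1
      _ = ‖v‖ := pow_one _
  have hg'3 : ∀ i < e, ‖((g'.coeff i : ↥K) : PadicAlgCl p)‖ ≤ ‖v‖ := by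
    intro i _
    rw [hg'c]
    refine (IsUltrametricDist.norm_add_le_max _ _).trans (max_le (hg3 i) ?_)
    split_ifs
    · exact hvr
    · rw [norm_zero]
      exact hv0.le
  have hg'4 : ‖((g'.coeff 0 : ↥K) : PadicAlgCl p)‖ = ‖v‖ := by
    rw [hg'c]
    split_ifs with hs0
    · have hr2 : 2 ≤ r := by
        by_contra hc
        have : r = 1 := by omega
        rw [this, ← hs0] at hrs
        omega
      have h1 : ‖v ^ r‖ < ‖((g.coeff 0 : ↥K) : PadicAlgCl p)‖ := by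
        rw [hg4, norm_pow]
        calc ‖v‖ ^ r ≤ ‖v‖ ^ 2 := pow_le_pow_of_le_one hv0.le hv.2.2.1.le hr2
          _ < ‖v‖ := by nlinarith [hv.2.2.1]
      rw [IsUltrametricDist.norm_add_eq_max_of_norm_ne_norm h1.ne', max_eq_left h1.le, hg4]
    · rw [add_zero, hg4]
  have hlt : g'.degree < ((X : (↥K)[X]) ^ e).degree := by
    rw [degree_X_pow]
    by_cases hg0 : g' = 0
    · rw [hg0, degree_zero]
      exact WithBot.bot_lt_coe _
    · exact (natDegree_lt_iff_degree_lt hg0).1 hg'd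
  have hmon : ((X : (↥K)[X]) ^ e - g').Monic := (monic_X_pow e).sub_of_left hlt
  have hnat : ((X : (↥K)[X]) ^ e - g').natDegree = e := by
    rw [natDegree_sub_eq_left_of_natDegree_lt, natDegree_X_pow]
    rwa [natDegree_X_pow]
  obtain ⟨β, hβ⟩ := IsAlgClosed.exists_aeval_eq_zero (PadicAlgCl p) ((X : (↥K)[X]) ^ e - g') (by
    rw [degree_eq_natDegree hmon.ne_zero, hnat]
    exact_mod_cast (by omega : e ≠ 0))
  have hβe : β ^ e = aeval β g' := by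
    rw [map_sub, map_pow, aeval_X, sub_eq_zero] at hβ
    exact hβ
  have hβs : β ^ e = ∑ i ∈ Finset.range e, ((g'.coeff i : ↥K) : PadicAlgCl p) * β ^ i := by
    rw [hβe, aeval_eq_sum_range' (n := e) hg'd]
    exact Finset.sum_congr rfl fun j _ => rfl
  have hβn : ‖β‖ ^ e = ‖v‖ := fnt_eis he1 (fun i => ((g'.coeff i : ↥K) : PadicAlgCl p)) hv0 hv.2.2.1
    hg'3 hg'4 β hβs
  have hβw : ‖β‖ = ‖w‖ := by
    rw [← he] at hβn
    exact (pow_left_inj₀ (norm_nonneg _) (norm_nonneg _) (by omega)).1 hβn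
  have hPβ : aeval β (minpoly K w) = v ^ r * β ^ s := by
    rw [hg2, map_sub, map_pow, aeval_X, hβe]
    show aeval β (g + C (vK ^ r) * X ^ s) - aeval β g = _
    rw [map_add, map_mul, aeval_C, map_pow, map_pow, aeval_X, add_sub_cancel_left]
    rfl
  have hPn : ‖aeval β (minpoly K w)‖ = ‖w‖ ^ q := by
    rw [hPβ, norm_mul, norm_pow, norm_pow, hβw, ← he, ← pow_mul, ← pow_add, hrs]
  refine ⟨β, ?_, hβw, hPn⟩
  refine fnt_finrank K L h.1 hfr _ hmon.ne_zero hnat.le β hβ (hP β ?_ ?_)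
  · rw [hβw]
    exact hw.2.2.1.le
  · rw [hPn]
    exact hq.le

/-- the combinatorial part -/
theorem fnt_comb {ι : Type*} [DecidableEq ι] (T : Finset ι) (i : ι → ℕ) (j : ℕ) (θ₀ : ι)
    (hθ : θ₀ ∈ T) (hmax : ∀ θ ∈ T, i θ ≤ i θ₀) (hi : 1 ≤ i θ₀)
    (hq : ∑ θ ∈ T, i θ + i θ₀ - 1 = j + ∑ θ ∈ T, min j (i θ)) : False := by
  by_cases hj : i θ₀ ≤ j
  · have h1 : ∑ θ ∈ T, min j (i θ) = ∑ θ ∈ T, i θ := by
      refine Finset.sum_congr rfl fun θ hθ => ?_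
      exact min_eq_right ((hmax θ hθ).trans hj)
    rw [h1] at hq
    have h2 : i θ₀ ≤ ∑ θ ∈ T, i θ := Finset.single_le_sum (f := i) (fun _ _ => Nat.zero_le _) hθ
    omega
  · push Not at hj
    have h1 : ∑ θ ∈ T, min j (i θ) < ∑ θ ∈ T, i θ := by
      refine Finset.sum_lt_sum (fun θ _ => min_le_right _ _) ⟨θ₀, hθ, ?_⟩
      rw [min_eq_left hj.le]
      exact hj
    omega

/-- FONTAINE'S BOUND. Write `‖x‖ = p^(-v(x))`, `e` the degree of `w` over `K`, `v(w) = 1/E`, `P` the minimal polynomial of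
`w` over `K` (an Eisenstein polynomial), `z` a uniformizer of `K` (`‖z‖ = ‖w‖^e`), `R` the set of roots of `P` (all in `L`
by `hn`), `i(θ) = v(θ - w)` for `θ ∈ R`, `θ ≠ w`: positive multiples of `v(w)`. `D = ∑_{θ ≠ w} i(θ)`. If `e = 1` then
`dif = 1`. Otherwise suppose `D > t`, let `i_max` be the maximum of the `i(θ)`, `u = D + i_max`, `q = u - v(w) ≥ D > t`;
`q = n v(w)` with `n` an integer, `n > e` (because `t > 1 ≥ v(z) = e v(w)`, `unif_ge`). Write `n = r e + s`, `s < e`,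
and `Q = P - z^r X^s`: monic of degree `e`, Eisenstein (`r ≥ 2` or `s ≥ 1`). Let `β` be a root of `Q`: then
`‖β‖ = ‖w‖`, `β` has degree `e` over `K` (the norms of `β^i`, `i < e`, are different modulo the value group of `K`) and
`‖P(β)‖ = ‖z^r β^s‖ = p^(-q) ≤ p^(-t)`. By `hP`: `L ≤ K(β)`, so `L = K(β)` (degrees) and `β ∈ L`. Let
`j = max_{σ} v(β - σ w)`; replacing `β` by a conjugate (also a root of `Q`) `j = v(β - w)`; `j` is a multiple of `v(w)`.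
For `θ ∈ R`: `v(β - θ) ≤ j`, and `v(β - θ) = min(j, i(θ))` (ultrametric inequality), so
`q = v(P(β)) = j + ∑_{θ ≠ w} min(j, i(θ))`. If `j ≥ i_max` then `q ≥ i_max + D = u > q`, contradiction; so
`j ≤ i_max - v(w)`, and `q ≤ (i_max - v(w)) + D - v(w) = q - v(w)`, contradiction (one summand at least drops by `v(w)`). -/
theorem fontaine (K L : IntermediateField ℚ_[p] (PadicAlgCl p)) [FiniteDimensional ℚ_[p] L]
    (h : ResTriv K L) {w : PadicAlgCl p} (hw : IsUnif L w)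
    (hn : ∀ σ : PadicAlgCl p ≃ₐ[ℚ_[p]] PadicAlgCl p, (∀ x ∈ K, σ x = x) → ∀ x ∈ L, σ x ∈ L)
    (t : ℝ) (ht : 1 < t)
    (hP : ∀ β : PadicAlgCl p, ‖β‖ ≤ 1 → ‖aeval β (minpoly K w)‖ ≤ (p : ℝ) ^ (-t) → L ≤ K ⊔ ℚ_[p]⟮β⟯) :
    (p : ℝ) ^ (-t) ≤ dif K w := by
  classical
  have hw0 : 0 < ‖w‖ := norm_pos_iff.2 hw.2.1
  have hp1 : (1 : ℝ) < p := by exact_mod_cast (Fact.out : p.Prime).one_lt
  have hint : IsIntegral (↥K) w := (Algebra.IsAlgebraic.isAlgebraic w).isIntegral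
  have hP0 : minpoly K w ≠ 0 := minpoly.ne_zero hint
  set R := ((minpoly K w).aroots (PadicAlgCl p)).toFinset with hR
  have hmem : ∀ θ, θ ∈ R ↔ aeval θ (minpoly K w) = 0 := by
    intro θ
    rw [hR, Multiset.mem_toFinset, mem_aroots]
    exact ⟨fun h => h.2, fun h => ⟨hP0, h⟩⟩
  have hwR : w ∈ R := (hmem w).2 (minpoly.aeval _ _)
  by_contra hlt
  push Not at hlt
  rw [dif_eq_prod K w] at hlt
  rw [← hR] at hlt
  have hpt : (p : ℝ) ^ (-t) < 1 := Real.rpow_lt_one_of_one_lt_of_neg hp1 (by linarith)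
  set T := R.erase w with hT
  have hTne : T.Nonempty := by
    rw [Finset.nonempty_iff_ne_empty]
    intro h0
    rw [h0, Finset.prod_empty] at hlt
    linarith
  -- elements of L of norm at most that of w
  have hexp : ∀ x ∈ L, x ≠ 0 → ‖x‖ ≤ ‖w‖ → ∃ n : ℕ, 1 ≤ n ∧ ‖x‖ = ‖w‖ ^ n := by
    intro x hx hx0 hxw
    obtain ⟨n, hn⟩ := unif_norm L hw hx hx0
    have hn1 : 1 ≤ n := by
      by_contra hc
      have h1 : ‖w‖ ^ (1 : ℤ) < ‖w‖ ^ n := zpow_lt_zpow_right_of_lt_one₀ hw0 hw.2.2.1 (by omega)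
      rw [zpow_one, ← hn] at h1
      linarith
    refine ⟨n.toNat, by omega, ?_⟩
    rw [hn, ← zpow_natCast, Int.toNat_of_nonneg (by omega)]
  have hconj : ∀ θ ∈ R, θ ∈ L ∧ ‖θ‖ = ‖w‖ := by
    intro θ hθ
    obtain ⟨σ, h1, h2⟩ := exists_conj K w θ ((hmem θ).1 hθ)
    rw [← h2]
    exact ⟨hn σ h1 w hw.1, norm_equiv σ w⟩
  have hi : ∀ θ ∈ T, ∃ n : ℕ, 1 ≤ n ∧ ‖w - θ‖ = ‖w‖ ^ n := by
    intro θ hθ
    obtain ⟨hθ1, hθ2⟩ := Finset.mem_erase.1 hθ
    obtain ⟨h1, h2⟩ := hconj θ hθ2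
    refine hexp _ (L.sub_mem hw.1 h1) (sub_ne_zero.2 (Ne.symm hθ1)) ?_
    refine (fnt_sub_le _ _).trans ?_
    rw [h2, max_self]
  choose! i hi1 hi2 using hi
  obtain ⟨θ₀, hθ₀, hmax⟩ := Finset.exists_max_image T i hTne
  have hprod : ∏ θ ∈ T, ‖w - θ‖ = ‖w‖ ^ (∑ θ ∈ T, i θ) := by
    rw [← Finset.prod_pow_eq_pow_sum]
    exact Finset.prod_congr rfl hi2
  rw [hprod] at hlt
  set q := ∑ θ ∈ T, i θ + i θ₀ - 1 with hq
  have hqD : ∑ θ ∈ T, i θ ≤ q := by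
    have := hi1 θ₀ hθ₀
    omega
  have hqt : ‖w‖ ^ q < (p : ℝ) ^ (-t) :=
    lt_of_le_of_lt (pow_le_pow_of_le_one hw0.le hw.2.2.1.le hqD) hlt
  obtain ⟨β₀, hβ₀L, hβ₀w, hβ₀P⟩ := fnt_beta K L h hw t ht hP q hqt
  -- choose the closest conjugate
  obtain ⟨θ₁, hθ₁, hmin⟩ := Finset.exists_min_image R (fun θ => ‖β₀ - θ‖) ⟨w, hwR⟩
  obtain ⟨σ, hσ1, hσ2⟩ := exists_conj K w θ₁ ((hmem θ₁).1 hθ₁)
  have hσ3 : ∀ x ∈ K, σ.symm x = x := by
    intro x hx
    rw [AlgEquiv.symm_apply_eq]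
    exact (hσ1 x hx).symm
  set β := σ.symm β₀ with hβ
  have hσβ : σ β = β₀ := by rw [hβ, AlgEquiv.apply_symm_apply]
  have hβL : β ∈ L := hn σ.symm hσ3 β₀ hβ₀L
  have hβn : ‖β‖ = ‖w‖ := by rw [hβ, norm_equiv, hβ₀w]
  have hβP : ‖aeval β (minpoly K w)‖ = ‖w‖ ^ q := by
    rw [hβ, ← map_aeval K σ.symm hσ3, norm_equiv, hβ₀P]
  have hβmin : ∀ θ ∈ R, ‖β - w‖ ≤ ‖β - θ‖ := by
    intro θ hθ
    have h1 : σ θ ∈ R := by
      rw [hmem, ← map_aeval K σ hσ1, (hmem θ).1 hθ, map_zero]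
    have h2 := hmin (σ θ) h1
    have h3 : ‖β - w‖ = ‖β₀ - θ₁‖ := by
      rw [← norm_equiv σ (β - w), map_sub, hσβ, hσ2]
    have h4 : ‖β - θ‖ = ‖β₀ - σ θ‖ := by
      rw [← norm_equiv σ (β - θ), map_sub, hσβ]
    rw [h3, h4]
    exact h2
  have hβne : β - w ≠ 0 := by
    intro h0
    rw [sub_eq_zero] at h0
    rw [h0, minpoly.aeval, norm_zero] at hβP
    exact absurd hβP.symm (pow_pos hw0 q).ne'
  obtain ⟨j, -, hj⟩ := hexp (β - w) (L.sub_mem hβL hw.1) hβne (by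
    refine (fnt_sub_le _ _).trans ?_
    rw [hβn, max_self])
  have hmin2 : ∀ θ ∈ T, ‖β - θ‖ = ‖w‖ ^ (min j (i θ)) := by
    intro θ hθ
    have hθR : θ ∈ R := Finset.mem_of_mem_erase hθ
    have h1 : β - θ = (β - w) + (w - θ) := by ring
    have h2 : ‖w‖ ^ (min j (i θ)) = max (‖w‖ ^ j) (‖w‖ ^ (i θ)) := by
      rcases le_total j (i θ) with h3 | h3
      · rw [min_eq_left h3, max_eq_left (pow_le_pow_of_le_one hw0.le hw.2.2.1.le h3)]
      · rw [min_eq_right h3, max_eq_right (pow_le_pow_of_le_one hw0.le hw.2.2.1.le h3)]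
    rw [h2, ← hj, ← hi2 θ hθ]
    by_cases h4 : ‖β - w‖ = ‖w - θ‖
    · rw [← h4, max_self]
      refine le_antisymm ?_ (hβmin θ hθR)
      rw [h1]
      refine (IsUltrametricDist.norm_add_le_max _ _).trans ?_
      rw [← h4, max_self]
    · rw [h1]
      exact IsUltrametricDist.norm_add_eq_max_of_norm_ne_norm h4
  have hfin : ‖w‖ ^ q = ‖w‖ ^ (j + ∑ θ ∈ T, min j (i θ)) := by
    rw [← hβP, fnt_prod K w β, ← hR, ← Finset.mul_prod_erase R _ hwR, hj, pow_add,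
      ← Finset.prod_pow_eq_pow_sum]
    congr 1
    exact Finset.prod_congr rfl hmin2
  have hfin2 : q = j + ∑ θ ∈ T, min j (i θ) :=
    pow_right_injective₀ hw0 hw.2.2.1.ne hfin
  exact fnt_comb T i j θ₀ hθ₀ hmax (hi1 θ₀ hθ₀) (by rw [← hq, hfin2])

end MP4270
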