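import Pool.Agent.Lib_MP_4270a5_nt.Iso

open Polynomial IntermediateField

namespace MP4270

variable {p : ℕ} [Fact p.Prime]

/-- `KumL K ζ α` is finite over `ℚ_p` and normal over `K`. -/
theorem kumL_finite (K : IntermediateField ℚ_[p] (PadicAlgCl p)) [FiniteDimensional ℚ_[p] K] {r : ℕ}
    (ζ : PadicAlgCl p) (α : Fin r → PadicAlgCl p) : FiniteDimensional ℚ_[p] (KumL K ζ α) := by
  have hfin : Finite ({ζ} ∪ Set.range α : Set (PadicAlgCl p)) :=
    ((Set.finite_singleton ζ).union (Set.finite_range α)).to_subtype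
  have hint : ∀ x : PadicAlgCl p, IsIntegral ℚ_[p] x := fun x =>
    (Algebra.IsAlgebraic.isAlgebraic (R := ℚ_[p]) x).isIntegral
  have : FiniteDimensional ℚ_[p] (adjoin ℚ_[p] ({ζ} ∪ Set.range α) : IntermediateField ℚ_[p] (PadicAlgCl p)) :=
    finiteDimensional_adjoin (fun x _ => hint x)
  exact IntermediateField.finiteDimensional_sup _ _

theorem kumL_normal (K : IntermediateField ℚ_[p] (PadicAlgCl p)) {r : ℕ} (k : ℕ)
    {ζ : PadicAlgCl p} (hζ : IsPrimitiveRoot ζ (p ^ k)) (α : Fin r → PadicAlgCl p)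
    (hα : ∀ i, α i ^ (p ^ k) ∈ K) (σ : PadicAlgCl p ≃ₐ[ℚ_[p]] PadicAlgCl p) (hσ : ∀ x ∈ K, σ x = x) :
    ∀ x ∈ KumL K ζ α, σ x ∈ KumL K ζ α := by
  have hpp : p.Prime := Fact.out
  have : NeZero (p ^ k) := ⟨pow_ne_zero _ hpp.ne_zero⟩
  have hζL : ζ ∈ KumL K ζ α := (le_sup_right : _ ≤ KumL K ζ α) (subset_adjoin _ _ (Or.inl rfl))
  have hαL : ∀ i, α i ∈ KumL K ζ α :=
    fun i => (le_sup_right : _ ≤ KumL K ζ α) (subset_adjoin _ _ (Or.inr ⟨i, rfl⟩))
  have hroot : ∀ y : PadicAlgCl p, y ^ p ^ k = 1 → y ∈ KumL K ζ α := by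
    intro y hy
    obtain ⟨j, _, hj⟩ := hζ.eq_pow_of_pow_eq_one hy
    rw [← hj]
    exact pow_mem hζL _
  have hle : KumL K ζ α ≤ (KumL K ζ α).comap (σ : PadicAlgCl p →ₐ[ℚ_[p]] PadicAlgCl p) := by
    refine sup_le ?_ (adjoin_le_iff.2 ?_)
    · intro x hx
      change σ x ∈ KumL K ζ α
      rw [hσ x hx]
      exact (le_sup_left : K ≤ KumL K ζ α) hx
    · rintro x (rfl | ⟨i, rfl⟩)
      · change σ x ∈ KumL K x α
        apply hroot
        rw [← map_pow, hζ.pow_eq_one, map_one]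
      · change σ (α i) ∈ KumL K ζ α
        by_cases h0 : α i = 0
        · rw [h0, map_zero]
          exact zero_mem _
        · have h1 : (σ (α i) / α i) ∈ KumL K ζ α := by
            apply hroot
            rw [div_pow, ← map_pow, hσ _ (hα i), div_self (pow_ne_zero _ h0)]
          have h2 : σ (α i) = (σ (α i) / α i) * α i := by field_simp
          rw [h2]
          exact mul_mem h1 (hαL i)
  exact fun x hx => hle hx

end MP4270
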