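import Pool.Agent.Lib_MP_4270a5_nt.PowB
import Pool.Agent.Lib_MP_4270a5_nt.IsoB
import Pool.Agent.Lib_MP_4270a5_nt.RootU

open Polynomial IntermediateField

namespace MP4270

variable {p : ℕ} [Fact p.Prime]

/-- values of integral polynomials at integral points are integral -/
theorem pta_eval_le (g : (PadicAlgCl p)[X]) (hg : ∀ i, ‖g.coeff i‖ ≤ 1) (x : PadicAlgCl p)
    (hx : ‖x‖ ≤ 1) : ‖g.eval x‖ ≤ 1 := by
  have h := norm_eval_le_prod g hg ∅ (fun θ hθ => absurd hθ (Finset.notMem_empty θ)) x hx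
  rwa [Finset.prod_empty] at h

/-- composition of integral polynomials -/
theorem pta_comp (n : ℕ) (g : (PadicAlgCl p)[X]) (hg : ∀ i, ‖g.coeff i‖ ≤ 1) (i : ℕ) :
    ‖((cyclotomic n (PadicAlgCl p)).comp g).coeff i‖ ≤ 1 := by
  obtain ⟨g', hg'⟩ := (mem_lifts _).1 (mem_lifts_unitBall.2 hg)
  refine mem_lifts_unitBall.1 ?_ i
  rw [mem_lifts]
  refine ⟨(cyclotomic n (unitBall p)).comp g', ?_⟩
  rw [Polynomial.map_comp, map_cyclotomic, hg']

/-- an integral polynomial that vanishes at `w` is bounded by the minimal polynomial -/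
theorem pta_dvd (K : IntermediateField ℚ_[p] (PadicAlgCl p)) {w : PadicAlgCl p} (hw : ‖w‖ ≤ 1)
    (F : (↥K)[X]) (hF : ∀ i, ‖(F.map (algebraMap K (PadicAlgCl p))).coeff i‖ ≤ 1)
    (h0 : aeval w F = 0) (β : PadicAlgCl p) (hβ : ‖β‖ ≤ 1) :
    ‖(F.map (algebraMap K (PadicAlgCl p))).eval β‖ ≤ ‖aeval β (minpoly K w)‖ := by
  classical
  have hint : IsIntegral K w := Algebra.IsIntegral.isIntegral w
  have hmon := minpoly.monic hint
  set P := (minpoly K w).map (algebraMap K (PadicAlgCl p)) with hP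
  have hPmon : P.Monic := hmon.map _
  have hsplit : P.Splits := IsAlgClosed.splits P
  have hsep : P.Separable := by
    have h : (minpoly K w).Separable := Algebra.IsSeparable.isSeparable K w
    exact h.map
  have hnd : P.roots.Nodup := nodup_roots hsep
  have hdvd : P ∣ F.map (algebraMap K (PadicAlgCl p)) := Polynomial.map_dvd _ (minpoly.dvd K w h0)
  have h1 := norm_eval_le_prod (F.map (algebraMap K (PadicAlgCl p))) hF P.roots.toFinset (by
    intro θ hθ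
    rw [Multiset.mem_toFinset, mem_roots hPmon.ne_zero, IsRoot.def] at hθ
    have h2 : aeval θ (minpoly K w) = 0 := by
      rw [← eval_map_algebraMap]
      exact hθ
    obtain ⟨σ, -, hσ⟩ := exists_conj K w θ h2
    refine ⟨by rw [← hσ, norm_equiv]; exact hw, ?_⟩
    exact eval_eq_zero_of_dvd_of_eval_eq_zero hdvd hθ) β hβ
  refine h1.trans (le_of_eq ?_)
  have h3 : aeval β (minpoly K w) = P.eval β := by
    rw [hP, eval_map_algebraMap]
  have h4 := hsplit.eq_prod_roots_of_monic hPmon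
  have h5 : P.eval β = ((P.roots).map (fun θ => β - θ)).prod := by
    conv_lhs => rw [h4]
    rw [eval_multiset_prod, Multiset.map_map]
    congr 1
    refine Multiset.map_congr rfl fun θ _ => ?_
    rw [Function.comp_apply, eval_sub, eval_X, eval_C]
  rw [h3, h5, Finset.prod, Multiset.toFinset_val, hnd.dedup]
  have h6 := map_multiset_prod (normHom : PadicAlgCl p →*₀ ℝ) ((P.roots).map (fun θ => β - θ))
  rw [Multiset.map_map] at h6
  exact h6.symm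

/-- the product of the distances to the other primitive roots -/
theorem pta_prod {k : ℕ} {ξ : PadicAlgCl p} (hξ : IsPrimitiveRoot ξ (p ^ k))
    [DecidableEq (PadicAlgCl p)] :
    (p : ℝ) ^ (-(k : ℝ)) ≤ ∏ μ ∈ (primitiveRoots (p ^ k) (PadicAlgCl p)).erase ξ, ‖ξ - μ‖ := by
  have hpk : 0 < p ^ k := pow_pos (Fact.out (p := p.Prime)).pos k
  have hξ1 : ‖ξ‖ = 1 := norm_root_one hpk hξ.pow_eq_one
  have hR : ∀ i ∈ (Finset.range (p ^ k)).erase 0, ‖1 - ξ ^ i‖ = ‖ξ - ξ * ξ ^ i‖ := by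
    intro i _
    have e1 : ξ - ξ * ξ ^ i = ξ * (1 - ξ ^ i) := by ring
    rw [e1, norm_mul, hξ1, one_mul]
  have hinj : Set.InjOn (fun i => ξ * ξ ^ i) ((Finset.range (p ^ k)).erase 0 : Finset ℕ) := by
    intro i hi j hj hij
    have hξ0 : ξ ≠ 0 := by
      rw [← norm_pos_iff, hξ1]
      exact one_pos
    have h1 : ξ ^ i = ξ ^ j := mul_left_cancel₀ hξ0 hij
    have hi' := Finset.mem_range.1 (Finset.mem_of_mem_erase (Finset.mem_coe.1 hi))
    have hj' := Finset.mem_range.1 (Finset.mem_of_mem_erase (Finset.mem_coe.1 hj))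
    exact hξ.pow_inj hi' hj' h1
  rw [← prod_one_sub hξ, Finset.prod_congr rfl hR,
    ← Finset.prod_image (f := fun μ => ‖ξ - μ‖) (g := fun i => ξ * ξ ^ i) hinj]
  have hsub : (primitiveRoots (p ^ k) (PadicAlgCl p)).erase ξ ⊆
      ((Finset.range (p ^ k)).erase 0).image (fun i => ξ * ξ ^ i) := by
    intro μ hμ
    rw [Finset.mem_erase, mem_primitiveRoots hpk] at hμ
    have hξ0 : ξ ≠ 0 := by
      rw [← norm_pos_iff, hξ1]
      exact one_pos
    have h1 : (μ / ξ) ^ (p ^ k) = 1 := by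
      rw [div_pow, hμ.2.pow_eq_one, hξ.pow_eq_one, div_one]
    have : NeZero (p ^ k) := ⟨hpk.ne'⟩
    obtain ⟨i, hi, hi2⟩ := hξ.eq_pow_of_pow_eq_one h1
    rw [Finset.mem_image]
    refine ⟨i, ?_, ?_⟩
    · rw [Finset.mem_erase, Finset.mem_range]
      refine ⟨?_, hi⟩
      rintro rfl
      rw [pow_zero] at hi2
      exact hμ.1 ((div_eq_one_iff_eq hξ0).1 hi2.symm)
    · show ξ * ξ ^ i = μ
      rw [hi2, mul_div_cancel₀ _ hξ0]
  rw [← Finset.prod_sdiff hsub]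
  refine mul_le_of_le_one_left (Finset.prod_nonneg fun _ _ => norm_nonneg _) ?_
  refine Finset.prod_le_one (fun _ _ => norm_nonneg _) fun μ hμ => ?_
  obtain ⟨i, -, rfl⟩ := Finset.mem_image.1 (Finset.mem_sdiff.1 hμ).1
  rw [sub_eq_add_neg]
  refine (IsUltrametricDist.norm_add_le_max _ _).trans (max_le hξ1.le ?_)
  rw [norm_neg, norm_mul, norm_pow, hξ1, one_pow, one_mul]

theorem pta_exp {k : ℕ} {t : ℝ} (ht : (k : ℝ) + 1 < t) :
    (p : ℝ) ^ (-t) < (p : ℝ) ^ (-(1 : ℝ) / (p - 1)) * (p : ℝ) ^ (-(k : ℝ)) := by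
  have hp2 : (2 : ℝ) ≤ p := by exact_mod_cast (Fact.out (p := p.Prime)).two_le
  have hp0 : (0 : ℝ) < p := by linarith
  rw [← Real.rpow_add hp0]
  refine Real.rpow_lt_rpow_of_exponent_lt (by linarith) ?_
  have h1 : (-1 : ℝ) ≤ -(1 : ℝ) / (p - 1) := by
    rw [le_div_iff₀ (by linarith)]
    linarith
  linarith

/-- PROPERTY P_t, roots of unity. `P` the minimal polynomial of `w` over `K`, `g` integral over `K` with `g(w) = ζ`
(`pow_int`). The cyclotomic polynomial `Φ` of order `p^k` composed with `g` vanishes at `w`, so `P ∣ Φ ∘ g` with integral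
quotient, and `‖Φ(y)‖ ≤ ‖P(β)‖ ≤ p^(-t)`, `y = g(β)`. Let `ξ` be the primitive `p^k`-th root of unity closest to `y`. If
`‖y - ξ‖ ≥ p^(-1/(p-1))` then `‖y - ξ'‖ ≥ ‖ξ - ξ'‖` for all `ξ'`, and `‖Φ(y)‖ ≥ p^(-1/(p-1)) ∏_{ξ' ≠ ξ primitive} ‖ξ - ξ'‖
≥ p^(-1) p^(-k)` (`prod_one_sub`), a contradiction to `t > k + 1`. So `‖y - ξ‖ < p^(-1/(p-1)) ≤ ‖ξ - ξ'‖` and Krasner's
lemma gives `ξ ∈ K(y) ≤ K(β)`; `ζ` is a power of `ξ`. -/
theorem pt_zeta (K L : IntermediateField ℚ_[p] (PadicAlgCl p)) [FiniteDimensional ℚ_[p] L]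
    (h : ResTriv K L) {w : PadicAlgCl p} (hw : IsUnif L w) {k : ℕ} {ζ : PadicAlgCl p}
    (hζ : IsPrimitiveRoot ζ (p ^ k)) (hζL : ζ ∈ L) (t : ℝ) (ht : (k : ℝ) + 1 < t) (β : PadicAlgCl p)
    (hβ : ‖β‖ ≤ 1) (hP : ‖aeval β (minpoly K w)‖ ≤ (p : ℝ) ^ (-t)) : ζ ∈ K ⊔ ℚ_[p]⟮β⟯ := by
  classical
  have hpk : 0 < p ^ k := pow_pos (Fact.out (p := p.Prime)).pos k
  have hζ1 : ‖ζ‖ = 1 := norm_root_one hpk hζ.pow_eq_one
  obtain ⟨g, hg1, hg2⟩ := pow_int K L h hw hζL hζ1.le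
  set G : (PadicAlgCl p)[X] := g.map (algebraMap K (PadicAlgCl p)) with hG
  have hGc : ∀ i, ‖G.coeff i‖ ≤ 1 := by
    intro i
    rw [hG, coeff_map]
    exact hg1 i
  set y : PadicAlgCl p := aeval β g with hy
  have hyG : G.eval β = y := by
    rw [hG, eval_map_algebraMap]
  set F : (↥K)[X] := (cyclotomic (p ^ k) K).comp g with hF
  have hFE : F.map (algebraMap K (PadicAlgCl p)) = (cyclotomic (p ^ k) (PadicAlgCl p)).comp G := by
    rw [hF, Polynomial.map_comp, map_cyclotomic]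
  have hFc : ∀ i, ‖(F.map (algebraMap K (PadicAlgCl p))).coeff i‖ ≤ 1 := by
    intro i
    rw [hFE]
    exact pta_comp (p ^ k) G hGc i
  have hGw : G.eval w = ζ := by
    rw [hG, eval_map_algebraMap, hg2]
  have h0 : aeval w F = 0 := by
    rw [← eval_map_algebraMap, hFE, eval_comp, hGw]
    exact (isRoot_cyclotomic_iff.2 hζ)
  have h1 := pta_dvd K hw.2.2.1.le F hFc h0 β hβ
  have h2 : ‖(cyclotomic (p ^ k) (PadicAlgCl p)).eval y‖ ≤ (p : ℝ) ^ (-t) := by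
    rw [hFE, eval_comp, hyG] at h1
    exact h1.trans hP
  have h3 : (cyclotomic (p ^ k) (PadicAlgCl p)).eval y =
      ∏ μ ∈ primitiveRoots (p ^ k) (PadicAlgCl p), (y - μ) := by
    rw [cyclotomic_eq_prod_X_sub_primitiveRoots hζ, eval_prod]
    refine Finset.prod_congr rfl fun μ _ => ?_
    rw [eval_sub, eval_X, eval_C]
  obtain ⟨ξ, hξS, hξmin⟩ := Finset.exists_min_image (primitiveRoots (p ^ k) (PadicAlgCl p))
    (fun μ => ‖y - μ‖) ⟨ζ, (mem_primitiveRoots hpk).2 hζ⟩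
  have hξ : IsPrimitiveRoot ξ (p ^ k) := (mem_primitiveRoots hpk).1 hξS
  have hclose : ‖y - ξ‖ < (p : ℝ) ^ (-(1 : ℝ) / (p - 1)) := by
    by_contra hc
    push Not at hc
    have h4 : ∏ μ ∈ (primitiveRoots (p ^ k) (PadicAlgCl p)).erase ξ, ‖ξ - μ‖ ≤
        ∏ μ ∈ (primitiveRoots (p ^ k) (PadicAlgCl p)).erase ξ, ‖y - μ‖ := by
      refine Finset.prod_le_prod (fun _ _ => norm_nonneg _) fun μ hμ => ?_
      have e1 : ξ - μ = (ξ - y) + (y - μ) := by ring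
      rw [e1]
      refine (IsUltrametricDist.norm_add_le_max _ _).trans (max_le ?_ le_rfl)
      rw [norm_sub_rev]
      exact hξmin μ (Finset.mem_of_mem_erase hμ)
    have h5 := (pta_prod hξ).trans h4
    have h6 : (p : ℝ) ^ (-(1 : ℝ) / (p - 1)) * (p : ℝ) ^ (-(k : ℝ)) ≤
        ‖(cyclotomic (p ^ k) (PadicAlgCl p)).eval y‖ := by
      rw [h3, norm_prod, ← Finset.mul_prod_erase _ _ hξS]
      exact mul_le_mul hc h5 (by positivity) (norm_nonneg _)
    exact absurd (h6.trans h2) (not_le.2 (pta_exp ht))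
  have hkr : ξ ∈ K ⊔ ℚ_[p]⟮y⟯ := by
    refine krasner K ξ y fun x' hx' hne => ?_
    obtain ⟨σ, -, hσ⟩ := exists_conj K ξ x' hx'
    have hx1 : x' ^ p ^ k = 1 := by
      rw [← hσ, ← map_pow, hξ.pow_eq_one, map_one]
    refine lt_of_lt_of_le ?_ (norm_sub_ge hξ.pow_eq_one hx1 (Ne.symm hne))
    rw [norm_sub_rev]
    exact hclose
  have hβK : β ∈ K ⊔ ℚ_[p]⟮β⟯ :=
    (le_sup_right : ℚ_[p]⟮β⟯ ≤ K ⊔ ℚ_[p]⟮β⟯) (mem_adjoin_simple_self _ _)
  have hyK : y ∈ K ⊔ ℚ_[p]⟮β⟯ := by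
    rw [hy, aeval_eq_sum_range]
    refine IntermediateField.sum_mem _ fun i _ => ?_
    have e1 : g.coeff i • β ^ i = ((g.coeff i : ↥K) : PadicAlgCl p) * β ^ i := rfl
    rw [e1]
    exact IntermediateField.mul_mem _ ((le_sup_left : K ≤ K ⊔ ℚ_[p]⟮β⟯) (g.coeff i).2)
      (pow_mem hβK i)
  have hle : K ⊔ ℚ_[p]⟮y⟯ ≤ K ⊔ ℚ_[p]⟮β⟯ := by
    refine sup_le le_sup_left ?_
    rw [adjoin_simple_le_iff]
    exact hyK
  have : NeZero (p ^ k) := ⟨hpk.ne'⟩
  obtain ⟨j, -, hj⟩ := hξ.eq_pow_of_pow_eq_one hζ.pow_eq_one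
  rw [← hj]
  exact pow_mem (hle hkr) j

end MP4270
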