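import Pool.Agent.Lib_MP_4270a5_nt.PowB
import Pool.Agent.Lib_MP_4270a5_nt.IsoB
import Pool.Agent.Lib_MP_4270a5_nt.RootU
import Pool.Agent.Lib_MP_4270a5_nt.PTa

open Polynomial IntermediateField

namespace MP4270

variable {p : ℕ} [Fact p.Prime]

private theorem ptb_mul {g h : (PadicAlgCl p)[X]} (hg : ∀ i, ‖g.coeff i‖ ≤ 1)
    (hh : ∀ i, ‖h.coeff i‖ ≤ 1) (i : ℕ) : ‖(g * h).coeff i‖ ≤ 1 := by
  rw [coeff_mul]
  refine IsUltrametricDist.norm_sum_le_of_forall_le_of_nonneg zero_le_one fun x _ => ?_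
  rw [norm_mul]
  exact mul_le_one₀ (hg _) (norm_nonneg _) (hh _)

private theorem ptb_pow {g : (PadicAlgCl p)[X]} (hg : ∀ i, ‖g.coeff i‖ ≤ 1) (n : ℕ) :
    ∀ i, ‖(g ^ n).coeff i‖ ≤ 1 := by
  induction n with
  | zero =>
    intro i
    rw [pow_zero, coeff_one]
    split_ifs
    · rw [norm_one]
    · rw [norm_zero]; exact zero_le_one
  | succ n ih =>
    rw [pow_succ]
    exact ptb_mul ih hg

/-- The value of the minimal polynomial dominates the values of integral polynomials which vanish at `w`. -/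
private theorem ptb_dom (K : IntermediateField ℚ_[p] (PadicAlgCl p)) {w β : PadicAlgCl p}
    (hw : ‖w‖ ≤ 1) (hβ : ‖β‖ ≤ 1) (Q : (↥K)[X])
    (hQ : ∀ i, ‖((Q.map (algebraMap K (PadicAlgCl p))).coeff i)‖ ≤ 1) (hQw : aeval w Q = 0) :
    ‖aeval β Q‖ ≤ ‖aeval β (minpoly K w)‖ := by
  classical
  have hint : IsIntegral K w := (Algebra.IsAlgebraic.isAlgebraic w).isIntegral
  set P := minpoly K w with hP
  have hm : P.Monic := minpoly.monic hint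
  have hsep : P.Separable := (minpoly.irreducible hint).separable
  have hsplit : (P.map (algebraMap K (PadicAlgCl p))).Splits := IsAlgClosed.splits _
  have hnodup : (P.aroots (PadicAlgCl p)).Nodup := nodup_aroots_iff_of_splits hm.ne_zero hsplit |>.mpr hsep
  have h1 := norm_eval_le_prod (Q.map (algebraMap K (PadicAlgCl p))) hQ
    (P.aroots (PadicAlgCl p)).toFinset ?_ β hβ
  · have h2 : aeval β P = ∏ θ ∈ (P.aroots (PadicAlgCl p)).toFinset, (β - θ) := by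
      rw [hsplit.aeval_eq_prod_aroots_of_monic hm]
      show _ = ((P.aroots (PadicAlgCl p)).toFinset.val.map (fun θ => β - θ)).prod
      rw [Multiset.toFinset_val, hnodup.dedup]
    rw [h2, norm_prod]
    rwa [eval_map_algebraMap] at h1
  · intro θ hθ
    rw [Multiset.mem_toFinset, mem_aroots] at hθ
    obtain ⟨σ, hσK, hσ⟩ := exists_conj K w θ hθ.2
    refine ⟨?_, ?_⟩
    · rw [← hσ, norm_equiv]; exact hw
    · rw [eval_map_algebraMap, ← hσ, ← map_aeval K σ hσK, hQw, map_zero]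

private theorem ptb_roots {N : ℕ} (hN : 0 < N) {ζ : PadicAlgCl p} (hζ : IsPrimitiveRoot ζ N) :
    haveI := Classical.decEq (PadicAlgCl p)
    nthRootsFinset N (1 : PadicAlgCl p) = (Finset.range N).image (fun i => ζ ^ i) := by
  classical
  symm
  have hinj : Set.InjOn (fun i => ζ ^ i) (Finset.range N : Set ℕ) := by
    intro a ha b hb hab
    rw [Finset.mem_coe, Finset.mem_range] at ha hb
    exact hζ.pow_inj ha hb hab
  apply Finset.eq_of_subset_of_card_le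
  · intro x hx
    obtain ⟨i, _, rfl⟩ := Finset.mem_image.mp hx
    rw [mem_nthRootsFinset hN, ← pow_mul, mul_comm, pow_mul, hζ.pow_eq_one, one_pow]
  · rw [hζ.card_nthRootsFinset, Finset.card_image_of_injOn hinj, Finset.card_range]

private theorem ptb_prod {N : ℕ} (hN : 0 < N) {ζ : PadicAlgCl p} (hζ : IsPrimitiveRoot ζ N)
    (y θ : PadicAlgCl p) : y ^ N - θ ^ N = ∏ i ∈ Finset.range N, (y - ζ ^ i * θ) := by
  classical
  rw [hζ.pow_sub_pow_eq_prod_sub_mul y θ hN]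
  have h := ptb_roots hN hζ
  rw [h, Finset.prod_image]
  intro a ha b hb hab
  rw [Finset.mem_coe, Finset.mem_range] at ha hb
  exact hζ.pow_inj ha hb hab

/-- PROPERTY P_t, Kummer generators, integral case. `g` integral over `K` with `g(w) = α`, `y = g(β)`:
`‖y^(p^k) - γ‖ ≤ p^(-t)`, `γ = α^(p^k) ∈ K`. Let `θ` be the root of `X^(p^k) - γ` closest to `y`. If
`‖y - θ‖ ≥ ‖θ‖ p^(-1/(p-1))`, then `‖y - ξ θ‖ ≥ ‖θ‖ ‖1 - ξ‖` for all roots of unity `ξ` and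
`‖y^(p^k) - γ‖ ≥ ‖γ‖ p^(-1/(p-1)) p^(-k) ≥ p^(-c-1-k)`, contradiction. So Krasner's lemma gives `θ ∈ K(β)`, and
`α = ξ θ` with a `p^k`-th root of unity `ξ`, a power of `ζ ∈ K(β)`. -/
theorem pt_alpha (K L : IntermediateField ℚ_[p] (PadicAlgCl p)) [FiniteDimensional ℚ_[p] L]
    (h : ResTriv K L) {w : PadicAlgCl p} (hw : IsUnif L w) {k : ℕ} {ζ : PadicAlgCl p}
    (hζ : IsPrimitiveRoot ζ (p ^ k)) (hζL : ζ ∈ L) (c : ℝ) (hc : 0 ≤ c) (t : ℝ) (ht : (k : ℝ) + c + 1 < t)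
    {α : PadicAlgCl p} (hαL : α ∈ L) (hα : α ^ (p ^ k) ∈ K) (hα1 : ‖α‖ ≤ 1)
    (hαc : (p : ℝ) ^ (-c) ≤ ‖α ^ (p ^ k)‖) (β : PadicAlgCl p)
    (hβ : ‖β‖ ≤ 1) (hP : ‖aeval β (minpoly K w)‖ ≤ (p : ℝ) ^ (-t)) : α ∈ K ⊔ ℚ_[p]⟮β⟯ := by
  classical
  have hp : p.Prime := Fact.out
  have hp1 : (1 : ℝ) < p := by exact_mod_cast hp.one_lt
  have hp2 : (2 : ℝ) ≤ p := by exact_mod_cast hp.two_le
  have hp0 : (0 : ℝ) < p := by linarith
  set N : ℕ := p ^ k with hN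
  have hNpos : 0 < N := pow_pos hp.pos k
  have hNne : NeZero N := ⟨hNpos.ne'⟩
  obtain ⟨g, hg, hgw⟩ := pow_int K L h hw hαL hα1
  set y : PadicAlgCl p := aeval β g with hy
  set γ : PadicAlgCl p := α ^ N with hγ
  have hγ1 : ‖γ‖ ≤ 1 := by rw [hγ, norm_pow]; exact pow_le_one₀ (norm_nonneg _) hα1
  -- `‖y ^ N - γ‖ ≤ p ^ (-t)`
  have hyN : ‖y ^ N - γ‖ ≤ (p : ℝ) ^ (-t) := by
    have h1 := ptb_dom K hw.2.2.1.le hβ (g ^ N - C (⟨γ, hα⟩ : ↥K)) ?_ ?_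
    · have h2 : aeval β (g ^ N - C (⟨γ, hα⟩ : ↥K)) = y ^ N - γ := by
        rw [map_sub, map_pow, aeval_C]
        rfl
      rw [h2] at h1
      exact h1.trans hP
    · intro i
      rw [Polynomial.map_sub, Polynomial.map_pow, map_C, coeff_sub, sub_eq_add_neg]
      refine (IsUltrametricDist.norm_add_le_max _ _).trans (max_le ?_ ?_)
      · refine ptb_pow (fun j => ?_) N i
        rw [coeff_map]
        exact hg j
      · rw [norm_neg, coeff_C]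
        split_ifs
        · exact hγ1
        · rw [norm_zero]; exact zero_le_one
    · rw [map_sub, map_pow, hgw, aeval_C]
      exact sub_self _
  -- the closest root
  obtain ⟨i₀, hi₀, hmin⟩ := Finset.exists_min_image (Finset.range N) (fun i => ‖y - ζ ^ i * α‖)
    ⟨0, Finset.mem_range.mpr hNpos⟩
  set θ : PadicAlgCl p := ζ ^ i₀ * α with hθ
  have hζn : ‖ζ‖ = 1 := norm_root_one hNpos hζ.pow_eq_one
  have hζ0 : ζ ≠ 0 := by
    intro h0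
    rw [h0, norm_zero] at hζn
    exact zero_ne_one hζn
  have hθN : θ ^ N = γ := by
    rw [hθ, mul_pow, ← pow_mul, mul_comm i₀ N, pow_mul, hζ.pow_eq_one, one_pow, one_mul]
  have hθn : ‖θ‖ = ‖α‖ := by rw [hθ, norm_mul, norm_pow, hζn, one_pow, one_mul]
  have hγpos : 0 < ‖γ‖ := lt_of_lt_of_le (Real.rpow_pos_of_pos hp0 _) hαc
  have hθpos : 0 < ‖θ‖ := by
    rw [norm_pos_iff]
    intro h0
    rw [← hθN, h0, zero_pow hNpos.ne', norm_zero] at hγpos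
    exact lt_irrefl _ hγpos
  -- all roots are at least as far
  have hfar : ∀ i, ‖y - θ‖ ≤ ‖y - ζ ^ i * θ‖ := by
    intro i
    have h1 : ζ ^ i * θ = ζ ^ ((i + i₀) % N) * α := by
      rw [hθ, ← mul_assoc, ← pow_add]
      congr 1
      conv_lhs => rw [← Nat.div_add_mod (i + i₀) N]
      rw [pow_add, pow_mul, hζ.pow_eq_one, one_pow, one_mul]
    rw [h1]
    exact hmin _ (Finset.mem_range.mpr (Nat.mod_lt _ hNpos))
  have hfar2 : ∀ i, ‖θ‖ * ‖1 - ζ ^ i‖ ≤ ‖y - ζ ^ i * θ‖ := by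
    intro i
    have h1 : θ - ζ ^ i * θ = (y - ζ ^ i * θ) + -(y - θ) := by ring
    have h2 : θ - ζ ^ i * θ = θ * (1 - ζ ^ i) := by ring
    rw [← norm_mul, ← h2, h1]
    refine (IsUltrametricDist.norm_add_le_max _ _).trans (max_le le_rfl ?_)
    rw [norm_neg]
    exact hfar i
  -- `y` is close to `θ`
  have hclose : ‖y - θ‖ < ‖θ‖ * (p : ℝ) ^ (-(1 : ℝ) / (p - 1)) := by
    by_contra hcon
    rw [not_lt] at hcon
    have h0mem : 0 ∈ Finset.range N := Finset.mem_range.mpr hNpos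
    have h1 : ‖y ^ N - γ‖ = ‖y - θ‖ * ∏ i ∈ (Finset.range N).erase 0, ‖y - ζ ^ i * θ‖ := by
      rw [← hθN, ptb_prod hNpos hζ, norm_prod, ← Finset.mul_prod_erase _ _ h0mem, pow_zero, one_mul]
    have h2 : ∏ i ∈ (Finset.range N).erase 0, (‖θ‖ * ‖1 - ζ ^ i‖) ≤
        ∏ i ∈ (Finset.range N).erase 0, ‖y - ζ ^ i * θ‖ :=
      Finset.prod_le_prod (fun _ _ => mul_nonneg (norm_nonneg _) (norm_nonneg _)) fun i _ => hfar2 i
    rw [Finset.prod_mul_distrib, Finset.prod_const, Finset.card_erase_of_mem h0mem,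
      Finset.card_range, prod_one_sub hζ] at h2
    have hpk : (0 : ℝ) < (p : ℝ) ^ (-(k : ℝ)) := Real.rpow_pos_of_pos hp0 _
    have hpe : (0 : ℝ) < (p : ℝ) ^ (-(1 : ℝ) / (p - 1)) := Real.rpow_pos_of_pos hp0 _
    have h3 : ‖θ‖ * (p : ℝ) ^ (-(1 : ℝ) / (p - 1)) * (‖θ‖ ^ (N - 1) * (p : ℝ) ^ (-(k : ℝ))) ≤
        ‖y ^ N - γ‖ := by
      rw [h1]
      exact mul_le_mul hcon h2 (by positivity) (norm_nonneg _)
    have h4 : ‖θ‖ * (p : ℝ) ^ (-(1 : ℝ) / (p - 1)) * (‖θ‖ ^ (N - 1) * (p : ℝ) ^ (-(k : ℝ))) =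
        ‖γ‖ * ((p : ℝ) ^ (-(1 : ℝ) / (p - 1)) * (p : ℝ) ^ (-(k : ℝ))) := by
      have h5 : ‖γ‖ = ‖θ‖ * ‖θ‖ ^ (N - 1) := by
        rw [← hθN, norm_pow, ← pow_succ', Nat.sub_add_cancel hNpos]
      rw [h5]; ring
    have h6 : (p : ℝ) ^ (-c) * ((p : ℝ) ^ (-(1 : ℝ)) * (p : ℝ) ^ (-(k : ℝ))) ≤
        ‖γ‖ * ((p : ℝ) ^ (-(1 : ℝ) / (p - 1)) * (p : ℝ) ^ (-(k : ℝ))) := by
      refine mul_le_mul hαc (mul_le_mul_of_nonneg_right ?_ hpk.le) (by positivity) hγpos.le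
      refine Real.rpow_le_rpow_of_exponent_le hp1.le ?_
      rw [neg_div, neg_le_neg_iff, div_le_one (by linarith)]
      linarith
    rw [← Real.rpow_add hp0, ← Real.rpow_add hp0] at h6
    have h7 : (p : ℝ) ^ (-t) < (p : ℝ) ^ (-c + (-1 + -(k : ℝ))) :=
      Real.rpow_lt_rpow_of_exponent_lt hp1 (by linarith)
    linarith
  -- Krasner's lemma
  have hθK : θ ∈ K ⊔ ℚ_[p]⟮y⟯ := by
    apply krasner
    intro x' hx' hne
    have hdvd : minpoly K θ ∣ X ^ N - C (⟨γ, hα⟩ : ↥K) := by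
      apply minpoly.dvd
      rw [map_sub, map_pow, aeval_X, aeval_C, hθN]
      exact sub_self _
    have hx'N : x' ^ N = θ ^ N := by
      obtain ⟨R, hR⟩ := hdvd
      have h1 : aeval x' (X ^ N - C (⟨γ, hα⟩ : ↥K)) = 0 := by rw [hR, map_mul, hx', zero_mul]
      rw [map_sub, map_pow, aeval_X, aeval_C] at h1
      rw [hθN]
      exact sub_eq_zero.mp h1
    have hθne : θ ≠ 0 := norm_pos_iff.mp hθpos
    have h1 : (x' / θ) ^ N = 1 := by rw [div_pow, hx'N, div_self (pow_ne_zero _ hθne)]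
    obtain ⟨i, hi, hi2⟩ := hζ.eq_pow_of_pow_eq_one h1
    have hx'' : x' = ζ ^ i * θ := by rw [hi2, div_mul_cancel₀ _ hθne]
    have hi1 : (1 : PadicAlgCl p) ≠ ζ ^ i := by
      intro h0
      rw [← h0, one_mul] at hx''
      exact hne hx''
    have h2 : (p : ℝ) ^ (-(1 : ℝ) / (p - 1)) ≤ ‖1 - ζ ^ i‖ :=
      norm_sub_ge (k := k) (one_pow _) (by rw [← hN, ← pow_mul, mul_comm, pow_mul, hζ.pow_eq_one, one_pow]) hi1
    calc ‖θ - y‖ = ‖y - θ‖ := norm_sub_rev _ _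
      _ < ‖θ‖ * (p : ℝ) ^ (-(1 : ℝ) / (p - 1)) := hclose
      _ ≤ ‖θ‖ * ‖1 - ζ ^ i‖ := mul_le_mul_of_nonneg_left h2 (norm_nonneg _)
      _ = ‖θ - x'‖ := by
        rw [← norm_mul, hx'']
        congr 1
        ring
  have hβmem : β ∈ K ⊔ ℚ_[p]⟮β⟯ :=
    (le_sup_right : ℚ_[p]⟮β⟯ ≤ K ⊔ ℚ_[p]⟮β⟯) (mem_adjoin_simple_self _ _)
  have hymem : y ∈ K ⊔ ℚ_[p]⟮β⟯ := by
    rw [hy, aeval_eq_sum_range]
    refine sum_mem fun i _ => ?_
    rw [Algebra.smul_def]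
    exact mul_mem ((le_sup_left : K ≤ K ⊔ ℚ_[p]⟮β⟯) (g.coeff i).2) (pow_mem hβmem i)
  have hle : K ⊔ ℚ_[p]⟮y⟯ ≤ K ⊔ ℚ_[p]⟮β⟯ :=
    sup_le le_sup_left (adjoin_simple_le_iff.mpr hymem)
  have hζmem : ζ ∈ K ⊔ ℚ_[p]⟮β⟯ := pt_zeta K L h hw hζ hζL t (by linarith) β hβ hP
  have hαeq : α = (ζ ^ i₀)⁻¹ * θ := by
    rw [hθ, ← mul_assoc, inv_mul_cancel₀ (pow_ne_zero _ hζ0), one_mul]
  rw [hαeq]
  exact mul_mem (inv_mem (pow_mem hζmem i₀)) (hle hθK)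

end MP4270
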