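import Pool.Agent.Lib_MP_4270a5_nt.PTa
import Pool.Agent.Lib_MP_4270a5_nt.PTb
import Pool.Agent.Lib_MP_4270a5_nt.KumN

open Polynomial IntermediateField

namespace MP4270

variable {p : ℕ} [Fact p.Prime]

/-- PROPERTY P_t for the field `KumL K ζ α` (for `‖α i‖ > 1` use `(α i)⁻¹`). -/
theorem prop_P (K : IntermediateField ℚ_[p] (PadicAlgCl p)) [FiniteDimensional ℚ_[p] K] {r : ℕ} (k : ℕ) (c : ℝ)
    (hc : 0 ≤ c) {ζ : PadicAlgCl p} (hζ : IsPrimitiveRoot ζ (p ^ k)) (α : Fin r → PadicAlgCl p)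
    (hα : ∀ i, α i ^ (p ^ k) ∈ K)
    (hαc : ∀ i, (p : ℝ) ^ (-c) ≤ ‖α i ^ (p ^ k)‖ ∧ ‖α i ^ (p ^ k)‖ ≤ (p : ℝ) ^ c)
    (hres : ResTriv K (KumL K ζ α)) {w : PadicAlgCl p} (hw : IsUnif (KumL K ζ α) w) (β : PadicAlgCl p)
    (hβ : ‖β‖ ≤ 1) (hP : ‖aeval β (minpoly K w)‖ ≤ (p : ℝ) ^ (-((k : ℝ) + c + 2))) :
    KumL K ζ α ≤ K ⊔ ℚ_[p]⟮β⟯ := by
  have hp : p.Prime := Fact.out
  have hp1 : (1 : ℝ) < p := by exact_mod_cast hp.one_lt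
  have hp0 : (0 : ℝ) < p := by linarith
  have : FiniteDimensional ℚ_[p] (KumL K ζ α) := kumL_finite K ζ α
  have hζL : ζ ∈ KumL K ζ α :=
    (le_sup_right : adjoin ℚ_[p] ({ζ} ∪ Set.range α) ≤ _) (subset_adjoin _ _ (Or.inl rfl))
  have hαL : ∀ i, α i ∈ KumL K ζ α := fun i =>
    (le_sup_right : adjoin ℚ_[p] ({ζ} ∪ Set.range α) ≤ _) (subset_adjoin _ _ (Or.inr ⟨i, rfl⟩))
  refine sup_le le_sup_left ?_
  rw [adjoin_le_iff]
  rintro x (hx | ⟨i, rfl⟩)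
  · rw [Set.mem_singleton_iff] at hx
    subst hx
    exact pt_zeta K _ hres hw hζ hζL ((k : ℝ) + c + 2) (by linarith) β hβ hP
  · by_cases h1 : ‖α i‖ ≤ 1
    · exact pt_alpha K _ hres hw hζ hζL c hc ((k : ℝ) + c + 2) (by linarith) (hαL i) (hα i) h1 (hαc i).1 β hβ hP
    · push Not at h1
      have h2 : (α i)⁻¹ ∈ K ⊔ ℚ_[p]⟮β⟯ := by
        refine pt_alpha K _ hres hw hζ hζL c hc ((k : ℝ) + c + 2) (by linarith) (inv_mem (hαL i)) ?_ ?_ ?_ β hβ hP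
        · rw [inv_pow]; exact inv_mem (hα i)
        · rw [norm_inv]
          exact inv_le_one_of_one_le₀ h1.le
        · rw [inv_pow, norm_inv, Real.rpow_neg hp0.le]
          have hpos : 0 < ‖α i ^ p ^ k‖ := lt_of_lt_of_le (Real.rpow_pos_of_pos hp0 _) (hαc i).1
          exact inv_anti₀ hpos (hαc i).2
      have h3 := inv_mem h2
      rwa [inv_inv] at h3

end MP4270
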