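import Pool.Agent.Lib_MP_4270a5_nt.Tower
import Pool.Agent.Lib_MP_4270a5_nt.Font
import Pool.Agent.Lib_MP_4270a5_nt.PT
import Pool.Agent.Lib_MP_4270a5_nt.DifE
import Pool.Agent.Lib_MP_4270a5_nt.DifC

open Polynomial IntermediateField

namespace MP4270

variable {p : ℕ} [Fact p.Prime]

/-- Upper bound for the ramification (`fontaine` and `prop_P`): `D(L/K) ≤ k + c + 2` for `L = KumL K ζ α`. -/
theorem dif_kumL (K : IntermediateField ℚ_[p] (PadicAlgCl p)) [FiniteDimensional ℚ_[p] K] {r : ℕ} (k : ℕ) (c : ℝ)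
    (hc : 0 ≤ c) {ζ : PadicAlgCl p} (hζ : IsPrimitiveRoot ζ (p ^ k)) (α : Fin r → PadicAlgCl p)
    (hα : ∀ i, α i ^ (p ^ k) ∈ K)
    (hαc : ∀ i, (p : ℝ) ^ (-c) ≤ ‖α i ^ (p ^ k)‖ ∧ ‖α i ^ (p ^ k)‖ ≤ (p : ℝ) ^ c)
    (hres : ResTriv K (KumL K ζ α)) {w : PadicAlgCl p} (hw : IsUnif (KumL K ζ α) w) :
    (p : ℝ) ^ (-((k : ℝ) + c + 2)) ≤ dif K w := by
  have : FiniteDimensional ℚ_[p] (KumL K ζ α) := kumL_finite K ζ α
  refine fontaine K (KumL K ζ α) hres hw ?_ ((k : ℝ) + c + 2) ?_ ?_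
  · intro σ hσ
    exact kumL_normal K k hζ α hα σ hσ
  · have : (0 : ℝ) ≤ k := Nat.cast_nonneg k
    linarith
  · intro β hβ hP
    exact prop_P K k c hc hζ α hα hαc hres hw β hβ hP

/-- Lower bound for the cyclotomic part: for a uniformizer `v` of `K'(ζ)`: `D(K'(ζ)/K') ≥ k - d - 2`. (`tower` twice:
`dif B v = dif K' v * dif B z`, `z` a uniformizer of `K'`, and `dif B v = dif B(ζ) v * dif B (ζ-1) ≤ dif B (ζ-1)`;
`dif_lower`, `dif_cyc`.) -/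
theorem dif_zeta (B K' : IntermediateField ℚ_[p] (PadicAlgCl p)) [FiniteDimensional ℚ_[p] K']
    (hB : ∀ x ∈ B, x ≠ 0 → ∃ n : ℤ, ‖x‖ = (p : ℝ) ^ n) {e d : ℕ}
    (he : Module.finrank ℚ_[p] K' = Module.finrank ℚ_[p] B * e) (hd : padicValNat p e ≤ d)
    {k : ℕ} (hk : 1 ≤ k) {ζ : PadicAlgCl p} (hζ : IsPrimitiveRoot ζ (p ^ k))
    (hres : ResTriv B (K' ⊔ ℚ_[p]⟮ζ⟯)) (hBK : B ≤ K') {v : PadicAlgCl p} (hv : IsUnif (K' ⊔ ℚ_[p]⟮ζ⟯) v) :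
    dif K' v ≤ (p : ℝ) ^ (-((k : ℝ) - d - 2)) := by
  have hp : p.Prime := Fact.out
  have hp1 : (1 : ℝ) < p := by exact_mod_cast hp.one_lt
  have hp0 : (0 : ℝ) < p := by linarith
  have hζint : IsIntegral ℚ_[p] ζ := (Algebra.IsAlgebraic.isAlgebraic ζ).isIntegral
  have : FiniteDimensional ℚ_[p] ℚ_[p]⟮ζ⟯ := adjoin.finiteDimensional hζint
  have : FiniteDimensional ℚ_[p] (↥(K' ⊔ ℚ_[p]⟮ζ⟯)) := IntermediateField.finiteDimensional_sup _ _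
  have : FiniteDimensional ℚ_[p] B :=
    FiniteDimensional.of_injective (IntermediateField.inclusion hBK).toLinearMap
      (IntermediateField.inclusion hBK).injective
  obtain ⟨z, hz⟩ := exists_unif K'
  have hresK : ResTriv B K' := ⟨hBK, fun x hx h1 => hres.2 x ((le_sup_left : K' ≤ K' ⊔ ℚ_[p]⟮ζ⟯) hx) h1⟩
  have t1 := tower B K' (K' ⊔ ℚ_[p]⟮ζ⟯) hBK le_sup_left hres hv hz
  obtain ⟨hu, hdc⟩ := dif_cyc B hB hk hζ
  have hFL : B ⊔ ℚ_[p]⟮ζ⟯ ≤ K' ⊔ ℚ_[p]⟮ζ⟯ := sup_le_sup_right hBK _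
  have t2 := tower B (B ⊔ ℚ_[p]⟮ζ⟯) (K' ⊔ ℚ_[p]⟮ζ⟯) le_sup_left hFL hres hv hu
  have hlow := dif_lower B K' hB hresK hz he hd
  have hv1 : ‖v‖ ≤ 1 := hv.2.2.1.le
  have h1 : dif B v ≤ (p : ℝ) ^ (-((k : ℝ) - 1 / (p - 1))) := by
    rw [t2, hdc]
    exact mul_le_of_le_one_left (Real.rpow_nonneg hp0.le _) (dif_le_one _ hv1)
  have hpos : 0 < dif B z := dif_pos B z
  have h2 : dif K' v * (p : ℝ) ^ (-((d : ℝ) + 1)) ≤ (p : ℝ) ^ (-((k : ℝ) - 1 / (p - 1))) := by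
    calc dif K' v * (p : ℝ) ^ (-((d : ℝ) + 1)) ≤ dif K' v * dif B z :=
          mul_le_mul_of_nonneg_left hlow (dif_pos K' v).le
      _ = dif B v := t1.symm
      _ ≤ _ := h1
  have h3 : (1 : ℝ) / (p - 1) ≤ 1 := by
    rw [div_le_one (by linarith)]
    have : (2 : ℝ) ≤ p := by exact_mod_cast hp.two_le
    linarith
  have h4 : (p : ℝ) ^ (-((k : ℝ) - 1 / (p - 1))) ≤
      (p : ℝ) ^ (-((k : ℝ) - d - 2)) * (p : ℝ) ^ (-((d : ℝ) + 1)) := by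
    rw [← Real.rpow_add hp0]
    apply Real.rpow_le_rpow_of_exponent_le hp1.le
    linarith
  have h5 := h2.trans h4
  exact le_of_mul_le_mul_right h5 (Real.rpow_pos_of_pos hp0 _)

end MP4270
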