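import Pool.Agent.Lib_MP_4270a5_nt.Defs

open Polynomial IntermediateField

namespace MP4270

private theorem gauss_X_sub_C (ℓ : ℕ) [Fact ℓ.Prime] (a : PadicAlgCl ℓ) :
    (X - C a).gaussNorm (NormedField.toAbsoluteValue (PadicAlgCl ℓ)) 1 = max 1 ‖a‖ := by
  set v := NormedField.toAbsoluteValue (PadicAlgCl ℓ) with hv
  have hv' : ∀ x, v x = ‖x‖ := fun x => rfl
  apply le_antisymm
  · obtain ⟨i, hi⟩ := (X - C a).exists_eq_gaussNorm v 1
    rw [hi, one_pow, mul_one, hv']
    rcases i with _ | _ | i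
    · simp
    · simp [coeff_X]
    · simp [coeff_X]
  · apply max_le
    · have := (X - C a).le_gaussNorm v (zero_le_one (α := ℝ)) 1
      rw [one_pow, mul_one, hv'] at this
      simpa [coeff_X, coeff_C] using this
    · have := (X - C a).le_gaussNorm v (zero_le_one (α := ℝ)) 0
      rw [one_pow, mul_one, hv'] at this
      simpa [coeff_X, coeff_C] using this

private theorem gauss_prod (ℓ : ℕ) [Fact ℓ.Prime] (s : Multiset (PadicAlgCl ℓ)) :
    (s.map fun a => X - C a).prod.gaussNorm (NormedField.toAbsoluteValue (PadicAlgCl ℓ)) 1 =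
      (s.map fun z => max 1 ‖z‖).prod := by
  have hna : IsNonarchimedean (NormedField.toAbsoluteValue (PadicAlgCl ℓ)) :=
    PadicAlgCl.isNonarchimedean ℓ
  induction s using Multiset.induction with
  | empty =>
    have h := gaussNorm_C (NormedField.toAbsoluteValue (PadicAlgCl ℓ)) 1 (1 : PadicAlgCl ℓ)
    rw [C_1] at h
    rw [Multiset.map_zero, Multiset.prod_zero, h]
    simp
  | cons a s ih =>
    rw [Multiset.map_cons, Multiset.prod_cons, Polynomial.gaussNorm_mul hna one_pos, ih,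
      gauss_X_sub_C, Multiset.map_cons, Multiset.prod_cons]

private theorem gauss_int (ℓ : ℕ) [Fact ℓ.Prime] (n : ℤ) :
    ‖(n : PadicAlgCl ℓ)‖ = ‖(n : ℚ_[ℓ])‖ := by
  have h := PadicAlgCl.norm_extends ℓ (n : ℚ_[ℓ])
  rw [← h]
  simp

/-- GAUSS' LEMMA. For a monic-up-to-constant polynomial `P = c ∏ (X - z)` over `PadicAlgCl ℓ` the maximum of the norms of the
coefficients is `‖c‖ ∏ max(1, ‖z‖)` (the Gauss norm is multiplicative: `Polynomial.gaussNorm`, or directly by induction on
the roots); for a primitive integral polynomial the maximum is `1` (some coefficient is prime to `ℓ`). -/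
theorem gauss (ℓ : ℕ) [Fact ℓ.Prime] (P : ℤ[X]) (hP : P.IsPrimitive) :
    ‖(P.leadingCoeff : PadicAlgCl ℓ)‖ *
      ((P.map (Int.castRingHom (PadicAlgCl ℓ))).roots.map (fun z => max 1 ‖z‖)).prod = 1 := by
  have hna : IsNonarchimedean (NormedField.toAbsoluteValue (PadicAlgCl ℓ)) :=
    PadicAlgCl.isNonarchimedean ℓ
  set Q := P.map (Int.castRingHom (PadicAlgCl ℓ)) with hQ
  have hinj : Function.Injective (Int.castRingHom (PadicAlgCl ℓ)) := Int.cast_injective
  have hlc : Q.leadingCoeff = (P.leadingCoeff : PadicAlgCl ℓ) := by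
    rw [hQ, leadingCoeff_map_of_injective hinj]
    rfl
  have hsplit : C Q.leadingCoeff * (Q.roots.map fun a => X - C a).prod = Q :=
    (IsAlgClosed.splits Q).eq_prod_roots.symm
  have h1 : Q.gaussNorm (NormedField.toAbsoluteValue (PadicAlgCl ℓ)) 1 =
      ‖(P.leadingCoeff : PadicAlgCl ℓ)‖ * (Q.roots.map (fun z => max 1 ‖z‖)).prod := by
    conv_lhs => rw [← hsplit]
    rw [Polynomial.gaussNorm_mul hna one_pos, gauss_prod, gaussNorm_C, hlc]
    rfl
  rw [← h1]
  apply le_antisymm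
  · obtain ⟨i, hi⟩ := Q.exists_eq_gaussNorm (NormedField.toAbsoluteValue (PadicAlgCl ℓ)) 1
    rw [hi, one_pow, mul_one, hQ, coeff_map]
    change ‖((P.coeff i : ℤ) : PadicAlgCl ℓ)‖ ≤ 1
    rw [gauss_int]
    exact Padic.norm_int_le_one _
  · have h2 : ∃ i, ¬ (ℓ : ℤ) ∣ P.coeff i := by
      by_contra hcon
      push Not at hcon
      have h3 : C (ℓ : ℤ) ∣ P := (C_dvd_iff_dvd_coeff _ _).mpr hcon
      have h4 := hP _ h3
      have hp := (Fact.out : ℓ.Prime).one_lt
      rw [Int.isUnit_iff_natAbs_eq, Int.natAbs_natCast] at h4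
      omega
    obtain ⟨i, hi⟩ := h2
    have h5 := Q.le_gaussNorm (NormedField.toAbsoluteValue (PadicAlgCl ℓ)) (zero_le_one (α := ℝ)) i
    rw [one_pow, mul_one, hQ, coeff_map] at h5
    have h6 : ‖((P.coeff i : ℤ) : PadicAlgCl ℓ)‖ = 1 := by
      rw [gauss_int]
      apply le_antisymm (Padic.norm_int_le_one _)
      by_contra hlt
      exact hi ((Padic.norm_intCast_lt_one_iff).mp (not_le.mp hlt))
    exact h6.symm.le.trans h5

end MP4270
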