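import Pool.Agent.Lib_MP_4270a5_nt.Defs

open Polynomial IntermediateField

namespace MP4270

/-- The ultrametric inequality and multiplicativity of `nm ℓ`, `nmC` (all trivial from the definitions). -/
theorem nm_mul (ℓ : ℕ) (x y : Qb) : nm ℓ (x * y) = nm ℓ x * nm ℓ y := by
  unfold nm
  split_ifs with h
  · have : Fact ℓ.Prime := ⟨h⟩
    rw [map_mul, norm_mul]
  · rw [mul_one]

theorem nm_pow (ℓ : ℕ) (x : Qb) (n : ℕ) : nm ℓ (x ^ n) = nm ℓ x ^ n := by
  unfold nm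
  split_ifs with h
  · have : Fact ℓ.Prime := ⟨h⟩
    rw [map_pow, norm_pow]
  · rw [one_pow]

theorem nm_inv (ℓ : ℕ) {x : Qb} (hx : x ≠ 0) : nm ℓ x⁻¹ = (nm ℓ x)⁻¹ := by
  unfold nm
  split_ifs with h
  · have : Fact ℓ.Prime := ⟨h⟩
    rw [map_inv₀, norm_inv]
  · rw [inv_one]

theorem nm_pos (ℓ : ℕ) {x : Qb} (hx : x ≠ 0) : 0 < nm ℓ x := by
  unfold nm
  split_ifs with h
  · have : Fact ℓ.Prime := ⟨h⟩
    rw [norm_pos_iff]
    exact (map_ne_zero (jj ℓ)).2 hx
  · exact one_pos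

theorem nm_sub_le (ℓ : ℕ) (x y : Qb) : nm ℓ (x - y) ≤ max (nm ℓ x) (nm ℓ y) := by
  unfold nm
  split_ifs with h
  · have : Fact ℓ.Prime := ⟨h⟩
    rw [map_sub, sub_eq_add_neg, ← norm_neg (jj ℓ y)]
    exact IsUltrametricDist.norm_add_le_max _ _
  · rw [max_self]

theorem nm_eq (p : ℕ) [Fact p.Prime] (x : Qb) : nm p x = ‖jj p x‖ := by
  unfold nm
  rw [dif_pos (Fact.out : p.Prime)]

/-- The conjugates `σ x`, `σ ∈ Gal(M/ℚ)`, are the roots of the minimal polynomial, each one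
`[M : ℚ] / deg x` times. -/
theorem sum_conj (M : IntermediateField ℚ Qb) [FiniteDimensional ℚ M] [Normal ℚ M] (x : M) (F : Qb → ℝ) :
    ((minpoly ℚ (x : Qb)).natDegree : ℝ) * ∑ σ : M ≃ₐ[ℚ] M, F ((σ x : M) : Qb) =
      (Module.finrank ℚ M : ℝ) * (((minpoly ℚ (x : Qb)).aroots Qb).map F).sum := by
  classical
  have hint : IsIntegral ℚ (x : Qb) := Algebra.IsIntegral.isIntegral _
  have hmin : minpoly ℚ (x : Qb) = minpoly ℚ x :=
    minpoly.algebraMap_eq (algebraMap M Qb).injective x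
  have hsep : (minpoly ℚ (x : Qb)).Separable := (minpoly.irreducible hint).separable
  have hnd : ((minpoly ℚ (x : Qb)).aroots Qb).Nodup := nodup_roots hsep.map
  have hcard : Multiset.card ((minpoly ℚ (x : Qb)).aroots Qb) = (minpoly ℚ (x : Qb)).natDegree := by
    rw [aroots_def, ← (IsAlgClosed.splits ((minpoly ℚ (x : Qb)).map (algebraMap ℚ Qb))).natDegree_eq_card_roots,
      natDegree_map]
  have hne : (minpoly ℚ (x : Qb)) ≠ 0 := minpoly.ne_zero hint
  -- the image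
  have himg : Finset.univ.image (fun σ : M ≃ₐ[ℚ] M => ((σ x : M) : Qb)) =
      ((minpoly ℚ (x : Qb)).aroots Qb).toFinset := by
    ext y
    rw [Finset.mem_image, Multiset.mem_toFinset, mem_aroots]
    constructor
    · rintro ⟨σ, -, rfl⟩
      refine ⟨hne, ?_⟩
      have h1 : aeval (σ x) (minpoly ℚ x) = 0 := by
        rw [aeval_algHom_apply, minpoly.aeval, map_zero]
      rw [hmin]
      have h2 : aeval (algebraMap M Qb (σ x)) (minpoly ℚ x) = algebraMap M Qb (aeval (σ x) (minpoly ℚ x)) :=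
        aeval_algebraMap_apply Qb (σ x) (minpoly ℚ x)
      rw [h1, map_zero] at h2
      exact h2
    · rintro ⟨-, hy⟩
      have h1 : IsConjRoot ℚ (x : Qb) y := (isConjRoot_iff_aeval_eq_zero hint).2 hy
      obtain ⟨τ, hτ⟩ := isConjRoot_iff_exists_algEquiv.1 h1.symm
      refine ⟨τ.restrictNormal M, Finset.mem_univ _, ?_⟩
      rw [← hτ]
      exact AlgEquiv.restrictNormal_commutes τ M x
  -- the fibres
  have hfib : ∀ y ∈ Finset.univ.image (fun σ : M ≃ₐ[ℚ] M => ((σ x : M) : Qb)),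
      (Finset.univ.filter (fun σ : M ≃ₐ[ℚ] M => ((σ x : M) : Qb) = y)).card =
      (Finset.univ.filter (fun σ : M ≃ₐ[ℚ] M => σ x = x)).card := by
    intro y hy
    rw [Finset.mem_image] at hy
    obtain ⟨τ, -, rfl⟩ := hy
    refine Finset.card_bij (fun σ _ => τ⁻¹ * σ) ?_ ?_ ?_
    · intro σ hσ
      rw [Finset.mem_filter] at hσ ⊢
      refine ⟨Finset.mem_univ _, ?_⟩
      have h2 : σ x = τ x := Subtype.ext hσ.2
      rw [AlgEquiv.mul_apply, h2, ← AlgEquiv.mul_apply, inv_mul_cancel, AlgEquiv.one_apply]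
    · intro a _ b _ hab
      exact mul_left_cancel hab
    · intro σ hσ
      rw [Finset.mem_filter] at hσ
      refine ⟨τ * σ, ?_, by rw [inv_mul_cancel_left]⟩
      rw [Finset.mem_filter]
      refine ⟨Finset.mem_univ _, ?_⟩
      rw [AlgEquiv.mul_apply, hσ.2]
  have hsum : ∀ f : Qb → ℝ, ∑ σ : M ≃ₐ[ℚ] M, f ((σ x : M) : Qb) =
      ((Finset.univ.filter (fun σ : M ≃ₐ[ℚ] M => σ x = x)).card : ℝ) *
        ∑ y ∈ ((minpoly ℚ (x : Qb)).aroots Qb).toFinset, f y := by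
    intro f
    rw [Finset.sum_comp f (fun σ : M ≃ₐ[ℚ] M => ((σ x : M) : Qb)), ← himg, Finset.mul_sum]
    refine Finset.sum_congr rfl fun y hy => ?_
    rw [hfib y hy, nsmul_eq_mul]
  have hms : ∀ f : Qb → ℝ, ∑ y ∈ ((minpoly ℚ (x : Qb)).aroots Qb).toFinset, f y =
      (((minpoly ℚ (x : Qb)).aroots Qb).map f).sum := by
    intro f
    rw [Finset.sum_multiset_map_count]
    refine Finset.sum_congr rfl fun y hy => ?_
    rw [Multiset.count_eq_one_of_mem hnd (Multiset.mem_toFinset.1 hy), one_smul]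
  have hG : IsGalois ℚ M := ⟨⟩
  have h1 := hsum (fun _ => 1)
  rw [Finset.sum_const, Finset.sum_const, Finset.card_univ, nsmul_eq_mul, nsmul_eq_mul, mul_one, mul_one,
    Multiset.toFinset_card_of_nodup hnd, hcard] at h1
  have h2 : Fintype.card (M ≃ₐ[ℚ] M) = Module.finrank ℚ M := by
    rw [← Nat.card_eq_fintype_card]
    exact IsGalois.card_aut_eq_finrank ℚ M
  rw [h2] at h1
  rw [hsum F, hms F, h1]
  ring

end MP4270
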