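import Pool.Agent.Lib_MP_4270a5_nt.NmB

open Polynomial IntermediateField

namespace MP4270

theorem pf_one (ℓ : ℕ) : nm ℓ 1 = 1 := by
  unfold nm
  split_ifs with h
  · have : Fact ℓ.Prime := ⟨h⟩
    rw [map_one, norm_one]
  · rfl

theorem pf_prod (ℓ : ℕ) {ι : Type*} (s : Finset ι) (f : ι → Qb) :
    nm ℓ (∏ i ∈ s, f i) = ∏ i ∈ s, nm ℓ (f i) := by
  classical
  induction s using Finset.induction_on with
  | empty => rw [Finset.prod_empty, Finset.prod_empty, pf_one]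
  | insert a s ha ih => rw [Finset.prod_insert ha, Finset.prod_insert ha, nm_mul, ih]

theorem pf_nat (ℓ : ℕ) (hℓ : ℓ.Prime) {n : ℕ} (hn : n ≠ 0) :
    Real.log (nm ℓ (n : Qb)) = -((n.factorization ℓ : ℝ) * Real.log ℓ) := by
  have hf : Fact ℓ.Prime := ⟨hℓ⟩
  rw [nm_eq, map_natCast]
  have h := PadicAlgCl.norm_extends ℓ (n : ℚ_[ℓ])
  have h1 : ((n : ℚ_[ℓ]) : PadicAlgCl ℓ) = (n : PadicAlgCl ℓ) := by simp
  rw [h1] at h
  have h2 : ‖(n : ℚ_[ℓ])‖ = (ℓ : ℝ) ^ (-(n.factorization ℓ : ℤ)) := by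
    have hn' : (n : ℚ) ≠ 0 := by exact_mod_cast hn
    have h3 := Padic.eq_padicNorm (p := ℓ) (n : ℚ)
    rw [padicNorm.eq_zpow_of_nonzero hn', padicValRat.of_nat] at h3
    rw [Nat.factorization_def n hℓ]
    rw [Rat.cast_zpow, Rat.cast_natCast, Rat.cast_natCast] at h3
    exact h3
  rw [h, h2, Real.log_zpow]
  push_cast
  ring

theorem pf_nonprime (ℓ : ℕ) (hℓ : ¬ ℓ.Prime) (x : Qb) : nm ℓ x = 1 := by
  unfold nm
  rw [dif_neg hℓ]

theorem pf_nat_sum {n : ℕ} (hn : n ≠ 0) {T : Finset ℕ} (hT : n.primeFactors ⊆ T) :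
    ∑ ℓ ∈ T, Real.log (nm ℓ (n : Qb)) = -Real.log n := by
  rw [Real.log_nat_eq_sum_factorization, Finsupp.sum, Nat.support_factorization,
    ← Finset.sum_neg_distrib]
  rw [← Finset.sum_subset hT]
  · refine Finset.sum_congr rfl fun ℓ hℓ => ?_
    exact pf_nat ℓ (Nat.prime_of_mem_primeFactors hℓ) hn
  · intro ℓ _ hℓ
    by_cases hp : ℓ.Prime
    · rw [pf_nat ℓ hp hn]
      have : n.factorization ℓ = 0 := by
        rw [← Finsupp.notMem_support_iff, Nat.support_factorization]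
        exact hℓ
      rw [this]
      simp
    · rw [pf_nonprime ℓ hp, Real.log_one]

/-- PRODUCT FORMULA: `∏ σ x` is a rational number `q ≠ 0`; product formula for `q`. -/
theorem product_formula (M : IntermediateField ℚ Qb) [FiniteDimensional ℚ M] [Normal ℚ M] (x : M)
    (hx : x ≠ 0) : ∃ T₀ : Finset ℕ, ∀ T : Finset ℕ, T₀ ⊆ T →
      ∑ σ : M ≃ₐ[ℚ] M, Real.log (nmC ((σ x : M) : Qb)) +
        ∑ ℓ ∈ T, ∑ σ : M ≃ₐ[ℚ] M, Real.log (nm ℓ ((σ x : M) : Qb)) = 0 := by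
  have hgal : IsGalois ℚ M := ⟨⟩
  set q : ℚ := Algebra.norm ℚ x with hq
  have hnorm : algebraMap ℚ M q = ∏ σ : M ≃ₐ[ℚ] M, σ x := Algebra.norm_eq_prod_automorphisms ℚ x
  have hq0 : q ≠ 0 := by
    rw [hq, Ne, Algebra.norm_eq_zero_iff]
    exact hx
  have hprod : (q : Qb) = ∏ σ : M ≃ₐ[ℚ] M, ((σ x : M) : Qb) := by
    have h1 : ((algebraMap ℚ M q : M) : Qb) = ((∏ σ : M ≃ₐ[ℚ] M, σ x : M) : Qb) := by rw [hnorm]
    have h2 : ((algebraMap ℚ M q : M) : Qb) = (q : Qb) := by simp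
    rw [← h2, h1]
    exact map_prod (algebraMap M Qb) _ _
  have hσ0 : ∀ σ : M ≃ₐ[ℚ] M, ((σ x : M) : Qb) ≠ 0 := by
    intro σ h
    have h1 : σ x = 0 := by exact_mod_cast h
    exact hx ((map_eq_zero σ).mp h1)
  have hd : q.den ≠ 0 := q.den_nz
  have hnum : q.num.natAbs ≠ 0 := Int.natAbs_ne_zero.mpr (Rat.num_ne_zero.mpr hq0)
  refine ⟨q.num.natAbs.primeFactors ∪ q.den.primeFactors, fun T hT => ?_⟩
  have hT1 : q.num.natAbs.primeFactors ⊆ T := Finset.subset_union_left.trans hT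
  have hT2 : q.den.primeFactors ⊆ T := Finset.subset_union_right.trans hT
  have hC : ∑ σ : M ≃ₐ[ℚ] M, Real.log (nmC ((σ x : M) : Qb)) = Real.log (nmC (q : Qb)) := by
    rw [hprod]
    unfold nmC
    rw [map_prod, norm_prod, Real.log_prod]
    intro σ _
    exact norm_ne_zero_iff.mpr ((map_ne_zero ii).mpr (hσ0 σ))
  have hL : ∀ ℓ ∈ T, ∑ σ : M ≃ₐ[ℚ] M, Real.log (nm ℓ ((σ x : M) : Qb)) =
      Real.log (nm ℓ (q : Qb)) := by
    intro ℓ _
    rw [hprod, pf_prod, Real.log_prod]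
    intro σ _
    exact (nm_pos ℓ (hσ0 σ)).ne'
  rw [hC, Finset.sum_congr rfl hL]
  have hqd : (q : Qb) * (q.den : Qb) = (q.num : Qb) := by
    have := Rat.mul_den_eq_num q
    exact_mod_cast this
  have hn1 : ∀ ℓ, nm ℓ (q.num : Qb) = nm ℓ (q.num.natAbs : Qb) := by
    intro ℓ
    by_cases hp : ℓ.Prime
    · have hf : Fact ℓ.Prime := ⟨hp⟩
      rw [nm_eq, nm_eq]
      rcases Int.natAbs_eq q.num with h | h
      · rw [h]; simp
      · rw [h]; simp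
    · rw [pf_nonprime ℓ hp, pf_nonprime ℓ hp]
  have hdq : (q.den : Qb) ≠ 0 := by exact_mod_cast hd
  have hqq : (q : Qb) ≠ 0 := by exact_mod_cast hq0
  have hL2 : ∀ ℓ ∈ T, Real.log (nm ℓ (q : Qb)) =
      Real.log (nm ℓ (q.num.natAbs : Qb)) - Real.log (nm ℓ (q.den : Qb)) := by
    intro ℓ _
    rw [← hn1, ← hqd, nm_mul, Real.log_mul (nm_pos ℓ hqq).ne' (nm_pos ℓ hdq).ne']
    ring
  rw [Finset.sum_congr rfl hL2, Finset.sum_sub_distrib, pf_nat_sum hnum hT1, pf_nat_sum hd hT2]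
  have hC2 : nmC (q : Qb) = |(q : ℝ)| := by
    unfold nmC
    rw [map_ratCast]
    have : ((q : ℝ) : ℂ) = (q : ℂ) := by push_cast; rfl
    rw [← this, Complex.norm_real, Real.norm_eq_abs]
  have hq' : (q : ℝ) = q.num / q.den := by
    exact_mod_cast (Rat.num_div_den q).symm
  have hna : (q.num.natAbs : ℝ) = |(q.num : ℝ)| := by
    rw [Nat.cast_natAbs]
    push_cast
    rfl
  have hd0 : (q.den : ℝ) ≠ 0 := by exact_mod_cast hd
  have hn0 : (q.num : ℝ) ≠ 0 := by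
    exact_mod_cast Rat.num_ne_zero.mpr hq0
  rw [hC2, hq', hna, abs_div, Nat.abs_cast, Real.log_div (abs_ne_zero.mpr hn0) hd0]
  ring

end MP4270
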