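import Pool.Agent.Lib_MP_4270a5_nt.HInt
import Pool.Agent.Lib_MP_4270a5_nt.Gauss
import Pool.Agent.Lib_MP_4270a5_nt.NmB
import Pool.Agent.Lib_MP_4270a5_nt.PF

open Polynomial IntermediateField

namespace MP4270

/-- The roots in a bigger field are the images of the roots in `Qb`. -/
theorem decomp_roots {L : Type*} [Field L] [CharZero L] (f : Qb →+* L) (g : ℚ →+* L) (x : Qb) :
    ((minpoly ℚ x).map g).roots = ((minpoly ℚ x).aroots Qb).map f := by
  have h1 : g = f.comp (algebraMap ℚ Qb) := Subsingleton.elim _ _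
  rw [h1, ← Polynomial.map_map]
  exact (IsAlgClosed.splits ((minpoly ℚ x).map (algebraMap ℚ Qb))).roots_map f

/-- The logarithm of a product over a multiset. -/
theorem decomp_log (s : Multiset Qb) (f : Qb → ℝ) (hf : ∀ z, 0 < f z) :
    Real.log (s.map f).prod = (s.map fun z => Real.log (f z)).sum := by
  induction s using Multiset.induction with
  | empty => simp
  | cons a s ih =>
    rw [Multiset.map_cons, Multiset.prod_cons, Multiset.map_cons, Multiset.sum_cons, ← ih,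
      Real.log_mul (hf a).ne']
    apply ne_of_gt
    apply Multiset.prod_pos
    intro b hb
    rw [Multiset.mem_map] at hb
    obtain ⟨z, -, rfl⟩ := hb
    exact hf z

/-- The local contribution at a prime. -/
theorem decomp_local (x : Qb) (hd : dn x ≠ 0) (ℓ : ℕ) :
    (((minpoly ℚ x).aroots Qb).map fun z => Real.log (max 1 (nm ℓ z))).sum =
      -Real.log (nm ℓ (dn x : Qb)) := by
  by_cases hp : ℓ.Prime
  · have hf : Fact ℓ.Prime := ⟨hp⟩
    obtain ⟨P, hP, -, hmap, hlc, -⟩ := hW_mahler x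
    have hG := gauss ℓ P hP
    have h1 : P.map (Int.castRingHom (PadicAlgCl ℓ)) =
        C ((dn x : ℚ) : PadicAlgCl ℓ) * (minpoly ℚ x).map (algebraMap ℚ (PadicAlgCl ℓ)) := by
      have e1 : Int.castRingHom (PadicAlgCl ℓ) =
          (algebraMap ℚ (PadicAlgCl ℓ)).comp (Int.castRingHom ℚ) := Subsingleton.elim _ _
      rw [e1, ← Polynomial.map_map, hmap, Polynomial.map_mul, Polynomial.map_C]
      rfl
    have hd' : ((dn x : ℚ) : PadicAlgCl ℓ) ≠ 0 := by exact_mod_cast hd
    rw [h1, roots_C_mul _ hd', decomp_roots (jj ℓ) _ x, Multiset.map_map, hlc] at hG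
    have h2 : ‖(((dn x : ℕ) : ℤ) : PadicAlgCl ℓ)‖ = nm ℓ (dn x : Qb) := by
      rw [nm_eq, map_natCast, Int.cast_natCast]
    rw [h2] at hG
    have h3 : ((fun z : PadicAlgCl ℓ => max 1 ‖z‖) ∘ (jj ℓ)) = fun z : Qb => max 1 (nm ℓ z) := by
      funext z
      rw [nm_eq]
      rfl
    rw [h3] at hG
    have hdQ : (dn x : Qb) ≠ 0 := by exact_mod_cast hd
    have hpos := nm_pos ℓ hdQ
    have h4 : 0 < (((minpoly ℚ x).aroots Qb).map fun z => max 1 (nm ℓ z)).prod := by
      apply Multiset.prod_pos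
      intro b hb
      rw [Multiset.mem_map] at hb
      obtain ⟨z, -, rfl⟩ := hb
      exact lt_of_lt_of_le one_pos (le_max_left _ _)
    have h5 := congrArg Real.log hG
    rw [Real.log_mul hpos.ne' h4.ne', Real.log_one,
      decomp_log _ _ fun z => lt_of_lt_of_le one_pos (le_max_left _ _)] at h5
    linarith
  · have h1 : ∀ z : Qb, Real.log (max 1 (nm ℓ z)) = 0 := by
      intro z
      rw [pf_nonprime ℓ hp, max_self, Real.log_one]
    rw [pf_nonprime ℓ hp]
    simp [h1]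

/-- DECOMPOSITION OF THE HEIGHT. By `sum_conj` and `gauss`:
`log (dn x) = ∑_ℓ ∑_{z conjugate of x} log max(1, nm ℓ z)`, the sum over the prime divisors of `dn x` (for the other
primes all conjugates are `ℓ`-integral). The roots of the integral polynomial in `PadicAlgCl ℓ` (in `ℂ`) are the images of
the roots in `Qb` under `jj ℓ` (`ii`). -/
theorem decomp (M : IntermediateField ℚ Qb) [FiniteDimensional ℚ M] [Normal ℚ M] (x : M) :
    ∃ T₀ : Finset ℕ, ∀ T : Finset ℕ, T₀ ⊆ T →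
      (Module.finrank ℚ M : ℝ) * hW (x : Qb) =
        ∑ σ : M ≃ₐ[ℚ] M, Real.log (max 1 (nmC ((σ x : M) : Qb))) +
        ∑ ℓ ∈ T, ∑ σ : M ≃ₐ[ℚ] M, Real.log (max 1 (nm ℓ ((σ x : M) : Qb))) := by
  have hdeg : 0 < (minpoly ℚ (x : Qb)).natDegree :=
    minpoly.natDegree_pos (Algebra.IsIntegral.isIntegral (x : Qb))
  have hdeg' : (0 : ℝ) < ((minpoly ℚ (x : Qb)).natDegree : ℝ) := by exact_mod_cast hdeg
  have hd : dn (x : Qb) ≠ 0 := by
    obtain ⟨P, hP, -, -, hlc, -⟩ := hW_mahler (x : Qb)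
    intro h0
    rw [h0] at hlc
    exact hP.ne_zero (leadingCoeff_eq_zero.mp (by simpa using hlc))
  refine ⟨(dn (x : Qb)).primeFactors, fun T hT => ?_⟩
  apply mul_left_cancel₀ hdeg'.ne'
  have h1 := sum_conj M x fun z => Real.log (max 1 (nmC z))
  have h2 : ∀ ℓ ∈ T, ((minpoly ℚ (x : Qb)).natDegree : ℝ) *
      ∑ σ : M ≃ₐ[ℚ] M, Real.log (max 1 (nm ℓ ((σ x : M) : Qb))) =
        (Module.finrank ℚ M : ℝ) * -Real.log (nm ℓ (dn (x : Qb) : Qb)) := by
    intro ℓ _
    rw [sum_conj M x fun z => Real.log (max 1 (nm ℓ z)), decomp_local _ hd]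
  rw [mul_add, h1, Finset.mul_sum, Finset.sum_congr rfl h2, ← Finset.mul_sum,
    Finset.sum_neg_distrib, pf_nat_sum hd hT]
  unfold hW
  rw [decomp_roots ii _ (x : Qb), Multiset.map_map]
  have h3 : ((fun z : ℂ => Real.log (max 1 ‖z‖)) ∘ ii) = fun z : Qb => Real.log (max 1 (nmC z)) := rfl
  rw [h3]
  field_simp
  ring

end MP4270
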