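import Mathlib

/-!
# MP_4270a5_nt : Remond's conjecture for finite sets of primes (definitions)

Local part: all fields are finite extensions of `ℚ_[p]` inside `PadicAlgCl p` with its norm.
Global part: all fields are subfields of `Qb = AlgebraicClosure ℚ`; `nm ℓ` is the absolute value of
`Qb` obtained from a fixed embedding into `PadicAlgCl ℓ`, `nmC` the one from a fixed embedding into `ℂ`.
-/

open Polynomial IntermediateField

namespace MP4270

section Local

variable {p : ℕ} [Fact p.Prime]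

/-- `w` is a uniformizer of `K` (an element of largest norm `< 1`). -/
def IsUnif (K : IntermediateField ℚ_[p] (PadicAlgCl p)) (w : PadicAlgCl p) : Prop :=
  w ∈ K ∧ w ≠ 0 ∧ ‖w‖ < 1 ∧ ∀ x ∈ K, ‖x‖ < 1 → ‖x‖ ≤ ‖w‖

/-- `K ≤ L` and the residue field extension is trivial. -/
def ResTriv (K L : IntermediateField ℚ_[p] (PadicAlgCl p)) : Prop :=
  K ≤ L ∧ ∀ x ∈ L, ‖x‖ ≤ 1 → ∃ y ∈ K, ‖x - y‖ < 1

/-- `p^(-D)` where `D = v(P'(x))`, `P` the minimal polynomial of `x` over `K`. -/
noncomputable def dif (K : IntermediateField ℚ_[p] (PadicAlgCl p)) (x : PadicAlgCl p) : ℝ :=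
  ‖aeval x (derivative (minpoly K x))‖

/-- the field `K(ζ, α_1, …, α_r)` -/
noncomputable def KumL (K : IntermediateField ℚ_[p] (PadicAlgCl p)) {r : ℕ} (ζ : PadicAlgCl p)
    (α : Fin r → PadicAlgCl p) : IntermediateField ℚ_[p] (PadicAlgCl p) :=
  K ⊔ adjoin ℚ_[p] ({ζ} ∪ Set.range α)

end Local

/-- The algebraic numbers (a `def`, so that `ℚ`-algebra structures are found in one way only). -/
def Qb : Type := AlgebraicClosure ℚ

noncomputable instance : Field Qb := inferInstanceAs (Field (AlgebraicClosure ℚ))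

instance : CharZero Qb := inferInstanceAs (CharZero (AlgebraicClosure ℚ))

instance : IsAlgClosed Qb := inferInstanceAs (IsAlgClosed (AlgebraicClosure ℚ))

instance : Algebra.IsAlgebraic ℚ Qb := by
  have h : @Algebra.IsAlgebraic ℚ (AlgebraicClosure ℚ) _ _ (AlgebraicClosure.instAlgebra ℚ) :=
    AlgebraicClosure.isAlgebraic ℚ
  have e : (AlgebraicClosure.instAlgebra ℚ : Algebra ℚ (AlgebraicClosure ℚ)) =
    (DivisionRing.toRatAlgebra : Algebra ℚ (AlgebraicClosure ℚ)) := Subsingleton.elim _ _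
  rw [e] at h
  exact h

instance : IsAlgClosure ℚ Qb := ⟨inferInstance, inferInstance⟩

instance : Normal ℚ Qb := IsAlgClosure.normal ℚ Qb

instance : IsGalois ℚ Qb := inferInstance

/-- A fixed embedding of `Qb` into `PadicAlgCl p`. -/
noncomputable def jj (p : ℕ) [Fact p.Prime] : Qb →+* PadicAlgCl p :=
  ((IsAlgClosed.lift : Qb →ₐ[ℚ] PadicAlgCl p) : Qb →+* PadicAlgCl p)

/-- A fixed embedding of `Qb` into `ℂ`. -/
noncomputable def ii : Qb →+* ℂ := ((IsAlgClosed.lift : Qb →ₐ[ℚ] ℂ) : Qb →+* ℂ)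

/-- The `ℓ`-adic absolute value on `Qb` (and `1` if `ℓ` is not a prime). -/
noncomputable def nm (ℓ : ℕ) (x : Qb) : ℝ :=
  if h : ℓ.Prime then (haveI : Fact ℓ.Prime := ⟨h⟩; ‖jj ℓ x‖) else 1

/-- The complex absolute value on `Qb`. -/
noncomputable def nmC (x : Qb) : ℝ := ‖ii x‖

/-- The least common denominator of the coefficients of the minimal polynomial. -/
noncomputable def dn (x : Qb) : ℕ :=
  (Finset.range ((minpoly ℚ x).natDegree + 1)).lcm (fun i => ((minpoly ℚ x).coeff i).den)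

/-- The absolute logarithmic Weil height, by the formula of the problem file. -/
noncomputable def hW (x : Qb) : ℝ :=
  (Real.log (dn x : ℝ) + (((minpoly ℚ x).map (algebraMap ℚ ℂ)).roots.map
      (fun z => Real.log (max 1 ‖z‖))).sum) / ((minpoly ℚ x).natDegree : ℝ)

/-- The field `K(μ_m, a_i^{1/n})`. -/
noncomputable def Lf (K : IntermediateField ℚ Qb) {r : ℕ} (a : Fin r → Qb) (m n : ℕ) :
    IntermediateField ℚ Qb :=
  K ⊔ adjoin ℚ ({x | x ^ m = 1} ∪ {x | ∃ i, x ^ n = a i})

/-- `x` has a positive power in the group generated by the `a_i`. -/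
def DivG {r : ℕ} (a : Fin r → Qb) (x : Qb) : Prop :=
  ∃ N : ℕ, 0 < N ∧ ∃ e : Fin r → ℤ, x ^ N = ∏ i, a i ^ e i

end MP4270
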