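import Pool.Agent.Lib_MP_4270a5_nt.Defs

open Polynomial IntermediateField

namespace MP4270

/-- Automorphisms which fix the `a_i` act on elements of the division group by roots of unity. -/
theorem divG_conj {r : ℕ} (a : Fin r → Qb) {g : Qb} (hg : DivG a g)
    (σ : Qb ≃ₐ[ℚ] Qb) (hσ : ∀ i, σ (a i) = a i) : ∃ N : ℕ, 0 < N ∧ (σ g) ^ N = g ^ N := by
  obtain ⟨N, hN, e, he⟩ := hg
  refine ⟨N, hN, ?_⟩
  rw [← map_pow, he, map_prod]
  exact Finset.prod_congr rfl fun i _ => by rw [map_zpow₀, hσ]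

theorem divG_mul {r : ℕ} (a : Fin r → Qb) (ha0 : ∀ i, a i ≠ 0) {x y : Qb} (hx : DivG a x) (hy : DivG a y) :
    DivG a (x * y) := by
  obtain ⟨N, hN, e, he⟩ := hx
  obtain ⟨M, hM, f, hf⟩ := hy
  refine ⟨N * M, Nat.mul_pos hN hM, fun i => e i * M + f i * N, ?_⟩
  rw [mul_pow, pow_mul, he, mul_comm N M, pow_mul, hf, ← Finset.prod_pow, ← Finset.prod_pow,
    ← Finset.prod_mul_distrib]
  refine Finset.prod_congr rfl fun i _ => ?_
  rw [zpow_add₀ (ha0 i), zpow_mul, zpow_mul, zpow_natCast, zpow_natCast]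

theorem divG_inv {r : ℕ} (a : Fin r → Qb) {x : Qb} (hx : DivG a x) : DivG a x⁻¹ := by
  obtain ⟨N, hN, e, he⟩ := hx
  refine ⟨N, hN, fun i => - e i, ?_⟩
  rw [inv_pow, he, ← Finset.prod_inv_distrib]
  exact Finset.prod_congr rfl fun i _ => by rw [zpow_neg]

theorem divG_root {r : ℕ} (a : Fin r → Qb) {x : Qb} (hx : ∃ N : ℕ, 0 < N ∧ x ^ N = 1) : DivG a x := by
  obtain ⟨N, hN, h⟩ := hx
  exact ⟨N, hN, fun _ => 0, by simp [h]⟩

theorem divG_of_pow {r : ℕ} (a : Fin r → Qb) {x : Qb} {n : ℕ} (hn : 0 < n) (hx : DivG a (x ^ n)) :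
    DivG a x := by
  obtain ⟨N, hN, e, he⟩ := hx
  exact ⟨n * N, Nat.mul_pos hn hN, e, by rw [pow_mul, he]⟩

end MP4270
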