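import Mathlib

open Polynomial IntermediateField

namespace MP4270

/-- Extension of a linear form from a subgroup of `(ZMod p)^r`, `p` prime. -/
theorem extend_form (p : ℕ) [Fact p.Prime] {r : ℕ} (W : AddSubgroup (Fin r → ZMod p)) (f : W →+ ZMod p) :
    ∃ b : Fin r → ZMod p, ∀ x : W, f x = ∑ j, b j * (x : Fin r → ZMod p) j := by
  classical
  let W' : Submodule (ZMod p) (Fin r → ZMod p) := AddSubgroup.toZModSubmodule p W
  let f' : W' →ₗ[ZMod p] ZMod p := AddMonoidHom.toZModLinearMap p (f : W' →+ ZMod p)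
  obtain ⟨g, hg⟩ := LinearMap.exists_extend f'
  refine ⟨fun j => g (Pi.single j 1), fun x => ?_⟩
  have h1 : f x = g (x : Fin r → ZMod p) := (LinearMap.congr_fun hg x).symm
  rw [h1, LinearMap.pi_apply_eq_sum_univ g]
  refine Finset.sum_congr rfl fun j _ => ?_
  rw [smul_eq_mul, mul_comm]
  congr 2
  funext i
  rw [Pi.single_apply]
  simp [eq_comm]

end MP4270
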