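import Pool.Agent.Lib_MP_4270a5_nt.LfE
import Pool.Agent.Lib_MP_4270a5_nt.ExtF
import Pool.Agent.Lib_MP_4270a5_nt.DivB

open Polynomial IntermediateField

namespace MP4270

private theorem desc_E_add {p : ℕ} [Fact p.Prime] {η : Qb} (hη : η ^ p = 1) (v w : ZMod p) :
    η ^ (v + w).val = η ^ v.val * η ^ w.val := by
  rw [ZMod.val_add, ← pow_add]
  exact (pow_eq_pow_mod (v.val + w.val) hη).symm

private theorem desc_E_mul {p : ℕ} [Fact p.Prime] {η : Qb} (hη : η ^ p = 1) (b v : ZMod p) :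
    η ^ (b * v).val = (η ^ v.val) ^ b.val := by
  rw [ZMod.val_mul, ← pow_mul, mul_comm v.val]
  exact (pow_eq_pow_mod (b.val * v.val) hη).symm

private theorem desc_E_sum {p : ℕ} [Fact p.Prime] {η : Qb} (hη : η ^ p = 1) {ι : Type*}
    (s : Finset ι) (v : ι → ZMod p) : η ^ (∑ j ∈ s, v j).val = ∏ j ∈ s, η ^ (v j).val := by
  classical
  induction s using Finset.induction_on with
  | empty => simp
  | insert a s ha ih => rw [Finset.sum_insert ha, Finset.prod_insert ha, desc_E_add hη, ih]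

private theorem desc_divG_pow {r : ℕ} (a : Fin r → Qb) (ha0 : ∀ i, a i ≠ 0) {x : Qb}
    (hx : DivG a x) (t : ℕ) : DivG a (x ^ t) := by
  induction t with
  | zero => exact divG_root a ⟨1, one_pos, by simp⟩
  | succ t ih => rw [pow_succ]; exact divG_mul a ha0 ih hx

/-- KUMMER DESCENT. Let `G` = the automorphisms which fix `Lf_(k-1)`. For `σ ∈ G`: `σ β = χ(σ) β`, `χ(σ)^(p^s) = 1`,
so `χ(σ) ∈ Lf_(k-1)` and `χ` is a homomorphism on `G`; `ζ` a primitive `p^k`-th root of unity, `α_i^(p^k n) = a_i`: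
`σ ζ = η^(x_0) ζ`, `σ α_i = η^(x_i) α_i`, `η = ζ^(p^(k-1))` (`lf_shape`), `η` is fixed by `G` (`k ≥ 2`), so
`σ ↦ x(σ) ∈ (ZMod p)^(r+1)` is a homomorphism; if `x(σ) = 0` then `σ` fixes `Lf_k` (`lf_ext`) and `χ(σ) = 1`. So `χ(σ)^p = 1`,
`χ(σ) = η^(f(σ))`, and `f(σ)` depends only on `x(σ)`; `extend_form`: `f(σ) = ∑ b_j x_j(σ)`. Then
`g = ζ^(b_0) ∏ α_i^(b_i)` satisfies `σ g = χ(σ) g`, and `β' = β/g` is fixed by `G`: `mem_of_fixed_Qb`. -/
theorem desc (K : IntermediateField ℚ Qb) {r : ℕ} (a : Fin r → Qb)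
    (ha : ∀ i, a i ∈ K) (ha0 : ∀ i, a i ≠ 0) (p : ℕ) [Fact p.Prime] {k m n s : ℕ}
    (hk : 2 ≤ k) (hs : s ≤ k - 1) (hm : 0 < m) (hn : 0 < n) (hnm : n ∣ m) (hmp : m.Coprime p) {β : Qb}
    (hβ : β ∈ Lf K a (p ^ k * m) (p ^ k * n)) (hβ0 : β ≠ 0)
    (hfix : ∀ σ : Qb ≃ₐ[ℚ] Qb, (∀ x ∈ Lf K a (p ^ (k - 1) * m) (p ^ (k - 1) * n), σ x = x) →
      (σ β) ^ p ^ s = β ^ p ^ s) :
    ∃ β' ∈ Lf K a (p ^ (k - 1) * m) (p ^ (k - 1) * n), β' ≠ 0 ∧ ∃ g : Qb, g ≠ 0 ∧ DivG a g ∧ β = β' * g := by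
  classical
  have hp : p.Prime := Fact.out
  set L := Lf K a (p ^ (k - 1) * m) (p ^ (k - 1) * n) with hL
  have hpk : 0 < p ^ k := pow_pos hp.pos k
  have hpk1 : 0 < p ^ (k - 1) := pow_pos hp.pos (k - 1)
  -- generators
  have : NeZero (p ^ k) := ⟨hpk.ne'⟩
  have : NeZero ((p ^ k : ℕ) : Qb) := ⟨by exact_mod_cast hpk.ne'⟩
  obtain ⟨ζ, hζ⟩ := HasEnoughRootsOfUnity.exists_primitiveRoot Qb (p ^ k)
  have hαe : ∀ i, ∃ x : Qb, x ^ (p ^ k * n) = a i := fun i =>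
    IsAlgClosed.exists_pow_nat_eq (a i) (Nat.mul_pos hpk hn)
  choose α hα using hαe
  have hα0 : ∀ i, α i ≠ 0 := by
    intro i h
    apply ha0 i
    rw [← hα i, h, zero_pow (Nat.mul_pos hpk hn).ne']
  set η : Qb := ζ ^ p ^ (k - 1) with hη
  have hpkk : p ^ k = p ^ (k - 1) * p := by
    rw [← pow_succ]
    congr 1
    omega
  have hηp : IsPrimitiveRoot η p := hζ.pow hpk (by rw [hpkk])
  have hη1 : η ^ p = 1 := hηp.pow_eq_one
  have hη0 : η ≠ 0 := hηp.ne_zero hp.ne_zero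
  -- roots of unity of order dividing `p^(k-1) m` are in `L`
  have hroot : ∀ x : Qb, x ^ (p ^ (k - 1) * m) = 1 → x ∈ L := by
    intro x hx
    exact (le_sup_right : _ ≤ L) (subset_adjoin ℚ _ (Or.inl hx))
  have hroot' : ∀ (x : Qb) (t : ℕ), t ≤ k - 1 → x ^ p ^ t = 1 → x ∈ L := by
    intro x t ht hx
    apply hroot
    obtain ⟨c, hc⟩ := pow_dvd_pow p ht
    rw [hc, mul_assoc, pow_mul, hx, one_pow]
  have hηL : η ∈ L := hroot' η 1 (by omega) (by rw [pow_one]; exact hη1)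
  -- the generators as one family
  set γ : Fin (r + 1) → Qb := Fin.cons ζ α with hγ
  have hγ0 : ∀ j, γ j ≠ 0 := by
    intro j
    refine Fin.cases ?_ (fun i => ?_) j
    · exact hζ.ne_zero hpk.ne'
    · exact hα0 i
  -- automorphisms fixing `L`
  have hshape : ∀ σ : Qb ≃ₐ[ℚ] Qb, (∀ x ∈ L, σ x = x) →
      ∃ v : Fin (r + 1) → ZMod p, ∀ j, σ (γ j) = η ^ (v j).val * γ j := by
    intro σ hσ
    obtain ⟨⟨t, ht⟩, h2⟩ := lf_shape K a ha0 hp (j := 1) (by omega) hm hn hζ α hα σ hσ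
    choose u hu using h2
    have hval : ∀ t : ℕ, η ^ ((t : ZMod p)).val = η ^ t := by
      intro t
      rw [ZMod.val_natCast]
      exact (pow_eq_pow_mod t hη1).symm
    refine ⟨Fin.cons (t : ZMod p) (fun i => (u i : ZMod p)), fun j => ?_⟩
    refine Fin.cases ?_ (fun i => ?_) j
    · simp only [hγ, Fin.cons_zero]
      rw [hval, ht, hη, pow_add, pow_one, ← pow_mul, mul_comm]
    · simp only [hγ, Fin.cons_succ]
      rw [hval, hu i, hη, ← pow_mul]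
  -- two automorphisms fixing `L` with the same vector agree on `β`
  have hagree : ∀ σ τ : Qb ≃ₐ[ℚ] Qb, (∀ x ∈ L, σ x = x) → (∀ x ∈ L, τ x = x) →
      (∀ j, σ (γ j) = τ (γ j)) → σ β = τ β := by
    intro σ τ hσ hτ h
    refine lf_ext K a hp hm hnm hmp hζ α hα σ τ ?_ ?_ (h 0) (fun i => h i.succ) β hβ
    · intro x hx
      have hxL : x ∈ L := lf_le K a _ _ hx
      rw [hσ x hxL, hτ x hxL]
    · intro x hx
      have hxL : x ∈ L := hroot x (by rw [mul_comm, pow_mul, hx, one_pow])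
      rw [hσ x hxL, hτ x hxL]
  -- multiplicativity of the multiplier
  have hχL : ∀ σ : Qb ≃ₐ[ℚ] Qb, (∀ x ∈ L, σ x = x) → σ β / β ∈ L := by
    intro σ hσ
    apply hroot' _ s hs
    rw [div_pow, hfix σ hσ, div_self (pow_ne_zero _ hβ0)]
  have hχmul : ∀ σ τ : Qb ≃ₐ[ℚ] Qb, (∀ x ∈ L, σ x = x) → (∀ x ∈ L, τ x = x) →
      (σ * τ) β / β = (σ β / β) * (τ β / β) := by
    intro σ τ hσ hτ
    have h1 : σ (τ β / β) = τ β / β := hσ _ (hχL τ hτ)
    rw [map_div₀] at h1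
    have h2 : σ β ≠ 0 := by
      rw [Ne, map_eq_zero_iff σ σ.injective]
      exact hβ0
    rw [div_eq_div_iff h2 hβ0] at h1
    show σ (τ β) / β = _
    rw [div_mul_div_comm, div_eq_div_iff hβ0 (mul_ne_zero hβ0 hβ0)]
    linear_combination β * h1
  have hmulL : ∀ σ τ : Qb ≃ₐ[ℚ] Qb, (∀ x ∈ L, σ x = x) → (∀ x ∈ L, τ x = x) →
      ∀ x ∈ L, (σ * τ) x = x := by
    intro σ τ hσ hτ x hx
    show σ (τ x) = x
    rw [hτ x hx, hσ x hx]
  have hone : ∀ x ∈ L, (1 : Qb ≃ₐ[ℚ] Qb) x = x := fun x _ => rfl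
  have hvmul : ∀ (σ τ : Qb ≃ₐ[ℚ] Qb) (v w : Fin (r + 1) → ZMod p), (∀ x ∈ L, σ x = x) →
      (∀ j, σ (γ j) = η ^ (v j).val * γ j) → (∀ j, τ (γ j) = η ^ (w j).val * γ j) →
      ∀ j, (σ * τ) (γ j) = η ^ ((v + w) j).val * γ j := by
    intro σ τ v w hσ hv hw j
    show σ (τ (γ j)) = _
    rw [hw j, map_mul, map_pow, hσ η hηL, hv j, Pi.add_apply, desc_E_add hη1]
    ring
  -- `χ^p = 1`
  have hpow : ∀ (σ : Qb ≃ₐ[ℚ] Qb) (v : Fin (r + 1) → ZMod p), (∀ x ∈ L, σ x = x) →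
      (∀ j, σ (γ j) = η ^ (v j).val * γ j) → ∀ t : ℕ, (∀ x ∈ L, (σ ^ t) x = x) ∧
        (∀ j, (σ ^ t) (γ j) = η ^ ((t • v) j).val * γ j) ∧ (σ ^ t) β / β = (σ β / β) ^ t := by
    intro σ v hσ hv t
    induction t with
    | zero =>
      refine ⟨fun x _ => by rw [pow_zero]; rfl, fun j => ?_, ?_⟩
      · rw [pow_zero, zero_smul, Pi.zero_apply, ZMod.val_zero, pow_zero, one_mul]
        rfl
      · rw [pow_zero, pow_zero]
        exact div_self hβ0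
    | succ t ih =>
      obtain ⟨i1, i2, i3⟩ := ih
      refine ⟨?_, ?_, ?_⟩
      · rw [pow_succ]
        exact hmulL _ _ i1 hσ
      · rw [pow_succ, succ_nsmul]
        exact hvmul _ _ _ _ i1 i2 hv
      · rw [pow_succ, pow_succ, hχmul _ _ i1 hσ, i3]
  have hχp : ∀ σ : Qb ≃ₐ[ℚ] Qb, (∀ x ∈ L, σ x = x) → (σ β / β) ^ p = 1 := by
    intro σ hσ
    obtain ⟨v, hv⟩ := hshape σ hσ
    obtain ⟨i1, i2, i3⟩ := hpow σ v hσ hv p
    rw [← i3]
    have h1 : (σ ^ p) β = (1 : Qb ≃ₐ[ℚ] Qb) β := by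
      refine hagree _ _ i1 hone fun j => ?_
      rw [i2 j]
      have : (p • v) j = 0 := by
        rw [Pi.smul_apply, nsmul_eq_mul, ZMod.natCast_self, zero_mul]
      rw [this, ZMod.val_zero, pow_zero, one_mul]
      rfl
    rw [h1]
    exact div_self hβ0
  have hχE : ∀ σ : Qb ≃ₐ[ℚ] Qb, (∀ x ∈ L, σ x = x) →
      ∃ f : ZMod p, σ β / β = η ^ f.val := by
    intro σ hσ
    obtain ⟨i, hi, hi2⟩ := hηp.eq_pow_of_pow_eq_one (hχp σ hσ)
    refine ⟨(i : ZMod p), ?_⟩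
    rw [ZMod.val_natCast, Nat.mod_eq_of_lt hi, hi2]
  have hEinj : ∀ v w : ZMod p, η ^ v.val = η ^ w.val → v = w := by
    intro v w h
    exact ZMod.val_injective p (hηp.pow_inj (ZMod.val_lt v) (ZMod.val_lt w) h)
  -- the group of vectors
  let W : AddSubgroup (Fin (r + 1) → ZMod p) :=
    { carrier := {v | ∃ σ : Qb ≃ₐ[ℚ] Qb, (∀ x ∈ L, σ x = x) ∧ ∀ j, σ (γ j) = η ^ (v j).val * γ j}
      zero_mem' := ⟨1, hone, fun j => by
        rw [Pi.zero_apply, ZMod.val_zero, pow_zero, one_mul]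
        rfl⟩
      add_mem' := by
        rintro v w ⟨σ, hσ, hv⟩ ⟨τ, hτ, hw⟩
        exact ⟨σ * τ, hmulL _ _ hσ hτ, hvmul _ _ _ _ hσ hv hw⟩
      neg_mem' := by
        rintro v ⟨σ, hσ, hv⟩
        obtain ⟨i1, i2, -⟩ := hpow σ v hσ hv (p - 1)
        refine ⟨σ ^ (p - 1), i1, fun j => ?_⟩
        rw [i2 j]
        have : ((p - 1) • v) j = (-v) j := by
          rw [Pi.smul_apply, Pi.neg_apply, nsmul_eq_mul, Nat.cast_sub hp.one_le, ZMod.natCast_self,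
            Nat.cast_one, zero_sub, neg_one_mul]
        rw [this] }
  have hWdef : ∀ w : W, ∃ σ : Qb ≃ₐ[ℚ] Qb, (∀ x ∈ L, σ x = x) ∧
      ∀ j, σ (γ j) = η ^ ((w : Fin (r + 1) → ZMod p) j).val * γ j := fun w => w.2
  choose sg hsg1 hsg2 using hWdef
  choose F hF using fun w : W => hχE (sg w) (hsg1 w)
  let f : W →+ ZMod p :=
    AddMonoidHom.mk' F (by
      intro v w
      apply hEinj
      rw [desc_E_add hη1, ← hF, ← hF, ← hF, ← hχmul _ _ (hsg1 v) (hsg1 w)]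
      congr 1
      refine hagree _ _ (hsg1 _) (hmulL _ _ (hsg1 v) (hsg1 w)) fun j => ?_
      rw [hsg2, hvmul _ _ _ _ (hsg1 v) (hsg2 v) (hsg2 w)]
      rfl)
  obtain ⟨b, hb⟩ := extend_form p W f
  -- the multiplier of `σ` in terms of its vector
  have hmult : ∀ (σ : Qb ≃ₐ[ℚ] Qb) (v : Fin (r + 1) → ZMod p), (∀ x ∈ L, σ x = x) →
      (∀ j, σ (γ j) = η ^ (v j).val * γ j) → σ β = η ^ (∑ j, b j * v j).val * β := by
    intro σ v hσ hv
    have hvW : v ∈ W := ⟨σ, hσ, hv⟩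
    have h1 := hb ⟨v, hvW⟩
    have h2 : σ β = sg ⟨v, hvW⟩ β := by
      refine hagree _ _ hσ (hsg1 _) fun j => ?_
      rw [hv j, hsg2]
    rw [h2, ← h1]
    have h3 := hF ⟨v, hvW⟩
    rw [div_eq_iff hβ0] at h3
    exact h3
  -- the element `g`
  set g : Qb := ∏ j, γ j ^ (b j).val with hg
  have hg0 : g ≠ 0 := Finset.prod_ne_zero_iff.2 fun j _ => pow_ne_zero _ (hγ0 j)
  have hσg : ∀ (σ : Qb ≃ₐ[ℚ] Qb) (v : Fin (r + 1) → ZMod p),
      (∀ j, σ (γ j) = η ^ (v j).val * γ j) → σ g = η ^ (∑ j, b j * v j).val * g := by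
    intro σ v hv
    rw [hg, map_prod, desc_E_sum hη1, ← Finset.prod_mul_distrib]
    refine Finset.prod_congr rfl fun j _ => ?_
    rw [map_pow, hv j, mul_pow, desc_E_mul hη1]
  have hgD : DivG a g := by
    refine Finset.prod_induction _ (DivG a) (fun x y => divG_mul a ha0)
      (divG_root a ⟨1, one_pos, by simp⟩) fun j _ => desc_divG_pow a ha0 ?_ _
    refine Fin.cases ?_ (fun i => ?_) j
    · exact divG_root a ⟨p ^ k, hpk, hζ.pow_eq_one⟩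
    · refine ⟨p ^ k * n, Nat.mul_pos hpk hn, Pi.single i 1, ?_⟩
      show α i ^ (p ^ k * n) = _
      rw [hα i, Finset.prod_eq_single i]
      · simp
      · intro j _ hj
        rw [Pi.single_eq_of_ne hj, zpow_zero]
      · intro h
        exact absurd (Finset.mem_univ i) h
  refine ⟨β / g, ?_, div_ne_zero hβ0 hg0, g, hg0, hgD, (div_mul_cancel₀ β hg0).symm⟩
  apply mem_of_fixed_Qb
  intro σ hσ
  obtain ⟨v, hv⟩ := hshape σ hσ
  rw [map_div₀, hmult σ v hσ hv, hσg σ v hv]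
  exact mul_div_mul_left _ _ (pow_ne_zero _ hη0)

end MP4270
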