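import Mathlib

open Polynomial IntermediateField

namespace MP4270

/-- Simultaneous Dirichlet approximation (pigeonhole for the fractional parts of `n x`, `0 ≤ n ≤ N^r`, in
`N^r` boxes). -/
theorem dirichlet {r : ℕ} (N : ℕ) (hN : 0 < N) (x : Fin r → ℝ) :
    ∃ n : ℕ, 0 < n ∧ n ≤ N ^ r ∧ ∃ k : Fin r → ℤ, ∀ i, |(n : ℝ) * x i - k i| ≤ 1 / N := by
  classical
  have hN' : (0 : ℝ) < N := by exact_mod_cast hN
  have hb : ∀ y : ℝ, ⌊(N : ℝ) * Int.fract y⌋₊ < N := by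
    intro y
    rw [Nat.floor_lt (mul_nonneg hN'.le (Int.fract_nonneg y))]
    calc (N : ℝ) * Int.fract y < N * 1 := by
          exact mul_lt_mul_of_pos_left (Int.fract_lt_one y) hN'
      _ = N := mul_one _
  let f : Fin (N ^ r + 1) → (Fin r → Fin N) := fun n i => ⟨⌊(N : ℝ) * Int.fract ((n : ℕ) * x i)⌋₊, hb _⟩
  obtain ⟨a, b, hab, hf⟩ := Fintype.exists_ne_map_eq_of_card_lt f (by
    simp)
  wlog h : a < b generalizing a b
  · exact this b a (Ne.symm hab) hf.symm (lt_of_le_of_ne (not_lt.1 h) (Ne.symm hab))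
  have hlt : (a : ℕ) < b := h
  refine ⟨(b : ℕ) - a, by omega, by have := b.2; omega,
    fun i => ⌊((b : ℕ) : ℝ) * x i⌋ - ⌊((a : ℕ) : ℝ) * x i⌋, fun i => ?_⟩
  have h1 := congrArg Fin.val (congrFun hf i)
  simp only [f] at h1
  set u := Int.fract (((a : ℕ) : ℝ) * x i) with hu
  set v := Int.fract (((b : ℕ) : ℝ) * x i) with hv
  have hu0 : 0 ≤ (N : ℝ) * u := mul_nonneg hN'.le (Int.fract_nonneg _)
  have hv0 : 0 ≤ (N : ℝ) * v := mul_nonneg hN'.le (Int.fract_nonneg _)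
  have e1 : (((b : ℕ) - (a : ℕ) : ℕ) : ℝ) * x i -
      ((⌊((b : ℕ) : ℝ) * x i⌋ - ⌊((a : ℕ) : ℝ) * x i⌋ : ℤ) : ℝ) = v - u := by
    rw [Nat.cast_sub hlt.le, hu, hv, Int.fract, Int.fract]
    push_cast
    ring
  rw [e1]
  have h2 := Nat.floor_le hu0
  have h3 := Nat.lt_floor_add_one ((N : ℝ) * u)
  have h4 := Nat.floor_le hv0
  have h5 := Nat.lt_floor_add_one ((N : ℝ) * v)
  rw [h1] at h2 h3
  have h6 : |(N : ℝ) * (v - u)| ≤ 1 := by
    rw [abs_le]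
    constructor <;> nlinarith
  rw [abs_mul, abs_of_pos hN'] at h6
  rw [le_div_iff₀ hN']
  linarith

end MP4270
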