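import Mathlib

open Polynomial IntermediateField

namespace MP4270

private theorem dual_char (N : ℕ) [NeZero N] (ψ : AddChar (ZMod N) ℂ) :
    ∃ b : ZMod N, ∀ y, ψ y = ZMod.stdAddChar (b * y) := by
  obtain ⟨b, hb⟩ := AddChar.zmodAddEquiv.surjective ψ
  exact ⟨b, fun y => by rw [← hb]; rfl⟩

private theorem dual_map_sum {A ι : Type*} [AddCommGroup A] (φ : AddChar A ℂ) (s : Finset ι) (f : ι → A) :
    φ (∑ i ∈ s, f i) = ∏ i ∈ s, φ (f i) := by
  classical
  induction s using Finset.induction_on with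
  | empty => simp
  | insert a s ha ih => rw [Finset.sum_insert ha, Finset.prod_insert ha, AddChar.map_add_eq_mul, ih]

/-- DUALITY for subgroups of `(ZMod N)^r`: an element `w` outside of a subgroup `W` is separated by a linear form. (The
finite abelian group `(ZMod N)^r/W` has a character which is nontrivial on the class of `w`,
`AddChar`/`CommGroup.exists_apply_ne_one_of_hasEnoughRootsOfUnity`; its values are `N`-th roots of unity, so it is
`x ↦ e(∑ b_j x_j/N)`.) -/
theorem dual (N : ℕ) (hN : 0 < N) {r : ℕ} (W : AddSubgroup (Fin r → ZMod N)) (w : Fin r → ZMod N) (hw : w ∉ W) :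
    ∃ b : Fin r → ZMod N, (∀ x ∈ W, ∑ j, b j * x j = 0) ∧ ∑ j, b j * w j ≠ 0 := by
  classical
  have hN0 : NeZero N := ⟨hN.ne'⟩
  obtain ⟨ψ, hψ⟩ := (AddChar.exists_apply_ne_zero (α := (Fin r → ZMod N) ⧸ W)
    (a := QuotientAddGroup.mk' W w)).2 (by
      intro h
      exact hw ((QuotientAddGroup.eq_zero_iff w).1 h))
  let χ : AddChar (Fin r → ZMod N) ℂ := ψ.compAddMonoidHom (QuotientAddGroup.mk' W)
  choose b hb using fun j : Fin r =>
    dual_char N (χ.compAddMonoidHom (AddMonoidHom.single (fun _ : Fin r => ZMod N) j))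
  have hχ : ∀ x : Fin r → ZMod N, χ x = ZMod.stdAddChar (∑ j, b j * x j) := by
    intro x
    have h1 : x = ∑ j, Pi.single j (x j) := (Finset.univ_sum_single x).symm
    rw [dual_map_sum]
    conv_lhs => rw [h1, dual_map_sum]
    exact Finset.prod_congr rfl fun j _ => hb j (x j)
  refine ⟨b, fun x hx => ?_, fun h0 => ?_⟩
  · have h2 : χ x = 1 := by
      show ψ (QuotientAddGroup.mk' W x) = 1
      have : QuotientAddGroup.mk' W x = 0 := (QuotientAddGroup.eq_zero_iff x).2 hx
      rw [this, AddChar.map_zero_eq_one]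
    rw [hχ, ← (ZMod.stdAddChar (N := N)).map_zero_eq_one] at h2
    exact ZMod.injective_stdAddChar h2
  · refine hψ ?_
    have h3 := hχ w
    rw [h0, AddChar.map_zero_eq_one] at h3
    exact h3

end MP4270
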