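import Pool.Agent.Lib_MP_4270a5_nt.LfA
import Pool.Agent.Lib_MP_4270a5_nt.DivB

open Polynomial IntermediateField

namespace MP4270

/-- The field `K(μ_∞, a_i^{1/n} : n an S-number)`. -/
noncomputable def FS (K : IntermediateField ℚ Qb) {r : ℕ} (a : Fin r → Qb) (S : Finset ℕ) :
    IntermediateField ℚ Qb :=
  K ⊔ adjoin ℚ ({x | ∃ m : ℕ, 0 < m ∧ x ^ m = 1} ∪
    {x | ∃ n : ℕ, 0 < n ∧ n.primeFactors ⊆ S ∧ ∃ i, x ^ n = a i})

theorem K_le_FS (K : IntermediateField ℚ Qb) {r : ℕ} (a : Fin r → Qb) (S : Finset ℕ) : K ≤ FS K a S :=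
  le_sup_left

theorem root_mem_FS (K : IntermediateField ℚ Qb) {r : ℕ} (a : Fin r → Qb) (S : Finset ℕ) {x : Qb} {m : ℕ}
    (hm : 0 < m) (hx : x ^ m = 1) : x ∈ FS K a S :=
  (le_sup_right : adjoin ℚ ({x : Qb | ∃ m : ℕ, 0 < m ∧ x ^ m = 1} ∪
    {x | ∃ n : ℕ, 0 < n ∧ n.primeFactors ⊆ S ∧ ∃ i, x ^ n = a i}) ≤ _) (subset_adjoin _ _ (Or.inl ⟨m, hm, hx⟩))

theorem kum_mem_FS (K : IntermediateField ℚ Qb) {r : ℕ} (a : Fin r → Qb) (S : Finset ℕ) {x : Qb} {n : ℕ}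
    (hn : 0 < n) (hnS : n.primeFactors ⊆ S) {i : Fin r} (hx : x ^ n = a i) : x ∈ FS K a S :=
  (le_sup_right : adjoin ℚ ({x : Qb | ∃ m : ℕ, 0 < m ∧ x ^ m = 1} ∪
    {x | ∃ n : ℕ, 0 < n ∧ n.primeFactors ⊆ S ∧ ∃ i, x ^ n = a i}) ≤ _)
    (subset_adjoin _ _ (Or.inr ⟨n, hn, hnS, i, hx⟩))

/-- It is the union of the `Lf`. -/
theorem mem_FS (K : IntermediateField ℚ Qb) {r : ℕ} (a : Fin r → Qb) (S : Finset ℕ) (x : Qb) :
    x ∈ FS K a S ↔ ∃ m n : ℕ, 0 < m ∧ 0 < n ∧ n ∣ m ∧ n.primeFactors ⊆ S ∧ x ∈ Lf K a m n := by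
  constructor
  · intro hx
    have hdir : ∀ {m₁ n₁ m₂ n₂ : ℕ}, 0 < m₁ → 0 < n₁ → n₁ ∣ m₁ → n₁.primeFactors ⊆ S → 0 < m₂ → 0 < n₂ →
        n₂ ∣ m₂ → n₂.primeFactors ⊆ S →
        ∃ m n : ℕ, 0 < m ∧ 0 < n ∧ n ∣ m ∧ n.primeFactors ⊆ S ∧ Lf K a m₁ n₁ ≤ Lf K a m n ∧
          Lf K a m₂ n₂ ≤ Lf K a m n := by
      intro m₁ n₁ m₂ n₂ hm₁ hn₁ hd₁ hS₁ hm₂ hn₂ hd₂ hS₂
      refine ⟨m₁ * m₂, n₁ * n₂, Nat.mul_pos hm₁ hm₂, Nat.mul_pos hn₁ hn₂, mul_dvd_mul hd₁ hd₂, ?_, ?_, ?_⟩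
      · rw [Nat.primeFactors_mul hn₁.ne' hn₂.ne']
        exact Finset.union_subset hS₁ hS₂
      · exact lf_mono K a (Nat.mul_pos hm₁ hm₂) (Nat.mul_pos hn₁ hn₂) (Dvd.intro _ rfl) (Dvd.intro _ rfl)
          (mul_dvd_mul hd₁ hd₂)
      · exact lf_mono K a (Nat.mul_pos hm₁ hm₂) (Nat.mul_pos hn₁ hn₂) (Dvd.intro_left _ rfl)
          (Dvd.intro_left _ rfl) (mul_dvd_mul hd₁ hd₂)
    have hFS : FS K a S = adjoin ℚ ((K : Set Qb) ∪ ({x | ∃ m : ℕ, 0 < m ∧ x ^ m = 1} ∪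
        {x | ∃ n : ℕ, 0 < n ∧ n.primeFactors ⊆ S ∧ ∃ i, x ^ n = a i})) := by
      rw [adjoin_union, adjoin_self]
      rfl
    rw [hFS] at hx
    induction hx using IntermediateField.adjoin_induction with
    | mem z hz =>
      rcases hz with hz | hz | hz
      · exact ⟨1, 1, one_pos, one_pos, dvd_rfl, by simp, lf_le K a 1 1 hz⟩
      · obtain ⟨n, hn, hzn⟩ := hz
        refine ⟨n, 1, hn, one_pos, one_dvd _, by simp, ?_⟩
        exact (le_sup_right : adjoin ℚ ({x : Qb | x ^ n = 1} ∪ {x | ∃ i, x ^ 1 = a i}) ≤ _)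
          (subset_adjoin _ _ (Or.inl hzn))
      · obtain ⟨n, hn, hnS, i, hzi⟩ := hz
        refine ⟨n, n, hn, hn, dvd_rfl, hnS, ?_⟩
        exact (le_sup_right : adjoin ℚ ({x : Qb | x ^ n = 1} ∪ {x | ∃ i, x ^ n = a i}) ≤ _)
          (subset_adjoin _ _ (Or.inr ⟨i, hzi⟩))
    | algebraMap q =>
      exact ⟨1, 1, one_pos, one_pos, dvd_rfl, by simp, lf_le K a 1 1 (K.algebraMap_mem q)⟩
    | add x y _ _ hx hy =>
      obtain ⟨m₁, n₁, hm₁, hn₁, hd₁, hS₁, hx'⟩ := hx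
      obtain ⟨m₂, n₂, hm₂, hn₂, hd₂, hS₂, hy'⟩ := hy
      obtain ⟨m, n, hm, hn, hd, hS', hle1, hle2⟩ := hdir hm₁ hn₁ hd₁ hS₁ hm₂ hn₂ hd₂ hS₂
      exact ⟨m, n, hm, hn, hd, hS', add_mem (hle1 hx') (hle2 hy')⟩
    | inv x _ hx =>
      obtain ⟨m₁, n₁, hm₁, hn₁, hd₁, hS₁, hx'⟩ := hx
      exact ⟨m₁, n₁, hm₁, hn₁, hd₁, hS₁, inv_mem hx'⟩
    | mul x y _ _ hx hy =>
      obtain ⟨m₁, n₁, hm₁, hn₁, hd₁, hS₁, hx'⟩ := hx
      obtain ⟨m₂, n₂, hm₂, hn₂, hd₂, hS₂, hy'⟩ := hy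
      obtain ⟨m, n, hm, hn, hd, hS', hle1, hle2⟩ := hdir hm₁ hn₁ hd₁ hS₁ hm₂ hn₂ hd₂ hS₂
      exact ⟨m, n, hm, hn, hd, hS', mul_mem (hle1 hx') (hle2 hy')⟩
  · rintro ⟨m, n, hm, hn, _, hnS, hx⟩
    have hle : Lf K a m n ≤ FS K a S := by
      refine sup_le le_sup_left ?_
      rw [adjoin_le_iff]
      rintro y (hy | ⟨i, hy⟩)
      · exact root_mem_FS K a S hm hy
      · exact kum_mem_FS K a S hn hnS hy
    exact hle hx

/-- Elements of the division group in `FS` up to an `S`-number are in `FS`: `y^M = ∏ a_i^(e_i)`, `M = M₁ M₂`, `M₁` an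
`S`-number, `M₂` prime to `S`; `y^(M₂)` is a root of unity times `∏ β_i^(e_i)`, `β_i^(M₁) = a_i`, so it is in `FS`; and
`y^o ∈ FS`, `o` prime to `M₂`. -/
theorem FS_closure (K : IntermediateField ℚ Qb) {r : ℕ} (a : Fin r → Qb) (ha0 : ∀ i, a i ≠ 0) (S : Finset ℕ)
    (hS : ∀ p ∈ S, p.Prime) {y : Qb} (hy : DivG a y) {o : ℕ} (ho : 0 < o) (hoS : o.primeFactors ⊆ S)
    (h : y ^ o ∈ FS K a S) : y ∈ FS K a S := by
  classical
  obtain ⟨M, hM, e, he⟩ := hy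
  have hprod0 : ∏ i, a i ^ e i ≠ 0 := Finset.prod_ne_zero_iff.mpr fun i _ => zpow_ne_zero _ (ha0 i)
  have hy0 : y ≠ 0 := by
    rintro rfl
    rw [zero_pow hM.ne'] at he
    exact hprod0 he.symm
  -- split `M`
  set M₁ : ℕ := ∏ p ∈ S, p ^ M.factorization p with hM₁def
  have hM₁ : 0 < M₁ := Finset.prod_pos fun p hp => pow_pos (hS p hp).pos _
  have hfac : ∀ q, q.Prime → M₁.factorization q = if q ∈ S then M.factorization q else 0 := by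
    intro q hq
    rw [hM₁def, Nat.factorization_prod (fun p hp => (pow_pos (hS p hp).pos _).ne')]
    rw [Finsupp.finsetSum_apply]
    rw [Finset.sum_congr rfl (fun p hp => by
      rw [Nat.Prime.factorization_pow (hS p hp)])]
    simp only [Finsupp.single_apply]
    rw [Finset.sum_ite_eq']
  have hdvd : M₁ ∣ M := by
    rw [← Nat.factorization_prime_le_iff_dvd hM₁.ne' hM.ne']
    intro q hq
    rw [hfac q hq]
    split_ifs with h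
    · exact le_refl _
    · exact Nat.zero_le _
  obtain ⟨M₂, hM₂e⟩ := hdvd
  have hM₂ : 0 < M₂ := by
    rcases Nat.eq_zero_or_pos M₂ with h | h
    · rw [h, mul_zero] at hM₂e
      exact absurd hM₂e hM.ne'
    · exact h
  have hM₁S : M₁.primeFactors ⊆ S := by
    intro q hq
    have hq' := Nat.mem_primeFactors.mp hq
    by_contra hqS
    have h1 := hfac q hq'.1
    rw [if_neg hqS] at h1
    have h2 := (Nat.factorization_eq_zero_iff M₁ q).mp h1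
    rcases h2 with h2 | h2 | h2
    · exact h2 hq'.1
    · exact h2 hq'.2.1
    · exact hM₁.ne' h2
  have hM₂S : ∀ p ∈ S, ¬ p ∣ M₂ := by
    intro p hp hdvd
    have hpp := hS p hp
    have h1 : M.factorization p = M₁.factorization p + M₂.factorization p := by
      conv_lhs => rw [hM₂e]
      rw [Nat.factorization_mul hM₁.ne' hM₂.ne']
      rfl
    rw [hfac p hpp, if_pos hp] at h1
    have h2 : M₂.factorization p = 0 := by omega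
    rcases (Nat.factorization_eq_zero_iff M₂ p).mp h2 with h2 | h2 | h2
    · exact h2 hpp
    · exact h2 hdvd
    · exact hM₂.ne' h2
  -- `y ^ M₂ ∈ FS`
  have hβex : ∀ i, ∃ β : Qb, β ^ M₁ = a i := fun i => IsAlgClosed.exists_pow_nat_eq (a i) hM₁
  choose β hβ using hβex
  have hβ0 : ∀ i, β i ≠ 0 := by
    intro i h0
    apply ha0 i
    rw [← hβ i, h0, zero_pow hM₁.ne']
  have hy2 : y ^ M₂ ∈ FS K a S := by
    set z : Qb := ∏ i, β i ^ e i with hz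
    have hz0 : z ≠ 0 := Finset.prod_ne_zero_iff.mpr fun i _ => zpow_ne_zero _ (hβ0 i)
    have hzS : z ∈ FS K a S := prod_mem fun i _ => zpow_mem (kum_mem_FS K a S hM₁ hM₁S (hβ i)) _
    have hzM : z ^ M₁ = ∏ i, a i ^ e i := by
      rw [hz, ← Finset.prod_pow]
      refine Finset.prod_congr rfl fun i _ => ?_
      rw [← hβ i, ← zpow_natCast, ← zpow_mul, mul_comm, zpow_mul, zpow_natCast]
    have hw : (y ^ M₂ / z) ^ M₁ = 1 := by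
      rw [div_pow, ← pow_mul, mul_comm M₂ M₁, ← hM₂e, he, hzM, div_self hprod0]
    have h1 : y ^ M₂ = (y ^ M₂ / z) * z := by rw [div_mul_cancel₀ _ hz0]
    rw [h1]
    exact mul_mem (root_mem_FS K a S hM₁ hw) hzS
  -- Bezout
  have hco : Nat.Coprime o M₂ := by
    refine Nat.coprime_of_dvd ?_
    intro q hq hqo hqM
    exact hM₂S q (hoS (Nat.mem_primeFactors.mpr ⟨hq, hqo, ho.ne'⟩)) hqM
  have hb : (Nat.gcd o M₂ : ℤ) = o * Nat.gcdA o M₂ + M₂ * Nat.gcdB o M₂ := Nat.gcd_eq_gcd_ab o M₂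
  have hg1 : (Nat.gcd o M₂ : ℤ) = 1 := by rw [hco]; rfl
  have hye : y = (y ^ o) ^ (Nat.gcdA o M₂) * (y ^ M₂) ^ (Nat.gcdB o M₂) := by
    rw [← zpow_natCast, ← zpow_natCast, ← zpow_mul, ← zpow_mul, ← zpow_add₀ hy0, ← hb, hg1, zpow_one]
  rw [hye]
  exact mul_mem (zpow_mem h _) (zpow_mem hy2 _)

end MP4270
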