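import Pool.Agent.Lib_MP_4270a5_nt.VS1

open Polynomial IntermediateField

namespace MP4270

private theorem vs2_powers (N : ℕ) {ι : Type} (J : Finset ι) (y : ι → Qb) (R : ℕ) (c : ℝ)
    (hJ : J.card ≤ N) (hJ0 : J.Nonempty) (hc0 : 0 < c)
    (hc : c * (N * R) ≤ 1 / (N + 1)) (hy : ∀ j ∈ J, hW (y j) < c) (hsum : ∑ j ∈ J, y j = 0) :
    ∀ n : ℕ, 1 ≤ n → n ≤ R → (∀ q : ℕ, q.Prime → q ∣ n → N < q) → ∑ j ∈ J, y j ^ n = 0 := by
  intro n
  induction n using Nat.strong_induction_on with
  | _ n ih =>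
    intro hn1 hnR hq
    by_cases h1 : n = 1
    · subst h1
      simpa using hsum
    · have hp : n.minFac.Prime := Nat.minFac_prime h1
      haveI : Fact n.minFac.Prime := ⟨hp⟩
      obtain ⟨m, hm⟩ := Nat.minFac_dvd n
      set p := n.minFac with hpdef
      have hpN : N < p := hq p hp ⟨m, hm⟩
      have hm0 : 0 < m := by
        rcases Nat.eq_zero_or_pos m with h | h
        · rw [h, mul_zero] at hm
          omega
        · exact h
      have hmn : m < n := by
        rw [hm]
        exact lt_mul_left hm0 hp.one_lt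
      have hmsum : ∑ j ∈ J, y j ^ m = 0 :=
        ih m hmn hm0 (hmn.le.trans hnR) (fun q hq' hqm => hq q hq' (hm ▸ Dvd.dvd.mul_left hqm p))
      have hcard : (0 : ℝ) < J.card := by exact_mod_cast hJ0.card_pos
      have hlt : (p : ℝ) * ∑ j ∈ J, hW (y j ^ m) < Real.log ((p : ℝ) / J.card) := by
        have e1 : ∑ j ∈ J, hW (y j ^ m) < ∑ j ∈ J, (m : ℝ) * c := by
          refine Finset.sum_lt_sum_of_nonempty hJ0 (fun j hj => ?_)
          rw [hW_pow]
          exact mul_lt_mul_of_pos_left (hy j hj) (by exact_mod_cast hm0)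
        rw [Finset.sum_const, nsmul_eq_mul] at e1
        have hp0 : (0 : ℝ) < p := by exact_mod_cast hp.pos
        have e2 : (p : ℝ) * ∑ j ∈ J, hW (y j ^ m) < p * (J.card * (m * c)) :=
          mul_lt_mul_of_pos_left e1 hp0
        have e3 : (p : ℝ) * (J.card * (m * c)) ≤ c * (N * R) := by
          have e4 : ((p : ℝ) * m) ≤ R := by
            have : p * m ≤ R := by rw [← hm]; exact hnR
            exact_mod_cast this
          have e5 : (J.card : ℝ) ≤ N := by exact_mod_cast hJ
          have e6 : (J.card : ℝ) * (p * m) ≤ N * R :=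
            mul_le_mul e5 e4 (by positivity) (by positivity)
          have e7 := mul_le_mul_of_nonneg_left e6 hc0.le
          linarith [e7, show (p : ℝ) * (J.card * (m * c)) = c * (J.card * (p * m)) by ring]
        have e8 : (1 : ℝ) / (N + 1) ≤ Real.log ((p : ℝ) / J.card) := by
          have hx : (0 : ℝ) < (p : ℝ) / J.card := div_pos hp0 hcard
          have h := Real.one_sub_inv_le_log_of_pos hx
          refine le_trans ?_ h
          rw [inv_div]
          have e9 : (J.card : ℝ) / p ≤ N / (N + 1) := by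
            rw [div_le_div_iff₀ hp0 (by positivity)]
            have e5 : (J.card : ℝ) ≤ N := by exact_mod_cast hJ
            have e10 : (N : ℝ) + 1 ≤ p := by exact_mod_cast hpN
            exact mul_le_mul e5 e10 (by positivity) (by positivity)
          have e11 : (1 : ℝ) / (N + 1) = 1 - N / (N + 1) := by
            have : (N : ℝ) + 1 ≠ 0 := by positivity
            field_simp
            ring
          rw [e11]
          linarith
        linarith
      have := vs_step p J (fun j => y j ^ m) hmsum hlt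
      rw [hm]
      rw [← this]
      refine Finset.sum_congr rfl fun j _ => ?_
      rw [← pow_mul, mul_comm]

/-- VANISHING SUMS OF NUMBERS OF SMALL HEIGHT. `P = N!`, `R = 1 + N * N!`, `c = 1/(N (N+1) R^2)` (or smaller). First
`∑ y_j^n = 0` for all `1 ≤ n ≤ R` whose prime factors are all `> N`: induction on `n`, `n = p n'` with `p` prime:
`∑ (y_j^n')= 0` and `vs_step` for the `y_j^n'` (`hW_pow`; `log(p/|J|) ≥ log((N+1)/N) ≥ 1/(N+1)` because
`p ≥ N + 1`). Apply this to `n = 1 + l N!`, `0 ≤ l ≤ N`: `∑ y_j (y_j^P)^l = 0`, so `∑ y_j Q(y_j^P) = 0` for all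
polynomials `Q` of degree `≤ N`. Take `Q = ∏ (T - u)` over the values `u` of `y_j^P` different from `y_i^P` (at most
`|J| - 1` of them): `Q(y_i^P) ∑_{y_j^P = y_i^P} y_j = 0`. -/
theorem vanishing (N : ℕ) (hN : 0 < N) : ∃ P : ℕ, 0 < P ∧ ∃ c : ℝ, 0 < c ∧ ∀ (ι : Type) (J : Finset ι)
    (y : ι → Qb), J.card ≤ N → (∀ j ∈ J, hW (y j) < c) → ∑ j ∈ J, y j = 0 →
      ∀ i ∈ J, ∀ I : Finset ι, (∀ j, j ∈ I ↔ (j ∈ J ∧ y j ^ P = y i ^ P)) → ∑ j ∈ I, y j = 0 := by
  classical
  have hNf : 0 < N.factorial := N.factorial_pos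
  have hR0 : (0 : ℝ) < ((1 + N * N.factorial : ℕ) : ℝ) := by
    exact_mod_cast (by omega : 0 < 1 + N * N.factorial)
  have hN0 : (0 : ℝ) < (N : ℝ) := by exact_mod_cast hN
  refine ⟨N.factorial, hNf, 1 / ((N : ℝ) + 1) / (N * ((1 + N * N.factorial : ℕ) : ℝ)), by positivity, ?_⟩
  intro ι J y hJ hy hsum i hi I hI
  have hpow := vs2_powers N J y (1 + N * N.factorial) _ hJ ⟨i, hi⟩ (by positivity)
    (le_of_eq (div_mul_cancel₀ _ (by positivity))) hy hsum
  set P := N.factorial with hP
  have hl : ∀ l : ℕ, l ≤ N → ∑ j ∈ J, y j * (y j ^ P) ^ l = 0 := by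
    intro l hl
    have h := hpow (1 + l * P) (by omega) (by
      have := Nat.mul_le_mul_right P hl
      omega) (by
        intro q hq hqd
        by_contra hcon
        push Not at hcon
        have h1 : q ∣ P := (hq.dvd_factorial).mpr hcon
        have h2 : q ∣ 1 := (Nat.dvd_add_left (Dvd.dvd.mul_left h1 l)).mp hqd
        exact hq.one_lt.ne' (Nat.dvd_one.mp h2))
    rw [← h]
    refine Finset.sum_congr rfl fun j _ => ?_
    rw [pow_add, pow_one, ← pow_mul, mul_comm l P]
  set S : Finset Qb := (J.image fun j => y j ^ P).erase (y i ^ P) with hS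
  set Q : Polynomial Qb := ∏ u ∈ S, (X - C u) with hQ
  have hdeg : Q.natDegree < N + 1 := by
    rw [hQ, natDegree_prod_of_monic _ _ (fun u _ => monic_X_sub_C u)]
    simp only [natDegree_X_sub_C, Finset.sum_const, smul_eq_mul, mul_one]
    have h1 : S.card ≤ (J.image fun j => y j ^ P).card := Finset.card_le_card (Finset.erase_subset _ _)
    have h2 : (J.image fun j => y j ^ P).card ≤ J.card := Finset.card_image_le
    omega
  have hQsum : ∑ j ∈ J, y j * Q.eval (y j ^ P) = 0 := by
    have e : ∀ j ∈ J, y j * Q.eval (y j ^ P) =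
        ∑ l ∈ Finset.range (N + 1), Q.coeff l * (y j * (y j ^ P) ^ l) := by
      intro j _
      rw [eval_eq_sum_range' hdeg, Finset.mul_sum]
      refine Finset.sum_congr rfl fun l _ => ?_
      ring
    rw [Finset.sum_congr rfl e, Finset.sum_comm]
    refine Finset.sum_eq_zero fun l hl' => ?_
    rw [← Finset.mul_sum, hl l (by simpa [Nat.lt_succ_iff] using hl'), mul_zero]
  have hIJ : I ⊆ J := fun j hj => ((hI j).mp hj).1
  have hout : ∀ j ∈ J, j ∉ I → y j * Q.eval (y j ^ P) = 0 := by
    intro j hj hjI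
    have hne : y j ^ P ≠ y i ^ P := fun h => hjI ((hI j).mpr ⟨hj, h⟩)
    have hm : y j ^ P ∈ S := Finset.mem_erase.mpr ⟨hne, Finset.mem_image_of_mem _ hj⟩
    rw [hQ, eval_prod, Finset.prod_eq_zero hm (by simp), mul_zero]
  rw [← Finset.sum_subset hIJ hout] at hQsum
  have hin : ∀ j ∈ I, y j * Q.eval (y j ^ P) = y j * Q.eval (y i ^ P) := by
    intro j hj
    rw [((hI j).mp hj).2]
  rw [Finset.sum_congr rfl hin, ← Finset.sum_mul] at hQsum
  rcases mul_eq_zero.mp hQsum with h | h
  · exact h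
  · exfalso
    rw [hQ, eval_prod, Finset.prod_eq_zero_iff] at h
    obtain ⟨u, hu, hu0⟩ := h
    rw [eval_sub, eval_X, eval_C, sub_eq_zero] at hu0
    exact (Finset.mem_erase.mp hu).1 hu0.symm

end MP4270
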