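import Pool.Agent.Lib_MP_4270a5_nt.FinalQ
import Pool.Agent.Lib_MP_4270a5_nt.FSb
import Pool.Agent.Lib_MP_4270a5_nt.VS2

open Polynomial IntermediateField

namespace MP4270

theorem FS_mono (K : IntermediateField ℚ Qb) {r : ℕ} (a : Fin r → Qb) {S S' : Finset ℕ} (h : S ⊆ S') :
    FS K a S ≤ FS K a S' := by
  refine sup_le (K_le_FS K a S') ?_
  rw [adjoin_le_iff]
  rintro y (⟨m, hm, hy⟩ | ⟨n, hn, hnS, i, hy⟩)
  · exact root_mem_FS K a S' hm hy
  · exact kum_mem_FS K a S' hn (hnS.trans h) hy

/-- `α` is a sum of `n` elements of `F * (division group)`. -/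
def Rep (F : IntermediateField ℚ Qb) {r : ℕ} (a : Fin r → Qb) (n : ℕ) (α : Qb) : Prop :=
  ∃ b g : Fin n → Qb, (∀ j, b j ∈ F) ∧ (∀ j, DivG a (g j)) ∧ α = ∑ j, b j * g j

theorem rep_drop (F : IntermediateField ℚ Qb) {r : ℕ} (a : Fin r → Qb) {n : ℕ} (b g : Fin (n + 1) → Qb)
    (hb : ∀ j, b j ∈ F) (hg : ∀ j, DivG a (g j)) (l : Fin (n + 1)) (hl : b l = 0) :
    Rep F a n (∑ j, b j * g j) := by
  refine ⟨fun i => b (l.succAbove i), fun i => g (l.succAbove i), fun i => hb _, fun i => hg _, ?_⟩
  rw [Fin.sum_univ_succAbove _ l, hl, zero_mul, zero_add]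

theorem rep_dep (F : IntermediateField ℚ Qb) {r : ℕ} (a : Fin r → Qb) {n : ℕ} (b g : Fin (n + 1) → Qb)
    (hb : ∀ j, b j ∈ F) (hg : ∀ j, DivG a (g j)) (d : Fin (n + 1) → Qb) (hd : ∀ j, d j ∈ F)
    (hsum : ∑ j, d j * g j = 0) (l : Fin (n + 1)) (hl : d l ≠ 0) :
    Rep F a n (∑ j, b j * g j) := by
  have h1 : ∑ j, b j * g j = ∑ j, (b j - b l / d l * d j) * g j := by
    have : ∑ j, (b j - b l / d l * d j) * g j = ∑ j, b j * g j - b l / d l * ∑ j, d j * g j := by
      rw [Finset.mul_sum, ← Finset.sum_sub_distrib]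
      refine Finset.sum_congr rfl fun j _ => ?_
      ring
    rw [this, hsum, mul_zero, sub_zero]
  rw [h1]
  refine rep_drop F a (fun j => b j - b l / d l * d j) g ?_ hg l ?_
  · intro j
    exact sub_mem (hb j) (mul_mem (div_mem (hb l) (hd l)) (hd j))
  · change b l - b l / d l * d l = 0
    rw [div_mul_cancel₀ _ hl, sub_self]

/-- The automorphism used below: all `σ` over `F` multiply `y` by a root of unity; there is one for which the order `o` of
this root of unity is a common period. -/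
theorem exists_sigma (F : IntermediateField ℚ Qb) (hF : ∀ (x : Qb) (m : ℕ), 0 < m → x ^ m = 1 → x ∈ F) {y : Qb}
    (hy0 : y ≠ 0) {M : ℕ} (hM : 0 < M) (hy : y ^ M ∈ F) :
    ∃ (σ : Qb ≃ₐ[ℚ] Qb) (o : ℕ), (∀ x ∈ F, σ x = x) ∧ 0 < o ∧ y ^ o ∈ F ∧
      ∀ t : ℕ, 0 < t → t < o → (σ y / y) ^ t ≠ 1 := by
  classical
  let G : Subgroup (Qb ≃ₐ[ℚ] Qb) :=
    { carrier := {σ | ∀ x ∈ F, σ x = x}
      mul_mem' := by
        intro s t hs ht x hx
        have h1 : t x = x := ht x hx
        have h2 : s x = x := hs x hx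
        rw [AlgEquiv.mul_apply, h1, h2]
      one_mem' := fun x _ => rfl
      inv_mem' := by
        intro s hs x hx
        have h2 : s x = x := hs x hx
        calc s⁻¹ x = s⁻¹ (s x) := by rw [h2]
          _ = x := by rw [← AlgEquiv.mul_apply, inv_mul_cancel]; rfl }
  have hquot : ∀ σ : G, ((σ : Qb ≃ₐ[ℚ] Qb) y / y) ^ M = 1 := by
    intro σ
    have h1 : (σ : Qb ≃ₐ[ℚ] Qb) (y ^ M) = y ^ M := σ.2 _ hy
    rw [div_pow, ← map_pow, h1, div_self (pow_ne_zero _ hy0)]
  have hne : ∀ σ : G, (σ : Qb ≃ₐ[ℚ] Qb) y / y ≠ 0 := by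
    intro σ h0
    have := hquot σ
    rw [h0, zero_pow hM.ne'] at this
    exact zero_ne_one this
  let ψ : G →* Qbˣ :=
    { toFun := fun σ => Units.mk0 ((σ : Qb ≃ₐ[ℚ] Qb) y / y) (hne σ)
      map_one' := by
        apply Units.ext
        change (y / y : Qb) = 1
        exact div_self hy0
      map_mul' := by
        intro s t
        apply Units.ext
        change ((s * t : G) : Qb ≃ₐ[ℚ] Qb) y / y = ((s : Qb ≃ₐ[ℚ] Qb) y / y) * ((t : Qb ≃ₐ[ℚ] Qb) y / y)
        have h1 : (t : Qb ≃ₐ[ℚ] Qb) y / y ∈ F := hF _ M hM (hquot t)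
        have h2 : (s : Qb ≃ₐ[ℚ] Qb) ((t : Qb ≃ₐ[ℚ] Qb) y / y) = (t : Qb ≃ₐ[ℚ] Qb) y / y := s.2 _ h1
        have h3 : (t : Qb ≃ₐ[ℚ] Qb) y = ((t : Qb ≃ₐ[ℚ] Qb) y / y) * y := by rw [div_mul_cancel₀ _ hy0]
        have h4 : ((s * t : G) : Qb ≃ₐ[ℚ] Qb) y = ((t : Qb ≃ₐ[ℚ] Qb) y / y) * (s : Qb ≃ₐ[ℚ] Qb) y := by
          change (s : Qb ≃ₐ[ℚ] Qb) ((t : Qb ≃ₐ[ℚ] Qb) y) = _
          conv_lhs => rw [h3]
          rw [map_mul, h2]
        rw [h4]
        ring }
  have hψ : ∀ σ : G, ((ψ σ : Qbˣ) : Qb) = (σ : Qb ≃ₐ[ℚ] Qb) y / y := fun σ => rfl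
  have hψM : ∀ σ : G, (ψ σ) ^ M = 1 := by
    intro σ
    apply Units.ext
    rw [Units.val_pow_eq_pow_val, hψ, hquot, Units.val_one]
  have hexp : Monoid.ExponentExists ψ.range := by
    refine ⟨M, hM, ?_⟩
    rintro ⟨u, σ, rfl⟩
    apply Subtype.ext
    exact hψM σ
  obtain ⟨⟨u, σ, hσ⟩, hu⟩ := Monoid.exists_orderOf_eq_exponent hexp
  set o := Monoid.exponent ψ.range with ho
  have ho0 : 0 < o := Nat.pos_of_ne_zero (Monoid.exponent_ne_zero.mpr hexp)
  refine ⟨(σ : Qb ≃ₐ[ℚ] Qb), o, σ.2, ho0, ?_, ?_⟩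
  · apply mem_of_fixed_Qb
    intro τ hτ
    have h1 : (⟨ψ ⟨τ, hτ⟩, ⟨⟨τ, hτ⟩, rfl⟩⟩ : ψ.range) ^ o = 1 := Monoid.pow_exponent_eq_one _
    have h2 : (ψ ⟨τ, hτ⟩) ^ o = 1 := by
      have := congrArg Subtype.val h1
      exact this
    have h3 : (τ y / y) ^ o = 1 := by
      have := congrArg Units.val h2
      rw [Units.val_pow_eq_pow_val, Units.val_one] at this
      exact this
    rw [map_pow]
    rw [div_pow, div_eq_one_iff_eq (pow_ne_zero _ hy0)] at h3
    exact h3
  · intro t ht hto h1
    have h2 : (ψ σ) ^ t = 1 := by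
      apply Units.ext
      rw [Units.val_pow_eq_pow_val, hψ, h1, Units.val_one]
    have h3 : (⟨u, σ, hσ⟩ : ψ.range) ^ t = 1 := by
      apply Subtype.ext
      change u ^ t = 1
      rw [← hσ]
      exact h2
    have h4 := orderOf_dvd_of_pow_eq_one h3
    rw [hu] at h4
    exact absurd (Nat.le_of_dvd ht h4) (not_le.mpr hto)

/-- SUMS OF BOUNDEDLY MANY TERMS. -/
theorem final_K (K : IntermediateField ℚ Qb) [FiniteDimensional ℚ K] {r : ℕ} (a : Fin r → Qb)
    (ha : ∀ i, a i ∈ K) (ha0 : ∀ i, a i ≠ 0) (hind : ∀ e : Fin r → ℤ, ∏ i, a i ^ e i = 1 → e = 0)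
    (S : Finset ℕ) (hS : ∀ p ∈ S, p.Prime) (k : ℕ) : ∃ c : ℝ, 0 < c ∧ ∀ b g : Fin k → Qb,
      (∀ j, b j ∈ FS K a S) → (∀ j, DivG a (g j)) → ∑ j, b j * g j ≠ 0 → ¬ DivG a (∑ j, b j * g j) →
      c ≤ hW (∑ j, b j * g j) := by
  classical
  set S' : Finset ℕ := S ∪ (Finset.range (k + 1)).filter Nat.Prime with hS'def
  have hS' : ∀ p ∈ S', p.Prime := by
    intro p hp
    rcases Finset.mem_union.mp hp with h | h
    · exact hS p h
    · exact (Finset.mem_filter.mp h).2
  have hsmall : ∀ o : ℕ, 0 < o → o ≤ k → o.primeFactors ⊆ S' := by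
    intro o ho hok q hq
    have hq' := Nat.mem_primeFactors.mp hq
    refine Finset.mem_union_right _ (Finset.mem_filter.mpr ⟨?_, hq'.1⟩)
    exact Finset.mem_range.mpr (lt_of_le_of_lt ((Nat.le_of_dvd ho hq'.2.1).trans hok) (Nat.lt_succ_self k))
  obtain ⟨c₁, hc₁, H1⟩ := final_Q K a ha ha0 hind S' hS'
  obtain ⟨P, hP, c₂, hc₂, H2⟩ := vanishing (2 ^ k) (pow_pos two_pos k)
  refine ⟨min c₁ c₂, lt_min hc₁ hc₂, ?_⟩
  intro b₀ g₀ hb₀ hg₀ hα0 hαD
  set α : Qb := ∑ j, b₀ j * g₀ j with hα
  by_contra hlt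
  push Not at hlt
  have hl1 : hW α < c₁ := lt_of_lt_of_le hlt (min_le_left _ _)
  have hl2 : hW α < c₂ := lt_of_lt_of_le hlt (min_le_right _ _)
  have hFroot : ∀ (x : Qb) (m : ℕ), 0 < m → x ^ m = 1 → x ∈ FS K a S' := fun x m hm hx =>
    root_mem_FS K a S' hm hx
  have hrep : ∃ n, Rep (FS K a S') a n α :=
    ⟨k, b₀, g₀, fun j => FS_mono K a Finset.subset_union_left (hb₀ j), hg₀, rfl⟩
  have hnk : Nat.find hrep ≤ k := Nat.find_min' hrep
    ⟨b₀, g₀, fun j => FS_mono K a Finset.subset_union_left (hb₀ j), hg₀, rfl⟩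
  have hmin : ∀ m, m < Nat.find hrep → ¬ Rep (FS K a S') a m α := fun m hm => Nat.find_min hrep hm
  obtain ⟨b, g, hb, hg, hrepα⟩ := Nat.find_spec hrep
  generalize Nat.find hrep = n at b g hb hg hrepα hnk hmin
  have hg0 : ∀ j, g j ≠ 0 := by
    intro j h0
    obtain ⟨N, hN, e, he⟩ := hg j
    rw [h0, zero_pow hN.ne'] at he
    exact (Finset.prod_ne_zero_iff.mpr fun i _ => zpow_ne_zero _ (ha0 i)) he.symm
  match n, b, g, hb, hg, hrepα, hnk, hmin, hg0 with
  | 0, b, g, hb, hg, hrepα, hnk, hmin, hg0 =>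
    rw [Finset.univ_eq_empty, Finset.sum_empty] at hrepα
    exact hα0 hrepα
  | 1, b, g, hb, hg, hrepα, hnk, hmin, hg0 =>
    rw [Fin.sum_univ_one] at hrepα
    have hb0 : b 0 ≠ 0 := by
      intro h0
      rw [h0, zero_mul] at hrepα
      exact hα0 hrepα
    obtain ⟨m, n, hm, hn, _, hnS, hbm⟩ := (mem_FS K a S' (b 0)).mp (hb 0)
    have := H1 m n hm hn hnS (b 0) hbm hb0 (g 0) (hg0 0) (hg 0) (by rw [← hrepα]; exact hαD)
    rw [← hrepα] at this
    exact absurd this (not_le.mpr hl1)
  | n + 2, b, g, hb, hg, hrepα, hnk, hmin, hg0 =>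
    -- independence
    have hindep : ∀ d : Fin (n + 2) → Qb, (∀ j, d j ∈ FS K a S') → ∑ j, d j * g j = 0 → ∀ j, d j = 0 := by
      intro d hd hs l
      by_contra hl
      have := rep_dep (FS K a S') a b g hb hg d hd hs l hl
      rw [← hrepα] at this
      exact hmin (n + 1) (by omega) this
    have hb0 : ∀ j, b j ≠ 0 := by
      intro l hl
      have := rep_drop (FS K a S') a b g hb hg l hl
      rw [← hrepα] at this
      exact hmin (n + 1) (by omega) this
    set y : Qb := g 0 / g 1 with hy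
    have hy0 : y ≠ 0 := div_ne_zero (hg0 0) (hg0 1)
    have hyD : DivG a y := by
      rw [hy, div_eq_mul_inv]
      exact divG_mul a ha0 (hg 0) (divG_inv a (hg 1))
    have hyF : y ∉ FS K a S' := by
      intro hyF
      have h01 : (0 : Fin (n + 2)) ≠ 1 := by
        intro h; exact absurd (congrArg Fin.val h) (by simp)
      have := hindep (fun j => if j = 0 then 1 else if j = 1 then -y else 0) (by
        intro j
        by_cases hj : j = 0
        · simp only [hj, if_true]; exact one_mem _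
        · by_cases hj1 : j = 1
          · simp only [hj1, if_neg h01.symm, if_true]; exact neg_mem hyF
          · simp only [hj, hj1, if_false]; exact zero_mem _) (by
        have h2 : ∀ j : Fin (n + 2), (if j = 0 then (1 : Qb) else if j = 1 then -y else 0) * g j =
            (if j = 0 then g 0 else 0) + (if j = 1 then -y * g 1 else 0) := by
          intro j
          by_cases hj : j = 0
          · subst hj
            simp [h01]
          · by_cases hj1 : j = 1
            · subst hj1
              simp [h01.symm]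
            · simp [hj, hj1]
        rw [Finset.sum_congr rfl fun j _ => h2 j, Finset.sum_add_distrib, Finset.sum_ite_eq', Finset.sum_ite_eq']
        simp only [Finset.mem_univ, if_true]
        rw [hy, neg_mul, div_mul_cancel₀ _ (hg0 1)]
        ring) 0
      simp at this
    obtain ⟨M, hM, e, he⟩ := hyD
    have hyM : y ^ M ∈ FS K a S' := by
      rw [he]
      exact prod_mem fun i _ => zpow_mem (K_le_FS K a S' (ha i)) _
    obtain ⟨σ, o, hσ, ho, hyo, hord⟩ := exists_sigma (FS K a S') hFroot hy0 hM hyM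
    have hok : k < o := by
      by_contra hle
      push Not at hle
      exact hyF (FS_closure K a ha0 S' hS' ⟨M, hM, e, he⟩ ho (hsmall o ho hle) hyo)
    -- the roots of unity `c j`
    have hσa : ∀ i, σ (a i) = a i := fun i => hσ _ (K_le_FS K a S' (ha i))
    set c : Fin (n + 2) → Qb := fun j => σ (g j) / g j with hc
    have hcroot : ∀ j, ∃ N : ℕ, 0 < N ∧ (c j) ^ N = 1 := by
      intro j
      obtain ⟨N, hN, h⟩ := divG_conj a (hg j) σ hσa
      refine ⟨N, hN, ?_⟩
      rw [hc]
      simp only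
      rw [div_pow, h, div_self (pow_ne_zero _ (hg0 j))]
    have hcF : ∀ j, c j ∈ FS K a S' := by
      intro j
      obtain ⟨N, hN, h⟩ := hcroot j
      exact hFroot _ N hN h
    have hσg : ∀ j, σ (g j) = c j * g j := by
      intro j
      rw [hc]
      simp only
      rw [div_mul_cancel₀ _ (hg0 j)]
    have hσpow : ∀ (t : ℕ) (j : Fin (n + 2)), (σ ^ t) (g j) = c j ^ t * g j := by
      intro t
      induction t with
      | zero => intro j; simp
      | succ t ih =>
        intro j
        rw [pow_succ', AlgEquiv.mul_apply, ih, map_mul, map_pow, hσ _ (hcF j), hσg, pow_succ]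
        ring
    have hσb : ∀ (t : ℕ) (x : Qb), x ∈ FS K a S' → (σ ^ t) x = x := by
      intro t x hx
      induction t with
      | zero => rfl
      | succ t ih => rw [pow_succ', AlgEquiv.mul_apply, ih, hσ x hx]
    have hσα : ∀ t : ℕ, (σ ^ t) α = ∑ j, b j * (c j ^ t * g j) := by
      intro t
      rw [hrepα, map_sum]
      refine Finset.sum_congr rfl fun j _ => ?_
      rw [map_mul, hσb t _ (hb j), hσpow]
    -- the terms
    set Y : Finset (Fin (n + 2)) → Qb := fun A => (∏ i ∈ A, -c i) * (σ ^ (n + 2 - A.card)) α with hY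
    have hYsum : ∑ A ∈ (Finset.univ : Finset (Fin (n + 2))).powerset, Y A = 0 := by
      have h1 : ∀ A ∈ (Finset.univ : Finset (Fin (n + 2))).powerset,
          Y A = ∑ l, b l * g l * ((∏ i ∈ A, -c i) * ∏ i ∈ Finset.univ \ A, c l) := by
        intro A hA
        rw [hY]
        simp only
        rw [hσα, Finset.mul_sum]
        refine Finset.sum_congr rfl fun l _ => ?_
        rw [Finset.prod_const, Finset.card_sdiff_of_subset (Finset.subset_univ A), Finset.card_univ, Fintype.card_fin]
        ring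
      rw [Finset.sum_congr rfl h1, Finset.sum_comm]
      refine Finset.sum_eq_zero fun l _ => ?_
      rw [← Finset.mul_sum, ← Finset.prod_add]
      rw [Finset.prod_eq_zero (Finset.mem_univ l) (by ring), mul_zero]
    have hprodroot : ∀ A : Finset (Fin (n + 2)), ∃ N : ℕ, 0 < N ∧ (∏ i ∈ A, -c i) ^ N = 1 := by
      intro A
      induction A using Finset.induction_on with
      | empty => exact ⟨1, one_pos, by simp⟩
      | insert i A hi ih =>
        obtain ⟨N, hN, h⟩ := ih
        obtain ⟨N', hN', h'⟩ := hcroot i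
        refine ⟨2 * N' * N, Nat.mul_pos (Nat.mul_pos two_pos hN') hN, ?_⟩
        rw [Finset.prod_insert hi, mul_pow]
        have e1 : (-c i) ^ (2 * N' * N) = 1 := by
          rw [mul_assoc, pow_mul, neg_sq, ← pow_mul]
          have : 2 * (N' * N) = N' * (2 * N) := by ring
          rw [this, pow_mul, h', one_pow]
        have e2 : (∏ i ∈ A, -c i) ^ (2 * N' * N) = 1 := by
          rw [mul_comm, pow_mul, h, one_pow]
        rw [e1, e2, one_mul]
    have hYh : ∀ A ∈ (Finset.univ : Finset (Fin (n + 2))).powerset, hW (Y A) < c₂ := by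
      intro A _
      obtain ⟨N, hN, h⟩ := hprodroot A
      rw [hY]
      simp only
      rw [hW_root_mul hN h, hW_conj]
      exact hl2
    have hYcard : ((Finset.univ : Finset (Fin (n + 2))).powerset).card ≤ 2 ^ k := by
      rw [Finset.card_powerset, Finset.card_univ, Fintype.card_fin]
      exact Nat.pow_le_pow_right two_pos hnk
    have hkey := H2 (Finset (Fin (n + 2))) (Finset.univ : Finset (Fin (n + 2))).powerset Y hYcard hYh hYsum ∅
      (Finset.mem_powerset.mpr (Finset.empty_subset _)) {∅} (by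
        intro A
        rw [Finset.mem_singleton]
        constructor
        · rintro rfl
          exact ⟨Finset.mem_powerset.mpr (Finset.empty_subset _), rfl⟩
        · rintro ⟨_, hAP⟩
          by_contra hne
          have hApos : 0 < A.card := Finset.card_pos.mpr (Finset.nonempty_iff_ne_empty.mpr hne)
          have hAle : A.card ≤ n + 2 := by
            have := Finset.card_le_univ A
            rwa [Fintype.card_fin] at this
          obtain ⟨N, hN, hNroot⟩ := hprodroot A
          have e1 : ((σ ^ (n + 2 - A.card)) α) ^ (P * N) = ((σ ^ (n + 2)) α) ^ (P * N) := by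
            have e2 := congrArg (fun z => z ^ N) hAP
            simp only [hY] at e2
            rw [Finset.prod_empty, one_mul, Finset.card_empty, Nat.sub_zero, mul_pow, ← pow_mul, mul_pow,
              ← pow_mul, ← pow_mul, mul_comm P N, pow_mul, hNroot, one_pow, one_mul] at e2
            rw [mul_comm P N]
            exact e2
          have e3 : (σ ^ (n + 2)) α = (σ ^ (n + 2 - A.card)) ((σ ^ A.card) α) := by
            rw [← AlgEquiv.mul_apply, ← pow_add]
            congr 2
            omega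
          rw [e3, ← map_pow, ← map_pow] at e1
          have e4 : α ^ (P * N) = ((σ ^ A.card) α) ^ (P * N) := (σ ^ (n + 2 - A.card)).injective e1
          set w : Qb := (σ ^ A.card) α / α with hw
          have hwroot : w ^ (P * N) = 1 := by
            rw [hw, div_pow, ← e4, div_self (pow_ne_zero _ hα0)]
          have hwF : w ∈ FS K a S' := hFroot _ _ (Nat.mul_pos hP hN) hwroot
          have hrel : ∑ j, ((c j ^ A.card - w) * b j) * g j = 0 := by
            have e5 : (σ ^ A.card) α = w * α := by rw [hw, div_mul_cancel₀ _ hα0]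
            have e6 : ∑ j, ((c j ^ A.card - w) * b j) * g j =
                ∑ j, b j * (c j ^ A.card * g j) - w * ∑ j, b j * g j := by
              rw [Finset.mul_sum, ← Finset.sum_sub_distrib]
              refine Finset.sum_congr rfl fun j _ => ?_
              ring
            rw [e6, ← hσα, ← hrepα, e5, sub_self]
          have hall := hindep (fun j => (c j ^ A.card - w) * b j)
            (fun j => mul_mem (sub_mem (pow_mem (hcF j) _) hwF) (hb j)) hrel
          have hcj : ∀ j, c j ^ A.card = w := by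
            intro j
            have := hall j
            rcases mul_eq_zero.mp this with h | h
            · exact sub_eq_zero.mp h
            · exact absurd h (hb0 j)
          refine hord A.card hApos (lt_of_le_of_lt (hAle.trans hnk) hok) ?_
          have e7 : σ y / y = c 0 / c 1 := by
            rw [hy, map_div₀, hσg, hσg]
            have h1 := hg0 0
            have h2 := hg0 1
            have h3 : c 1 ≠ 0 := by
              intro h0
              obtain ⟨N', hN', h'⟩ := hcroot 1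
              rw [h0, zero_pow hN'.ne'] at h'
              exact zero_ne_one h'
            field_simp
          have hw0 : w ≠ 0 := by
            intro h0
            rw [h0, zero_pow (Nat.mul_pos hP hN).ne'] at hwroot
            exact zero_ne_one hwroot
          rw [e7, div_pow, hcj, hcj, div_self hw0])
    rw [Finset.sum_singleton, hY] at hkey
    simp only [Finset.prod_empty, one_mul, Finset.card_empty, Nat.sub_zero] at hkey
    have : α = 0 := (σ ^ (n + 2)).injective (by rw [hkey, map_zero])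
    exact hα0 this

end MP4270
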