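import Pool.Agent.Lib_MP_4270a5_nt.Defs

open Polynomial IntermediateField

namespace MP4270

variable {p : ℕ} [Fact p.Prime]

/-- Restriction of automorphisms of `PadicAlgCl p` to the algebraic numbers (`Qb` is normal over `ℚ`: the image of `jj p` is
stable under `ρ`, `AlgHom.restrictNormal` or `AlgEquiv.ofBijective` of the lift). -/
theorem restrict_jj (ρ : PadicAlgCl p ≃ₐ[ℚ_[p]] PadicAlgCl p) :
    ∃ h : Qb ≃ₐ[ℚ] Qb, ∀ x : Qb, jj p (h x) = ρ (jj p x) := by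
  let _ : Algebra Qb (PadicAlgCl p) := (jj p).toAlgebra
  have : IsScalarTower ℚ Qb (PadicAlgCl p) :=
    IsScalarTower.of_algebraMap_eq' (Subsingleton.elim _ _)
  have : IsScalarTower ℚ ℚ_[p] (PadicAlgCl p) :=
    IsScalarTower.of_algebraMap_eq' (Subsingleton.elim _ _)
  refine ⟨(ρ.restrictScalars ℚ).restrictNormal Qb, fun x => ?_⟩
  exact (ρ.restrictScalars ℚ).restrictNormal_commutes Qb x

/-- The field `ℚ_p(jj E)` is finite over `ℚ_p`, of degree at most `[E : ℚ]`. -/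
theorem loc_fd (E : IntermediateField ℚ Qb) [FiniteDimensional ℚ E] :
    FiniteDimensional ℚ_[p] (adjoin ℚ_[p] (jj p '' (E : Set Qb))) ∧
      Module.finrank ℚ_[p] (adjoin ℚ_[p] (jj p '' (E : Set Qb))) ≤ Module.finrank ℚ E := by
  have : IsScalarTower ℚ ℚ_[p] (PadicAlgCl p) :=
    IsScalarTower.of_algebraMap_eq' (Subsingleton.elim _ _)
  obtain ⟨α, hα⟩ := Field.exists_primitive_element ℚ E
  obtain ⟨φ, hφ⟩ : ∃ φ : E →ₐ[ℚ] PadicAlgCl p, ∀ y, φ y = jj p (y : Qb) :=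
    ⟨((jj p).comp (algebraMap E Qb)).toRatAlgHom, fun y => rfl⟩
  have hS : ∀ y : E, φ y ∈ ℚ_[p]⟮φ α⟯ := by
    intro y
    have h1 : ℚ⟮α⟯ ≤ ((ℚ_[p]⟮φ α⟯).restrictScalars ℚ).comap φ := by
      rw [adjoin_simple_le_iff]
      exact mem_adjoin_simple_self ℚ_[p] (φ α)
    rw [hα] at h1
    exact h1 (mem_top : y ∈ (⊤ : IntermediateField ℚ E))
  have he : adjoin ℚ_[p] (jj p '' (E : Set Qb)) = ℚ_[p]⟮φ α⟯ := by
    apply le_antisymm
    · rw [adjoin_le_iff]
      rintro _ ⟨y, hy, rfl⟩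
      have h4 : jj p y ∈ ℚ_[p]⟮φ α⟯ := by
        have h5 := hφ ⟨y, hy⟩
        rw [show jj p y = φ ⟨y, hy⟩ from h5.symm]
        exact hS ⟨y, hy⟩
      exact h4
    · rw [adjoin_simple_le_iff, hφ]
      exact subset_adjoin _ _ ⟨_, α.2, rfl⟩
  have hint : IsIntegral ℚ α := Algebra.IsIntegral.isIntegral α
  have h0 : aeval (φ α) (minpoly ℚ α) = 0 := by
    rw [aeval_algHom_apply, minpoly.aeval, map_zero]
  have h1 : aeval (φ α) ((minpoly ℚ α).map (algebraMap ℚ ℚ_[p])) = 0 := by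
    rw [aeval_map_algebraMap, h0]
  have hint' : IsIntegral ℚ_[p] (φ α) :=
    ⟨_, (minpoly.monic hint).map _, by rw [← aeval_def]; exact h1⟩
  have h2 : (minpoly ℚ_[p] (φ α)).natDegree ≤ (minpoly ℚ α).natDegree := by
    have h3 := natDegree_le_of_dvd (minpoly.dvd ℚ_[p] (φ α) h1)
      ((minpoly.monic hint).map _).ne_zero
    exact h3.trans natDegree_map_le
  rw [he]
  refine ⟨adjoin.finiteDimensional hint', ?_⟩
  rw [adjoin.finrank hint', ← (Field.primitive_element_iff_minpoly_natDegree_eq ℚ α).1 hα]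
  exact h2

end MP4270
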