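import Pool.Agent.Lib_MP_4270a5_nt.Defs

open Polynomial IntermediateField

namespace MP4270

variable {p : ℕ} [Fact p.Prime]

theorem Unif.p_pos (p : ℕ) [Fact p.Prime] : (0:ℝ) < p := by
  exact_mod_cast (Fact.out : p.Prime).pos

theorem Unif.one_lt_p (p : ℕ) [Fact p.Prime] : (1:ℝ) < p := by
  exact_mod_cast (Fact.out : p.Prime).one_lt

theorem Unif.norm_natCast_p : ‖(p : PadicAlgCl p)‖ = (p : ℝ)⁻¹ := by
  have h1 : (p : PadicAlgCl p) = algebraMap ℚ_[p] (PadicAlgCl p) (p : ℚ_[p]) := by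
    rw [map_natCast]
  rw [h1]
  have h2 := PadicAlgCl.norm_extends p (p : ℚ_[p])
  rw [Padic.norm_p] at h2
  exact h2

/-- the norm of an element of degree `n` is a root of an integral power of `p` -/
theorem Unif.norm_pow_natDegree {x : PadicAlgCl p} (hx : x ≠ 0) :
    ∃ m : ℤ, ‖x‖ ^ (minpoly ℚ_[p] x).natDegree = (p : ℝ) ^ m := by
  have hint : IsIntegral ℚ_[p] x := Algebra.IsIntegral.isIntegral x
  have h1 : ‖x‖ = ‖(minpoly ℚ_[p] x).coeff 0‖ ^ (1 / (minpoly ℚ_[p] x).natDegree : ℝ) :=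
    spectralNorm.spectralNorm_eq_norm_coeff_zero_rpow ℚ_[p] (PadicAlgCl p) x
  have hpos : 0 < (minpoly ℚ_[p] x).natDegree := minpoly.natDegree_pos hint
  have h2 : ‖x‖ ^ (minpoly ℚ_[p] x).natDegree = ‖(minpoly ℚ_[p] x).coeff 0‖ := by
    rw [h1, ← Real.rpow_natCast, ← Real.rpow_mul (norm_nonneg _), one_div,
      inv_mul_cancel₀ (by exact_mod_cast hpos.ne'), Real.rpow_one]
  have h3 : (minpoly ℚ_[p] x).coeff 0 ≠ 0 := minpoly.coeff_zero_ne_zero hint hx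
  exact ⟨_, h2.trans (Padic.norm_eq_zpow_neg_valuation h3)⟩

theorem Unif.norm_pow_finrank (K : IntermediateField ℚ_[p] (PadicAlgCl p)) [FiniteDimensional ℚ_[p] K]
    {x : PadicAlgCl p} (hxK : x ∈ K) (hx : x ≠ 0) :
    ∃ m : ℤ, ‖x‖ ^ Module.finrank ℚ_[p] K = (p : ℝ) ^ m := by
  obtain ⟨m, hm⟩ := Unif.norm_pow_natDegree hx
  have hdvd : (minpoly ℚ_[p] x).natDegree ∣ Module.finrank ℚ_[p] K := by
    have h1 : minpoly ℚ_[p] (⟨x, hxK⟩ : K) = minpoly ℚ_[p] x := IntermediateField.minpoly_eq (⟨x, hxK⟩ : K)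
    rw [← h1, ← IntermediateField.adjoin.finrank (Algebra.IsIntegral.isIntegral _)]
    exact ⟨_, (Module.finrank_mul_finrank ℚ_[p] (ℚ_[p]⟮(⟨x, hxK⟩ : K)⟯) K).symm⟩
  obtain ⟨e, he⟩ := hdvd
  refine ⟨m * e, ?_⟩
  rw [he, pow_mul, hm, zpow_mul, zpow_natCast]

/-- A finite extension of `ℚ_p` has a uniformizer: for `x ∈ K`, `x ≠ 0`, `‖x‖ ^ d` is an integral power of `p`,
`d = [K : ℚ_p]` (norm of the constant coefficient of the minimal polynomial, `spectralNorm`), so the norms `< 1` of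
elements of `K` (e.g. `1/p`) have a maximum. -/
theorem exists_unif (K : IntermediateField ℚ_[p] (PadicAlgCl p)) [FiniteDimensional ℚ_[p] K] :
    ∃ w, IsUnif K w := by
  classical
  have hp := Unif.one_lt_p p
  have hp0 := Unif.p_pos p
  have hd : 0 < Module.finrank ℚ_[p] K := Module.finrank_pos
  -- elements of norm `< 1` have `‖x‖ ^ d = p ^ (-m)` with `m ≥ 1`
  have key : ∀ x ∈ K, x ≠ 0 → ‖x‖ < 1 → ∃ m : ℕ, ‖x‖ ^ Module.finrank ℚ_[p] K = (p : ℝ) ^ (-(m : ℤ)) := by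
    intro x hxK hx hx1
    obtain ⟨m, hm⟩ := Unif.norm_pow_finrank K hxK hx
    have h1 : (p : ℝ) ^ m < 1 := by
      rw [← hm]
      exact pow_lt_one₀ (norm_nonneg _) hx1 hd.ne'
    have h2 : m < 0 := by
      by_contra hneg
      exact absurd h1 (not_lt.2 (one_le_zpow₀ hp.le (not_lt.1 hneg)))
    refine ⟨m.natAbs, ?_⟩
    rw [hm]
    congr 1
    omega
  have hex : ∃ m : ℕ, ∃ x ∈ K, x ≠ 0 ∧ ‖x‖ < 1 ∧ ‖x‖ ^ Module.finrank ℚ_[p] K = (p : ℝ) ^ (-(m : ℤ)) := by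
    have h1 : (p : PadicAlgCl p) ∈ K := _root_.natCast_mem K p
    have h2 : (p : PadicAlgCl p) ≠ 0 := by
      intro h
      have := Unif.norm_natCast_p (p := p)
      rw [h, norm_zero] at this
      exact (inv_pos.2 hp0).ne this
    have h3 : ‖(p : PadicAlgCl p)‖ < 1 := by
      rw [Unif.norm_natCast_p]
      exact inv_lt_one_of_one_lt₀ hp
    obtain ⟨m, hm⟩ := key _ h1 h2 h3
    exact ⟨m, _, h1, h2, h3, hm⟩
  obtain ⟨w, hwK, hw0, hw1, hw⟩ := Nat.find_spec hex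
  refine ⟨w, hwK, hw0, hw1, ?_⟩
  intro x hxK hx1
  rcases eq_or_ne x 0 with rfl | hx0
  · rw [norm_zero]
    exact norm_nonneg _
  obtain ⟨m, hm⟩ := key x hxK hx0 hx1
  have h1 : Nat.find hex ≤ m := Nat.find_min' hex ⟨x, hxK, hx0, hx1, hm⟩
  have h2 : ‖x‖ ^ Module.finrank ℚ_[p] K ≤ ‖w‖ ^ Module.finrank ℚ_[p] K := by
    rw [hm, hw]
    apply zpow_le_zpow_right₀ hp.le
    omega
  exact le_of_pow_le_pow_left₀ hd.ne' (norm_nonneg _) h2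

/-- The value group is generated by `‖w‖`. -/
theorem unif_norm (K : IntermediateField ℚ_[p] (PadicAlgCl p)) {w : PadicAlgCl p} (hw : IsUnif K w)
    {x : PadicAlgCl p} (hx : x ∈ K) (hx0 : x ≠ 0) : ∃ n : ℤ, ‖x‖ = ‖w‖ ^ n := by
  obtain ⟨hwK, hw0, hw1, hmax⟩ := hw
  have hwpos : 0 < ‖w‖ := norm_pos_iff.2 hw0
  have hy : 1 < ‖w‖⁻¹ := (one_lt_inv₀ hwpos).2 hw1
  obtain ⟨n, hn1, hn2⟩ := exists_mem_Ico_zpow (norm_pos_iff.2 hx0) hy
  have hz : ‖x * w ^ (n + 1)‖ < 1 := by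
    rw [norm_mul, norm_zpow]
    rw [inv_zpow] at hn2
    have h1 : 0 < ‖w‖ ^ (n + 1) := zpow_pos hwpos _
    calc ‖x‖ * ‖w‖ ^ (n + 1) < (‖w‖ ^ (n + 1))⁻¹ * ‖w‖ ^ (n + 1) := mul_lt_mul_of_pos_right hn2 h1
      _ = 1 := inv_mul_cancel₀ h1.ne'
  have hzK : x * w ^ (n + 1) ∈ K := K.mul_mem hx (zpow_mem hwK _)
  have h2 := hmax _ hzK hz
  rw [norm_mul, norm_zpow] at h2
  refine ⟨-n, le_antisymm ?_ ?_⟩
  · have h1 : 0 < ‖w‖ ^ (n + 1) := zpow_pos hwpos _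
    have h3 : ‖x‖ ≤ ‖w‖ / ‖w‖ ^ (n + 1) := (le_div_iff₀ h1).2 h2
    have h4 : ‖w‖ / ‖w‖ ^ (n + 1) = ‖w‖ ^ (-n) := by
      have h5 : ‖w‖ ^ (-n) = ‖w‖ ^ ((1 : ℤ) - (n + 1)) := by
        congr 1
        ring
      rw [h5, zpow_sub₀ hwpos.ne', zpow_one]
    rwa [h4] at h3
  · rw [zpow_neg, ← inv_zpow]
    exact hn1

/-- `‖p‖ ≤ ‖w‖`. -/
theorem unif_ge (K : IntermediateField ℚ_[p] (PadicAlgCl p)) {w : PadicAlgCl p} (hw : IsUnif K w) :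
    (p : ℝ)⁻¹ ≤ ‖w‖ := by
  obtain ⟨hwK, hw0, hw1, hmax⟩ := hw
  have h1 : (p : PadicAlgCl p) ∈ K := _root_.natCast_mem K p
  have h3 : ‖(p : PadicAlgCl p)‖ < 1 := by
    rw [Unif.norm_natCast_p]
    exact inv_lt_one_of_one_lt₀ (Unif.one_lt_p p)
  have := hmax _ h1 h3
  rwa [Unif.norm_natCast_p] at this

/-- For `d = [K : ℚ_p]` a uniformizer has norm at most `p^(-1/d)`, and every norm is an integral power of
`p^(1/e)` for some `1 ≤ e ≤ d`. -/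
theorem unif_le (K : IntermediateField ℚ_[p] (PadicAlgCl p)) [FiniteDimensional ℚ_[p] K] {w : PadicAlgCl p}
    (hw : IsUnif K w) : ∃ e : ℕ, 1 ≤ e ∧ e ≤ Module.finrank ℚ_[p] K ∧ ‖w‖ = (p : ℝ) ^ (-(1 : ℝ) / e) := by
  have hp := Unif.one_lt_p p
  have hp0 := Unif.p_pos p
  have hd : 0 < Module.finrank ℚ_[p] K := Module.finrank_pos
  have hwpos : 0 < ‖w‖ := norm_pos_iff.2 hw.2.1
  have h1 : (p : PadicAlgCl p) ∈ K := _root_.natCast_mem K p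
  have h2 : (p : PadicAlgCl p) ≠ 0 := by
    intro h
    have := Unif.norm_natCast_p (p := p)
    rw [h, norm_zero] at this
    exact (inv_pos.2 hp0).ne this
  obtain ⟨n, hn⟩ := unif_norm K hw h1 h2
  rw [Unif.norm_natCast_p] at hn
  have hn0 : 0 < n := by
    by_contra hneg
    have h3 : (1:ℝ) ≤ ‖w‖ ^ n := one_le_zpow_of_nonpos₀ hwpos hw.2.2.1.le (not_lt.1 hneg)
    rw [← hn] at h3
    exact absurd h3 (not_le.2 (inv_lt_one_of_one_lt₀ hp))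
  obtain ⟨e, rfl⟩ : ∃ e : ℕ, n = e := ⟨n.toNat, (Int.toNat_of_nonneg hn0.le).symm⟩
  have he : 1 ≤ e := by exact_mod_cast hn0
  rw [zpow_natCast] at hn
  have hwe : ‖w‖ = (p : ℝ) ^ (-(1 : ℝ) / e) := by
    have h4 : ‖w‖ = (‖w‖ ^ e) ^ ((e : ℝ)⁻¹) := by
      rw [← Real.rpow_natCast, ← Real.rpow_mul hwpos.le, mul_inv_cancel₀ (by positivity), Real.rpow_one]
    rw [h4, ← hn, ← Real.rpow_neg_one, ← Real.rpow_mul hp0.le]
    congr 1
  refine ⟨e, he, ?_, hwe⟩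
  obtain ⟨m, hm⟩ := Unif.norm_pow_finrank K hw.1 hw.2.1
  have h5 : (p : ℝ) ^ (-(Module.finrank ℚ_[p] K : ℤ)) = (p : ℝ) ^ (m * e) := by
    rw [zpow_mul, ← hm, zpow_natCast, ← pow_mul, mul_comm, pow_mul, ← hn, inv_pow, zpow_neg, zpow_natCast]
  have h6 : -(Module.finrank ℚ_[p] K : ℤ) = m * e := zpow_right_injective₀ hp0 hp.ne' h5
  have h7 : m < 0 := by
    by_contra hneg
    have : 0 ≤ m * e := mul_nonneg (not_lt.1 hneg) (by positivity)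
    omega
  have h8 : (Module.finrank ℚ_[p] K : ℤ) = (-m) * e := by linarith
  have h9 : (e : ℤ) ≤ (-m) * e := by
    have h10 : (1 : ℤ) ≤ -m := by omega
    nlinarith [h10, (by positivity : (0:ℤ) ≤ e)]
  rw [← h8] at h9
  exact_mod_cast h9

end MP4270
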