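import Pool.Agent.Lib_MP_4270a5_nt.Unram
import Pool.Agent.Lib_MP_4270a5_nt.Res
import Pool.Agent.Lib_MP_4270a5_nt.Unif

open Polynomial IntermediateField

namespace MP4270

/-- The elements of `Qb` whose image is in `F`. -/
private def ppowF (p : ℕ) [Fact p.Prime] (F : IntermediateField ℚ_[p] (PadicAlgCl p)) :
    IntermediateField ℚ Qb where
  toSubalgebra :=
    { carrier := {x | jj p x ∈ F}
      mul_mem' := fun {a b} ha hb => by
        show jj p (a * b) ∈ F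
        rw [map_mul]
        exact mul_mem ha hb
      one_mem' := by
        show jj p 1 ∈ F
        rw [map_one]
        exact one_mem F
      add_mem' := fun {a b} ha hb => by
        show jj p (a + b) ∈ F
        rw [map_add]
        exact add_mem ha hb
      zero_mem' := by
        show jj p 0 ∈ F
        rw [map_zero]
        exact zero_mem F
      algebraMap_mem' := fun q => by
        show jj p (algebraMap ℚ Qb q) ∈ F
        rw [eq_ratCast, map_ratCast]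
        exact SubfieldClass.ratCast_mem F q }
  inv_mem' := fun x hx => by
    show jj p x⁻¹ ∈ F
    rw [map_inv₀]
    exact inv_mem hx

/-- The `p`-power roots of unity in `E(μ_m)`, `p ∤ m`, have order dividing `p^d`, `d = [E : ℚ]`: if `ζ` has order `p^(j+1)` then
`‖jj ζ - 1‖ = p^(-1/(p^j (p-1)))` (`norm_primitive_sub_one`) is the norm of an element of `E_p` (`unram_norm`), an integral
power of `p^(1/e)`, `e ≤ d` (`unif_norm`, `unif_le`), so `p^j (p-1)` divides `e`, and `p^j ≤ d < p^d`. -/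
theorem ppow_bound (E : IntermediateField ℚ Qb) [FiniteDimensional ℚ E] (p : ℕ) [Fact p.Prime] {m : ℕ}
    (hm : 0 < m) (hmp : m.Coprime p) {ζ : Qb} (hζ : ζ ∈ E ⊔ adjoin ℚ {x : Qb | x ^ m = 1}) {N : ℕ}
    (hN : ζ ^ p ^ N = 1) : ζ ^ p ^ (Module.finrank ℚ E) = 1 := by
  classical
  have hp := (Fact.out : p.Prime)
  obtain ⟨j, _, hj⟩ := (Nat.dvd_prime_pow hp).mp (orderOf_dvd_of_pow_eq_one hN)
  rcases Nat.eq_zero_or_pos j with rfl | hj0
  · rw [pow_zero, orderOf_eq_one_iff] at hj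
    rw [hj, one_pow]
  obtain ⟨k, rfl⟩ : ∃ k, j = k + 1 := ⟨j - 1, by omega⟩
  have hprim : IsPrimitiveRoot ζ (p ^ (k + 1)) := by
    rw [← hj]
    exact IsPrimitiveRoot.orderOf ζ
  have hprim' : IsPrimitiveRoot (jj p ζ) (p ^ (k + 1)) := hprim.map_of_injective (jj p).injective
  have hnorm := norm_primitive_sub_one hprim'
  set Ep := adjoin ℚ_[p] (jj p '' (E : Set Qb)) with hEp
  obtain ⟨hfd, hrank⟩ := loc_fd (p := p) E
  have hne : NeZero (m : PadicAlgCl p) := ⟨by exact_mod_cast hm.ne'⟩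
  obtain ⟨ξ, hξ⟩ := HasEnoughRootsOfUnity.exists_primitiveRoot (PadicAlgCl p) m
  have hmem : jj p ζ ∈ Ep ⊔ ℚ_[p]⟮ξ⟯ := by
    have h1 : E ⊔ adjoin ℚ {x : Qb | x ^ m = 1} ≤ ppowF p (Ep ⊔ ℚ_[p]⟮ξ⟯) := by
      refine sup_le ?_ ?_
      · intro x hx
        show jj p x ∈ Ep ⊔ ℚ_[p]⟮ξ⟯
        exact (le_sup_left : Ep ≤ _) (IntermediateField.subset_adjoin _ _ ⟨x, hx, rfl⟩)
      · rw [IntermediateField.adjoin_le_iff]
        intro x hx
        show jj p x ∈ Ep ⊔ ℚ_[p]⟮ξ⟯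
        have h2 : (jj p x) ^ m = 1 := by
          have h3 : x ^ m = 1 := hx
          rw [← map_pow, h3, map_one]
        have hne' : NeZero m := ⟨hm.ne'⟩
        obtain ⟨i, _, hi⟩ := hξ.eq_pow_of_pow_eq_one h2
        rw [← hi]
        exact pow_mem ((le_sup_right : ℚ_[p]⟮ξ⟯ ≤ _) (IntermediateField.mem_adjoin_simple_self _ ξ)) i
    exact h1 hζ
  obtain ⟨y, hy1, hy2⟩ := unram_norm Ep hm hmp hξ.pow_eq_one
    (x := jj p ζ - 1) (sub_mem hmem (one_mem _))
  have hp1 : (1 : ℝ) < p := by exact_mod_cast hp.one_lt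
  have hp0 : (0 : ℝ) < p := by linarith
  rw [hnorm] at hy2
  have hy0 : y ≠ 0 := by
    intro h
    rw [h, norm_zero] at hy2
    exact (Real.rpow_pos_of_pos hp0 _).ne hy2
  obtain ⟨w, hw⟩ := exists_unif Ep
  obtain ⟨n, hn⟩ := unif_norm Ep hw hy1 hy0
  obtain ⟨e, he1, he2, he3⟩ := unif_le Ep hw
  have he0 : (0 : ℝ) < e := by exact_mod_cast he1
  have hk0 : (0 : ℝ) < (p : ℝ) ^ k * ((p : ℝ) - 1) := mul_pos (pow_pos hp0 k) (by linarith)
  have hexp : (-(1 : ℝ) / ((p : ℝ) ^ k * ((p : ℝ) - 1))) = -(1 : ℝ) / e * n := by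
    have h1 : (p : ℝ) ^ (-(1 : ℝ) / ((p : ℝ) ^ k * ((p : ℝ) - 1))) = (p : ℝ) ^ (-(1 : ℝ) / e * n) := by
      rw [← hy2, hn, he3, Real.rpow_mul hp0.le, Real.rpow_intCast]
    exact (Real.rpow_right_inj hp0 hp1.ne').mp h1
  have hne2 : (n : ℝ) * ((p : ℝ) ^ k * ((p : ℝ) - 1)) = e := by
    rw [neg_div, neg_div, neg_mul, neg_inj, div_mul_eq_mul_div, one_mul,
      div_eq_div_iff hk0.ne' he0.ne'] at hexp
    linarith
  have hint : n * ((p : ℤ) ^ k * ((p : ℤ) - 1)) = e := by exact_mod_cast hne2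
  have hpk : (1 : ℤ) ≤ (p : ℤ) - 1 := by
    have := hp.two_le
    omega
  have hpk0 : (0 : ℤ) < (p : ℤ) ^ k := pow_pos (by exact_mod_cast hp.pos) k
  have hn1 : 1 ≤ n := by
    by_contra hn0
    have h3 : n ≤ 0 := by omega
    have h4 : n * ((p : ℤ) ^ k * ((p : ℤ) - 1)) ≤ 0 :=
      mul_nonpos_of_nonpos_of_nonneg h3 (mul_nonneg hpk0.le (by omega))
    omega
  have hle : (p : ℤ) ^ k ≤ e := by
    rw [← hint]
    nlinarith [mul_le_mul hn1 hpk (by norm_num) (by omega : (0 : ℤ) ≤ n)]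
  have hle2 : p ^ k ≤ e := by exact_mod_cast hle
  have hlt : k < p ^ k := Nat.lt_pow_self hp.one_lt
  have hkd : k + 1 ≤ Module.finrank ℚ E := by
    have := he2.trans hrank
    omega
  have h5 : p ^ (k + 1) ∣ p ^ Module.finrank ℚ E := pow_dvd_pow p hkd
  rw [← hj] at h5
  exact orderOf_dvd_iff_pow_eq_one.mp h5

end MP4270
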