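import Pool.Agent.Lib_MP_4270a5_nt.BProp
import Pool.Agent.Lib_MP_4270a5_nt.PPow
import Pool.Agent.Lib_MP_4270a5_nt.DivB

open Polynomial IntermediateField

namespace MP4270

/-- `Q` from `frob_global`, `P₀ = p^d`, `P = P₀ (Q - 1)`, `c = c_B/2`, `c_B` from `bprop`. For `σ` over `E`: `σ β/β ∈ E(μ_m)`
(`cyc_stable`) and `hW (σβ/β) = hW (σ(βg)/(βg) · ω) ≤ 2 hW (β g) < c_B` (`divG_conj`), so `σβ/β` is a root of unity. Its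
`P₀`-th power `χ(σ)` has order prime to `p` (`ppow_bound`). `φ χ(σ) = χ(σ)^Q` (`frob_root`) and `φ σ = σ φ` (`ab_comm`) give
`χ(σ)^(Q-1) = σ(χ(φ))/χ(φ)`; so `b = β^P/χ(φ)` is fixed by all `σ` over `E`. -/
theorem step_b (E : IntermediateField ℚ Qb) [FiniteDimensional ℚ E] {r : ℕ} (a : Fin r → Qb)
    (ha : ∀ i, a i ∈ E) (p : ℕ) [Fact p.Prime] :
    ∃ P : ℕ, 0 < P ∧ ∃ c : ℝ, 0 < c ∧ ∀ m : ℕ, 0 < m → m.Coprime p →
      ∀ β ∈ E ⊔ adjoin ℚ {x : Qb | x ^ m = 1}, β ≠ 0 → ∀ g : Qb, g ≠ 0 → DivG a g → hW (β * g) < c →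
        ∃ b ∈ E, b ≠ 0 ∧ ∃ w : Qb, (∃ N : ℕ, 0 < N ∧ w ^ N = 1) ∧ β ^ P = w * b := by
  obtain ⟨Q, f, hQ2, hQf, hfrob⟩ := frob_global E p
  obtain ⟨cB, hcB, hB⟩ := bprop E p
  have hp : p.Prime := Fact.out
  have hd : 0 < Module.finrank ℚ E := Module.finrank_pos
  refine ⟨p ^ Module.finrank ℚ E * (Q - 1), Nat.mul_pos (pow_pos hp.pos _) (by omega), cB / 2,
    by linarith, ?_⟩
  intro m hm hmp β hβ hβ0 g hg0 hg hh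
  obtain ⟨φ, hφE, hφ⟩ := hfrob m hm hmp
  have hmem : ∀ σ : Qb ≃ₐ[ℚ] Qb, (∀ x ∈ E, σ x = x) →
      σ β / β ∈ E ⊔ adjoin ℚ {x : Qb | x ^ m = 1} := fun σ hσ =>
    div_mem (cyc_stable E σ hσ hβ) hβ
  -- `σ β / β` is a root of unity
  have hroot : ∀ σ : Qb ≃ₐ[ℚ] Qb, (∀ x ∈ E, σ x = x) → ∃ N : ℕ, 0 < N ∧ (σ β / β) ^ N = 1 := by
    intro σ hσ
    have hσβ : σ β ≠ 0 := (map_ne_zero σ).2 hβ0
    have hσg : σ g ≠ 0 := (map_ne_zero σ).2 hg0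
    refine hB m hm hmp _ (hmem σ hσ) (div_ne_zero hσβ hβ0) ?_
    obtain ⟨N, hN, hN1⟩ := divG_conj a hg σ (fun i => hσ _ (ha i))
    have hω : (g / σ g) ^ N = 1 := by rw [div_pow, hN1, div_self (pow_ne_zero _ hg0)]
    have e : σ β / β = (g / σ g) * (σ (β * g) * (β * g)⁻¹) := by
      rw [map_mul]
      field_simp
    rw [e, hW_root_mul hN hω]
    calc hW (σ (β * g) * (β * g)⁻¹) ≤ hW (σ (β * g)) + hW (β * g)⁻¹ := hW_mul_le _ _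
      _ = hW (β * g) + hW (β * g) := by rw [hW_conj, hW_inv (mul_ne_zero hβ0 hg0)]
      _ < cB := by linarith
  obtain ⟨P₀, hP₀⟩ : ∃ P₀ : ℕ, P₀ = p ^ Module.finrank ℚ E := ⟨_, rfl⟩
  rw [← hP₀]
  -- the order of the `P₀`-th power is prime to `p`
  have hcop : ∀ σ : Qb ≃ₐ[ℚ] Qb, (∀ x ∈ E, σ x = x) →
      ∃ N : ℕ, 0 < N ∧ N.Coprime p ∧ ((σ β / β) ^ P₀) ^ N = 1 := by
    intro σ hσ
    obtain ⟨N, hN, hN1⟩ := hroot σ hσ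
    obtain ⟨k, N', hN', e⟩ := Nat.exists_eq_pow_mul_and_not_dvd hN.ne' p hp.ne_one
    have hN'0 : 0 < N' := by
      rcases Nat.eq_zero_or_pos N' with h0 | h0
      · rw [h0, mul_zero] at e
        omega
      · exact h0
    refine ⟨N', hN'0, ((Nat.Prime.coprime_iff_not_dvd hp).2 hN').symm, ?_⟩
    have h1 : ((σ β / β) ^ N') ^ p ^ k = 1 := by
      rw [← pow_mul, mul_comm, ← e, hN1]
    have h2 := ppow_bound E p hm hmp (pow_mem (hmem σ hσ) N') h1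
    rw [← pow_mul, mul_comm, pow_mul, ← hP₀] at h2
    exact h2
  -- Frobenius acts on it as the `Q`-th power
  have hlt : (p : ℝ) ^ (-(1 : ℝ) / (Module.finrank ℚ E)) < 1 := by
    refine Real.rpow_lt_one_of_one_lt_of_neg (by exact_mod_cast hp.one_lt) ?_
    exact div_neg_of_neg_of_pos (by norm_num) (by exact_mod_cast hd)
  have hfr : ∀ σ : Qb ≃ₐ[ℚ] Qb, (∀ x ∈ E, σ x = x) →
      φ ((σ β / β) ^ P₀) = ((σ β / β) ^ P₀) ^ Q := by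
    intro σ hσ
    obtain ⟨N, hN, hNp, hN1⟩ := hcop σ hσ
    refine frob_root p φ hN hNp hN1 ?_
    have h1 : ‖jj p ((σ β / β) ^ P₀)‖ = 1 := by
      have h2 : ‖jj p ((σ β / β) ^ P₀)‖ ^ N = 1 := by
        rw [← norm_pow, ← map_pow, hN1, map_one, norm_one]
      exact (pow_eq_one_iff_of_nonneg (norm_nonneg _) hN.ne').1 h2
    exact lt_of_le_of_lt (hφ _ (pow_mem (hmem σ hσ) P₀) h1.le) hlt
  have hPpos : 0 < P₀ := by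
    rw [hP₀]
    exact pow_pos hp.pos _
  have hχ : ∀ σ : Qb ≃ₐ[ℚ] Qb, σ β ^ P₀ = (σ β / β) ^ P₀ * β ^ P₀ := by
    intro σ
    rw [← mul_pow, div_mul_cancel₀ _ hβ0]
  have hφβ : φ β ≠ 0 := (map_ne_zero φ).2 hβ0
  have hw0 : (φ β / β) ^ P₀ ≠ 0 := pow_ne_zero _ (div_ne_zero hφβ hβ0)
  have hkey : ∀ σ : Qb ≃ₐ[ℚ] Qb, (∀ x ∈ E, σ x = x) →
      ((σ β / β) ^ P₀) ^ (Q - 1) * (φ β / β) ^ P₀ = σ ((φ β / β) ^ P₀) := by
    intro σ hσ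
    have hσβ : σ β ≠ 0 := (map_ne_zero σ).2 hβ0
    have h1 := congrArg φ (hχ σ)
    rw [map_mul, map_pow, map_pow φ β, hfr σ hσ, hχ φ, ab_comm E hm φ σ hφE hσ hβ, ← map_pow,
      hχ φ, map_mul, map_pow σ β, hχ σ] at h1
    have hc : (σ β / β) ^ P₀ ≠ 0 := pow_ne_zero _ (div_ne_zero hσβ hβ0)
    have hb : β ^ P₀ ≠ 0 := pow_ne_zero _ hβ0
    have hQ : ((σ β / β) ^ P₀) ^ Q = ((σ β / β) ^ P₀) ^ (Q - 1) * (σ β / β) ^ P₀ := by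
      rw [← pow_succ]
      congr 1
      omega
    rw [hQ] at h1
    have h2 : (((σ β / β) ^ P₀) ^ (Q - 1) * (φ β / β) ^ P₀) * ((σ β / β) ^ P₀ * β ^ P₀) =
        σ ((φ β / β) ^ P₀) * ((σ β / β) ^ P₀ * β ^ P₀) := by
      rw [h1]
      ring
    exact mul_right_cancel₀ (mul_ne_zero hc hb) h2
  obtain ⟨N, hN, hNp, hN1⟩ := hcop φ hφE
  refine ⟨β ^ (P₀ * (Q - 1)) / (φ β / β) ^ P₀, ?_, div_ne_zero (pow_ne_zero _ hβ0) hw0,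
    (φ β / β) ^ P₀, ⟨N, hN, hN1⟩, ?_⟩
  · refine mem_of_fixed_Qb E _ fun σ hσ => ?_
    have hσβ : σ β ≠ 0 := (map_ne_zero σ).2 hβ0
    have hc : ((σ β / β) ^ P₀) ^ (Q - 1) ≠ 0 :=
      pow_ne_zero _ (pow_ne_zero _ (div_ne_zero hσβ hβ0))
    rw [map_div₀, ← hkey σ hσ, map_pow, pow_mul, hχ σ, mul_pow, ← pow_mul β]
    exact mul_div_mul_left _ _ hc
  · rw [mul_div_cancel₀ _ hw0]

end MP4270
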