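import Pool.Agent.Lib_MP_4270a5_nt.HProp
import Pool.Agent.Lib_MP_4270a5_nt.Dir
import Pool.Agent.Lib_MP_4270a5_nt.DivB

open Polynomial IntermediateField

namespace MP4270

private theorem stepc_hW_prod {r : ℕ} (a : Fin r → Qb) (ha0 : ∀ i, a i ≠ 0) (e : Fin r → ℤ) :
    hW (∏ i, a i ^ e i) ≤ ∑ i, |(e i : ℝ)| * hW (a i) :=
  (hW_prod_le _ _).trans (Finset.sum_le_sum fun i _ => (hW_zpow (ha0 i) (e i)).le)

/-- FINITELY GENERATED MODULO THE DIVISION GROUP, ONE NUMBER FIELD. `c_E` from `hW_gap`, `N` with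
`(∑ hW (a i))/N < c_E/2`, `c = c_E/(2 N^r)`. Let `g^M = ∏ a_i^(e_i)`; `dirichlet` for `x_i = e_i/M`: `1 ≤ n ≤ N^r`, `k_i`.
`y = b^n ∏ a_i^(k_i) ∈ E`, and `y^M = (b g)^(n M) ∏ a_i^(M k_i - n e_i)`, so
`hW y ≤ n hW (b g) + ∑ |k_i - n x_i| hW (a i) < c_E` and `y` is a root of unity; so `b` and `b g` are in the
division group. -/
theorem step_c (E : IntermediateField ℚ Qb) [FiniteDimensional ℚ E] {r : ℕ} (a : Fin r → Qb)
    (ha : ∀ i, a i ∈ E) (ha0 : ∀ i, a i ≠ 0) :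
    ∃ c : ℝ, 0 < c ∧ ∀ b ∈ E, b ≠ 0 → ∀ g : Qb, g ≠ 0 → DivG a g → hW (b * g) < c → DivG a (b * g) := by
  obtain ⟨c, hc, hgap⟩ := hW_gap E
  obtain ⟨N, hN⟩ := exists_nat_gt ((∑ i, hW (a i)) / (c / 2))
  have hS : 0 ≤ ∑ i, hW (a i) := Finset.sum_nonneg fun i _ => hW_nonneg _
  have hc2 : 0 < c / 2 := by linarith
  have hN0 : 0 < N := by
    have : (0 : ℝ) < N := lt_of_le_of_lt (div_nonneg hS hc2.le) hN
    exact_mod_cast this
  have hN0' : (0 : ℝ) < N := by exact_mod_cast hN0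
  have hNr : (0 : ℝ) < (N : ℝ) ^ r := pow_pos hN0' r
  refine ⟨c / (2 * (N : ℝ) ^ r), by positivity, fun b hb hb0 g hg0 hdg hbg => ?_⟩
  obtain ⟨M, hM, e, he⟩ := id hdg
  have hM' : (0 : ℝ) < M := by exact_mod_cast hM
  obtain ⟨n, hn, hnN, k, hk⟩ := dirichlet N hN0 (fun i => (e i : ℝ) / M)
  have hn' : (n : ℝ) ≤ (N : ℝ) ^ r := by exact_mod_cast hnN
  set y : Qb := b ^ n * ∏ i, a i ^ k i with hy
  have hyE : y ∈ E := mul_mem (pow_mem hb n) (prod_mem fun i _ => zpow_mem (ha i) _)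
  have hy0 : y ≠ 0 := mul_ne_zero (pow_ne_zero _ hb0)
    (Finset.prod_ne_zero_iff.2 fun i _ => zpow_ne_zero _ (ha0 i))
  have hyM : y ^ M = (b * g) ^ (n * M) * ∏ i, a i ^ (M * k i - n * e i) := by
    have h1 : g ^ (n * M) = ∏ i, a i ^ (n * e i) := by
      rw [mul_comm n M, pow_mul, he, ← Finset.prod_pow]
      refine Finset.prod_congr rfl fun i _ => ?_
      rw [← zpow_natCast, ← zpow_mul, mul_comm]
    rw [hy, mul_pow, mul_pow b g, h1, ← pow_mul, mul_assoc, ← Finset.prod_mul_distrib,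
      ← Finset.prod_pow]
    congr 1
    refine Finset.prod_congr rfl fun i _ => ?_
    rw [← zpow_natCast, ← zpow_mul, ← zpow_add₀ (ha0 i)]
    congr 1
    ring
  have hy1 : (M : ℝ) * hW y < M * c := by
    rw [← hW_pow, hyM]
    refine lt_of_le_of_lt (hW_mul_le _ _) ?_
    have h1 : ∀ i, |((M * k i - n * e i : ℤ) : ℝ)| * hW (a i) ≤ M * (hW (a i) / N) := by
      intro i
      have h2 : ((M * k i - n * e i : ℤ) : ℝ) = - (M * (n * ((e i : ℝ) / M) - k i)) := by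
        push_cast
        field_simp
        ring
      rw [h2, abs_neg, abs_mul, abs_of_pos hM', mul_assoc, div_eq_inv_mul (hW (a i)) (N : ℝ)]
      refine mul_le_mul_of_nonneg_left (mul_le_mul_of_nonneg_right ?_ (hW_nonneg _)) hM'.le
      have := hk i
      rwa [one_div] at this
    have h3 : hW (∏ i, a i ^ (M * k i - n * e i)) < M * (c / 2) := by
      refine lt_of_le_of_lt (stepc_hW_prod a ha0 _) ?_
      refine lt_of_le_of_lt (Finset.sum_le_sum fun i _ => h1 i) ?_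
      rw [← Finset.mul_sum, ← Finset.sum_div]
      refine mul_lt_mul_of_pos_left ?_ hM'
      rw [div_lt_iff₀ hN0']
      rw [div_lt_iff₀ hc2] at hN
      linarith
    have h4 : hW ((b * g) ^ (n * M)) ≤ M * (c / 2) := by
      rw [hW_pow]
      push_cast
      have h5 : (n : ℝ) * hW (b * g) ≤ c / 2 := by
        calc (n : ℝ) * hW (b * g) ≤ (N : ℝ) ^ r * (c / (2 * (N : ℝ) ^ r)) :=
              mul_le_mul hn' hbg.le (hW_nonneg _) hNr.le
          _ = c / 2 := by field_simp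
      calc (n : ℝ) * M * hW (b * g) = M * (n * hW (b * g)) := by ring
        _ ≤ M * (c / 2) := mul_le_mul_of_nonneg_left h5 hM'.le
    calc _ < M * (c / 2) + M * (c / 2) := add_lt_add_of_le_of_lt h4 h3
      _ = M * c := by ring
  obtain ⟨L, hL, hyL⟩ := hgap y hyE hy0 (lt_of_mul_lt_mul_left hy1 hM'.le)
  have hdb : DivG a b := by
    refine ⟨n * L, Nat.mul_pos hn hL, fun i => - k i * L, ?_⟩
    have h6 : b ^ n = y * ∏ i, a i ^ (- k i) := by
      rw [hy, mul_assoc, ← Finset.prod_mul_distrib, Finset.prod_eq_one, mul_one]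
      intro i _
      rw [← zpow_add₀ (ha0 i), add_neg_cancel, zpow_zero]
    rw [pow_mul, h6, mul_pow, hyL, one_mul, ← Finset.prod_pow]
    refine Finset.prod_congr rfl fun i _ => ?_
    rw [zpow_mul, zpow_natCast]
  exact divG_mul a ha0 hdb hdg

end MP4270
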