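import Pool.Agent.Lib_MP_4270a5_nt.Multi
import Pool.Agent.Lib_MP_4270a5_nt.StepB
import Pool.Agent.Lib_MP_4270a5_nt.StepC

open Polynomial IntermediateField

namespace MP4270

theorem lf_split_cop (K : IntermediateField ℚ Qb) {r : ℕ} (a : Fin r → Qb) {N m : ℕ}
    (hco : Nat.Coprime N m) : Lf K a (N * m) N ≤ Lf K a N N ⊔ adjoin ℚ {x : Qb | x ^ m = 1} := by
  unfold Lf
  refine sup_le (le_sup_of_le_left le_sup_left) ?_
  rw [adjoin_le_iff]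
  intro x hx
  rcases hx with hx | hx
  · have hx1 : x ^ (N * m) = 1 := hx
    have hx0 : x ≠ 0 ∨ N * m = 0 := by
      by_cases h0 : N * m = 0
      · exact Or.inr h0
      · left
        rintro rfl
        rw [zero_pow h0] at hx1
        exact zero_ne_one hx1
    have h1 : (x ^ N) ^ m = 1 := by rw [← pow_mul]; exact hx1
    have h2 : (x ^ m) ^ N = 1 := by rw [← pow_mul, mul_comm]; exact hx1
    have hin1 : x ^ N ∈ (K ⊔ adjoin ℚ ({x : Qb | x ^ N = 1} ∪ {x | ∃ i, x ^ N = a i})) ⊔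
        adjoin ℚ {x : Qb | x ^ m = 1} :=
      (le_sup_right : adjoin ℚ {x : Qb | x ^ m = 1} ≤ _) (subset_adjoin _ _ h1)
    have hin2 : x ^ m ∈ (K ⊔ adjoin ℚ ({x : Qb | x ^ N = 1} ∪ {x | ∃ i, x ^ N = a i})) ⊔
        adjoin ℚ {x : Qb | x ^ m = 1} :=
      (le_sup_of_le_left le_sup_right : adjoin ℚ ({x : Qb | x ^ N = 1} ∪ {x | ∃ i, x ^ N = a i}) ≤ _)
        (subset_adjoin _ _ (Or.inl h2))
    by_cases hxz : x = 0
    · rw [hxz]; exact zero_mem _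
    have hb : (Nat.gcd N m : ℤ) = N * Nat.gcdA N m + m * Nat.gcdB N m := Nat.gcd_eq_gcd_ab N m
    have hg1 : (Nat.gcd N m : ℤ) = 1 := by rw [hco]; rfl
    have hxe : x = (x ^ N) ^ (Nat.gcdA N m) * (x ^ m) ^ (Nat.gcdB N m) := by
      rw [← zpow_natCast, ← zpow_natCast, ← zpow_mul, ← zpow_mul, ← zpow_add₀ hxz, ← hb, hg1, zpow_one]
    rw [hxe]
    exact mul_mem (zpow_mem hin1 _) (zpow_mem hin2 _)
  · exact (le_sup_of_le_left le_sup_right : adjoin ℚ ({x : Qb | x ^ N = 1} ∪ {x | ∃ i, x ^ N = a i}) ≤ _)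
      (subset_adjoin _ _ (Or.inr hx))

theorem divG_pow_final {r : ℕ} (a : Fin r → Qb) {g : Qb} (hg : DivG a g) (P : ℕ) : DivG a (g ^ P) := by
  obtain ⟨N, hN, e, he⟩ := hg
  refine ⟨N, hN, fun i => e i * P, ?_⟩
  rw [← pow_mul, mul_comm, pow_mul, he, ← Finset.prod_pow]
  refine Finset.prod_congr rfl fun i _ => ?_
  rw [zpow_mul, zpow_natCast]

/-- MAIN THEOREM over `Qb` (relative form). -/
theorem final_Q (K : IntermediateField ℚ Qb) [FiniteDimensional ℚ K] {r : ℕ} (a : Fin r → Qb)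
    (ha : ∀ i, a i ∈ K) (ha0 : ∀ i, a i ≠ 0) (hind : ∀ e : Fin r → ℤ, ∏ i, a i ^ e i = 1 → e = 0)
    (S : Finset ℕ) (hS : ∀ p ∈ S, p.Prime) : ∃ c : ℝ, 0 < c ∧ ∀ m n : ℕ, 0 < m → 0 < n →
      n.primeFactors ⊆ S → ∀ x ∈ Lf K a m n, x ≠ 0 → ∀ y : Qb, y ≠ 0 → DivG a y → ¬ DivG a (x * y) →
        c ≤ hW (x * y) := by
  classical
  have hS2 : ∀ p ∈ insert 2 S, p.Prime := by
    intro p hp
    rcases Finset.mem_insert.mp hp with rfl | hp
    · exact Nat.prime_two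
    · exact hS p hp
  obtain ⟨N₀, hN₀, hN₀S, c₁, hc₁, H1⟩ := all_primes K a ha ha0 hind (insert 2 S) hS2
  have : FiniteDimensional ℚ (Lf K a N₀ N₀) := lf_fd K a hN₀ hN₀
  have : Fact (Nat.Prime 2) := ⟨Nat.prime_two⟩
  have haE : ∀ i, a i ∈ Lf K a N₀ N₀ := fun i => lf_le K a N₀ N₀ (ha i)
  obtain ⟨P, hP, c₂, hc₂, H2⟩ := step_b (Lf K a N₀ N₀) a haE 2
  obtain ⟨c₃, hc₃, H3⟩ := step_c (Lf K a N₀ N₀) a haE ha0
  have hP' : (0 : ℝ) < P := by exact_mod_cast hP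
  refine ⟨min c₁ (min c₂ (c₃ / P)), lt_min hc₁ (lt_min hc₂ (div_pos hc₃ hP')), ?_⟩
  intro m n hm hn hnS x hx hx0 y hy0 hy hxD
  by_contra hlt
  push Not at hlt
  have hl1 : hW (x * y) < c₁ := lt_of_lt_of_le hlt (min_le_left _ _)
  have hl2 : hW (x * y) < c₂ := lt_of_lt_of_le hlt ((min_le_right _ _).trans (min_le_left _ _))
  have hl3 : hW (x * y) < c₃ / P := lt_of_lt_of_le hlt ((min_le_right _ _).trans (min_le_right _ _))
  obtain ⟨m', hm', hm'S, β', hβ', hβ'0, g, hg0, hg, hxe⟩ :=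
    H1 m n hm hn (hnS.trans (Finset.subset_insert _ _)) x hx hx0 y hy0 hy hl1
  have hco : Nat.Coprime N₀ m' := by
    refine Nat.Coprime.symm (Nat.coprime_of_dvd ?_)
    intro k hk hkm hkN
    have hkS : k ∈ insert 2 S := hN₀S (Nat.mem_primeFactors.mpr ⟨hk, hkN, hN₀.ne'⟩)
    have := hm'S k hkS
    have h1 : k ∣ Nat.gcd m' k := Nat.dvd_gcd hkm dvd_rfl
    rw [this] at h1
    exact hk.one_lt.ne' (Nat.dvd_one.mp h1)
  have hmem : β' ∈ Lf K a N₀ N₀ ⊔ adjoin ℚ {x : Qb | x ^ m' = 1} := lf_split_cop K a hco hβ'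
  obtain ⟨b, hbE, hb0, w, hw, hbw⟩ := H2 m' hm' (hm'S 2 (Finset.mem_insert_self _ _)) β' hmem hβ'0 g hg0 hg
    (by rw [← hxe]; exact hl2)
  obtain ⟨Nw, hNw, hww⟩ := hw
  have hxP : (x * y) ^ P = w * (b * g ^ P) := by
    rw [hxe, mul_pow, hbw]; ring
  have key : DivG a (b * g ^ P) := by
    refine H3 b hbE hb0 (g ^ P) (pow_ne_zero _ hg0) (divG_pow_final a hg P) ?_
    have h1 : hW (b * g ^ P) = P * hW (x * y) := by
      rw [← hW_root_mul hNw hww (b * g ^ P), ← hxP, hW_pow]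
    rw [h1]
    calc (P : ℝ) * hW (x * y) < P * (c₃ / P) := mul_lt_mul_of_pos_left hl3 hP'
      _ = c₃ := by field_simp
  apply hxD
  refine divG_of_pow a hP ?_
  rw [hxP]
  exact divG_mul a ha0 (divG_root a ⟨Nw, hNw, hww⟩) key

end MP4270
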