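import Pool.Agent.Lib_MP_4270a5_nt.Metric
import Pool.Agent.Lib_MP_4270a5_nt.PowC

open Polynomial IntermediateField

namespace MP4270

private lemma fp_normal (F : IntermediateField ℚ Qb) [FiniteDimensional ℚ F] (A B : Qb) :
    ∃ M : IntermediateField ℚ Qb, FiniteDimensional ℚ M ∧ Normal ℚ M ∧ F ≤ M ∧ A ∈ M ∧ B ∈ M := by
  have hA : IsIntegral ℚ A := Algebra.IsIntegral.isIntegral A
  have hB : IsIntegral ℚ B := Algebra.IsIntegral.isIntegral B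
  have h1 : FiniteDimensional ℚ (adjoin ℚ ({A} : Set Qb)) :=
    IntermediateField.adjoin.finiteDimensional hA
  have h2 : FiniteDimensional ℚ (adjoin ℚ ({B} : Set Qb)) :=
    IntermediateField.adjoin.finiteDimensional hB
  set E : IntermediateField ℚ Qb := F ⊔ (adjoin ℚ ({A} : Set Qb) ⊔ adjoin ℚ ({B} : Set Qb)) with hE
  have h3 : FiniteDimensional ℚ E := inferInstance
  have hle : E ≤ normalClosure ℚ E Qb := IntermediateField.le_normalClosure E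
  refine ⟨normalClosure ℚ E Qb, inferInstance, normalClosure.normal ℚ E Qb, ?_, ?_, ?_⟩
  · exact le_trans le_sup_left hle
  · apply hle
    have : A ∈ adjoin ℚ ({A} : Set Qb) := mem_adjoin_simple_self ℚ A
    exact (le_trans le_sup_left le_sup_right : adjoin ℚ ({A} : Set Qb) ≤ E) this
  · apply hle
    have : B ∈ adjoin ℚ ({B} : Set Qb) := mem_adjoin_simple_self ℚ B
    exact (le_trans le_sup_right le_sup_right : adjoin ℚ ({B} : Set Qb) ≤ E) this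

private lemma fp_local (p : ℕ) [Fact p.Prime] (δ : ℝ) (s₀ D : ℕ) (hδ : 0 < δ)
    (hs₀ : ∀ (x y : PadicAlgCl p) (s : ℕ), ‖x‖ ≤ 1 → ‖y‖ ≤ 1 → ‖x - y‖ ≤ (p : ℝ) ^ (-δ) →
      ‖x ^ p ^ s - y ^ p ^ s‖ ≤ (p : ℝ) ^ (-((s : ℝ) - s₀))) (X Y : PadicAlgCl p) (hY : Y ≠ 0)
    (hXY : ‖X - Y‖ ≤ (p : ℝ) ^ (-δ) * ‖Y‖) :
    ‖X ^ p ^ (s₀ + 2 * D) - Y ^ p ^ (s₀ + 2 * D)‖ ≤
      (p : ℝ) ^ (-((2 * D : ℕ) : ℝ)) * ‖Y ^ p ^ (s₀ + 2 * D)‖ := by
  have hY0 : 0 < ‖Y‖ := norm_pos_iff.mpr hY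
  have hp1 : (1 : ℝ) ≤ p := by exact_mod_cast (Fact.out : p.Prime).one_lt.le
  have h1 : ‖X / Y - 1‖ ≤ (p : ℝ) ^ (-δ) := by
    have : X / Y - 1 = (X - Y) / Y := by field_simp
    rw [this, norm_div, div_le_iff₀ hY0]
    exact hXY
  have hpd : (p : ℝ) ^ (-δ) ≤ 1 := Real.rpow_le_one_of_one_le_of_nonpos hp1 (by linarith)
  have h2 : ‖X / Y‖ ≤ 1 := by
    have e : X / Y = (X / Y - 1) + 1 := by ring
    rw [e]
    refine (PadicAlgCl.isNonarchimedean p _ _).trans (max_le (h1.trans hpd) ?_)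
    rw [norm_one]
  have h3 := hs₀ (X / Y) 1 (s₀ + 2 * D) h2 (by rw [norm_one]) h1
  have e2 : X ^ p ^ (s₀ + 2 * D) - Y ^ p ^ (s₀ + 2 * D) =
      ((X / Y) ^ p ^ (s₀ + 2 * D) - 1 ^ p ^ (s₀ + 2 * D)) * Y ^ p ^ (s₀ + 2 * D) := by
    rw [div_pow, one_pow]
    field_simp
  rw [e2, norm_mul]
  apply mul_le_mul_of_nonneg_right _ (norm_nonneg _)
  refine h3.trans (le_of_eq ?_)
  congr 1
  push_cast
  ring

/-- FROM THE METRIC INEQUALITY TO AN EQUALITY. `s₀` from `pow_contract δ`, `s = s₀ + 2 D`, `q = p^s`, `c = log 2/(2 q)`.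
`γ = β g`, `ξ = (h'g/g)^q` (a root of unity), `A = (h'γ)^q`, `B = ξ γ^q`; then `A - B = ξ g^q ((h'β)^q - β^q)`. If
`σ|M ∈ T`: `y = σ β ∈ F`, `σ h' β = h y`, and `‖(hy)^q - y^q‖ ≤ p^(-(s - s₀)) ‖y‖^q` (divide by `y^q`; `pow_contract`), so
`‖σA - σB‖ ≤ p^(-(s-s₀)) ‖σB‖`. If `A ≠ B` then `metric_ineq` in a normal `M` which contains everything gives
`|T| 2 D log p ≤ |T| D (log 2 + 2 q hW γ)`, so `hW γ ≥ log 2/(2q)`. -/
theorem fix_power (p : ℕ) [Fact p.Prime] (δ : ℝ) (hδ : 0 < δ) (D : ℕ) (hD : 0 < D) :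
    ∃ s : ℕ, ∃ c : ℝ, 0 < c ∧ ∀ (F : IntermediateField ℚ Qb) [FiniteDimensional ℚ F]
      (h h' : Qb ≃ₐ[ℚ] Qb),
      (∀ x ∈ F, ‖jj p (h x) - jj p x‖ ≤ (p : ℝ) ^ (-δ) * ‖jj p x‖) →
      (∀ (M : IntermediateField ℚ Qb) [FiniteDimensional ℚ M] [Normal ℚ M], F ≤ M →
        ∃ T : Finset (M ≃ₐ[ℚ] M), Module.finrank ℚ M ≤ T.card * D ∧
          ∀ σ : Qb ≃ₐ[ℚ] Qb, AlgEquiv.restrictNormal σ M ∈ T → ∀ y ∈ F, σ y ∈ F ∧ σ (h' y) = h (σ y)) →
      ∀ β ∈ F, β ≠ 0 → ∀ g : Qb, g ≠ 0 → (∃ N : ℕ, 0 < N ∧ (h' g) ^ N = g ^ N) → hW (β * g) < c →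
        (h' β) ^ p ^ s = β ^ p ^ s := by
  obtain ⟨s₀, hs₀⟩ := pow_contract p δ hδ
  have hp : p.Prime := Fact.out
  set q : ℕ := p ^ (s₀ + 2 * D) with hq
  have hq0 : 0 < q := pow_pos hp.pos _
  have hq0' : (0 : ℝ) < q := by exact_mod_cast hq0
  have hlog2 : 0 < Real.log 2 := Real.log_pos (by norm_num)
  refine ⟨s₀ + 2 * D, Real.log 2 / (2 * q), by positivity, ?_⟩
  intro F _ h h' H1 H2 β hβF hβ g hg hN hW0
  obtain ⟨N, hN0, hN⟩ := hN
  by_contra hne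
  have hh'g : h' g ≠ 0 := by
    rw [Ne, EmbeddingLike.map_eq_zero_iff]; exact hg
  set u : Qb := h' g / g with hu
  have huN : u ^ N = 1 := by
    rw [hu, div_pow, hN, div_self (pow_ne_zero _ hg)]
  have hu0 : u ≠ 0 := div_ne_zero hh'g hg
  have hug : h' g = u * g := by rw [hu]; field_simp
  set A : Qb := (h' (β * g)) ^ q with hA
  set B : Qb := u ^ q * (β * g) ^ q with hB
  have eA : A = (u ^ q * g ^ q) * (h' β) ^ q := by
    rw [hA, map_mul, hug]; ring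
  have eB : B = (u ^ q * g ^ q) * β ^ q := by
    rw [hB]; ring
  have hk : u ^ q * g ^ q ≠ 0 := mul_ne_zero (pow_ne_zero _ hu0) (pow_ne_zero _ hg)
  have hAB : A ≠ B := by
    rw [eA, eB]
    intro hh
    exact hne (mul_left_cancel₀ hk hh)
  obtain ⟨M, hMfd, hMn, hFM, hAM, hBM⟩ := fp_normal F A B
  obtain ⟨T, hTc, hT⟩ := H2 M hFM
  have key := metric_ineq p M hAM hBM hAB T ((2 * D : ℕ) : ℝ) (by
    intro σ hσ
    obtain ⟨hyF, hcomm⟩ := hT σ hσ β hβF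
    have hy0 : jj p (σ β) ≠ 0 := by
      rw [Ne, map_eq_zero, EmbeddingLike.map_eq_zero_iff]; exact hβ
    have h1 := fp_local p δ s₀ D hδ hs₀ (jj p (h (σ β))) (jj p (σ β)) hy0 (H1 _ hyF)
    have e1 : jj p (σ A) - jj p (σ B) = jj p (σ (u ^ q * g ^ q)) *
        (jj p (h (σ β)) ^ q - jj p (σ β) ^ q) := by
      rw [eA, eB, map_mul σ _ ((h' β) ^ q), map_mul σ _ (β ^ q), map_mul (jj p), map_mul (jj p),
        map_pow σ (h' β), map_pow σ β, hcomm, map_pow (jj p), map_pow (jj p)]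
      ring
    have e2 : jj p (σ B) = jj p (σ (u ^ q * g ^ q)) * jj p (σ β) ^ q := by
      rw [eB, map_mul σ _ (β ^ q), map_mul (jj p), map_pow σ β, map_pow (jj p)]
    rw [e1, norm_mul]
    calc ‖jj p (σ (u ^ q * g ^ q))‖ * ‖jj p (h (σ β)) ^ q - jj p (σ β) ^ q‖
        ≤ ‖jj p (σ (u ^ q * g ^ q))‖ * ((p : ℝ) ^ (-((2 * D : ℕ) : ℝ)) * ‖jj p (σ β) ^ q‖) :=
          mul_le_mul_of_nonneg_left h1 (norm_nonneg _)
      _ = (p : ℝ) ^ (-((2 * D : ℕ) : ℝ)) * ‖jj p (σ B)‖ := by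
          rw [e2, norm_mul]; ring
      _ ≤ (p : ℝ) ^ (-((2 * D : ℕ) : ℝ)) * (max 1 ‖jj p (σ A)‖ * max 1 ‖jj p (σ B)‖) := by
          apply mul_le_mul_of_nonneg_left _ (by positivity)
          have ha : 1 ≤ max 1 ‖jj p (σ A)‖ := le_max_left _ _
          have hb : ‖jj p (σ B)‖ ≤ max 1 ‖jj p (σ B)‖ := le_max_right _ _
          have hb1 : 1 ≤ max 1 ‖jj p (σ B)‖ := le_max_left _ _
          nlinarith)
  -- heights
  have hWA : hW A = q * hW (β * g) := by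
    rw [hA, hW_pow, hW_conj]
  have hWB : hW B = q * hW (β * g) := by
    rw [hB, hW_root_mul (N := N) hN0 (by rw [← pow_mul, mul_comm, pow_mul, huN, one_pow]), hW_pow]
  rw [hWA, hWB] at key
  have hfr : 0 < Module.finrank ℚ M := Module.finrank_pos
  have hTpos : 0 < T.card := by
    rcases Nat.eq_zero_or_pos T.card with h0 | h0
    · rw [h0, zero_mul] at hTc; omega
    · exact h0
  have hfr' : (0 : ℝ) < Module.finrank ℚ M := by exact_mod_cast hfr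
  have hTpos' : (0 : ℝ) < T.card := by exact_mod_cast hTpos
  have hD' : (0 : ℝ) < D := by exact_mod_cast hD
  have hTc' : (Module.finrank ℚ M : ℝ) ≤ T.card * D := by exact_mod_cast hTc
  have hlogp : Real.log 2 ≤ Real.log p :=
    Real.log_le_log (by norm_num) (by exact_mod_cast hp.two_le)
  set w : ℝ := Real.log 2 + q * hW (β * g) + q * hW (β * g) with hw
  have hwlt : w < 2 * Real.log 2 := by
    have : hW (β * g) * (2 * q) < Real.log 2 := by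
      rwa [lt_div_iff₀ (by positivity)] at hW0
    rw [hw]; linarith
  have hlogp0 : 0 < Real.log p := lt_of_lt_of_le hlog2 hlogp
  have hw0 : 0 ≤ w := by
    by_contra hneg
    push Not at hneg
    have h1 : (Module.finrank ℚ M : ℝ) * w < 0 := mul_neg_of_pos_of_neg hfr' hneg
    have h2 : 0 ≤ (T.card : ℝ) * (((2 * D : ℕ) : ℝ) * Real.log p) :=
      mul_nonneg hTpos'.le (mul_nonneg (Nat.cast_nonneg _) hlogp0.le)
    linarith
  have h3 : (Module.finrank ℚ M : ℝ) * w ≤ T.card * D * w := mul_le_mul_of_nonneg_right hTc' hw0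
  have h4 : (T.card : ℝ) * (((2 * D : ℕ) : ℝ) * Real.log p) = (T.card * D) * (2 * Real.log p) := by
    push_cast; ring
  rw [h4] at key
  have h5 : 2 * Real.log p ≤ w := le_of_mul_le_mul_left (key.trans h3) (mul_pos hTpos' hD')
  linarith

end MP4270
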