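import Pool.Agent.Lib_MP_4270a5_nt.UnramA
import Pool.Agent.Lib_MP_4270a5_nt.Unif

open Polynomial IntermediateField

namespace MP4270

variable {p : ℕ} [Fact p.Prime]

private theorem frob_norm_p : ‖((p : ℕ) : PadicAlgCl p)‖ = (p : ℝ)⁻¹ := by
  have h1 : ((p : ℕ) : PadicAlgCl p) = algebraMap ℚ_[p] (PadicAlgCl p) (p : ℚ_[p]) := by
    rw [map_natCast]
  rw [h1]
  exact (PadicAlgCl.norm_extends p _).trans Padic.norm_p

/-- The ring of integral elements. -/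
private def frobO (p : ℕ) [Fact p.Prime] : Subring (PadicAlgCl p) where
  carrier := {x | ‖x‖ ≤ 1}
  mul_mem' := by
    intro a b ha hb
    show ‖a * b‖ ≤ 1
    rw [norm_mul]
    exact mul_le_one₀ ha (norm_nonneg _) hb
  one_mem' := by
    show ‖(1 : PadicAlgCl p)‖ ≤ 1
    rw [norm_one]
  add_mem' := by
    intro a b ha hb
    exact (IsUltrametricDist.norm_add_le_max a b).trans (max_le ha hb)
  zero_mem' := by
    show ‖(0 : PadicAlgCl p)‖ ≤ 1
    rw [norm_zero]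
    exact zero_le_one
  neg_mem' := by
    intro a ha
    show ‖-a‖ ≤ 1
    rw [norm_neg]
    exact ha

private theorem frob_pow_add {a b : PadicAlgCl p} (ha : ‖a‖ ≤ 1) (hb : ‖b‖ ≤ 1) (f : ℕ) :
    ‖(a + b) ^ p ^ f - (a ^ p ^ f + b ^ p ^ f)‖ ≤ (p : ℝ)⁻¹ := by
  obtain ⟨r, hr⟩ := exists_add_pow_prime_pow_eq (Fact.out : p.Prime) (⟨a, ha⟩ : frobO p) ⟨b, hb⟩ f
  have h1 := congrArg (Subtype.val) hr
  have h2 : (a + b) ^ p ^ f = a ^ p ^ f + b ^ p ^ f + (p : PadicAlgCl p) * a * b * r.1 := h1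
  rw [h2, add_sub_cancel_left, norm_mul, norm_mul, norm_mul, frob_norm_p, mul_assoc, mul_assoc]
  exact mul_le_of_le_one_right (inv_nonneg.mpr (Nat.cast_nonneg p))
    (mul_le_one₀ ha (mul_nonneg (norm_nonneg _) (norm_nonneg _))
      (mul_le_one₀ hb (norm_nonneg _) r.2))

private theorem frob_pow_sum {ι : Type} (s : Finset ι) (a : ι → PadicAlgCl p)
    (ha : ∀ i ∈ s, ‖a i‖ ≤ 1) (f : ℕ) :
    ‖(∑ i ∈ s, a i) ^ p ^ f - ∑ i ∈ s, a i ^ p ^ f‖ ≤ (p : ℝ)⁻¹ := by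
  classical
  have hp0 : (0 : ℝ) ≤ (p : ℝ)⁻¹ := inv_nonneg.mpr (Nat.cast_nonneg p)
  induction s using Finset.induction_on with
  | empty =>
    rw [Finset.sum_empty, Finset.sum_empty, zero_pow (pow_ne_zero f (Fact.out : p.Prime).ne_zero),
      sub_zero, norm_zero]
    exact hp0
  | insert x s hx ih =>
    have h1 : ∀ i ∈ s, ‖a i‖ ≤ 1 := fun i hi => ha i (Finset.mem_insert_of_mem hi)
    rw [Finset.sum_insert hx, Finset.sum_insert hx]
    have h2 : ‖∑ i ∈ s, a i‖ ≤ 1 :=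
      IsUltrametricDist.norm_sum_le_of_forall_le_of_nonneg zero_le_one h1
    have e1 : (a x + ∑ i ∈ s, a i) ^ p ^ f - (a x ^ p ^ f + ∑ i ∈ s, a i ^ p ^ f) =
        ((a x + ∑ i ∈ s, a i) ^ p ^ f - (a x ^ p ^ f + (∑ i ∈ s, a i) ^ p ^ f)) +
          ((∑ i ∈ s, a i) ^ p ^ f - ∑ i ∈ s, a i ^ p ^ f) := by ring
    rw [e1]
    exact (IsUltrametricDist.norm_add_le_max _ _).trans
      (max_le (frob_pow_add (ha x (Finset.mem_insert_self x s)) h2 f) (ih h1))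

private theorem frob_inv_lt : (p : ℝ)⁻¹ < 1 :=
  inv_lt_one_of_one_lt₀ (by exact_mod_cast (Fact.out : p.Prime).one_lt)

/-- Existence of Frobenius: `Q` a power of `p` with `c^Q ≡ c` for all integral `c ∈ K`. The minimal polynomial `g` of
`ζ` over `K` has integral coefficients (`minpoly_coeff_le`), so `g(ζ^Q) ≡ g(ζ)^Q = 0`, and `g(ζ^Q) = ∏ (ζ^Q - ζ_j)` over
the conjugates `ζ_j`, which are `n`-th roots of unity; a factor of norm `< 1` is `0` (`norm_sub_one_coprime`);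
`exists_conj`. -/
theorem frob_exists (K : IntermediateField ℚ_[p] (PadicAlgCl p)) {n : ℕ} (hn0 : 0 < n) (hn : n.Coprime p)
    {ζ : PadicAlgCl p} (hζ : ζ ^ n = 1) {Q f : ℕ} (hQf : Q = p ^ f)
    (hQ : ∀ c ∈ K, ‖c‖ ≤ 1 → ‖c ^ Q - c‖ < 1) :
    ∃ σ : PadicAlgCl p ≃ₐ[ℚ_[p]] PadicAlgCl p, (∀ z ∈ K, σ z = z) ∧ σ ζ = ζ ^ Q := by
  classical
  have hint : IsIntegral K ζ := Algebra.IsIntegral.isIntegral ζ
  set P := minpoly K ζ with hP
  have hPm : P.Monic := minpoly.monic hint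
  have hζ1 : ‖ζ‖ = 1 := norm_root_one hn0 hζ
  have hc : ∀ i, ‖((P.coeff i : ↥K) : PadicAlgCl p)‖ ≤ 1 := fun i =>
    minpoly_coeff_le K ζ hζ1.le i
  have hPn : P ∣ (X ^ n - 1 : (↥K)[X]) := by
    refine minpoly.dvd K ζ ?_
    rw [map_sub, map_pow, aeval_X, map_one, hζ, sub_self]
  -- the value at `ζ ^ Q`
  have hval : ‖aeval (ζ ^ Q) P‖ < 1 := by
    have e0 : aeval ζ P = 0 := minpoly.aeval K ζ
    rw [Polynomial.aeval_eq_sum_range] at e0 ⊢
    set N := Finset.range (P.natDegree + 1) with hN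
    have h1 := frob_pow_sum N (fun i => P.coeff i • ζ ^ i) (fun i _ => by
      show ‖P.coeff i • ζ ^ i‖ ≤ 1
      rw [Algebra.smul_def, norm_mul, norm_pow, hζ1, one_pow, mul_one]
      exact hc i) f
    rw [e0, zero_pow (pow_ne_zero f (Fact.out : p.Prime).ne_zero), zero_sub, norm_neg, ← hQf] at h1
    have e1 : ∑ i ∈ N, P.coeff i • (ζ ^ Q) ^ i = ∑ i ∈ N, (P.coeff i • ζ ^ i) ^ Q +
        ∑ i ∈ N, (((P.coeff i : ↥K) : PadicAlgCl p) - ((P.coeff i : ↥K) : PadicAlgCl p) ^ Q) *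
          (ζ ^ Q) ^ i := by
      rw [← Finset.sum_add_distrib]
      refine Finset.sum_congr rfl fun i _ => ?_
      have e2 : P.coeff i • (ζ ^ Q) ^ i = ((P.coeff i : ↥K) : PadicAlgCl p) * (ζ ^ Q) ^ i := rfl
      have e3 : (P.coeff i • ζ ^ i) ^ Q = ((P.coeff i : ↥K) : PadicAlgCl p) ^ Q * (ζ ^ Q) ^ i := by
        show (((P.coeff i : ↥K) : PadicAlgCl p) * ζ ^ i) ^ Q = _
        rw [mul_pow, ← pow_mul, ← pow_mul, mul_comm i Q]
      rw [e2, e3]
      ring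
    rw [e1]
    refine (IsUltrametricDist.norm_add_le_max _ _).trans_lt (max_lt (h1.trans_lt frob_inv_lt) ?_)
    obtain ⟨i, _, hi⟩ := IsUltrametricDist.exists_norm_finsetSum_le N
      (fun i => (((P.coeff i : ↥K) : PadicAlgCl p) - ((P.coeff i : ↥K) : PadicAlgCl p) ^ Q) *
          (ζ ^ Q) ^ i)
    refine hi.trans_lt ?_
    rw [norm_mul, norm_pow, norm_pow, hζ1, one_pow, one_pow, mul_one, norm_sub_rev]
    exact hQ _ (P.coeff i).2 (hc i)
  -- the product over the conjugates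
  have hprod : aeval (ζ ^ Q) P = ((P.aroots (PadicAlgCl p)).map fun θ => ζ ^ Q - θ).prod := by
    have h1 := (IsAlgClosed.splits (P.map (algebraMap K (PadicAlgCl p)))).eq_prod_roots
    rw [(hPm.map (algebraMap K (PadicAlgCl p))).leadingCoeff, C_1, one_mul] at h1
    have h2 : aeval (ζ ^ Q) P = (P.map (algebraMap K (PadicAlgCl p))).eval (ζ ^ Q) := by
      rw [Polynomial.eval_map_algebraMap]
    rw [h2]
    conv_lhs => rw [h1]
    rw [Polynomial.eval_multiset_prod, Multiset.map_map]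
    refine congrArg Multiset.prod (Multiset.map_congr rfl fun θ _ => ?_)
    rw [Function.comp_apply, eval_sub, eval_X, eval_C]
  have hex : ∃ θ ∈ P.aroots (PadicAlgCl p), ‖ζ ^ Q - θ‖ < 1 := by
    by_contra hno
    push Not at hno
    have h1 : ∀ s : Multiset (PadicAlgCl p), (∀ θ ∈ s, 1 ≤ ‖ζ ^ Q - θ‖) →
        1 ≤ ‖(s.map fun θ => ζ ^ Q - θ).prod‖ := by
      intro s
      induction s using Multiset.induction_on with
      | empty =>
        intro _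
        rw [Multiset.map_zero, Multiset.prod_zero, norm_one]
      | cons a s ih =>
        intro h
        rw [Multiset.map_cons, Multiset.prod_cons, norm_mul]
        exact one_le_mul_of_one_le_of_one_le (h a (Multiset.mem_cons_self a s))
          (ih fun θ hθ => h θ (Multiset.mem_cons_of_mem hθ))
    have h2 := h1 _ hno
    rw [← hprod] at h2
    exact absurd hval (not_lt.mpr h2)
  obtain ⟨θ, hθ1, hθ2⟩ := hex
  have hθ3 := (Polynomial.mem_aroots.mp hθ1).2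
  have hθn : θ ^ n = 1 := by
    obtain ⟨R, hR⟩ := hPn
    have h1 := congrArg (aeval θ) hR
    rw [map_mul, hθ3, zero_mul, map_sub, map_pow, aeval_X, map_one] at h1
    exact sub_eq_zero.mp h1
  have hθ0 : ‖θ‖ = 1 := norm_root_one hn0 hθn
  have hθne : θ ≠ 0 := by
    intro h5
    rw [h5, norm_zero] at hθ0
    exact zero_ne_one hθ0
  have heq : ζ ^ Q = θ := by
    by_contra hne
    have h5 : ‖ζ ^ Q / θ - 1‖ = 1 := by
      refine norm_sub_one_coprime hn ?_ ?_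
      · rw [div_pow, hθn, div_one, ← pow_mul, mul_comm, pow_mul, hζ, one_pow]
      · intro h6
        exact hne ((div_eq_one_iff_eq hθne).mp h6)
    have h6 : ζ ^ Q - θ = (ζ ^ Q / θ - 1) * θ := by
      field_simp
    rw [h6, norm_mul, h5, hθ0, one_mul] at hθ2
    exact lt_irrefl _ hθ2
  exact exists_conj K ζ (ζ ^ Q) (by rw [heq]; exact hθ3)

/-- Congruence: `x^Q ≡ σ x` modulo the uniformizer of `K` for integral `x ∈ K(ζ)`. (`unram_expand`:
`x = ∑ c_i ζ^i` with `c_i` integral; `x^Q ≡ ∑ c_i^Q ζ^(iQ) ≡ ∑ c_i ζ^(iQ) = σ x`; all differences have the norm of an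
element of `K` ... for the first congruence the error is `p` times an integral element.) -/
theorem frob_cong (K : IntermediateField ℚ_[p] (PadicAlgCl p)) {w : PadicAlgCl p} (hw : IsUnif K w)
    {n : ℕ} (hn0 : 0 < n) (hn : n.Coprime p)
    {ζ : PadicAlgCl p} (hζ : ζ ^ n = 1) {Q f : ℕ} (hQf : Q = p ^ f)
    (hQ : ∀ c ∈ K, ‖c‖ ≤ 1 → ‖c ^ Q - c‖ < 1) (σ : PadicAlgCl p ≃ₐ[ℚ_[p]] PadicAlgCl p)
    (hσ : ∀ z ∈ K, σ z = z) (hσζ : σ ζ = ζ ^ Q) {x : PadicAlgCl p} (hx : x ∈ K ⊔ ℚ_[p]⟮ζ⟯) (h1 : ‖x‖ ≤ 1) :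
    ‖x ^ Q - σ x‖ ≤ ‖w‖ := by
  classical
  obtain ⟨g, hg1, hg2⟩ := unram_expand K hn0 hn hζ hx
  have hζ1 : ‖ζ‖ = 1 := norm_root_one hn0 hζ
  have hc : ∀ i, ‖((g.coeff i : ↥K) : PadicAlgCl p)‖ ≤ 1 := fun i => (hg2 i).trans h1
  have hx1 : x = ∑ i ∈ Finset.range (g.natDegree + 1), ((g.coeff i : ↥K) : PadicAlgCl p) * ζ ^ i := by
    rw [← hg1, Polynomial.aeval_eq_sum_range]
    rfl
  set N := Finset.range (g.natDegree + 1) with hN
  have hσx : σ x = ∑ i ∈ N, ((g.coeff i : ↥K) : PadicAlgCl p) * (ζ ^ Q) ^ i := by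
    rw [hx1, map_sum]
    refine Finset.sum_congr rfl fun i _ => ?_
    rw [map_mul, map_pow, hσζ, hσ _ (g.coeff i).2]
  have h2 := frob_pow_sum N (fun i => ((g.coeff i : ↥K) : PadicAlgCl p) * ζ ^ i) (fun i _ => by
    show ‖((g.coeff i : ↥K) : PadicAlgCl p) * ζ ^ i‖ ≤ 1
    rw [norm_mul, norm_pow, hζ1, one_pow, mul_one]
    exact hc i) f
  rw [← hx1, ← hQf] at h2
  have e1 : x ^ Q - σ x = (x ^ Q - ∑ i ∈ N, (((g.coeff i : ↥K) : PadicAlgCl p) * ζ ^ i) ^ Q) +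
      ∑ i ∈ N, (((g.coeff i : ↥K) : PadicAlgCl p) ^ Q - ((g.coeff i : ↥K) : PadicAlgCl p)) *
        (ζ ^ Q) ^ i := by
    have e2 : ∑ i ∈ N, (((g.coeff i : ↥K) : PadicAlgCl p) ^ Q - ((g.coeff i : ↥K) : PadicAlgCl p)) *
        (ζ ^ Q) ^ i = ∑ i ∈ N, (((g.coeff i : ↥K) : PadicAlgCl p) * ζ ^ i) ^ Q - σ x := by
      rw [hσx, ← Finset.sum_sub_distrib]
      refine Finset.sum_congr rfl fun i _ => ?_
      rw [mul_pow, ← pow_mul, ← pow_mul, mul_comm i Q]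
      ring
    rw [e2]
    ring
  rw [e1]
  refine (IsUltrametricDist.norm_add_le_max _ _).trans (max_le (h2.trans (unif_ge K hw)) ?_)
  refine IsUltrametricDist.norm_sum_le_of_forall_le_of_nonneg (norm_nonneg _) ?_
  intro i _
  rw [norm_mul, norm_pow, norm_pow, hζ1, one_pow, one_pow, mul_one]
  exact hw.2.2.2 _ (sub_mem (pow_mem (g.coeff i).2 Q) (g.coeff i).2) (hQ _ (g.coeff i).2 (hc i))

end MP4270
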