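import Pool.Agent.Lib_MP_4270a5_nt.IsoB
import Pool.Agent.Lib_MP_4270a5_nt.Unif

open Polynomial IntermediateField

namespace MP4270

variable {p : ℕ} [Fact p.Prime]

/-- the open unit ball, as an ideal of the closed one -/
def unitIdeal (p : ℕ) [Fact p.Prime] : Ideal (unitBall p) where
  carrier := {x | ‖(x : PadicAlgCl p)‖ < 1}
  add_mem' := by
    intro a b ha hb
    show ‖((a + b : unitBall p) : PadicAlgCl p)‖ < 1
    rw [Subring.coe_add]
    exact (IsUltrametricDist.norm_add_le_max _ _).trans_lt (max_lt ha hb)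
  zero_mem' := by
    show ‖((0 : unitBall p) : PadicAlgCl p)‖ < 1
    rw [Subring.coe_zero, norm_zero]
    exact zero_lt_one
  smul_mem' := by
    intro c a ha
    show ‖((c • a : unitBall p) : PadicAlgCl p)‖ < 1
    rw [smul_eq_mul, Subring.coe_mul, norm_mul]
    exact mul_lt_one_of_nonneg_of_lt_one_right (mem_unitBall.1 c.2) (norm_nonneg _) ha

theorem mem_unitIdeal {x : unitBall p} : x ∈ unitIdeal p ↔ ‖(x : PadicAlgCl p)‖ < 1 := Iff.rfl

instance unitIdeal_isMaximal : (unitIdeal p).IsMaximal := by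
  rw [Ideal.isMaximal_iff]
  constructor
  · rw [mem_unitIdeal, Subring.coe_one, norm_one]
    exact lt_irrefl _
  · intro J x _ hx hxJ
    rw [mem_unitIdeal, not_lt] at hx
    have h1 : ‖(x : PadicAlgCl p)‖ = 1 := le_antisymm (mem_unitBall.1 x.2) hx
    have h2 : (x : PadicAlgCl p) ≠ 0 := by
      intro h
      rw [h, norm_zero] at h1
      exact zero_ne_one h1
    have h3 : ‖(x : PadicAlgCl p)⁻¹‖ ≤ 1 := by rw [norm_inv, h1, inv_one]
    have h4 : (1 : unitBall p) = ⟨(x : PadicAlgCl p)⁻¹, mem_unitBall.2 h3⟩ * x := by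
      apply Subtype.ext
      show (1 : PadicAlgCl p) = (x : PadicAlgCl p)⁻¹ * x
      rw [inv_mul_cancel₀ h2]
    rw [h4]
    exact J.mul_mem_left _ hxJ

theorem TeichA.exists_nat_near {c : ℚ_[p]} (hc : ‖c‖ ≤ 1) : ∃ n : ℕ, ‖c - n‖ < 1 := by
  obtain ⟨n, -, hn⟩ := PadicInt.exists_mem_range (⟨c, hc⟩ : ℤ_[p])
  refine ⟨n, ?_⟩
  have h1 := (IsLocalRing.mem_maximalIdeal _).1 hn
  rw [PadicInt.mem_nonunits] at h1
  exact h1

theorem TeichA.coeff_minpoly_le {x : PadicAlgCl p} (h1 : ‖x‖ ≤ 1) (i : ℕ) : ‖(minpoly ℚ_[p] x).coeff i‖ ≤ 1 := by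
  have hint : IsIntegral ℚ_[p] x := Algebra.IsIntegral.isIntegral x
  exact (spectralValue_le_one_iff (minpoly.monic hint)).1 h1 i

/-- Residue classes: for integral `x` in an extension of degree `d` of `ℚ_p` there is `1 ≤ f ≤ d` with
`‖x^(p^f) - x‖ < 1`: the minimal polynomial of `x` over `ℚ_p` has coefficients in `ℤ_p` and degree `≤ d`; in the
residue field (of characteristic `p`) of the ring of integral elements of `PadicAlgCl p`, the class of `x` is a root
of a nonzero polynomial of degree `≤ d` over `ZMod p`, hence lies in a field with `p^f` elements, `f ≤ d`. -/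
theorem residue_pow {x : PadicAlgCl p} (h1 : ‖x‖ ≤ 1) (d : ℕ) (hd : (minpoly ℚ_[p] x).natDegree ≤ d) :
    ∃ f : ℕ, 1 ≤ f ∧ f ≤ d ∧ ‖x ^ p ^ f - x‖ < 1 := by
  classical
  have hint : IsIntegral ℚ_[p] x := Algebra.IsIntegral.isIntegral x
  have hmon := minpoly.monic hint
  set P := minpoly ℚ_[p] x with hP
  set n := P.natDegree with hn
  choose a ha using fun i => TeichA.exists_nat_near (TeichA.coeff_minpoly_le h1 i)
  -- the residue field
  let κ := unitBall p ⧸ unitIdeal p
  let _ : Field κ := Ideal.Quotient.field (unitIdeal p)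
  let π : unitBall p →+* κ := Ideal.Quotient.mk (unitIdeal p)
  have hπ : ∀ y : unitBall p, π y = 0 ↔ ‖(y : PadicAlgCl p)‖ < 1 := by
    intro y
    rw [Ideal.Quotient.eq_zero_iff_mem, mem_unitIdeal]
  have hpκ : (p : κ) = 0 := by
    have h2 : (p : κ) = π (p : unitBall p) := (map_natCast π p).symm
    rw [h2, hπ, Subring.coe_natCast, Unif.norm_natCast_p]
    exact inv_lt_one_of_one_lt₀ (Unif.one_lt_p p)
  have : CharP κ p := (CharP.charP_iff_prime_eq_zero (Fact.out : p.Prime)).2 hpκ
  let _ : Algebra (ZMod p) κ := ZMod.algebra κ p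
  let X' : unitBall p := ⟨x, mem_unitBall.2 h1⟩
  -- the reduced polynomial
  set Q : (ZMod p)[X] := X ^ n + ∑ i ∈ Finset.range n, C ((a i : ℕ) : ZMod p) * X ^ i with hQ
  have hdeg : (∑ i ∈ Finset.range n, C ((a i : ℕ) : ZMod p) * X ^ i : (ZMod p)[X]).degree
      < (n : WithBot ℕ) := by
    refine (Polynomial.degree_sum_le _ _).trans_lt ?_
    refine (Finset.sup_lt_iff (WithBot.bot_lt_coe n)).2 fun i hi => ?_
    refine (degree_C_mul_X_pow_le i _).trans_lt ?_
    exact WithBot.coe_lt_coe.2 (Finset.mem_range.1 hi)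
  have hQmon : Q.Monic := monic_X_pow_add hdeg
  have hQdeg : Q.natDegree = n := by
    apply natDegree_eq_of_degree_eq_some
    rw [hQ, degree_add_eq_left_of_degree_lt (by rw [degree_X_pow]; exact hdeg), degree_X_pow]
  have hroot : aeval (π X') Q = 0 := by
    have h2 : aeval (π X') Q = π (X' ^ n + ∑ i ∈ Finset.range n, (a i : unitBall p) * X' ^ i) := by
      rw [hQ]
      simp only [map_add, map_pow, aeval_X, map_sum, map_mul, map_natCast]
    rw [h2, hπ]
    have h3 : ((X' ^ n + ∑ i ∈ Finset.range n, (a i : unitBall p) * X' ^ i : unitBall p) : PadicAlgCl p)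
        = x ^ n + ∑ i ∈ Finset.range n, (a i : PadicAlgCl p) * x ^ i := by
      push_cast
      rfl
    rw [h3]
    have h4 : aeval x P = x ^ n + ∑ i ∈ Finset.range n, algebraMap ℚ_[p] (PadicAlgCl p) (P.coeff i) * x ^ i := by
      rw [aeval_eq_sum_range, Finset.sum_range_succ, ← hn, add_comm]
      congr 1
      · rw [hn, hmon.coeff_natDegree, one_smul]
      · refine Finset.sum_congr rfl fun i _ => ?_
        rw [Algebra.smul_def]
    have h5 : aeval x P = 0 := minpoly.aeval _ _
    have h6 : x ^ n + ∑ i ∈ Finset.range n, (a i : PadicAlgCl p) * x ^ i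
        = - ∑ i ∈ Finset.range n, algebraMap ℚ_[p] (PadicAlgCl p) (P.coeff i - a i) * x ^ i := by
      have h7 : x ^ n = - ∑ i ∈ Finset.range n, algebraMap ℚ_[p] (PadicAlgCl p) (P.coeff i) * x ^ i := by
        rw [h4] at h5
        exact eq_neg_of_add_eq_zero_left h5
      rw [h7]
      simp only [map_sub, map_natCast, sub_mul, Finset.sum_sub_distrib]
      ring
    rw [h6, norm_neg]
    obtain ⟨i, hi, hle⟩ := IsUltrametricDist.exists_norm_finsetSum_le (Finset.range n)
      (fun i => algebraMap ℚ_[p] (PadicAlgCl p) (P.coeff i - a i) * x ^ i)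
    refine hle.trans_lt ?_
    rw [norm_mul, norm_pow]
    have h8 : ‖algebraMap ℚ_[p] (PadicAlgCl p) (P.coeff i - a i)‖ < 1 := by
      have h9 := PadicAlgCl.norm_extends p (P.coeff i - a i)
      exact h9.trans_lt (ha i)
    exact mul_lt_one_of_nonneg_of_lt_one_left (norm_nonneg _) h8 (pow_le_one₀ (norm_nonneg _) h1)
  have hintκ : IsIntegral (ZMod p) (π X') := ⟨Q, hQmon, hroot⟩
  set f := (minpoly (ZMod p) (π X')).natDegree with hf
  have hf1 : 1 ≤ f := minpoly.natDegree_pos hintκ
  have hf2 : f ≤ d := by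
    refine le_trans ?_ (hQdeg.le.trans hd)
    exact natDegree_le_natDegree (minpoly.min (ZMod p) (π X') hQmon hroot)
  refine ⟨f, hf1, hf2, ?_⟩
  -- the finite field generated by the class of `x`
  let F := (ZMod p)⟮π X'⟯
  have : FiniteDimensional (ZMod p) F := IntermediateField.adjoin.finiteDimensional hintκ
  have : Finite F := Module.finite_of_finite (ZMod p)
  let _ : Fintype F := Fintype.ofFinite F
  have hcard : Fintype.card F = p ^ f := by
    rw [Module.card_eq_pow_finrank (K := ZMod p), ZMod.card, IntermediateField.adjoin.finrank hintκ]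
  have h2 : (AdjoinSimple.gen (ZMod p) (π X')) ^ p ^ f = AdjoinSimple.gen (ZMod p) (π X') := by
    rw [← hcard]
    exact FiniteField.pow_card _
  have h3 : (π X') ^ p ^ f = π X' := by
    have h4 := congrArg (fun z : F => (z : κ)) h2
    simpa using h4
  have h4 : π (X' ^ p ^ f - X') = 0 := by
    rw [map_sub, map_pow, h3, sub_self]
  rw [hπ] at h4
  have h5 : ((X' ^ p ^ f - X' : unitBall p) : PadicAlgCl p) = x ^ p ^ f - x := by
    push_cast
    rfl
  rwa [h5] at h4

end MP4270
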