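import Pool.Agent.Lib_MP_4270a5_nt.Frob
import Pool.Agent.Lib_MP_4270a5_nt.Res
import Pool.Agent.Lib_MP_4270a5_nt.TeichA
import Pool.Agent.Lib_MP_4270a5_nt.AbC

open Polynomial IntermediateField

namespace MP4270

private theorem frobG_pow_sub {p : ℕ} [Fact p.Prime] {a b : PadicAlgCl p} (ha : ‖a‖ ≤ 1)
    (hb : ‖b‖ ≤ 1) (n : ℕ) : ‖a ^ n - b ^ n‖ ≤ ‖a - b‖ := by
  induction n with
  | zero => simp
  | succ n ih =>
    have e : a ^ (n + 1) - b ^ (n + 1) = (a ^ n - b ^ n) * a + b ^ n * (a - b) := by ring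
    rw [e]
    refine (IsUltrametricDist.norm_add_le_max _ _).trans (max_le ?_ ?_)
    · rw [norm_mul]
      exact (mul_le_of_le_one_right (norm_nonneg _) ha).trans ih
    · rw [norm_mul, norm_pow]
      exact mul_le_of_le_one_left (norm_nonneg _) (pow_le_one₀ (norm_nonneg _) hb)

private theorem frobG_iter {p : ℕ} [Fact p.Prime] {c : PadicAlgCl p} (hc : ‖c‖ ≤ 1) {P : ℕ}
    (h : ‖c ^ P - c‖ < 1) (t : ℕ) : ‖c ^ P ^ t - c‖ < 1 := by
  induction t with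
  | zero => simp
  | succ t ih =>
    have e : c ^ P ^ (t + 1) - c = ((c ^ P ^ t) ^ P - c ^ P) + (c ^ P - c) := by
      rw [← pow_mul, ← pow_succ]; ring
    rw [e]
    refine lt_of_le_of_lt (IsUltrametricDist.norm_add_le_max _ _) (max_lt ?_ h)
    refine lt_of_le_of_lt (frobG_pow_sub ?_ hc P) ih
    rw [norm_pow]
    exact pow_le_one₀ (norm_nonneg _) hc

/-- FROBENIUS FOR `E(μ_m)`, `p ∤ m`. `d = [E : ℚ]`, `Q = p^(d!)`; `E_p = ℚ_p(jj E)` has degree `≤ d` (`loc_fd`), so `c^Q ≡ c` for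
integral `c ∈ E_p` (`residue_pow`, iterate `x ↦ x^(p^f)`, `f ∣ d!`); `frob_exists`, `frob_cong`, `restrict_jj`; a uniformizer of
`E_p` has norm `≤ p^(-1/d)` (`unif_le`); `jj` maps `E(μ_m)` into `E_p(ζ)`. -/
theorem frob_global (E : IntermediateField ℚ Qb) [FiniteDimensional ℚ E] (p : ℕ) [Fact p.Prime] :
    ∃ Q f : ℕ, 2 ≤ Q ∧ Q = p ^ f ∧ ∀ m : ℕ, 0 < m → m.Coprime p → ∃ φ : Qb ≃ₐ[ℚ] Qb, (∀ x ∈ E, φ x = x) ∧
      ∀ x ∈ E ⊔ adjoin ℚ {x : Qb | x ^ m = 1}, ‖jj p x‖ ≤ 1 →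
        ‖jj p x ^ Q - jj p (φ x)‖ ≤ (p : ℝ) ^ (-(1 : ℝ) / (Module.finrank ℚ E)) := by
  have hp : p.Prime := Fact.out
  set d := Module.finrank ℚ E with hd
  obtain ⟨hfd, hle⟩ := loc_fd (p := p) E
  set K := adjoin ℚ_[p] (jj p '' (E : Set Qb)) with hK
  refine ⟨p ^ d.factorial, d.factorial, ?_, rfl, ?_⟩
  · calc 2 ≤ p := hp.two_le
      _ = p ^ 1 := (pow_one p).symm
      _ ≤ p ^ d.factorial := Nat.pow_le_pow_right hp.pos d.factorial_pos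
  intro m hm hmp
  have hQ : ∀ c ∈ K, ‖c‖ ≤ 1 → ‖c ^ p ^ d.factorial - c‖ < 1 := by
    intro c hc hc1
    have hdeg : (minpoly ℚ_[p] c).natDegree ≤ d := by
      have h1 := minpoly.natDegree_le (A := ℚ_[p]) (⟨c, hc⟩ : K)
      have h2 : minpoly ℚ_[p] (⟨c, hc⟩ : K) = minpoly ℚ_[p] c := by
        rw [← minpoly.algebraMap_eq (B := K) (B' := PadicAlgCl p) (algebraMap K _).injective]
        rfl
      rw [h2] at h1
      exact h1.trans hle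
    obtain ⟨f, hf1, hf2, hf3⟩ := residue_pow hc1 d hdeg
    obtain ⟨t, ht⟩ := Nat.dvd_factorial hf1 hf2
    rw [ht, pow_mul]
    exact frobG_iter hc1 hf3 t
  have hcop : ((m : ℕ) : PadicAlgCl p) ≠ 0 := by
    exact_mod_cast hm.ne'
  have : NeZero ((m : ℕ) : PadicAlgCl p) := ⟨hcop⟩
  have : NeZero m := ⟨hm.ne'⟩
  obtain ⟨ζ, hζ⟩ := HasEnoughRootsOfUnity.exists_primitiveRoot (PadicAlgCl p) m
  obtain ⟨σ, hσ, hσζ⟩ := frob_exists K hm hmp hζ.pow_eq_one rfl hQ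
  obtain ⟨φ, hφ⟩ := restrict_jj σ
  obtain ⟨w, hw⟩ := exists_unif K
  refine ⟨φ, fun x hx => ?_, fun x hx h1 => ?_⟩
  · refine (jj p).injective ?_
    rw [hφ]
    exact hσ _ (subset_adjoin _ _ ⟨x, hx, rfl⟩)
  · have hmem : jj p x ∈ K ⊔ ℚ_[p]⟮ζ⟯ := by
      set J : Qb →ₐ[ℚ] PadicAlgCl p := (IsAlgClosed.lift : Qb →ₐ[ℚ] PadicAlgCl p) with hJ
      have hle2 : E ⊔ adjoin ℚ {x : Qb | x ^ m = 1} ≤
          ((K ⊔ ℚ_[p]⟮ζ⟯).restrictScalars ℚ).comap J := by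
        refine sup_le (fun y hy => ?_) (adjoin_le_iff.2 fun y hy => ?_)
        · show jj p y ∈ K ⊔ ℚ_[p]⟮ζ⟯
          exact (le_sup_left : K ≤ K ⊔ ℚ_[p]⟮ζ⟯) (subset_adjoin _ _ ⟨y, hy, rfl⟩)
        · show jj p y ∈ K ⊔ ℚ_[p]⟮ζ⟯
          have h2 : (jj p y) ^ m = 1 := by
            rw [← map_pow, (hy : y ^ m = 1), map_one]
          obtain ⟨i, -, hi⟩ := hζ.eq_pow_of_pow_eq_one h2
          rw [← hi]
          exact pow_mem ((le_sup_right : ℚ_[p]⟮ζ⟯ ≤ K ⊔ ℚ_[p]⟮ζ⟯) (mem_adjoin_simple_self _ _)) i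
      exact hle2 hx
    have h3 := frob_cong K hw hm hmp hζ.pow_eq_one rfl hQ σ hσ hσζ hmem h1
    rw [hφ]
    refine h3.trans ?_
    obtain ⟨e, he1, he2, he3⟩ := unif_le K hw
    rw [he3]
    refine Real.rpow_le_rpow_of_exponent_le (by exact_mod_cast hp.one_lt.le) ?_
    rw [neg_div, neg_div, neg_le_neg_iff]
    have he1' : (0 : ℝ) < e := by exact_mod_cast he1
    have he2' : (e : ℝ) ≤ d := by exact_mod_cast he2.trans hle
    exact one_div_le_one_div_of_le he1' he2'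

/-- A root of unity of order prime to `p` with `φ(x) ≡ x^Q` satisfies `φ(x) = x^Q` (`norm_sub_one_coprime`). -/
theorem frob_root (p : ℕ) [Fact p.Prime] (φ : Qb ≃ₐ[ℚ] Qb) {Q : ℕ} {x : Qb} {N : ℕ} (hN : 0 < N)
    (hNp : N.Coprime p) (hx : x ^ N = 1) (h : ‖jj p x ^ Q - jj p (φ x)‖ < 1) : φ x = x ^ Q := by
  have h1 : (jj p (φ x)) ^ N = 1 := by rw [← map_pow, ← map_pow, hx, map_one, map_one]
  have h2 : (jj p x ^ Q) ^ N = 1 := by
    rw [← pow_mul, mul_comm, pow_mul, ← map_pow, hx, map_one, one_pow]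
  have h3 : ‖jj p (φ x)‖ = 1 := norm_root_one hN h1
  have h4 : jj p (φ x) ≠ 0 := by
    intro h5
    rw [h5, norm_zero] at h3
    exact zero_ne_one h3
  by_contra hne
  have h5 : jj p x ^ Q / jj p (φ x) ≠ 1 := by
    intro h6
    rw [div_eq_one_iff_eq h4, ← map_pow] at h6
    exact hne ((jj p).injective h6).symm
  have h6 := norm_sub_one_coprime hNp (x := jj p x ^ Q / jj p (φ x))
    (by rw [div_pow, h1, h2, div_one]) h5
  have h7 : jj p x ^ Q - jj p (φ x) = (jj p x ^ Q / jj p (φ x) - 1) * jj p (φ x) := by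
    field_simp
  rw [h7, norm_mul, h6, h3, one_mul] at h
  exact lt_irrefl _ h

end MP4270
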