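import Pool.Agent.Lib_MP_4270a5_nt.Defs

open Polynomial IntermediateField

namespace MP4270

/-- Galois correspondence for `Qb/ℚ` (`InfiniteGalois.fixedField_fixingSubgroup`). -/
theorem mem_of_fixed_Qb (F : IntermediateField ℚ Qb) (x : Qb)
    (h : ∀ σ : Qb ≃ₐ[ℚ] Qb, (∀ y ∈ F, σ y = y) → σ x = x) : x ∈ F := by
  rw [← InfiniteGalois.fixedField_fixingSubgroup F, IntermediateField.mem_fixedField_iff]
  intro σ hσ
  exact h σ fun y hy => (IntermediateField.mem_fixingSubgroup_iff F σ).1 hσ y hy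

/-- Conjugates over `F`. -/
theorem exists_conj_Qb (F : IntermediateField ℚ Qb) (x y : Qb) (h : aeval y (minpoly F x) = 0) :
    ∃ σ : Qb ≃ₐ[ℚ] Qb, (∀ z ∈ F, σ z = z) ∧ σ x = y := by
  have hx : IsAlgebraic F x := (Algebra.IsAlgebraic.isAlgebraic (R := ℚ) x).extendScalars
    (algebraMap ℚ F).injective
  obtain ⟨σ, hσ⟩ := minpoly.exists_algEquiv_of_root' (K := F) (L := Qb) hx h
  refine ⟨σ.restrictScalars ℚ, fun z hz => ?_, hσ⟩
  exact σ.commutes ⟨z, hz⟩

theorem galb_fd {S : Set Qb} (hS : S.Finite) : FiniteDimensional ℚ (adjoin ℚ S) := by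
  have : Finite S := hS
  exact IntermediateField.finiteDimensional_adjoin fun x _ =>
    (Algebra.IsAlgebraic.isAlgebraic (R := ℚ) x).isIntegral

/-- Finitely many numbers are contained in a finite normal extension of `ℚ`. -/
theorem exists_normal (F : IntermediateField ℚ Qb) [FiniteDimensional ℚ F] (X : Finset Qb) :
    ∃ M : IntermediateField ℚ Qb, FiniteDimensional ℚ M ∧ Normal ℚ M ∧ F ≤ M ∧ ∀ x ∈ X, x ∈ M := by
  have h1 : FiniteDimensional ℚ (adjoin ℚ (X : Set Qb)) := galb_fd X.finite_toSet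
  have h2 : FiniteDimensional ℚ (F ⊔ adjoin ℚ (X : Set Qb) : IntermediateField ℚ Qb) :=
    IntermediateField.finiteDimensional_sup _ _
  refine ⟨IntermediateField.normalClosure ℚ (F ⊔ adjoin ℚ (X : Set Qb) : IntermediateField ℚ Qb) Qb,
    inferInstance, normalClosure.normal ℚ _ Qb, ?_, ?_⟩
  · exact le_sup_left.trans (IntermediateField.le_normalClosure _)
  · intro x hx
    exact IntermediateField.le_normalClosure _ ((le_sup_right : _ ≤ F ⊔ adjoin ℚ (X : Set Qb))
      (subset_adjoin ℚ _ hx))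

theorem lf_le (K : IntermediateField ℚ Qb) {r : ℕ} (a : Fin r → Qb) (m n : ℕ) : K ≤ Lf K a m n :=
  le_sup_left

theorem lf_fd (K : IntermediateField ℚ Qb) [FiniteDimensional ℚ K] {r : ℕ} (a : Fin r → Qb) {m n : ℕ}
    (hm : 0 < m) (hn : 0 < n) : FiniteDimensional ℚ (Lf K a m n) := by
  classical
  have hfin : ∀ (n : ℕ) (c : Qb), 0 < n → {x : Qb | x ^ n = c}.Finite := by
    intro n c hn
    have h1 : (X ^ n - C c : Qb[X]) ≠ 0 := X_pow_sub_C_ne_zero hn c
    refine (X ^ n - C c : Qb[X]).roots.toFinset.finite_toSet.subset fun x hx => ?_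
    rw [Finset.mem_coe, Multiset.mem_toFinset, mem_roots h1, IsRoot.def, eval_sub, eval_pow, eval_X, eval_C]
    exact sub_eq_zero.2 hx
  have h1 : ({x : Qb | x ^ m = 1} ∪ {x | ∃ i, x ^ n = a i}).Finite := by
    refine (hfin m 1 hm).union ?_
    have : {x : Qb | ∃ i, x ^ n = a i} = ⋃ i, {x | x ^ n = a i} := by
      ext x
      simp
    rw [this]
    exact Set.finite_iUnion fun i => hfin n (a i) hn
  have h2 := galb_fd h1
  exact IntermediateField.finiteDimensional_sup _ _

end MP4270
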