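import Pool.Agent.Lib_MP_4270a5_nt.Iso

open Polynomial IntermediateField

namespace MP4270

variable {p : ℕ} [Fact p.Prime]

/-- one step: the degree of `x` over `F` divides `n` -/
private theorem kump_deg {K L : Type*} [Field K] [Field L] [Algebra K L] [IsAlgClosed L]
    (F : IntermediateField K L) {n : ℕ} (hn : 0 < n) (hF : ∀ x : L, x ^ n = 1 → x ∈ F) (x : L)
    (hx : x ^ n ∈ F) : (minpoly F x).natDegree ∣ n := by
  rcases eq_or_ne x 0 with hx0 | hx0
  · have h1 : minpoly F x = X := by rw [hx0, minpoly.zero]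
    rw [h1, natDegree_X]
    exact one_dvd n
  have hint : IsIntegral F x := by
    refine ⟨X ^ n - C (⟨x ^ n, hx⟩ : F), monic_X_pow_sub_C _ hn.ne', ?_⟩
    rw [eval₂_sub, eval₂_pow, eval₂_X, eval₂_C]
    exact sub_self _
  set P := minpoly F x with hP
  have hPm : P.Monic := minpoly.monic hint
  set Q := P.map (algebraMap F L) with hQ
  have hQm : Q.Monic := hPm.map _
  have hQs : Q.Splits := IsAlgClosed.splits Q
  have hdeg : Q.natDegree = P.natDegree := natDegree_map _
  have hcard : Multiset.card Q.roots = P.natDegree := by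
    rw [← hdeg, hQs.natDegree_eq_card_roots]
  -- all roots are `ξ x`
  have hroot : ∀ y ∈ Q.roots, y / x ∈ F := by
    intro y hy
    apply hF
    have h1 : aeval y P = 0 := by
      have h2 := (mem_roots'.1 hy).2
      rwa [IsRoot.def, hQ, eval_map, ← aeval_def] at h2
    have h3 : P ∣ X ^ n - C (⟨x ^ n, hx⟩ : F) := by
      refine minpoly.dvd F x ?_
      rw [map_sub, map_pow, aeval_X, aeval_C]
      exact sub_self _
    have h4 : aeval y (X ^ n - C (⟨x ^ n, hx⟩ : F)) = 0 := by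
      obtain ⟨R, hR⟩ := h3
      rw [hR, map_mul, h1, zero_mul]
    rw [map_sub, map_pow, aeval_X, aeval_C] at h4
    have h5 : y ^ n = x ^ n := sub_eq_zero.1 h4
    rw [div_pow, h5, div_self (pow_ne_zero n hx0)]
  -- `x ^ d ∈ F`
  have hmem : ∀ s : Multiset L, (∀ y ∈ s, y / x ∈ F) → s.prod / x ^ (Multiset.card s) ∈ F := by
    intro s
    induction s using Multiset.induction_on with
    | empty =>
      intro _
      simp only [Multiset.prod_zero, Multiset.card_zero, pow_zero, div_one]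
      exact F.one_mem
    | cons a s ih =>
      intro h
      rw [Multiset.prod_cons, Multiset.card_cons, pow_succ', mul_div_mul_comm]
      exact F.mul_mem (h a (Multiset.mem_cons_self a s))
        (ih fun y hy => h y (Multiset.mem_cons_of_mem hy))
  have h6 := hmem Q.roots hroot
  rw [hcard] at h6
  have h7 : Q.roots.prod ∈ F := by
    have h8 := hQs.coeff_zero_eq_prod_roots_of_monic hQm
    have h9 : Q.coeff 0 ∈ F := by
      rw [hQ, coeff_map]
      exact (P.coeff 0).2
    have h10 : Q.roots.prod = (-1) ^ Q.natDegree * Q.coeff 0 := by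
      rw [h8, ← mul_assoc, ← mul_pow, neg_one_mul, neg_neg, one_pow, one_mul]
    rw [h10]
    exact F.mul_mem (pow_mem (F.neg_mem F.one_mem) _) h9
  have hprod0 : Q.roots.prod ≠ 0 := by
    intro h
    rw [Multiset.prod_eq_zero_iff] at h
    have h1 : aeval (0 : L) P = 0 := by
      have h2 := (mem_roots'.1 h).2
      rwa [IsRoot.def, hQ, eval_map, ← aeval_def] at h2
    have h3 : P ∣ X ^ n - C (⟨x ^ n, hx⟩ : F) := by
      refine minpoly.dvd F x ?_
      rw [map_sub, map_pow, aeval_X, aeval_C]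
      exact sub_self _
    have h4 : aeval (0 : L) (X ^ n - C (⟨x ^ n, hx⟩ : F)) = 0 := by
      obtain ⟨R, hR⟩ := h3
      rw [hR, map_mul, h1, zero_mul]
    rw [map_sub, map_pow, aeval_X, aeval_C, zero_pow hn.ne', zero_sub, neg_eq_zero] at h4
    exact pow_ne_zero n hx0 h4
  have hd : x ^ P.natDegree ∈ F := by
    have h8 : x ^ P.natDegree = Q.roots.prod / (Q.roots.prod / x ^ P.natDegree) := by
      rw [div_div_cancel₀ hprod0]
    rw [h8]
    exact F.div_mem h7 h6
  -- `x ^ g ∈ F` for `g = gcd d n`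
  have hdpos : 0 < P.natDegree := minpoly.natDegree_pos hint
  set g := Nat.gcd P.natDegree n with hg
  have hgpos : 0 < g := Nat.gcd_pos_of_pos_left n hdpos
  have hxg : x ^ g ∈ F := by
    have h8 : ((g : ℕ) : ℤ) = P.natDegree * Nat.gcdA P.natDegree n + n * Nat.gcdB P.natDegree n :=
      Nat.gcd_eq_gcd_ab _ _
    have h9 : x ^ g = (x ^ P.natDegree) ^ (Nat.gcdA P.natDegree n) * (x ^ n) ^ (Nat.gcdB P.natDegree n) := by
      rw [← zpow_natCast x g, h8, zpow_add₀ hx0, zpow_mul, zpow_mul, zpow_natCast, zpow_natCast]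
    rw [h9]
    exact F.mul_mem (F.pow_mem hd _) (F.pow_mem hx _)
  have hle : P.natDegree ≤ g := by
    have h8 : P ∣ X ^ g - C (⟨x ^ g, hxg⟩ : F) := by
      refine minpoly.dvd F x ?_
      rw [map_sub, map_pow, aeval_X, aeval_C]
      exact sub_self _
    have h9 := natDegree_le_of_dvd h8 (monic_X_pow_sub_C _ hgpos.ne').ne_zero
    rwa [natDegree_X_pow_sub_C] at h9
  have heq : P.natDegree = g := le_antisymm hle (Nat.le_of_dvd hdpos (Nat.gcd_dvd_left _ _))
  rw [heq]
  exact Nat.gcd_dvd_right _ _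

private theorem kump_one {K L : Type*} [Field K] [Field L] [Algebra K L] [IsAlgClosed L]
    (F : IntermediateField K L) [FiniteDimensional K F] {n : ℕ} (hn : 0 < n)
    (hF : ∀ x : L, x ^ n = 1 → x ∈ F) (x : L) (hx : x ^ n ∈ F) :
    ∃ e : ℕ, e ∣ n ∧ Module.finrank K (↥(F ⊔ K⟮x⟯)) = Module.finrank K F * e ∧
      FiniteDimensional K (↥(F ⊔ K⟮x⟯)) := by
  have hint : IsIntegral F x := by
    refine ⟨X ^ n - C (⟨x ^ n, hx⟩ : F), monic_X_pow_sub_C _ hn.ne', ?_⟩
    rw [eval₂_sub, eval₂_pow, eval₂_X, eval₂_C]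
    exact sub_self _
  refine ⟨(minpoly F x).natDegree, kump_deg F hn hF x hx, ?_, ?_⟩
  · rw [← restrictScalars_adjoin_eq_sup K F ({x} : Set L), ← IntermediateField.adjoin.finrank hint]
    exact (Module.finrank_mul_finrank K F F⟮x⟯).symm
  · rw [← restrictScalars_adjoin_eq_sup K F ({x} : Set L)]
    have h1 : FiniteDimensional F F⟮x⟯ := IntermediateField.adjoin.finiteDimensional hint
    exact FiniteDimensional.trans K F F⟮x⟯

/-- KUMMER EXTENSIONS OF DEGREE PRIME TO `p`. If the field `F` contains the `n`-th roots of unity, `p ∤ n`, and the `x_i^n`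
are in `F`, then `[F(x_1, …, x_r) : F]` divides a power of `n`, so it is prime to `p`. (One step: the polynomial
`X^n - x^n` splits in `F(x)`; the degree of `x` over `F` divides `n`: the conjugates are `ξ x` with `ξ` in a subgroup of
`μ_n`.) -/
theorem kum_prime (F : IntermediateField ℚ_[p] (PadicAlgCl p)) [FiniteDimensional ℚ_[p] F] {n : ℕ} (hn : 0 < n)
    (hnp : n.Coprime p) (hF : ∀ x : PadicAlgCl p, x ^ n = 1 → x ∈ F) {r : ℕ} (x : Fin r → PadicAlgCl p)
    (hx : ∀ i, x i ^ n ∈ F) :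
    ∃ e : ℕ, e.Coprime p ∧
      Module.finrank ℚ_[p] (↥(F ⊔ adjoin ℚ_[p] (Set.range x))) = Module.finrank ℚ_[p] F * e := by
  classical
  have key : ∀ s : Finset (Fin r), ∃ e : ℕ, e.Coprime p ∧
      Module.finrank ℚ_[p] (↥(F ⊔ adjoin ℚ_[p] (x '' (s : Set (Fin r))))) =
        Module.finrank ℚ_[p] F * e ∧
      FiniteDimensional ℚ_[p] (↥(F ⊔ adjoin ℚ_[p] (x '' (s : Set (Fin r))))) := by
    intro s
    induction s using Finset.induction_on with
    | empty =>
      refine ⟨1, Nat.coprime_one_left p, ?_, ?_⟩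
      · rw [Finset.coe_empty, Set.image_empty, adjoin_empty, sup_bot_eq, mul_one]
      · rw [Finset.coe_empty, Set.image_empty, adjoin_empty, sup_bot_eq]
        infer_instance
    | insert i s _ ih =>
      obtain ⟨e, he, hfr, hfd⟩ := ih
      obtain ⟨e', he', hfr', hfd'⟩ := kump_one (F ⊔ adjoin ℚ_[p] (x '' (s : Set (Fin r)))) hn
        (fun y hy => (le_sup_left : F ≤ F ⊔ adjoin ℚ_[p] (x '' (s : Set (Fin r)))) (hF y hy)) (x i)
        ((le_sup_left : F ≤ F ⊔ adjoin ℚ_[p] (x '' (s : Set (Fin r)))) (hx i))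
      have h1 : F ⊔ adjoin ℚ_[p] (x '' ((insert i s : Finset (Fin r)) : Set (Fin r))) =
          (F ⊔ adjoin ℚ_[p] (x '' (s : Set (Fin r)))) ⊔ ℚ_[p]⟮x i⟯ := by
        rw [Finset.coe_insert, Set.image_insert_eq, ← Set.union_singleton, adjoin_union,
          ← sup_assoc]
      rw [h1]
      refine ⟨e * e', Nat.Coprime.mul_left he (Nat.Coprime.coprime_dvd_left he' hnp), ?_, hfd'⟩
      rw [hfr', hfr, mul_assoc]
  obtain ⟨e, he, hfr, _⟩ := key Finset.univ
  rw [Finset.coe_univ, Set.image_univ] at hfr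
  exact ⟨e, he, hfr⟩

/-- Degree of a compositum: `[B E : ℚ_p] = [B : ℚ_p] e` with `1 ≤ e ≤ [E : ℚ_p]`. -/
theorem deg_sup (B E : IntermediateField ℚ_[p] (PadicAlgCl p)) [FiniteDimensional ℚ_[p] B]
    [FiniteDimensional ℚ_[p] E] : ∃ e : ℕ, 0 < e ∧ e ≤ Module.finrank ℚ_[p] E ∧
      Module.finrank ℚ_[p] (↥(B ⊔ E)) = Module.finrank ℚ_[p] B * e := by
  have h1 : Module.finrank ℚ_[p] B * relfinrank B (B ⊔ E) = Module.finrank ℚ_[p] (↥(B ⊔ E)) :=
    finrank_bot_mul_relfinrank le_sup_left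
  have h2 : Module.finrank ℚ_[p] (↥(B ⊔ E)) ≤ Module.finrank ℚ_[p] B * Module.finrank ℚ_[p] E :=
    finrank_sup_le B E
  have hB : 0 < Module.finrank ℚ_[p] B := Module.finrank_pos
  have hBE : 0 < Module.finrank ℚ_[p] (↥(B ⊔ E)) := Module.finrank_pos
  refine ⟨relfinrank B (B ⊔ E), ?_, ?_, h1.symm⟩
  · rw [← h1] at hBE
    exact Nat.pos_of_mul_pos_left hBE
  · rw [← h1] at h2
    exact Nat.le_of_mul_le_mul_left h2 hB

end MP4270
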