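import Pool.Agent.Lib_MP_4270a5_nt.LfA

open Polynomial IntermediateField

namespace MP4270

/-- Two automorphisms which agree on generators agree on `Lf`. -/
theorem lf_ext (K : IntermediateField ℚ Qb) {r : ℕ} (a : Fin r → Qb) {p m n k : ℕ} (hp : p.Prime)
    (hm : 0 < m) (hnm : n ∣ m) (hmp : m.Coprime p) {ζ : Qb} (hζ : IsPrimitiveRoot ζ (p ^ k))
    (α : Fin r → Qb) (hα : ∀ i, α i ^ (p ^ k * n) = a i) (σ τ : Qb ≃ₐ[ℚ] Qb)
    (h1 : ∀ x ∈ K, σ x = τ x) (h2 : ∀ x : Qb, x ^ m = 1 → σ x = τ x) (h3 : σ ζ = τ ζ)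
    (h4 : ∀ i, σ (α i) = τ (α i)) : ∀ x ∈ Lf K a (p ^ k * m) (p ^ k * n), σ x = τ x := by
  let E : IntermediateField ℚ Qb :=
    { carrier := {x | σ x = τ x}
      mul_mem' := fun {x y} hx hy => by
        simp only [Set.mem_setOf_eq] at hx hy ⊢
        rw [map_mul, map_mul, hx, hy]
      one_mem' := by simp
      add_mem' := fun {x y} hx hy => by
        simp only [Set.mem_setOf_eq] at hx hy ⊢
        rw [map_add, map_add, hx, hy]
      zero_mem' := by simp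
      algebraMap_mem' := fun c => by
        simp only [Set.mem_setOf_eq]
        rw [σ.commutes, τ.commutes]
      inv_mem' := fun x hx => by
        simp only [Set.mem_setOf_eq] at hx ⊢
        rw [map_inv₀, map_inv₀, hx] }
  have hp0 : 0 < p ^ k := pow_pos hp.pos k
  have : NeZero (p ^ k) := ⟨hp0.ne'⟩
  have hn : 0 < n := Nat.pos_of_dvd_of_pos hnm hm
  have hroot : ∀ x : Qb, x ^ (p ^ k * m) = 1 → x ∈ E := by
    intro x hx
    have hx0 : x ≠ 0 := by
      rintro rfl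
      rw [zero_pow (Nat.mul_pos hp0 hm).ne'] at hx
      exact zero_ne_one hx
    have hco : IsCoprime ((p ^ k : ℕ) : ℤ) (m : ℤ) := by
      rw [Nat.isCoprime_iff_coprime]
      exact (Nat.Coprime.pow_right k hmp).symm
    obtain ⟨u, v, huv⟩ := hco
    have e1 : x = x ^ (((p ^ k : ℕ) : ℤ) * u) * x ^ ((m : ℤ) * v) := by
      rw [← zpow_add₀ hx0]
      conv_lhs => rw [← zpow_one x]
      congr 1
      linear_combination -huv
    have e2 : x ^ (((p ^ k : ℕ) : ℤ) * u) ∈ E := by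
      refine h2 _ ?_
      rw [← zpow_natCast, ← zpow_mul, mul_right_comm, ← Nat.cast_mul, zpow_mul, zpow_natCast, hx,
        one_zpow]
    have e3 : x ^ ((m : ℤ) * v) ∈ E := by
      have h5 : (x ^ ((m : ℤ) * v)) ^ (p ^ k) = 1 := by
        rw [← zpow_natCast, ← zpow_mul, mul_right_comm, ← Nat.cast_mul, mul_comm m, zpow_mul,
          zpow_natCast, hx, one_zpow]
      obtain ⟨i, -, hi⟩ := hζ.eq_pow_of_pow_eq_one h5
      rw [← hi]
      exact pow_mem (show ζ ∈ E from h3) i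
    rw [e1]
    exact mul_mem e2 e3
  have hle : Lf K a (p ^ k * m) (p ^ k * n) ≤ E := by
    refine sup_le (fun x hx => h1 x hx) (adjoin_le_iff.2 ?_)
    rintro x (hx | ⟨i, hx⟩)
    · exact hroot x hx
    · by_cases ha : a i = 0
      · rw [ha] at hx
        have : x = 0 := pow_eq_zero_iff (Nat.mul_pos hp0 hn).ne' |>.1 hx
        rw [this]
        exact zero_mem _
      have h0 : α i ≠ 0 := by
        intro h
        have h5 := hα i
        rw [h, zero_pow (Nat.mul_pos hp0 hn).ne'] at h5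
        exact ha h5.symm
      have h6 : (x / α i) ^ (p ^ k * n) = 1 := by
        rw [div_pow, hα i, hx, div_self ha]
      obtain ⟨b, hb⟩ := hnm
      have h7 := hroot (x / α i) (by rw [hb, ← mul_assoc, pow_mul, h6, one_pow])
      have h8 : x = x / α i * α i := by field_simp
      rw [h8]
      exact mul_mem h7 (show α i ∈ E from h4 i)
  exact fun x hx => hle hx

/-- Shape of the automorphisms of `Lf K a (p^k m) (p^k n)` over `Lf K a (p^(k-j) m) (p^(k-j) n)`: `ζ^(p^j)` and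
`α_i^(p^j)` are fixed. -/
theorem lf_shape (K : IntermediateField ℚ Qb) {r : ℕ} (a : Fin r → Qb) (ha0 : ∀ i, a i ≠ 0) {p m n k j : ℕ}
    (hp : p.Prime) (hj : j ≤ k) (hm : 0 < m) (hn : 0 < n) {ζ : Qb}
    (hζ : IsPrimitiveRoot ζ (p ^ k)) (α : Fin r → Qb) (hα : ∀ i, α i ^ (p ^ k * n) = a i)
    (σ : Qb ≃ₐ[ℚ] Qb) (hσ : ∀ x ∈ Lf K a (p ^ (k - j) * m) (p ^ (k - j) * n), σ x = x) :
    (∃ t : ℕ, σ ζ = ζ ^ (1 + p ^ (k - j) * t)) ∧ ∀ i, ∃ t : ℕ, σ (α i) = ζ ^ (p ^ (k - j) * t) * α i := by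
  have hpk : p ^ k = p ^ (k - j) * p ^ j := by
    rw [← pow_add]
    congr 1
    omega
  have hp0 : 0 < p ^ k := pow_pos hp.pos k
  have hζ' : IsPrimitiveRoot (ζ ^ p ^ (k - j)) (p ^ j) := hζ.pow hp0 hpk
  have : NeZero (p ^ j) := ⟨(pow_pos hp.pos j).ne'⟩
  have key : ∀ x : Qb, x ≠ 0 → σ (x ^ p ^ j) = x ^ p ^ j →
      ∃ t : ℕ, σ x = ζ ^ (p ^ (k - j) * t) * x := by
    intro x hx h
    have h1 : (σ x / x) ^ p ^ j = 1 := by
      rw [div_pow, ← map_pow, h, div_self (pow_ne_zero _ hx)]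
    obtain ⟨t, -, ht⟩ := hζ'.eq_pow_of_pow_eq_one h1
    refine ⟨t, ?_⟩
    rw [pow_mul, ht]
    field_simp
  refine ⟨?_, ?_⟩
  · have hζ0 : ζ ≠ 0 := hζ.ne_zero hp0.ne'
    have h1 : σ (ζ ^ p ^ j) = ζ ^ p ^ j := by
      refine hσ _ ((le_sup_right : _ ≤ Lf K a (p ^ (k - j) * m) (p ^ (k - j) * n))
        (subset_adjoin ℚ _ (Or.inl ?_)))
      show (ζ ^ p ^ j) ^ (p ^ (k - j) * m) = 1
      rw [← pow_mul, ← mul_assoc, mul_comm (p ^ j), ← hpk, pow_mul, hζ.pow_eq_one, one_pow]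
    obtain ⟨t, ht⟩ := key ζ hζ0 h1
    refine ⟨t, ?_⟩
    rw [ht, pow_add, pow_one, mul_comm]
  · intro i
    have h0 : α i ≠ 0 := by
      intro h
      have h5 := hα i
      rw [h, zero_pow (Nat.mul_pos hp0 hn).ne'] at h5
      exact ha0 i h5.symm
    have h1 : σ (α i ^ p ^ j) = α i ^ p ^ j := by
      refine hσ _ ((le_sup_right : _ ≤ Lf K a (p ^ (k - j) * m) (p ^ (k - j) * n))
        (subset_adjoin ℚ _ (Or.inr ⟨i, ?_⟩)))
      rw [← pow_mul, ← mul_assoc, mul_comm (p ^ j), ← hpk, hα i]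
    exact key (α i) h0 h1

end MP4270
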