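import Pool.Agent.Lib_MP_4270a5_nt.TeichA
import Pool.Agent.Lib_MP_4270a5_nt.RootU

open Polynomial IntermediateField Filter Topology

namespace MP4270

variable {p : ℕ} [Fact p.Prime]

private theorem teich_norm_p : ‖((p : ℕ) : PadicAlgCl p)‖ = (p : ℝ)⁻¹ := by
  have h1 : ((p : ℕ) : PadicAlgCl p) = algebraMap ℚ_[p] (PadicAlgCl p) (p : ℚ_[p]) := by
    rw [map_natCast]
  rw [h1]
  exact (PadicAlgCl.norm_extends p _).trans Padic.norm_p

/-- The ring of integral elements. -/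
private def teichO (p : ℕ) [Fact p.Prime] : Subring (PadicAlgCl p) where
  carrier := {x | ‖x‖ ≤ 1}
  mul_mem' := by
    intro a b ha hb
    show ‖a * b‖ ≤ 1
    rw [norm_mul]
    exact mul_le_one₀ ha (norm_nonneg _) hb
  one_mem' := by
    show ‖(1 : PadicAlgCl p)‖ ≤ 1
    rw [norm_one]
  add_mem' := by
    intro a b ha hb
    exact (IsUltrametricDist.norm_add_le_max a b).trans (max_le ha hb)
  zero_mem' := by
    show ‖(0 : PadicAlgCl p)‖ ≤ 1
    rw [norm_zero]
    exact zero_le_one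
  neg_mem' := by
    intro a ha
    show ‖-a‖ ≤ 1
    rw [norm_neg]
    exact ha

private theorem teich_contract {a b : PadicAlgCl p} (hb : ‖b‖ ≤ 1) {f : ℕ}
    (hf : 1 ≤ f) {c : ℝ} (hc1 : (p : ℝ)⁻¹ ≤ c) (hc2 : ‖a - b‖ ≤ c) (hc3 : c ≤ 1) :
    ‖a ^ p ^ f - b ^ p ^ f‖ ≤ c * ‖a - b‖ := by
  have hab : ‖a - b‖ ≤ 1 := hc2.trans hc3
  obtain ⟨r, hr⟩ := exists_add_pow_prime_pow_eq (Fact.out : p.Prime) (⟨b, hb⟩ : teichO p)
    ⟨a - b, hab⟩ f
  have h1 := congrArg (Subtype.val) hr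
  have h2 : (b + (a - b)) ^ p ^ f = b ^ p ^ f + (a - b) ^ p ^ f +
    (p : PadicAlgCl p) * b * (a - b) * r.1 := h1
  have e1 : b + (a - b) = a := by ring
  rw [e1] at h2
  have e2 : a ^ p ^ f - b ^ p ^ f = (a - b) ^ p ^ f + (p : PadicAlgCl p) * b * (a - b) * r.1 := by
    rw [h2]
    ring
  rw [e2]
  refine (IsUltrametricDist.norm_add_le_max _ _).trans (max_le ?_ ?_)
  · rw [norm_pow]
    have h3 : 2 ≤ p ^ f := (Fact.out : p.Prime).two_le.trans (Nat.le_self_pow (by omega) p)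
    calc ‖a - b‖ ^ p ^ f ≤ ‖a - b‖ ^ 2 := pow_le_pow_of_le_one (norm_nonneg _) hab h3
      _ = ‖a - b‖ * ‖a - b‖ := sq _
      _ ≤ c * ‖a - b‖ := mul_le_mul_of_nonneg_right hc2 (norm_nonneg _)
  · rw [norm_mul, norm_mul, norm_mul, teich_norm_p]
    have h3 : (p : ℝ)⁻¹ * ‖b‖ ≤ c := by
      refine le_trans ?_ hc1
      exact mul_le_of_le_one_right (inv_nonneg.mpr (Nat.cast_nonneg p)) hb
    have hc0 : 0 ≤ c := (inv_nonneg.mpr (Nat.cast_nonneg p)).trans hc1
    calc (p : ℝ)⁻¹ * ‖b‖ * ‖a - b‖ * ‖(r : PadicAlgCl p)‖ ≤ c * ‖a - b‖ * 1 :=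
          mul_le_mul (mul_le_mul_of_nonneg_right h3 (norm_nonneg _)) r.2 (norm_nonneg _)
            (mul_nonneg hc0 (norm_nonneg _))
      _ = c * ‖a - b‖ := mul_one _

/-- Teichmüller representatives: `x^(q^n)`, `q = p^f` from `residue_pow`, converges in the complete field `L`
(finite dimensional over `ℚ_p`) to `y` with `y^q = y`. -/
theorem teich (L : IntermediateField ℚ_[p] (PadicAlgCl p)) [FiniteDimensional ℚ_[p] L] {x : PadicAlgCl p}
    (hx : x ∈ L) (h1 : ‖x‖ ≤ 1) :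
    ∃ y ∈ L, ‖x - y‖ < 1 ∧ (y = 0 ∨ ∃ n : ℕ, 0 < n ∧ n.Coprime p ∧ y ^ n = 1) := by
  classical
  have hp := (Fact.out : p.Prime)
  have hdeg : (minpoly ℚ_[p] x).natDegree ≤ Module.finrank ℚ_[p] L := by
    have h2 := minpoly.natDegree_le (A := ℚ_[p]) (⟨x, hx⟩ : L)
    rwa [IntermediateField.minpoly_eq] at h2
  obtain ⟨f, hf1, _, hf⟩ := residue_pow h1 _ hdeg
  set q := p ^ f with hq
  set u : ℕ → PadicAlgCl p := fun k => x ^ q ^ k with hu
  have hus : ∀ k, u (k + 1) = u k ^ q := by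
    intro k
    show x ^ q ^ (k + 1) = (x ^ q ^ k) ^ q
    rw [pow_succ q k, pow_mul]
  have hu1 : ∀ k, ‖u k‖ ≤ 1 := by
    intro k
    show ‖x ^ q ^ k‖ ≤ 1
    rw [norm_pow]
    exact pow_le_one₀ (norm_nonneg _) h1
  have huL : ∀ k, u k ∈ L := fun k => pow_mem hx _
  have hp1 : (p : ℝ)⁻¹ < 1 := inv_lt_one_of_one_lt₀ (by exact_mod_cast hp.one_lt)
  have hp0 : (0 : ℝ) ≤ (p : ℝ)⁻¹ := inv_nonneg.mpr (Nat.cast_nonneg p)
  set r := ‖x ^ q - x‖ with hr
  set c := max r (p : ℝ)⁻¹ with hc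
  have hc1 : c < 1 := max_lt hf hp1
  have hc0 : 0 ≤ c := hp0.trans (le_max_right _ _)
  have hstep : ∀ k, ‖u (k + 1) - u k‖ ≤ r * c ^ k ∧ ‖u (k + 1) - u k‖ ≤ c := by
    intro k
    induction k with
    | zero =>
      have e1 : u (0 + 1) - u 0 = x ^ q - x := by
        show x ^ q ^ (0 + 1) - x ^ q ^ 0 = x ^ q - x
        rw [zero_add, pow_one, pow_zero, pow_one]
      rw [e1, pow_zero, mul_one]
      exact ⟨le_rfl, le_max_left _ _⟩
    | succ k ih =>
      have h2 := teich_contract (hu1 k) hf1 (le_max_right r (p : ℝ)⁻¹) ih.2 hc1.le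
      rw [← hq, ← hus, ← hus] at h2
      refine ⟨h2.trans ?_, h2.trans ?_⟩
      · calc c * ‖u (k + 1) - u k‖ ≤ c * (r * c ^ k) := mul_le_mul_of_nonneg_left ih.1 hc0
          _ = r * c ^ (k + 1) := by ring
      · calc c * ‖u (k + 1) - u k‖ ≤ c * 1 :=
              mul_le_mul_of_nonneg_left (ih.2.trans hc1.le) hc0
          _ = c := mul_one _
  have hcau : CauchySeq u := by
    refine cauchySeq_of_le_geometric c r hc1 fun k => ?_
    rw [dist_comm, dist_eq_norm]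
    exact (hstep k).1
  have hcomp : IsComplete ((L.toSubalgebra.toSubmodule : Submodule ℚ_[p] (PadicAlgCl p)) :
      Set (PadicAlgCl p)) := by
    have : FiniteDimensional ℚ_[p] (L.toSubalgebra.toSubmodule : Submodule ℚ_[p] (PadicAlgCl p)) :=
      inferInstanceAs (FiniteDimensional ℚ_[p] L)
    exact Submodule.complete_of_finiteDimensional _
  obtain ⟨y, hy1, hy2⟩ := cauchySeq_tendsto_of_isComplete hcomp (fun k => huL k) hcau
  have hyL : y ∈ L := hy1
  have hxy : ‖x - y‖ ≤ c := by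
    have h2 : ∀ k, ‖x - u k‖ ≤ c := by
      intro k
      induction k with
      | zero =>
        have e1 : x - u 0 = 0 := by
          show x - x ^ q ^ 0 = 0
          rw [pow_zero, pow_one, sub_self]
        rw [e1, norm_zero]
        exact hc0
      | succ k ih =>
        have e1 : x - u (k + 1) = (x - u k) + (u k - u (k + 1)) := by ring
        rw [e1]
        refine (IsUltrametricDist.norm_add_le_max _ _).trans (max_le ih ?_)
        rw [norm_sub_rev]
        exact (hstep k).2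
    have h3 : Tendsto (fun k => ‖x - u k‖) atTop (𝓝 ‖x - y‖) := (tendsto_const_nhds.sub hy2).norm
    exact le_of_tendsto' h3 h2
  have hyq : y ^ q = y := by
    have h3 : Tendsto (fun k => u (k + 1)) atTop (𝓝 y) := hy2.comp (tendsto_add_atTop_nat 1)
    have h4 : Tendsto (fun k => u k ^ q) atTop (𝓝 (y ^ q)) := hy2.pow q
    have h5 : (fun k => u (k + 1)) = fun k => u k ^ q := funext hus
    rw [h5] at h3
    exact tendsto_nhds_unique h4 h3
  refine ⟨y, hyL, hxy.trans_lt hc1, ?_⟩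
  by_cases hy0 : y = 0
  · exact Or.inl hy0
  · right
    have hq2 : 2 ≤ q := hp.two_le.trans (Nat.le_self_pow (by omega) p)
    refine ⟨q - 1, by omega, ?_, ?_⟩
    · rw [Nat.coprime_comm, hp.coprime_iff_not_dvd]
      intro h2
      have h3 : p ∣ q := dvd_pow_self p (by omega)
      have h4 : p ∣ 1 := by
        have h5 := Nat.dvd_sub h3 h2
        have h6 : q - (q - 1) = 1 := by omega
        rwa [h6] at h5
      exact hp.one_lt.ne' (Nat.dvd_one.mp h4)
    · have h3 : y ^ (q - 1) * y = 1 * y := by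
        rw [← pow_succ, one_mul]
        have h6 : q - 1 + 1 = q := by omega
        rw [h6, hyq]
      exact mul_right_cancel₀ hy0 h3

/-- If `B ≤ L` contains all roots of unity of `L` of order prime to `p`, then `L/B` is residually trivial. -/
theorem resTriv_of_roots (B L : IntermediateField ℚ_[p] (PadicAlgCl p)) [FiniteDimensional ℚ_[p] L] (hBL : B ≤ L)
    (h : ∀ y ∈ L, (∃ n : ℕ, 0 < n ∧ n.Coprime p ∧ y ^ n = 1) → y ∈ B) : ResTriv B L := by
  refine ⟨hBL, fun x hx h1 => ?_⟩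
  obtain ⟨y, hy1, hy2, hy3⟩ := teich L hx h1
  refine ⟨y, ?_, hy2⟩
  rcases hy3 with rfl | hy3
  · exact zero_mem B
  · exact h y hy1 hy3

end MP4270
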