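import Pool.Agent.Lib_MP_4270a5_nt.UnramA

open Polynomial IntermediateField

namespace MP4270

variable {p : ℕ} [Fact p.Prime]

/-- `K(ζ)` has the same value group as `K`. -/
theorem unram_norm (K : IntermediateField ℚ_[p] (PadicAlgCl p)) {n : ℕ} (hn0 : 0 < n) (hn : n.Coprime p)
    {ζ : PadicAlgCl p} (hζ : ζ ^ n = 1) {x : PadicAlgCl p} (hx : x ∈ K ⊔ ℚ_[p]⟮ζ⟯) : ∃ y ∈ K, ‖y‖ = ‖x‖ := by
  classical
  obtain ⟨g, hg1, hg2⟩ := unram_expand K hn0 hn hζ hx
  by_contra hno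
  push Not at hno
  have hx0 : x ≠ 0 := by
    intro h
    exact hno 0 (zero_mem K) (by rw [h])
  have hlt : ∀ i, ‖((g.coeff i : ↥K) : PadicAlgCl p)‖ < ‖x‖ := fun i =>
    lt_of_le_of_ne (hg2 i) (hno _ (g.coeff i).2)
  have hζ1 : ‖ζ‖ = 1 := norm_root_one hn0 hζ
  have h1 : ‖x‖ < ‖x‖ := by
    conv_lhs => rw [← hg1, Polynomial.aeval_eq_sum_range]
    obtain ⟨i, _, hi⟩ := IsUltrametricDist.exists_norm_finsetSum_le (Finset.range (g.natDegree + 1))
      (fun i => g.coeff i • ζ ^ i)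
    refine hi.trans_lt ?_
    rw [Algebra.smul_def, norm_mul, norm_pow, hζ1, one_pow, mul_one]
    exact hlt i
  exact lt_irrefl _ h1

/-- A finite extension of `ℚ_p` generated by roots of unity of order prime to `p` has value group `p^ℤ`. (It is generated
by one such root: the roots in a finite generating subset generate a finite cyclic group.) -/
theorem unram_value (B : IntermediateField ℚ_[p] (PadicAlgCl p)) [FiniteDimensional ℚ_[p] B]
    (S : Set (PadicAlgCl p)) (hS : ∀ y ∈ S, ∃ n : ℕ, 0 < n ∧ n.Coprime p ∧ y ^ n = 1)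
    (hB : B = adjoin ℚ_[p] S) : ∀ x ∈ B, x ≠ 0 → ∃ n : ℤ, ‖x‖ = (p : ℝ) ^ n := by
  classical
  have key : ∀ T : Finset (PadicAlgCl p), (∀ y ∈ T, y ∈ S) →
      ∀ x ∈ adjoin ℚ_[p] (T : Set (PadicAlgCl p)), ∃ q : ℚ_[p], ‖q‖ = ‖x‖ := by
    intro T
    induction T using Finset.induction_on with
    | empty =>
      intro _ x hx
      rw [Finset.coe_empty, IntermediateField.adjoin_empty, IntermediateField.mem_bot] at hx
      obtain ⟨q, rfl⟩ := hx
      exact ⟨q, (PadicAlgCl.norm_extends p q).symm⟩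
    | insert a T ha ih =>
      intro hT x hx
      obtain ⟨n, h1, h2, h3⟩ := hS a (hT a (Finset.mem_insert_self a T))
      have h4 : x ∈ adjoin ℚ_[p] (T : Set (PadicAlgCl p)) ⊔ ℚ_[p]⟮a⟯ := by
        rw [← IntermediateField.adjoin_union, Set.union_comm]
        rw [Finset.coe_insert, Set.insert_eq] at hx
        exact hx
      obtain ⟨y, hy1, hy2⟩ := unram_norm _ h1 h2 h3 h4
      obtain ⟨q, hq⟩ := ih (fun y hy => hT y (Finset.mem_insert_of_mem hy)) y hy1
      exact ⟨q, hq.trans hy2⟩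
  intro x hx hx0
  rw [hB] at hx
  obtain ⟨T, hT1, hT2⟩ := IntermediateField.exists_finset_of_mem_adjoin hx
  obtain ⟨q, hq⟩ := key T (fun y hy => hT1 hy) x hT2
  have hq0 : q ≠ 0 := by
    intro h
    rw [h, norm_zero] at hq
    exact hx0 (norm_eq_zero.mp hq.symm)
  exact ⟨-q.valuation, by rw [← hq, Padic.norm_eq_zpow_neg_valuation hq0]⟩

end MP4270
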