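import Pool.Agent.Lib_MP_4270a5_nt.LocalMain
import Pool.Agent.Lib_MP_4270a5_nt.Res
import Pool.Agent.Lib_MP_4270a5_nt.KumP
import Pool.Agent.Lib_MP_4270a5_nt.Teich
import Pool.Agent.Lib_MP_4270a5_nt.Unram
import Pool.Agent.Lib_MP_4270a5_nt.LfE

open Polynomial IntermediateField

namespace MP4270

/-- the preimage of a `p`-adic field under `jj p` -/
private noncomputable def ge_comap (p : ℕ) [Fact p.Prime] (E : IntermediateField ℚ_[p] (PadicAlgCl p)) :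
    IntermediateField ℚ Qb where
  carrier := {x | jj p x ∈ E}
  mul_mem' := by
    intro a b ha hb
    simp only [Set.mem_ofPred_eq, map_mul] at *
    exact E.mul_mem ha hb
  one_mem' := by
    simp only [Set.mem_ofPred_eq, map_one]
    exact E.one_mem
  add_mem' := by
    intro a b ha hb
    simp only [Set.mem_ofPred_eq, map_add] at *
    exact E.add_mem ha hb
  zero_mem' := by
    simp only [Set.mem_ofPred_eq, map_zero]
    exact E.zero_mem
  algebraMap_mem' := by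
    intro q
    have h1 : algebraMap ℚ Qb q = (q : Qb) := eq_ratCast _ q
    simp only [Set.mem_ofPred_eq]
    rw [h1, map_ratCast]
    exact SubfieldClass.ratCast_mem E q
  inv_mem' := by
    intro x hx
    simp only [Set.mem_ofPred_eq, map_inv₀] at *
    exact E.inv_mem hx

private lemma mem_ge_comap {p : ℕ} [Fact p.Prime] {E : IntermediateField ℚ_[p] (PadicAlgCl p)} {x : Qb} :
    x ∈ ge_comap p E ↔ jj p x ∈ E := Iff.rfl

private lemma prim_mul {a b : ℕ} (hab : a.Coprime b) {x y : Qb} (hx : IsPrimitiveRoot x a)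
    (hy : IsPrimitiveRoot y b) : IsPrimitiveRoot (x * y) (a * b) := by
  rw [IsPrimitiveRoot.iff_orderOf] at *
  rw [(Commute.all x y).orderOf_mul_eq_mul_orderOf_of_coprime (by rw [hx, hy]; exact hab), hx, hy]

/-- elements of `Lf` are mapped to the Kummer extension of a local field which contains `K` and `μ_m`. -/
private lemma ge_mem (K : IntermediateField ℚ Qb) {r : ℕ} (a : Fin r → Qb) (p : ℕ) [Fact p.Prime]
    {j m n : ℕ} (hm : 0 < m) (hnm : n ∣ m) (hmp : m.Coprime p) {ζ η : Qb}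
    (hζ : IsPrimitiveRoot ζ (p ^ j)) (hη : IsPrimitiveRoot η m) (α : Fin r → Qb)
    (hα : ∀ i, α i ^ (p ^ j * n) = a i) (K' : IntermediateField ℚ_[p] (PadicAlgCl p))
    (hK : ∀ x ∈ K, jj p x ∈ K') (hηK : jj p η ∈ K') :
    ∀ x ∈ Lf K a (p ^ j * m) (p ^ j * n), jj p x ∈ KumL K' (jj p ζ) (fun i => jj p (α i)) := by
  have hp : p.Prime := Fact.out
  have hcop : (p ^ j).Coprime m := (Nat.Coprime.pow_right j hmp).symm
  have hprim : IsPrimitiveRoot (ζ * η) (p ^ j * m) := prim_mul hcop hζ hη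
  have hgen := lf_gen K a (m := p ^ j * m) (n := p ^ j * n) (Nat.mul_pos (pow_pos hp.pos _) hm)
    (Nat.mul_dvd_mul_left _ hnm) hprim α hα
  have hle : Lf K a (p ^ j * m) (p ^ j * n) ≤
      ge_comap p (KumL K' (jj p ζ) (fun i => jj p (α i))) := by
    rw [hgen]
    have hK'le : K' ≤ KumL K' (jj p ζ) (fun i => jj p (α i)) := le_sup_left
    have hadj : adjoin ℚ_[p] ({jj p ζ} ∪ Set.range (fun i => jj p (α i))) ≤
      KumL K' (jj p ζ) (fun i => jj p (α i)) := le_sup_right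
    refine sup_le ?_ ?_
    · intro x hx
      exact hK'le (hK x hx)
    · rw [adjoin_le_iff]
      intro x hx
      rcases hx with hx | ⟨i, rfl⟩
      · rw [Set.mem_singleton_iff] at hx
        subst hx
        show jj p (ζ * η) ∈ KumL K' (jj p ζ) (fun i => jj p (α i))
        rw [map_mul]
        exact mul_mem (hadj (subset_adjoin _ _ (Or.inl rfl))) (hK'le hηK)
      · exact hadj (subset_adjoin _ _ (Or.inr ⟨i, rfl⟩))
  intro x hx
  exact hle hx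

private lemma ge_fd_of_le {p : ℕ} [Fact p.Prime] {E F : IntermediateField ℚ_[p] (PadicAlgCl p)} (h : E ≤ F)
    (hF : FiniteDimensional ℚ_[p] F) : FiniteDimensional ℚ_[p] E := by
  have hi : Function.Injective (IntermediateField.inclusion h).toLinearMap :=
    (IntermediateField.inclusion h).toRingHom.injective
  exact FiniteDimensional.of_injective _ hi

private lemma ge_val (p : ℕ) [Fact p.Prime] (e₁ e₂ d : ℕ) (h1 : 0 < e₁) (h1d : e₁ ≤ d) (h2 : e₂.Coprime p) :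
    padicValNat p (e₁ * e₂) ≤ d := by
  have hp : p.Prime := Fact.out
  have he2 : e₂ ≠ 0 := by
    rintro rfl
    rw [Nat.coprime_zero_left] at h2
    exact hp.one_lt.ne' h2
  have h3 : ¬ p ∣ e₂ := by
    intro h
    have := Nat.dvd_gcd h (dvd_refl p)
    rw [h2] at this
    exact hp.one_lt.ne' (Nat.dvd_one.mp this)
  rw [padicValNat.mul h1.ne' he2, padicValNat.eq_zero_of_not_dvd h3, add_zero]
  have h4 : p ^ padicValNat p e₁ ∣ e₁ := pow_padicValNat_dvd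
  have h5 : p ^ padicValNat p e₁ ≤ e₁ := Nat.le_of_dvd h1 h4
  have h6 : padicValNat p e₁ < p ^ padicValNat p e₁ := Nat.lt_pow_self hp.one_lt
  omega

private lemma ge_norm (p : ℕ) [Fact p.Prime] (t : ℝ) (ht : 0 ≤ t) (n : ℕ) (hn : 0 < n) (c : ℕ)
    (h1 : (p : ℝ) ^ (-(c : ℝ)) ≤ t ^ n) (h2 : t ^ n ≤ (p : ℝ) ^ (c : ℝ)) :
    (p : ℝ) ^ (-(c : ℝ)) ≤ t ∧ t ≤ (p : ℝ) ^ (c : ℝ) := by
  have hp1 : (1 : ℝ) ≤ p := by exact_mod_cast (Fact.out : p.Prime).one_lt.le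
  have hc1 : (1 : ℝ) ≤ (p : ℝ) ^ (c : ℝ) := Real.one_le_rpow hp1 (Nat.cast_nonneg c)
  have hc2 : (p : ℝ) ^ (-(c : ℝ)) ≤ 1 :=
    Real.rpow_le_one_of_one_le_of_nonpos hp1 (by simp)
  rcases le_total t 1 with h | h
  · refine ⟨h1.trans ?_, h.trans hc1⟩
    calc t ^ n ≤ t ^ 1 := pow_le_pow_of_le_one ht h hn
      _ = t := pow_one t
  · refine ⟨hc2.trans h, le_trans ?_ h2⟩
    calc t = t ^ 1 := (pow_one t).symm
      _ ≤ t ^ n := pow_le_pow_right₀ h hn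

private lemma ge_c (p : ℕ) [Fact p.Prime] {r : ℕ} (a : Fin r → Qb) (ha0 : ∀ i, a i ≠ 0) :
    ∃ c : ℕ, ∀ i, (p : ℝ) ^ (-(c : ℝ)) ≤ ‖jj p (a i)‖ ∧ ‖jj p (a i)‖ ≤ (p : ℝ) ^ (c : ℝ) := by
  have hp1 : (1 : ℝ) < p := by exact_mod_cast (Fact.out : p.Prime).one_lt
  have hex : ∀ i, ∃ c : ℕ, ∀ c' : ℕ, c ≤ c' →
      (p : ℝ) ^ (-(c' : ℝ)) ≤ ‖jj p (a i)‖ ∧ ‖jj p (a i)‖ ≤ (p : ℝ) ^ (c' : ℝ) := by
    intro i
    have h0 : 0 < ‖jj p (a i)‖ := by
      rw [norm_pos_iff, Ne, map_eq_zero]; exact ha0 i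
    obtain ⟨c1, hc1⟩ := pow_unbounded_of_one_lt ‖jj p (a i)‖ hp1
    obtain ⟨c2, hc2⟩ := pow_unbounded_of_one_lt (‖jj p (a i)‖)⁻¹ hp1
    refine ⟨max c1 c2, fun c' hc' => ⟨?_, ?_⟩⟩
    · rw [Real.rpow_neg (by linarith), Real.rpow_natCast]
      rw [inv_le_comm₀ (by positivity) h0]
      exact hc2.le.trans (pow_le_pow_right₀ hp1.le ((le_max_right _ _).trans hc'))
    · rw [Real.rpow_natCast]
      exact hc1.le.trans (pow_le_pow_right₀ hp1.le ((le_max_left _ _).trans hc'))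
  choose c hc using hex
  refine ⟨Finset.univ.sup c, fun i => hc i _ (Finset.le_sup (Finset.mem_univ i))⟩

/-- THE GOOD AUTOMORPHISM. `d = [K : ℚ]`, `c` with `p^(-c) ≤ ‖jj a_i‖ ≤ p^c`; `m₀, δ` from `local_main p r d c c'`, `k₀` the
maximum of the one of `local_main` and `m₀ + 2`. Take `α_i ∈ Qb` with `α_i^(p^k n) = a_i`; `L = ℚ_p(jj Lf_k)`
(finite, `loc_fd`), `B` = `ℚ_p(roots of unity of L of order prime to p)` (`unram_value`), `K' = B ⊔ ℚ_p(jj K) ⊔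
ℚ_p(jj α_i^(p^k))`. By `lf_gen`, `L = KumL K' (jj ζ) (jj α)` (the `m`-th roots of unity of `L` are in `B`); `ResTriv B L` by
`resTriv_of_roots`; `[K' : ℚ_p] = [B : ℚ_p] e₁ e₂` with `e₁ ≤ d` (`deg_sup`, `loc_fd`), `e₂` prime to `p` (`kum_prime` with
`n`), so `v_p(e₁ e₂) ≤ d`; `‖jj α_i^(p^k)‖ = ‖jj a_i‖^(1/n)`. Restrict `ρ` to `Qb` (`restrict_jj`). It fixes `Lf_(k-m₀)`, which
is generated (`lf_gen`) by `K`, a primitive `p^(k-m₀) m`-th root of unity and the `α_i^(p^m₀)`. -/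
theorem good_elt (K : IntermediateField ℚ Qb) [FiniteDimensional ℚ K] {r : ℕ} (a : Fin r → Qb)
    (ha : ∀ i, a i ∈ K) (ha0 : ∀ i, a i ≠ 0) (p : ℕ) [Fact p.Prime] (c' : ℕ) :
    ∃ m₀ k₀ : ℕ, ∃ δ : ℝ, 0 < δ ∧ m₀ + 2 ≤ k₀ ∧ ∀ k m n : ℕ, k₀ ≤ k → 0 < m → 0 < n → n ∣ m →
      m.Coprime p → ∀ ζ : Qb, IsPrimitiveRoot ζ (p ^ k) →
      ∃ (h : Qb ≃ₐ[ℚ] Qb) (i u : ℕ), i ≤ m₀ ∧ m₀ + 1 + c' ≤ 2 * i ∧ ¬ p ∣ u ∧
        (∀ x ∈ Lf K a (p ^ (k - m₀) * m) (p ^ (k - m₀) * n), h x = x) ∧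
        h ζ = ζ ^ (1 + p ^ (k - i) * u) ∧
        ∀ x ∈ Lf K a (p ^ k * m) (p ^ k * n), ‖jj p (h x) - jj p x‖ ≤ (p : ℝ) ^ (-δ) * ‖jj p x‖ := by
  have hp : p.Prime := Fact.out
  obtain ⟨c, hc⟩ := ge_c p a ha0
  obtain ⟨m₀, k₀, δ, hδ, hmk, hmain⟩ := local_main p r (Module.finrank ℚ K) c c'
  refine ⟨m₀, max k₀ (m₀ + 2), δ, hδ, le_max_right _ _, ?_⟩
  intro k m n hk hm hn hnm hmp ζ hζ
  have hk0 : k₀ ≤ k := (le_max_left _ _).trans hk
  have hkm : m₀ ≤ k := by have := (le_max_right k₀ (m₀ + 2)).trans hk; omega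
  -- the numbers α
  have hN' : 0 < p ^ k * n := Nat.mul_pos (pow_pos hp.pos _) hn
  have hex : ∀ i, ∃ y : Qb, y ^ (p ^ k * n) = a i := fun i =>
    IsAlgClosed.exists_pow_nat_eq (a i) hN'
  choose α hα using hex
  obtain ⟨η, hη⟩ : ∃ η : Qb, IsPrimitiveRoot η m := by
    have : NeZero m := ⟨hm.ne'⟩
    have : NeZero (m : Qb) := ⟨Nat.cast_ne_zero.mpr hm.ne'⟩
    exact HasEnoughRootsOfUnity.exists_primitiveRoot Qb m
  have hinj : Function.Injective (jj p) := (jj p).injective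
  have hηj : IsPrimitiveRoot (jj p η) m := hη.map_of_injective hinj
  have hζj : IsPrimitiveRoot (jj p ζ) (p ^ k) := hζ.map_of_injective hinj
  set Lk : IntermediateField ℚ Qb := Lf K a (p ^ k * m) (p ^ k * n) with hLk
  have hLkfd : FiniteDimensional ℚ Lk := lf_fd K a (Nat.mul_pos (pow_pos hp.pos _) hm) hN'
  -- generators of Lk
  have hcop : (p ^ k).Coprime m := (Nat.Coprime.pow_right k hmp).symm
  have hprim : IsPrimitiveRoot (ζ * η) (p ^ k * m) := prim_mul hcop hζ hη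
  have hgen : Lk = K ⊔ adjoin ℚ ({ζ * η} ∪ Set.range α) :=
    lf_gen K a (m := p ^ k * m) (n := p ^ k * n) (Nat.mul_pos (pow_pos hp.pos _) hm)
    (Nat.mul_dvd_mul_left _ hnm) hprim α hα
  have hKL : K ≤ Lk := lf_le K a _ _
  have hrootL : ∀ x : Qb, x ^ (p ^ k * m) = 1 → x ∈ Lk := by
    intro x hx
    have : x ∈ adjoin ℚ ({x | x ^ (p ^ k * m) = 1} ∪ {x | ∃ i, x ^ (p ^ k * n) = a i}) :=
      subset_adjoin _ _ (Or.inl hx)
    exact (le_sup_right : _ ≤ Lk) this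
  have hαL : ∀ i, α i ∈ Lk := by
    intro i
    have : α i ∈ adjoin ℚ ({x | x ^ (p ^ k * m) = 1} ∪ {x | ∃ i, x ^ (p ^ k * n) = a i}) :=
      subset_adjoin _ _ (Or.inr ⟨i, hα i⟩)
    exact (le_sup_right : _ ≤ Lk) this
  have hζL : ζ ∈ Lk := hrootL ζ (by rw [pow_mul, hζ.pow_eq_one, one_pow])
  have hηL : η ∈ Lk := hrootL η (by rw [mul_comm, pow_mul, hη.pow_eq_one, one_pow])
  -- the local field L
  set L : IntermediateField ℚ_[p] (PadicAlgCl p) := adjoin ℚ_[p] (jj p '' (Lk : Set Qb)) with hL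
  have hLfd : FiniteDimensional ℚ_[p] L := (loc_fd (p := p) Lk).1
  have hjL : ∀ x ∈ Lk, jj p x ∈ L := fun x hx => subset_adjoin _ _ ⟨x, hx, rfl⟩
  set S : Set (PadicAlgCl p) := {y | y ∈ L ∧ ∃ n : ℕ, 0 < n ∧ n.Coprime p ∧ y ^ n = 1} with hS
  set B : IntermediateField ℚ_[p] (PadicAlgCl p) := adjoin ℚ_[p] S with hB
  have hBL : B ≤ L := by
    rw [hB, adjoin_le_iff]
    intro y hy
    exact hy.1
  have hBfd : FiniteDimensional ℚ_[p] B := ge_fd_of_le hBL hLfd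
  have hSB : ∀ y ∈ L, (∃ n : ℕ, 0 < n ∧ n.Coprime p ∧ y ^ n = 1) → y ∈ B :=
    fun y hy h => subset_adjoin _ _ ⟨hy, h⟩
  have hBval := unram_value B S (fun y hy => hy.2) hB
  have hBres : ResTriv B L := resTriv_of_roots B L hBL hSB
  have hηB : jj p η ∈ B := hSB _ (hjL η hηL) ⟨m, hm, hmp, hηj.pow_eq_one⟩
  -- the field E = ℚ_p(jj K)
  set E : IntermediateField ℚ_[p] (PadicAlgCl p) := adjoin ℚ_[p] (jj p '' (K : Set Qb)) with hE
  obtain ⟨hEfd, hEdeg⟩ := loc_fd (p := p) K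
  have : FiniteDimensional ℚ_[p] E := hEfd
  have hKE : ∀ x ∈ K, jj p x ∈ E := fun x hx => subset_adjoin _ _ ⟨x, hx, rfl⟩
  have hEL : E ≤ L := by
    rw [hE, adjoin_le_iff]
    rintro _ ⟨x, hx, rfl⟩
    exact hjL x (hKL hx)
  -- the field K'
  set R : IntermediateField ℚ_[p] (PadicAlgCl p) :=
    adjoin ℚ_[p] (Set.range (fun i => jj p (α i) ^ p ^ k)) with hR
  have hRL : R ≤ L := by
    rw [hR, adjoin_le_iff]
    rintro _ ⟨i, rfl⟩
    exact pow_mem (hjL _ (hαL i)) _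
  set K' : IntermediateField ℚ_[p] (PadicAlgCl p) := (B ⊔ E) ⊔ R with hK'
  have hK'L : K' ≤ L := sup_le (sup_le hBL hEL) hRL
  have hK'fd : FiniteDimensional ℚ_[p] K' := ge_fd_of_le hK'L hLfd
  have hBEfd : FiniteDimensional ℚ_[p] (↥(B ⊔ E)) := ge_fd_of_le (sup_le hBL hEL) hLfd
  have hBK' : B ≤ K' := le_sup_left.trans le_sup_left
  have hKK' : ∀ x ∈ K, jj p x ∈ K' := fun x hx =>
    (le_sup_right.trans le_sup_left : E ≤ K') (hKE x hx)
  have hnp : n.Coprime p := Nat.Coprime.coprime_dvd_left hnm hmp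
  -- degree
  obtain ⟨e₁, he1, he1d, hdeg1⟩ := deg_sup B E
  obtain ⟨e₂, he2, hdeg2⟩ := kum_prime (B ⊔ E) hn hnp (by
    intro x hx
    have hxm : x ^ m = 1 := by
      obtain ⟨q, rfl⟩ := hnm
      rw [pow_mul, hx, one_pow]
    have : NeZero m := ⟨hm.ne'⟩
    obtain ⟨j, _, hj⟩ := hηj.eq_pow_of_pow_eq_one hxm
    rw [← hj]
    exact pow_mem ((le_sup_left : B ≤ B ⊔ E) hηB) j) (fun i => jj p (α i) ^ p ^ k) (by
    intro i
    have : (jj p (α i) ^ p ^ k) ^ n = jj p (a i) := by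
      rw [← pow_mul, ← map_pow, hα]
    simp only [this]
    exact (le_sup_right : E ≤ B ⊔ E) (hKE _ (ha i)))
  have hdeg : Module.finrank ℚ_[p] K' = Module.finrank ℚ_[p] B * (e₁ * e₂) := by
    rw [← mul_assoc, ← hdeg1, ← hdeg2]
  have hval : padicValNat p (e₁ * e₂) ≤ Module.finrank ℚ K :=
    ge_val p e₁ e₂ _ he1 (he1d.trans hEdeg) he2
  have hKumL : KumL K' (jj p ζ) (fun i => jj p (α i)) ≤ L := by
    refine sup_le hK'L ?_
    rw [adjoin_le_iff]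
    intro x hx
    rcases hx with hx | ⟨i, rfl⟩
    · rw [Set.mem_singleton_iff] at hx
      subst hx
      exact hjL ζ hζL
    · exact hjL _ (hαL i)
  have hres : ResTriv B (KumL K' (jj p ζ) (fun i => jj p (α i))) := by
    refine ⟨hBK'.trans le_sup_left, ?_⟩
    intro x hx h1
    exact hBres.2 x (hKumL hx) h1
  obtain ⟨ρ, i, u, hi, hic, hu, hρ1, hρ2, hρ3⟩ := hmain B K' (e₁ * e₂) k (jj p ζ)
    (fun i => jj p (α i)) hk0 hBK' hBval hdeg hval hζj
    (by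
      intro i
      exact (le_sup_right : R ≤ K') (subset_adjoin _ _ ⟨i, rfl⟩))
    (by
      intro i
      apply ge_norm p _ (norm_nonneg _) n hn c
      · rw [← norm_pow]
        have : (jj p (α i) ^ p ^ k) ^ n = jj p (a i) := by
          rw [← pow_mul, ← map_pow, hα]
        rw [this]
        exact (hc i).1
      · rw [← norm_pow]
        have : (jj p (α i) ^ p ^ k) ^ n = jj p (a i) := by
          rw [← pow_mul, ← map_pow, hα]
        rw [this]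
        exact (hc i).2)
    hres
  obtain ⟨h, hh⟩ := restrict_jj ρ
  refine ⟨h, i, u, hi, hic, hu, ?_, ?_, ?_⟩
  · intro x hx
    apply hinj
    rw [hh]
    apply hρ1
    have hζ' : IsPrimitiveRoot (ζ ^ p ^ m₀) (p ^ (k - m₀)) := by
      apply hζ.pow (pow_pos hp.pos _)
      rw [← pow_add]
      congr 1
      omega
    have hα' : ∀ i, (α i ^ p ^ m₀) ^ (p ^ (k - m₀) * n) = a i := by
      intro i
      rw [← pow_mul, ← mul_assoc, ← pow_add, show m₀ + (k - m₀) = k by omega, hα]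
    have h1 := ge_mem K a p (j := k - m₀) hm hnm hmp hζ' hη (fun i => α i ^ p ^ m₀) hα' K'
      hKK' (hBK' hηB) x hx
    simpa only [map_pow] using h1
  · apply hinj
    rw [hh, hρ2, map_pow]
  · intro x hx
    rw [hh]
    exact hρ3 _ (ge_mem K a p (j := k) hm hnm hmp hζ hη α hα K' hKK' (hBK' hηB) x hx)

end MP4270
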