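import Pool.Agent.Lib_MP_4270a5_nt.GrpA
import Pool.Agent.Lib_MP_4270a5_nt.LfE

open Polynomial IntermediateField

namespace MP4270

theorem grp_mem_K (K : IntermediateField ℚ Qb) {r : ℕ} (a : Fin r → Qb) (m n : ℕ) {x : Qb}
    (hx : x ∈ K) : x ∈ Lf K a m n := (le_sup_left : K ≤ Lf K a m n) hx

theorem grp_mem_mu (K : IntermediateField ℚ Qb) {r : ℕ} (a : Fin r → Qb) (m n : ℕ) {x : Qb}
    (hx : x ^ m = 1) : x ∈ Lf K a m n := by
  refine (le_sup_right : _ ≤ Lf K a m n) ?_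
  exact subset_adjoin _ _ (Or.inl hx)

/-- powers of an automorphism of Kummer type -/
theorem grp_pow_shape (g : Qb ≃ₐ[ℚ] Qb) {ζ : Qb} {A : ℕ} (hg : g ζ = ζ ^ A) {x : Qb} {W t : ℕ}
    (hx : g x = ζ ^ (W * t) * x) (v : ℕ) :
    (g ^ v) ζ = ζ ^ A ^ v ∧ ∃ t' : ℕ, (g ^ v) x = ζ ^ (W * t') * x := by
  induction v with
  | zero => exact ⟨by simp, 0, by simp⟩
  | succ v ih =>
    obtain ⟨h1, t', h2⟩ := ih
    refine ⟨?_, A * t' + t, ?_⟩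
    · rw [pow_succ', AlgEquiv.mul_apply, h1, map_pow, hg, ← pow_mul, pow_succ']
    · rw [pow_succ', AlgEquiv.mul_apply, h2, map_mul, map_pow, hg, hx, ← mul_assoc, ← pow_mul,
        ← pow_add]
      congr 2
      ring

theorem grp_pow_eq {p k : ℕ} {ζ : Qb} (hζ : IsPrimitiveRoot ζ (p ^ k)) {s t : ℤ}
    (hst : ((p ^ k : ℕ) : ℤ) ∣ s - t) : ζ ^ s = ζ ^ t := by
  obtain ⟨q, hq⟩ := hst
  have hs : s = t + ((p ^ k : ℕ) : ℤ) * q := by linarith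
  by_cases h0 : ζ = 0
  · subst h0
    have : (0 : Qb) ^ (p ^ k) = 1 := hζ.pow_eq_one
    by_cases hpk : p ^ k = 0
    · rw [hpk] at hs
      simp at hs
      rw [hs]
    · rw [zero_pow hpk] at this
      exact absurd this zero_ne_one
  · rw [hs, zpow_add₀ h0, zpow_mul, zpow_natCast, hζ.pow_eq_one, one_zpow, mul_one]

/-- `(1 + p^(k-1) u')^v ≡ 1 + p^(k-1) v₀` modulo `p^k` for a suitable `v` -/
theorem grp_exists_v {p : ℕ} (hp : p.Prime) {k u' v₀ : ℕ} (hk : 2 ≤ k) (hu : ¬ p ∣ u') :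
    ∃ v : ℕ, ((p ^ k : ℕ) : ℤ) ∣ ((1 + p ^ (k - 1) * u' : ℕ) : ℤ) ^ v -
      ((1 + p ^ (k - 1) * v₀ : ℕ) : ℤ) := by
  have hcop : IsCoprime ((u' : ℕ) : ℤ) (p : ℤ) := by
    rw [Nat.isCoprime_iff_coprime]
    exact ((Nat.Prime.coprime_iff_not_dvd hp).2 hu).symm
  obtain ⟨x, y, hxy⟩ := hcop
  -- a natural number `v` with `v u' ≡ v₀` modulo `p`
  have hp0 : (p : ℤ) ≠ 0 := by exact_mod_cast hp.ne_zero
  set v : ℕ := ((x * v₀) % p).toNat with hv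
  have hvz : (v : ℤ) = (x * v₀) % p := Int.toNat_of_nonneg (Int.emod_nonneg _ hp0)
  have hvu : (p : ℤ) ∣ v * u' - v₀ := by
    have h1 : (p : ℤ) ∣ x * v₀ - v := by
      rw [hvz]
      exact ⟨(x * v₀) / p, by linarith [Int.emod_add_mul_ediv (x * v₀) (p : ℤ)]⟩
    obtain ⟨q, hq⟩ := h1
    refine ⟨-y * v₀ - q * u', ?_⟩
    have : (v : ℤ) = x * v₀ - p * q := by linarith
    rw [this]
    linear_combination (v₀ : ℤ) * hxy
  refine ⟨v, ?_⟩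
  obtain ⟨q, hq⟩ := hvu
  set P : ℤ := ((p ^ (k - 1) : ℕ) : ℤ) with hP
  have hPk : ((p ^ k : ℕ) : ℤ) = P * p := by
    rw [hP]
    push_cast
    rw [← pow_succ]
    congr 1
    omega
  have hPP : ((p ^ k : ℕ) : ℤ) ∣ P * P := by
    rw [hPk]
    refine mul_dvd_mul_left P ?_
    rw [hP]
    push_cast
    exact dvd_pow_self _ (by omega)
  -- binomial
  have hbin : ∀ w : ℕ, ((p ^ k : ℕ) : ℤ) ∣ (1 + P * u') ^ w - (1 + P * (w * u')) := by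
    intro w
    induction w with
    | zero => simp
    | succ w ih =>
      obtain ⟨c, hc⟩ := ih
      obtain ⟨d, hd⟩ := hPP
      refine ⟨c * (1 + P * u') + d * (w * u' * u'), ?_⟩
      rw [pow_succ]
      have : (1 + P * (u' : ℤ)) ^ w = 1 + P * (w * u') + ((p ^ k : ℕ) : ℤ) * c := by linarith
      rw [this]
      push_cast at hd ⊢
      linear_combination ((w : ℤ) * u' * u') * hd
  have h2 := hbin v
  have e1 : (((1 + p ^ (k - 1) * u' : ℕ) : ℤ)) = 1 + P * u' := by rw [hP]; push_cast; ring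
  have e2 : (((1 + p ^ (k - 1) * v₀ : ℕ) : ℤ)) = 1 + P * v₀ := by rw [hP]; push_cast; ring
  rw [e1, e2]
  have e3 : (1 + P * (u' : ℤ)) ^ v - (1 + P * v₀) =
      ((1 + P * (u' : ℤ)) ^ v - (1 + P * (v * u'))) + P * (v * u' - v₀) := by ring
  rw [e3, hq]
  refine dvd_add h2 ?_
  rw [hPk]
  exact ⟨q, by ring⟩

/-- THE CONJUGATES OF THE GOOD AUTOMORPHISM GENERATE. Let `σ` fix `Lf_(k-1)`: `σ ζ = ζ^(1 + p^(k-1) v₀)`,
`σ α_j = ζ^(p^(k-1) v_j) α_j` (`lf_shape`). By `commutator_kummer` (note `c h c⁻¹ ∈ H`, `h ∈ H`) and `hc`, `H` contains for all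
integers `e_j` an element which fixes `K`, `μ_m`, `ζ` and maps `α_j` to `ζ^(-p^(k-i+c') u e_j) α_j`; since `p ∤ u`, also (multiply by
powers) to `ζ^(p^(k-i+c') e_j) α_j` for all `e_j` (`u` is invertible modulo `p^k`). By `power_kummer` (`i ≥ c' + 1`
follows from `i ≤ m₀`, `m₀ + 1 + c' ≤ 2 i`; `i + 2 ≤ k`) and a power `v` of the element (`v u' ≡ v₀` modulo `p`), `H` contains an element with
`ζ ↦ ζ^(1 + p^(k-1) v₀)` and `α_j ↦ ζ^(p^(k-m₀+i-1) t'_j) α_j`, `k - m₀ + i - 1 ≥ k - i + c'`. Multiply with an element of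
the first kind: it agrees with `σ` on `K`, `μ_m`, `ζ`, `α_j`, so on `Lf_k` (`lf_ext`); `H1`. -/
theorem group_gen (K : IntermediateField ℚ Qb) {r : ℕ} (a : Fin r → Qb)
    (ha : ∀ i, a i ∈ K) (ha0 : ∀ i, a i ≠ 0) (p : ℕ) [Fact p.Prime] {k m n m₀ c' i u : ℕ}
    (hk : m₀ + 2 ≤ k) (hm : 0 < m) (hn : 0 < n) (hnm : n ∣ m) (hmp : m.Coprime p) {ζ : Qb}
    (hζ : IsPrimitiveRoot ζ (p ^ k)) (α : Fin r → Qb) (hα : ∀ j, α j ^ (p ^ k * n) = a j)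
    (hi : i ≤ m₀) (h2i : m₀ + 1 + c' ≤ 2 * i) (hu : ¬ p ∣ u) (h : Qb ≃ₐ[ℚ] Qb)
    (hh : ∀ x ∈ Lf K a (p ^ (k - m₀) * m) (p ^ (k - m₀) * n), h x = x)
    (hhζ : h ζ = ζ ^ (1 + p ^ (k - i) * u))
    (hc : ∀ e : Fin r → ℤ, ∃ c : Qb ≃ₐ[ℚ] Qb, (∀ x ∈ K, c x = x) ∧ c ζ = ζ ∧
      ∀ j, c (α j) = ζ ^ ((p : ℤ) ^ c' * e j) * α j)
    (H : Subgroup (Qb ≃ₐ[ℚ] Qb))
    (H1 : ∀ σ : Qb ≃ₐ[ℚ] Qb, (∀ x ∈ Lf K a (p ^ k * m) (p ^ k * n), σ x = x) → σ ∈ H)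
    (H2 : ∀ τ : Qb ≃ₐ[ℚ] Qb, (∀ x ∈ K, τ x = x) → τ * h * τ⁻¹ ∈ H) :
    ∀ σ : Qb ≃ₐ[ℚ] Qb, (∀ x ∈ Lf K a (p ^ (k - 1) * m) (p ^ (k - 1) * n), σ x = x) → σ ∈ H := by
  have hpp : p.Prime := Fact.out
  have hζ0 : ζ ≠ 0 := hζ.ne_zero (pow_ne_zero _ hpp.ne_zero)
  have hi1 : c' + 1 ≤ i := by omega
  have hik : i + 2 ≤ k := by omega
  have hmk : m₀ ≤ k := by omega
  have h1k : 1 ≤ k := by omega
  have hp1 : ∀ e : ℕ, 0 < p ^ e := fun e => pow_pos hpp.pos e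
  -- `h` in `H`
  have hH : h ∈ H := by
    have := H2 1 (fun x _ => rfl)
    simpa using this
  have hhK : ∀ x ∈ K, h x = x := fun x hx => hh x (grp_mem_K K a _ _ hx)
  have hhmu : ∀ x : Qb, x ^ m = 1 → h x = x := fun x hx =>
    hh x (grp_mem_mu K a _ _ (by rw [mul_comm, pow_mul, hx, one_pow]))
  obtain ⟨-, hht⟩ := lf_shape K a ha0 hpp hmk hm hn hζ α hα h hh
  choose t ht using hht
  -- the power of `h`
  obtain ⟨⟨u', hu', hpζ⟩, hpα⟩ := power_kummer p h hζ.pow_eq_one (by omega) hik hu hhζ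
  have hpα' : ∀ j, ∃ t' : ℕ, (h ^ p ^ (i - 1)) (α j) = ζ ^ (p ^ (k - m₀ + i - 1) * t') * α j :=
    fun j => hpα (α j) (k - m₀) (t j) (ht j)
  choose t' ht' using hpα'
  intro σ hσ
  obtain ⟨⟨v₀, hv₀⟩, hσα⟩ := lf_shape K a ha0 hpp h1k hm hn hζ α hα σ hσ
  choose vv hvv using hσα
  obtain ⟨v, hv⟩ := grp_exists_v hpp (v₀ := v₀) (by omega : 2 ≤ k) hu'
  set h' : Qb ≃ₐ[ℚ] Qb := (h ^ p ^ (i - 1)) ^ v with hh'
  have hh'H : h' ∈ H := pow_mem (pow_mem hH _) _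
  have hfixpow : ∀ (g : Qb ≃ₐ[ℚ] Qb) (x : Qb), g x = x → ∀ w : ℕ, (g ^ w) x = x := by
    intro g x hx w
    induction w with
    | zero => rfl
    | succ w ih => rw [pow_succ', AlgEquiv.mul_apply, ih, hx]
  have hh'K : ∀ x ∈ K, h' x = x := fun x hx =>
    hfixpow _ x (hfixpow h x (hhK x hx) _) _
  have hh'mu : ∀ x : Qb, x ^ m = 1 → h' x = x := fun x hx =>
    hfixpow _ x (hfixpow h x (hhmu x hx) _) _
  have hh'ζ : h' ζ = ζ ^ (1 + p ^ (k - 1) * v₀) := by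
    have h1 := (grp_pow_shape (h ^ p ^ (i - 1)) hpζ (x := 0) (W := 0) (t := 0) (by simp) v).1
    rw [hh', h1]
    have h2 := grp_pow_eq hζ (s := (((1 + p ^ (k - 1) * u' : ℕ) : ℤ)) ^ v)
      (t := ((1 + p ^ (k - 1) * v₀ : ℕ) : ℤ)) hv
    have e : (((1 + p ^ (k - 1) * u' : ℕ) : ℤ)) ^ v = (((1 + p ^ (k - 1) * u') ^ v : ℕ) : ℤ) := by
      push_cast
      ring
    rw [e, zpow_natCast, zpow_natCast] at h2
    exact h2
  have hh'α : ∀ j, ∃ s : ℕ, h' (α j) = ζ ^ (p ^ (k - m₀ + i - 1) * s) * α j := fun j =>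
    (grp_pow_shape (h ^ p ^ (i - 1)) hpζ (ht' j) v).2
  choose s hs using hh'α
  -- the inverse of `u` modulo `p^k`
  have hcop : IsCoprime ((u : ℕ) : ℤ) (((p ^ k : ℕ)) : ℤ) := by
    rw [Nat.isCoprime_iff_coprime]
    exact (((Nat.Prime.coprime_iff_not_dvd hpp).2 hu).symm).pow_right k
  obtain ⟨x, y, hxy⟩ := hcop
  set d : Fin r → ℤ := fun j => (p : ℤ) ^ (i - 1 - c') * vv j -
    (p : ℤ) ^ (2 * i - 1 - m₀ - c') * s j with hd
  obtain ⟨c, hcK, hcζ, hcα⟩ := hc (fun j => -x * d j)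
  set g : Qb ≃ₐ[ℚ] Qb := c * h * c⁻¹ * h⁻¹ with hg
  have hgH : g ∈ H := H.mul_mem (H2 c hcK) (H.inv_mem hH)
  have hinv : ∀ (g : Qb ≃ₐ[ℚ] Qb) (x : Qb), g x = x → g⁻¹ x = x := by
    intro g x hx
    have : g⁻¹ (g x) = x := by
      rw [← AlgEquiv.mul_apply, inv_mul_cancel]
      rfl
    rwa [hx] at this
  have hgK : ∀ x ∈ K, g x = x := by
    intro x hx
    rw [hg, AlgEquiv.mul_apply, AlgEquiv.mul_apply, AlgEquiv.mul_apply, hinv h x (hhK x hx),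
      hinv c x (hcK x hx), hhK x hx, hcK x hx]
  have hgmu : ∀ x : Qb, x ^ m = 1 → g x = x := by
    intro x hx
    have h1 : (c⁻¹ x) ^ m = 1 := by rw [← map_pow, hx, map_one]
    rw [hg, AlgEquiv.mul_apply, AlgEquiv.mul_apply, AlgEquiv.mul_apply, hinv h x (hhmu x hx),
      hhmu _ h1, ← AlgEquiv.mul_apply, mul_inv_cancel]
    rfl
  have hgζα : ∀ j, g ζ = ζ ∧ g (α j) = ζ ^ (-((p ^ (k - i) * u : ℕ) : ℤ) *
      ((p : ℤ) ^ c' * (-x * d j))) * α j := by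
    intro j
    refine commutator_kummer c h hζ0 (t := ((p ^ (k - m₀) * t j : ℕ) : ℤ)) hcζ (hcα j) hhζ ?_
    rw [zpow_natCast]
    exact ht j
  have hgζ : g ζ = ζ := by
    rw [hg, AlgEquiv.mul_apply, AlgEquiv.mul_apply, AlgEquiv.mul_apply]
    have hz : ∃ q : ℕ, h⁻¹ ζ = ζ ^ q := by
      have h1 : (h⁻¹ ζ) ^ (p ^ k) = 1 := by rw [← map_pow, hζ.pow_eq_one, map_one]
      obtain ⟨q, -, hq⟩ := hζ.eq_pow_of_pow_eq_one h1
      exact ⟨q, hq.symm⟩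
    obtain ⟨q, hq⟩ := hz
    have h2 : h (h⁻¹ ζ) = ζ := by
      rw [← AlgEquiv.mul_apply, mul_inv_cancel]
      rfl
    rw [hq, map_pow, hinv c ζ hcζ]
    rw [hq] at h2
    rw [h2, hcζ]
  -- the product
  set τ : Qb ≃ₐ[ℚ] Qb := g * h' with hτ
  have hτH : τ ∈ H := H.mul_mem hgH hh'H
  have hagree := lf_ext K a hpp hm hnm hmp hζ α hα σ τ
    (fun x hx => by
      rw [hτ, AlgEquiv.mul_apply, hh'K x hx, hgK x hx]
      exact hσ x (grp_mem_K K a _ _ hx))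
    (fun x hx => by
      rw [hτ, AlgEquiv.mul_apply, hh'mu x hx, hgmu x hx]
      exact hσ x (grp_mem_mu K a _ _ (by rw [mul_comm, pow_mul, hx, one_pow])))
    (by
      rw [hτ, AlgEquiv.mul_apply, hh'ζ, map_pow, hgζ]
      exact hv₀)
    (fun j => by
      rw [hτ, AlgEquiv.mul_apply, hs j, map_mul, map_pow, hgζ, (hgζα j).2, hvv j, ← mul_assoc,
        ← zpow_natCast, ← zpow_natCast, ← zpow_add₀ hζ0]
      congr 1
      refine grp_pow_eq hζ ?_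
      have e1 : ((p ^ (k - 1) * vv j : ℕ) : ℤ) = (p : ℤ) ^ (k - i) * (p : ℤ) ^ c' *
          ((p : ℤ) ^ (i - 1 - c') * vv j) := by
        rw [← mul_assoc, ← pow_add, ← pow_add]
        push_cast
        congr 2
        omega
      have e2 : ((p ^ (k - m₀ + i - 1) * s j : ℕ) : ℤ) = (p : ℤ) ^ (k - i) * (p : ℤ) ^ c' *
          ((p : ℤ) ^ (2 * i - 1 - m₀ - c') * s j) := by
        rw [← mul_assoc, ← pow_add, ← pow_add]
        push_cast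
        congr 2
        omega
      rw [e1, e2]
      refine ⟨(p : ℤ) ^ (k - i) * (p : ℤ) ^ c' * y * d j, ?_⟩
      have e3 : (p : ℤ) ^ (i - 1 - c') * vv j = d j + (p : ℤ) ^ (2 * i - 1 - m₀ - c') * s j := by
        rw [hd]
        ring
      rw [e3]
      push_cast at hxy ⊢
      linear_combination (-(p : ℤ) ^ (k - i) * (p : ℤ) ^ c' * d j) * hxy)
  have hfin : τ⁻¹ * σ ∈ H := by
    refine H1 _ fun x hx => ?_
    rw [AlgEquiv.mul_apply, hagree x hx, ← AlgEquiv.mul_apply, inv_mul_cancel]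
    rfl
  have : σ = τ * (τ⁻¹ * σ) := by group
  rw [this]
  exact H.mul_mem hτH hfin

end MP4270
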