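import Pool.Agent.Lib_MP_4270a5_nt.Defs

open Polynomial IntermediateField

namespace MP4270

theorem ga_inv_apply (g : Qb ≃ₐ[ℚ] Qb) (x : Qb) : g (g⁻¹ x) = x := by
  rw [← AlgEquiv.mul_apply, mul_inv_cancel]
  rfl

theorem ga_apply_inv (g : Qb ≃ₐ[ℚ] Qb) (x : Qb) : g⁻¹ (g x) = x := by
  rw [← AlgEquiv.mul_apply, inv_mul_cancel]
  rfl

/-- the orbit of an algebraic number is finite -/
theorem ga_exists_period (h : Qb ≃ₐ[ℚ] Qb) (x : Qb) : ∃ n : ℕ, (h ^ (n + 1)) x = x := by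
  have hx : IsIntegral ℚ x := Algebra.IsIntegral.isIntegral x
  have h0 : minpoly ℚ x ≠ 0 := minpoly.ne_zero hx
  have hroot : ∀ n : ℕ, (h ^ n) x ∈ ((minpoly ℚ x).rootSet Qb) := by
    intro n
    rw [mem_rootSet]
    refine ⟨h0, ?_⟩
    have h1 := aeval_algHom_apply ((h ^ n : Qb ≃ₐ[ℚ] Qb) : Qb →ₐ[ℚ] Qb) x (minpoly ℚ x)
    rw [minpoly.aeval, map_zero] at h1
    exact h1
  obtain ⟨a, b, hab, he⟩ := Finite.exists_ne_map_eq_of_infinite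
    (fun n : ℕ => (⟨(h ^ n) x, hroot n⟩ : (minpoly ℚ x).rootSet Qb))
  have he' : (h ^ a) x = (h ^ b) x := congrArg Subtype.val he
  have key : ∀ a b : ℕ, a < b → (h ^ a) x = (h ^ b) x → ∃ n : ℕ, (h ^ (n + 1)) x = x := by
    intro a b hab he
    refine ⟨b - a - 1, ?_⟩
    have e : b = a + (b - a - 1 + 1) := by omega
    rw [e, pow_add, AlgEquiv.mul_apply] at he
    exact ((h ^ a).injective he).symm
  rcases lt_or_gt_of_ne hab with h1 | h1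
  · exact key a b h1 he'
  · exact key b a h1 he'.symm

theorem ga_pow_apply (h : Qb ≃ₐ[ℚ] Qb) {ζ : Qb} {A : ℕ} (hh : h ζ = ζ ^ A) (n : ℕ) :
    (h ^ n) ζ = ζ ^ A ^ n := by
  induction n with
  | zero => simp
  | succ n ih => rw [pow_succ', AlgEquiv.mul_apply, ih, map_pow, hh, ← pow_mul, pow_succ']

theorem ga_pow_alpha (h : Qb ≃ₐ[ℚ] Qb) {ζ α : Qb} {A B : ℕ} (hh : h ζ = ζ ^ A)
    (hα : h α = ζ ^ B * α) (n : ℕ) :
    (h ^ n) α = ζ ^ (B * ∑ l ∈ Finset.range n, A ^ l) * α := by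
  induction n with
  | zero => simp
  | succ n ih =>
    rw [pow_succ', AlgEquiv.mul_apply, ih, map_mul, map_pow, hh, hα, ← mul_assoc, ← pow_mul,
      ← pow_add, Finset.sum_range_succ']
    congr 2
    have : ∑ k ∈ Finset.range n, A ^ (k + 1) = A * ∑ k ∈ Finset.range n, A ^ k := by
      rw [Finset.mul_sum]
      refine Finset.sum_congr rfl fun l _ => ?_
      ring
    rw [this]
    ring

theorem ga_one_add_pow (a n : ℕ) : ∃ q : ℕ, (1 + a) ^ n = 1 + n * a + a ^ 2 * q := by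
  induction n with
  | zero => exact ⟨0, by simp⟩
  | succ n ih =>
    obtain ⟨q, hq⟩ := ih
    refine ⟨q + q * a + n, ?_⟩
    rw [pow_succ, hq]
    ring

theorem ga_step {p : ℕ} {s u : ℕ} (hs : 2 ≤ s) (hu : ¬ p ∣ u) :
    ∃ u' : ℕ, ¬ p ∣ u' ∧ (1 + p ^ s * u) ^ p = 1 + p ^ (s + 1) * u' := by
  obtain ⟨q, hq⟩ := ga_one_add_pow (p ^ s * u) p
  refine ⟨u + p ^ (s - 1) * (u ^ 2 * q), ?_, ?_⟩
  · intro h
    apply hu
    have h1 : p ∣ p ^ (s - 1) * (u ^ 2 * q) := Dvd.dvd.mul_right (dvd_pow_self p (by omega)) _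
    exact (Nat.dvd_add_left h1).1 h
  · rw [hq]
    have e : p ^ (s + 1) * p ^ (s - 1) = (p ^ s) ^ 2 := by
      rw [← pow_add, ← pow_mul]
      congr 1
      omega
    calc 1 + p * (p ^ s * u) + (p ^ s * u) ^ 2 * q
        = 1 + p ^ (s + 1) * u + (p ^ s) ^ 2 * (u ^ 2 * q) := by ring
      _ = 1 + p ^ (s + 1) * u + p ^ (s + 1) * p ^ (s - 1) * (u ^ 2 * q) := by rw [e]
      _ = _ := by ring

/-- COMMUTATOR: `c ζ = ζ`, `c α = ζ^x α`, `h ζ = ζ^(1+y)`, `h α = ζ^t α`: then `[c,h] = c h c⁻¹ h⁻¹` fixes `ζ` and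
`[c,h] α = ζ^(-y x) α`. -/
theorem commutator_kummer (c h : Qb ≃ₐ[ℚ] Qb) {ζ α : Qb} (hζ0 : ζ ≠ 0) {x t : ℤ} {y : ℕ} (hc : c ζ = ζ)
    (hcα : c α = ζ ^ x * α) (hh : h ζ = ζ ^ (1 + y)) (hhα : h α = ζ ^ t * α) :
    (c * h * c⁻¹ * h⁻¹) ζ = ζ ∧ (c * h * c⁻¹ * h⁻¹) α = ζ ^ (-(y : ℤ) * x) * α := by
  obtain ⟨n, hn⟩ := ga_exists_period h ζ
  have hinvζ : h⁻¹ ζ = ζ ^ (1 + y) ^ n := by
    rw [← ga_pow_apply h hh n]
    apply h.injective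
    rw [ga_inv_apply, ← AlgEquiv.mul_apply, ← pow_succ']
    exact hn.symm
  have hcinv : c⁻¹ ζ = ζ := by
    have := ga_apply_inv c ζ
    rwa [hc] at this
  have hcz : c⁻¹ (h⁻¹ ζ) = h⁻¹ ζ := by rw [hinvζ, map_pow, hcinv]
  refine ⟨?_, ?_⟩
  · rw [AlgEquiv.mul_apply, AlgEquiv.mul_apply, AlgEquiv.mul_apply, hcz, ga_inv_apply, hc]
  · have hi0 : h⁻¹ ζ ≠ 0 := by
      rw [hinvζ]
      exact pow_ne_zero _ hζ0
    have h1 : h⁻¹ α = (h⁻¹ ζ) ^ (-t) * α := by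
      have h2 := ga_apply_inv h α
      rw [hhα, map_mul, map_zpow₀] at h2
      rw [zpow_neg]
      have h3 : (h⁻¹ ζ) ^ t ≠ 0 := zpow_ne_zero _ hi0
      calc h⁻¹ α = ((h⁻¹ ζ) ^ t)⁻¹ * ((h⁻¹ ζ) ^ t * h⁻¹ α) := by
            rw [← mul_assoc, inv_mul_cancel₀ h3, one_mul]
        _ = _ := by rw [h2]
    have h4 : c⁻¹ α = ζ ^ (-x) * α := by
      have h2 := ga_apply_inv c α
      rw [hcα, map_mul, map_zpow₀, hcinv] at h2
      rw [zpow_neg]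
      have h3 : ζ ^ x ≠ 0 := zpow_ne_zero _ hζ0
      calc c⁻¹ α = (ζ ^ x)⁻¹ * (ζ ^ x * c⁻¹ α) := by
            rw [← mul_assoc, inv_mul_cancel₀ h3, one_mul]
        _ = _ := by rw [h2]
    rw [AlgEquiv.mul_apply, AlgEquiv.mul_apply, AlgEquiv.mul_apply, h1]
    simp only [map_mul, map_zpow₀, map_pow, hcz, h4, ga_inv_apply, hh, hhα, hc, hcα]
    rw [← zpow_natCast, ← zpow_mul]
    rw [← mul_assoc, ← mul_assoc, ← mul_assoc, ← zpow_add₀ hζ0, ← zpow_add₀ hζ0, ← zpow_add₀ hζ0]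
    congr 2
    push_cast
    ring

/-- POWERS: `h ζ = ζ^(1 + p^(k-i) u)` with `p ∤ u`, `k - i ≥ 2`, `i ≥ 1`, and `h α = ζ^(p^(k-m₀) t) α`: then
`h^(p^(i-1)) ζ = ζ^(1 + p^(k-1) u')` with `p ∤ u'`, and `h^(p^(i-1)) α = ζ^(p^(k-m₀+i-1) t') α`. (`v_p` of
`(1 + p^(k-i) u)^(p^(i-1)) - 1` is `k - 1`; `1 + ρ + ⋯ + ρ^(p^(i-1)-1)` is divisible by `p^(i-1)` for
`ρ ≡ 1 mod p^(k-i)`, `k - i ≥ 2`.) -/
theorem power_kummer (p : ℕ) [Fact p.Prime] (h : Qb ≃ₐ[ℚ] Qb) {ζ : Qb} {k i u : ℕ} (hζ : ζ ^ p ^ k = 1)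
    (hi : 1 ≤ i) (hik : i + 2 ≤ k) (hu : ¬ p ∣ u) (hh : h ζ = ζ ^ (1 + p ^ (k - i) * u)) :
    (∃ u' : ℕ, ¬ p ∣ u' ∧ (h ^ p ^ (i - 1)) ζ = ζ ^ (1 + p ^ (k - 1) * u')) ∧
      ∀ (α : Qb) (w t : ℕ), h α = ζ ^ (p ^ w * t) * α →
        ∃ t' : ℕ, (h ^ p ^ (i - 1)) α = ζ ^ (p ^ (w + i - 1) * t') * α := by
  have hpp : p.Prime := Fact.out
  have key : ∀ j : ℕ, (∃ u' : ℕ, ¬ p ∣ u' ∧
      (h ^ p ^ j) ζ = ζ ^ (1 + p ^ (k - i + j) * u')) ∧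
      ∀ (α : Qb) (w t : ℕ), h α = ζ ^ (p ^ w * t) * α →
        ∃ t' : ℕ, (h ^ p ^ j) α = ζ ^ (p ^ (w + j) * t') * α := by
    intro j
    induction j with
    | zero =>
      refine ⟨⟨u, hu, ?_⟩, fun α w t hα => ⟨t, ?_⟩⟩
      · simpa using hh
      · simpa using hα
    | succ j ih =>
      obtain ⟨⟨u', hu', h1⟩, h2⟩ := ih
      have hpow : h ^ p ^ (j + 1) = (h ^ p ^ j) ^ p := by rw [← pow_mul, ← pow_succ]
      refine ⟨?_, fun α w t hα => ?_⟩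
      · obtain ⟨u'', hu'', h3⟩ := ga_step (p := p) (s := k - i + j) (by omega) hu'
        refine ⟨u'', hu'', ?_⟩
        rw [hpow, ga_pow_apply _ h1 p, h3]
        congr 3
      · obtain ⟨t', ht'⟩ := h2 α w t hα
        have h4 := ga_pow_alpha _ h1 ht' p
        have h5 : p ∣ ∑ l ∈ Finset.range p, (1 + p ^ (k - i + j) * u') ^ l := by
          rw [← Nat.modEq_zero_iff_dvd]
          have h6 : ∀ l ∈ Finset.range p, (1 + p ^ (k - i + j) * u') ^ l ≡ 1 [MOD p] := by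
            intro l _
            have h7 : 1 + p ^ (k - i + j) * u' ≡ 1 + 0 [MOD p] := by
              refine Nat.ModEq.add_left 1 ?_
              rw [Nat.modEq_zero_iff_dvd]
              exact Dvd.dvd.mul_right (dvd_pow_self p (by omega)) _
            have h8 := h7.pow l
            simpa using h8
          have h9 := Nat.ModEq.sum h6
          refine h9.trans ?_
          rw [Nat.modEq_zero_iff_dvd]
          simp
        obtain ⟨q, hq⟩ := h5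
        refine ⟨t' * q, ?_⟩
        rw [hpow, h4, hq]
        congr 2
        rw [← add_assoc, pow_succ]
        ring
  obtain ⟨⟨u', hu', h1⟩, h2⟩ := key (i - 1)
  refine ⟨⟨u', hu', ?_⟩, fun α w t hα => ?_⟩
  · rw [h1]
    congr 3
    congr 1
    omega
  · obtain ⟨t', ht'⟩ := h2 α w t hα
    refine ⟨t', ?_⟩
    rw [ht']
    congr 4
    omega

end MP4270
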