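import Pool.Agent.Lib_MP_4270a5_nt.Defs

open Polynomial IntermediateField

namespace MP4270

theorem hint_dn_pos (x : Qb) : 0 < dn x := by
  unfold dn
  refine Nat.pos_of_ne_zero fun h => ?_
  rw [Finset.lcm_eq_zero_iff] at h
  obtain ⟨i, -, hi⟩ := h
  exact (Rat.den_pos _).ne' hi

theorem hint_den_dvd (x : Qb) (i : ℕ) : ((minpoly ℚ x).coeff i).den ∣ dn x := by
  by_cases hi : i < (minpoly ℚ x).natDegree + 1
  · exact Finset.dvd_lcm (f := fun i => ((minpoly ℚ x).coeff i).den) (Finset.mem_range.mpr hi)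
  · rw [coeff_eq_zero_of_natDegree_lt (by omega)]
    simp

/-- the polynomial -/
theorem hint_exists (x : Qb) : ∃ P : ℤ[X],
    P.map (Int.castRingHom ℚ) = C (dn x : ℚ) * minpoly ℚ x := by
  have h : C (dn x : ℚ) * minpoly ℚ x ∈ Polynomial.lifts (Int.castRingHom ℚ) := by
    rw [Polynomial.lifts_iff_coeff_lifts]
    intro i
    rw [coeff_C_mul]
    obtain ⟨k, hk⟩ := hint_den_dvd x i
    refine ⟨((minpoly ℚ x).coeff i).num * k, ?_⟩
    have h1 := Rat.mul_den_eq_num ((minpoly ℚ x).coeff i)
    rw [hk]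
    push_cast
    rw [eq_intCast, Int.cast_mul, ← h1]
    push_cast
    ring
  exact h

/-- `dn x * minpoly` is a primitive integral polynomial `P` with positive leading coefficient `dn x`, and `hW x` is the
logarithm of its Mahler measure divided by the degree
(`Polynomial.mahlerMeasure_eq_leadingCoeff_mul_prod_roots`). -/
theorem hW_mahler (x : Qb) : ∃ P : ℤ[X], P.IsPrimitive ∧ P.natDegree = (minpoly ℚ x).natDegree ∧
    P.map (Int.castRingHom ℚ) = C (dn x : ℚ) * minpoly ℚ x ∧ P.leadingCoeff = (dn x : ℤ) ∧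
    hW x = Real.log ((P.map (Int.castRingHom ℂ)).mahlerMeasure) / (minpoly ℚ x).natDegree := by
  obtain ⟨P, hP⟩ := hint_exists x
  have hd : 0 < dn x := hint_dn_pos x
  have hdQ : (dn x : ℚ) ≠ 0 := by exact_mod_cast hd.ne'
  have hmon : (minpoly ℚ x).Monic := minpoly.monic (Algebra.IsIntegral.isIntegral x)
  have hinj : Function.Injective (Int.castRingHom ℚ) := (Int.castRingHom ℚ).injective_int
  have hdeg : P.natDegree = (minpoly ℚ x).natDegree := by
    rw [← natDegree_map_eq_of_injective hinj P, hP, natDegree_C_mul hdQ]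
  have hcoeff : ∀ i, ((P.coeff i : ℤ) : ℚ) = (dn x : ℚ) * (minpoly ℚ x).coeff i := by
    intro i
    have h := congrArg (fun Q : ℚ[X] => Q.coeff i) hP
    simpa only [coeff_map, eq_intCast, coeff_C_mul] using h
  have hlead : P.leadingCoeff = (dn x : ℤ) := by
    have h := hcoeff (minpoly ℚ x).natDegree
    rw [hmon.coeff_natDegree, mul_one, ← hdeg] at h
    exact_mod_cast h
  refine ⟨P, ?_, hdeg, hP, hlead, ?_⟩
  · -- primitive
    intro r hr
    rw [C_dvd_iff_dvd_coeff] at hr
    obtain ⟨s, hs⟩ := hr P.natDegree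
    have hs' : (dn x : ℤ) = r * s := by
      rw [← hlead]
      exact hs
    have hr0 : r ≠ 0 := by
      rintro rfl
      rw [zero_mul] at hs'
      exact hd.ne' (by exact_mod_cast hs')
    have hs0 : s ≠ 0 := by
      rintro rfl
      rw [mul_zero] at hs'
      exact hd.ne' (by exact_mod_cast hs')
    have hdvd : dn x ∣ s.natAbs := by
      unfold dn
      refine Finset.lcm_dvd fun i _ => ?_
      obtain ⟨t, ht⟩ := hr i
      have h1 := hcoeff i
      rw [ht] at h1
      have h2 : (dn x : ℚ) = (r : ℚ) * (s : ℚ) := by exact_mod_cast hs'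
      rw [h2] at h1
      push_cast at h1
      have h3 : (t : ℚ) = (s : ℚ) * (minpoly ℚ x).coeff i := by
        have h4 : (r : ℚ) ≠ 0 := by exact_mod_cast hr0
        have h5 : (r : ℚ) * t = r * (s * (minpoly ℚ x).coeff i) := by
          rw [h1]
          ring
        exact mul_left_cancel₀ h4 h5
      have h6 : (minpoly ℚ x).coeff i = Rat.divInt t s := by
        rw [Rat.divInt_eq_div, h3]
        have h7 : (s : ℚ) ≠ 0 := by exact_mod_cast hs0
        rw [mul_div_cancel_left₀ _ h7]
      have h8 : ((((minpoly ℚ x).coeff i).den : ℕ) : ℤ) ∣ s := by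
        rw [h6]
        exact Rat.den_dvd t s
      exact Int.natCast_dvd.mp h8
    have h9 : dn x = r.natAbs * s.natAbs := by
      rw [← Int.natAbs_mul, ← hs', Int.natAbs_natCast]
    have h10 : dn x ≤ s.natAbs := Nat.le_of_dvd (Int.natAbs_pos.mpr hs0) hdvd
    have h11 : r.natAbs = 1 := by
      have h12 : 0 < s.natAbs := Int.natAbs_pos.mpr hs0
      have h13 : 0 < r.natAbs := Int.natAbs_pos.mpr hr0
      by_contra hne
      have h14 : 2 ≤ r.natAbs := by omega
      have h15 : 2 * s.natAbs ≤ r.natAbs * s.natAbs := Nat.mul_le_mul_right _ h14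
      omega
    exact Int.isUnit_iff_natAbs_eq.mpr h11
  · -- Mahler measure
    have hmap : P.map (Int.castRingHom ℂ) = C (dn x : ℂ) * (minpoly ℚ x).map (algebraMap ℚ ℂ) := by
      have e : Int.castRingHom ℂ = (algebraMap ℚ ℂ).comp (Int.castRingHom ℚ) :=
        RingHom.ext_int _ _
      rw [e, ← Polynomial.map_map, hP, Polynomial.map_mul, map_C, map_natCast]
    have hdC : (dn x : ℂ) ≠ 0 := by exact_mod_cast hd.ne'
    rw [← logMahlerMeasure_eq_log_MahlerMeasure,
      logMahlerMeasure_eq_log_leadingCoeff_add_sum_log_roots, hmap, roots_C_mul _ hdC,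
      leadingCoeff_C_mul_of_isUnit (isUnit_iff_ne_zero.mpr hdC),
      (hmon.map (algebraMap ℚ ℂ)).leadingCoeff, mul_one, Complex.norm_natCast]
    unfold hW
    congr 2
    refine congrArg Multiset.sum (Multiset.map_congr rfl fun z _ => ?_)
    rw [Real.posLog_eq_log_max_one (norm_nonneg z)]

theorem hW_nonneg (x : Qb) : 0 ≤ hW x := by
  unfold hW
  refine div_nonneg (add_nonneg (Real.log_natCast_nonneg _) ?_) (Nat.cast_nonneg _)
  refine Multiset.sum_nonneg fun y hy => ?_
  obtain ⟨z, -, rfl⟩ := Multiset.mem_map.mp hy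
  exact Real.log_nonneg (le_max_left _ _)

end MP4270
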