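import Pool.Agent.Lib_MP_4270a5_nt.HInt

open Polynomial IntermediateField

namespace MP4270

private theorem hkron_deg (x : Qb) : 0 < (minpoly ℚ x).natDegree :=
  minpoly.natDegree_pos (Algebra.IsIntegral.isIntegral x)

/-- `x` is a root of the integral polynomial. -/
private theorem hkron_root {x : Qb} {P : ℤ[X]}
    (h : P.map (Int.castRingHom ℚ) = C (dn x : ℚ) * minpoly ℚ x) :
    eval₂ (Int.castRingHom Qb) x P = 0 := by
  have h1 : (Int.castRingHom Qb) = (algebraMap ℚ Qb).comp (Int.castRingHom ℚ) := by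
    ext; simp
  rw [h1, ← eval₂_map, h, eval₂_mul]
  have h2 : eval₂ (algebraMap ℚ Qb) x (minpoly ℚ x) = 0 := minpoly.aeval ℚ x
  rw [h2, mul_zero]

/-- Kronecker (`Polynomial.pow_eq_one_of_mahlerMeasure_eq_one`). -/
theorem hW_kronecker {x : Qb} (hx : x ≠ 0) (h : hW x = 0) : ∃ N : ℕ, 0 < N ∧ x ^ N = 1 := by
  obtain ⟨P, hP, -, hmap, -, hlog⟩ := hW_mahler x
  have hP0 : P ≠ 0 := hP.ne_zero
  rw [h] at hlog
  have hd := hkron_deg x
  have hd' : ((minpoly ℚ x).natDegree : ℝ) ≠ 0 := by positivity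
  have hl : Real.log ((P.map (Int.castRingHom ℂ)).mahlerMeasure) = 0 := by
    have := hlog.symm
    rw [div_eq_zero_iff] at this
    exact this.resolve_right hd'
  have h1 := one_le_mahlerMeasure_of_ne_zero hP0
  have hM : (P.map (Int.castRingHom ℂ)).mahlerMeasure = 1 :=
    Real.eq_one_of_pos_of_log_eq_zero (by linarith) hl
  have hz : ii x ≠ 0 := (map_ne_zero ii).mpr hx
  have hroot : ii x ∈ P.aroots ℂ := by
    rw [mem_aroots]
    refine ⟨hP0, ?_⟩
    have h2 : aeval (ii x) P = ii (eval₂ (Int.castRingHom Qb) x P) := by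
      rw [hom_eval₂, aeval_def]
      congr 1
      exact Subsingleton.elim _ _
    rw [h2, hkron_root hmap, map_zero]
  obtain ⟨n, hn, hzn⟩ := pow_eq_one_of_mahlerMeasure_eq_one hM hz hroot
  refine ⟨n, hn, ?_⟩
  apply ii.injective
  rw [map_pow, hzn, map_one]

/-- Northcott (`Polynomial.finite_mahlerMeasure_le`). -/
theorem hW_northcott (E : IntermediateField ℚ Qb) [FiniteDimensional ℚ E] (C : ℝ) :
    {x : Qb | x ∈ E ∧ hW x ≤ C}.Finite := by
  set n := Module.finrank ℚ E with hn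
  set B : NNReal := ⟨Real.exp (max C 0 * n), (Real.exp_pos _).le⟩ with hB
  have hfin := finite_mahlerMeasure_le n B
  have hU : (⋃ P ∈ {p : ℤ[X] | p.natDegree ≤ n ∧ (p.map (Int.castRingHom ℂ)).mahlerMeasure ≤ B},
      {x : Qb | x ∈ (P.map (Int.castRingHom Qb)).roots}).Finite := by
    refine hfin.biUnion fun P _ => ?_
    classical
    exact (P.map (Int.castRingHom Qb)).roots.toFinset.finite_toSet.subset fun x hx => by
      simpa using hx
  refine hU.subset ?_
  rintro x ⟨hxE, hxC⟩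
  obtain ⟨P, hP, hdeg, hmap, -, hlog⟩ := hW_mahler x
  have hP0 : P ≠ 0 := hP.ne_zero
  have hd := hkron_deg x
  have hd' : (0 : ℝ) < ((minpoly ℚ x).natDegree : ℝ) := by exact_mod_cast hd
  have hle : (minpoly ℚ x).natDegree ≤ n := by
    have h1 : minpoly ℚ (⟨x, hxE⟩ : E) = minpoly ℚ x :=
      (minpoly.algebraMap_eq (B' := Qb) (algebraMap E Qb).injective (⟨x, hxE⟩ : E)).symm
    rw [← h1]
    exact minpoly.natDegree_le _
  rw [Set.mem_iUnion₂]
  refine ⟨P, ⟨hdeg ▸ hle, ?_⟩, ?_⟩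
  · have h1 := one_le_mahlerMeasure_of_ne_zero hP0
    have h2 : Real.log ((P.map (Int.castRingHom ℂ)).mahlerMeasure) =
        hW x * ((minpoly ℚ x).natDegree : ℝ) := by
      rw [hlog, div_mul_cancel₀ _ hd'.ne']
    have h3 : (P.map (Int.castRingHom ℂ)).mahlerMeasure =
        Real.exp (hW x * ((minpoly ℚ x).natDegree : ℝ)) := by
      rw [← h2, Real.exp_log (by linarith)]
    rw [h3]
    change Real.exp _ ≤ Real.exp _
    apply Real.exp_le_exp.mpr
    have h4 : hW x ≤ max C 0 := hxC.trans (le_max_left _ _)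
    have h5 : (0 : ℝ) ≤ max C 0 := le_max_right _ _
    have h6 : ((minpoly ℚ x).natDegree : ℝ) ≤ n := by exact_mod_cast hle
    exact mul_le_mul h4 h6 hd'.le h5
  · change x ∈ (P.map (Int.castRingHom Qb)).roots
    have hinj : Function.Injective (Int.castRingHom Qb) := Int.cast_injective
    rw [mem_roots ((Polynomial.map_ne_zero_iff hinj).mpr hP0), IsRoot.def, eval_map]
    exact hkron_root hmap

/-- The smallest positive height in a number field. -/
theorem hW_gap (E : IntermediateField ℚ Qb) [FiniteDimensional ℚ E] :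
    ∃ c : ℝ, 0 < c ∧ ∀ x ∈ E, x ≠ 0 → hW x < c → ∃ N : ℕ, 0 < N ∧ x ^ N = 1 := by
  have hfin := hW_northcott E 1
  have hfin' : {t : ℝ | ∃ x : Qb, x ∈ E ∧ hW x ≤ 1 ∧ 0 < hW x ∧ t = hW x}.Finite := by
    refine (hfin.image hW).subset ?_
    rintro t ⟨x, hx, hx1, -, rfl⟩
    exact ⟨x, ⟨hx, hx1⟩, rfl⟩
  obtain ⟨c, hc, hc1⟩ : ∃ c : ℝ, 0 < c ∧ ∀ t ∈ {t : ℝ | ∃ x : Qb, x ∈ E ∧ hW x ≤ 1 ∧ 0 < hW x ∧
      t = hW x}, c ≤ t := by
    rcases Set.eq_empty_or_nonempty {t : ℝ | ∃ x : Qb, x ∈ E ∧ hW x ≤ 1 ∧ 0 < hW x ∧ t = hW x}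
      with he | hne
    · refine ⟨1, one_pos, fun t ht => ?_⟩
      rw [he] at ht
      exact absurd ht (Set.notMem_empty t)
    · obtain ⟨t₀, ht₀, hmin⟩ := hfin'.exists_minimalFor id _ hne
      obtain ⟨x, hx, hx1, hx0, rfl⟩ := ht₀
      refine ⟨hW x, hx0, fun t ht => ?_⟩
      by_contra hlt
      have := hmin ht (not_le.mp hlt).le
      exact hlt this
  refine ⟨min c 1, lt_min hc one_pos, fun x hx hx0 hlt => ?_⟩
  apply hW_kronecker hx0
  by_contra hne
  have h0 : 0 < hW x := lt_of_le_of_ne (hW_nonneg x) (Ne.symm hne)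
  have h1 := hc1 (hW x) ⟨x, hx, (hlt.trans_le (min_le_right _ _)).le, h0, rfl⟩
  exact absurd (hlt.trans_le (min_le_left _ _)) (not_lt.mpr h1)

end MP4270
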