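import Pool.Agent.Lib_MP_4270a5_nt.HPropA
import Pool.Agent.Lib_MP_4270a5_nt.HKron

open Polynomial IntermediateField

namespace MP4270

private theorem hprop_log_le (a b : ℝ) (ha : 0 ≤ a) :
    Real.log (max 1 (a * b)) ≤ Real.log (max 1 a) + Real.log (max 1 b) := by
  have h1 : (0 : ℝ) < max 1 a := lt_of_lt_of_le one_pos (le_max_left _ _)
  have h2 : (0 : ℝ) < max 1 b := lt_of_lt_of_le one_pos (le_max_left _ _)
  rw [← Real.log_mul h1.ne' h2.ne']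
  refine Real.log_le_log (lt_of_lt_of_le one_pos (le_max_left _ _)) (max_le ?_ ?_)
  · calc (1 : ℝ) = 1 * 1 := (one_mul 1).symm
      _ ≤ max 1 a * max 1 b := mul_le_mul (le_max_left _ _) (le_max_left _ _) zero_le_one h1.le
  · calc a * b ≤ a * max 1 b := mul_le_mul_of_nonneg_left (le_max_right _ _) ha
      _ ≤ max 1 a * max 1 b := mul_le_mul_of_nonneg_right (le_max_right _ _) h2.le

private theorem hprop_nmC_mul (x y : Qb) : nmC (x * y) = nmC x * nmC y := by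
  unfold nmC
  rw [map_mul, norm_mul]

private theorem hprop_nm_nonneg (ℓ : ℕ) (x : Qb) : 0 ≤ nm ℓ x := by
  unfold nm
  split_ifs
  · exact norm_nonneg _
  · exact zero_le_one

theorem hW_mul_le (x y : Qb) : hW (x * y) ≤ hW x + hW y := by
  classical
  obtain ⟨M, hfd, hnor, -, hX⟩ := exists_normal (⊥ : IntermediateField ℚ Qb) {x, y}
  haveI := hfd
  haveI := hnor
  have hx : x ∈ M := hX x (by simp)
  have hy : y ∈ M := hX y (by simp)
  obtain ⟨Tx, hTx⟩ := decomp M ⟨x, hx⟩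
  obtain ⟨Ty, hTy⟩ := decomp M ⟨y, hy⟩
  obtain ⟨Tz, hTz⟩ := decomp M (⟨x, hx⟩ * ⟨y, hy⟩)
  have h1 := hTx (Tx ∪ Ty ∪ Tz) (Finset.subset_union_left.trans Finset.subset_union_left)
  have h2 := hTy (Tx ∪ Ty ∪ Tz) (Finset.subset_union_right.trans Finset.subset_union_left)
  have h3 := hTz (Tx ∪ Ty ∪ Tz) Finset.subset_union_right
  have hpos : (0 : ℝ) < (Module.finrank ℚ M : ℝ) := by exact_mod_cast Module.finrank_pos
  have h4 : (Module.finrank ℚ M : ℝ) * hW (x * y) ≤ (Module.finrank ℚ M : ℝ) * (hW x + hW y) := by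
    have e3 : (((⟨x, hx⟩ * ⟨y, hy⟩ : M)) : Qb) = x * y := rfl
    rw [e3] at h3
    rw [mul_add]
    have h1' : (Module.finrank ℚ M : ℝ) * hW x = _ := h1
    have h2' : (Module.finrank ℚ M : ℝ) * hW y = _ := h2
    rw [h1', h2', h3]
    have key1 : ∑ σ : M ≃ₐ[ℚ] M, Real.log (max 1 (nmC ((σ (⟨x, hx⟩ * ⟨y, hy⟩) : M) : Qb))) ≤
        ∑ σ : M ≃ₐ[ℚ] M, Real.log (max 1 (nmC ((σ ⟨x, hx⟩ : M) : Qb))) +
        ∑ σ : M ≃ₐ[ℚ] M, Real.log (max 1 (nmC ((σ ⟨y, hy⟩ : M) : Qb))) := by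
      rw [← Finset.sum_add_distrib]
      refine Finset.sum_le_sum fun σ _ => ?_
      rw [map_mul]
      have e : (((σ ⟨x, hx⟩ * σ ⟨y, hy⟩ : M)) : Qb) = ((σ ⟨x, hx⟩ : M) : Qb) * ((σ ⟨y, hy⟩ : M) : Qb) :=
        rfl
      rw [e, hprop_nmC_mul]
      exact hprop_log_le _ _ (norm_nonneg _)
    have key2 : ∑ ℓ ∈ Tx ∪ Ty ∪ Tz, ∑ σ : M ≃ₐ[ℚ] M,
          Real.log (max 1 (nm ℓ ((σ (⟨x, hx⟩ * ⟨y, hy⟩) : M) : Qb))) ≤
        ∑ ℓ ∈ Tx ∪ Ty ∪ Tz, ∑ σ : M ≃ₐ[ℚ] M, Real.log (max 1 (nm ℓ ((σ ⟨x, hx⟩ : M) : Qb))) +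
        ∑ ℓ ∈ Tx ∪ Ty ∪ Tz, ∑ σ : M ≃ₐ[ℚ] M, Real.log (max 1 (nm ℓ ((σ ⟨y, hy⟩ : M) : Qb))) := by
      rw [← Finset.sum_add_distrib]
      refine Finset.sum_le_sum fun ℓ _ => ?_
      rw [← Finset.sum_add_distrib]
      refine Finset.sum_le_sum fun σ _ => ?_
      rw [map_mul]
      have e : (((σ ⟨x, hx⟩ * σ ⟨y, hy⟩ : M)) : Qb) = ((σ ⟨x, hx⟩ : M) : Qb) * ((σ ⟨y, hy⟩ : M) : Qb) :=
        rfl
      rw [e, nm_mul]
      exact hprop_log_le _ _ (hprop_nm_nonneg _ _)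
    linarith
  exact le_of_mul_le_mul_left h4 hpos

private theorem hprop_one : hW (1 : Qb) = 0 := by
  have h := hW_pow (1 : Qb) 0
  simpa using h

theorem hW_prod_le {ι : Type*} (s : Finset ι) (f : ι → Qb) : hW (∏ i ∈ s, f i) ≤ ∑ i ∈ s, hW (f i) := by
  classical
  induction s using Finset.induction_on with
  | empty => simp [hprop_one]
  | insert a s ha ih =>
    rw [Finset.prod_insert ha, Finset.sum_insert ha]
    exact (hW_mul_le _ _).trans (by linarith)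

private theorem hprop_root {w : Qb} {N : ℕ} (hN : 0 < N) (hw : w ^ N = 1) : hW w = 0 := by
  have h := hW_pow w N
  rw [hw, hprop_one] at h
  have hN' : (N : ℝ) ≠ 0 := by exact_mod_cast hN.ne'
  rcases mul_eq_zero.mp h.symm with h1 | h1
  · exact absurd h1 hN'
  · exact h1

theorem hW_root_mul {w : Qb} {N : ℕ} (hN : 0 < N) (hw : w ^ N = 1) (x : Qb) : hW (w * x) = hW x := by
  have hw0 : w ≠ 0 := by
    rintro rfl
    rw [zero_pow hN.ne'] at hw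
    exact zero_ne_one hw
  apply le_antisymm
  · have h := hW_mul_le w x
    rw [hprop_root hN hw, zero_add] at h
    exact h
  · have h := hW_mul_le w⁻¹ (w * x)
    have h2 : (w⁻¹) ^ N = 1 := by rw [inv_pow, hw, inv_one]
    rw [hprop_root hN h2, zero_add, inv_mul_cancel_left₀ hw0] at h
    exact h

theorem hW_root {w : Qb} {N : ℕ} (hN : 0 < N) (hw : w ^ N = 1) : hW w = 0 :=
  hprop_root hN hw

end MP4270
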