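import Pool.Agent.Lib_MP_4270a5_nt.Decomp
import Pool.Agent.Lib_MP_4270a5_nt.PF
import Pool.Agent.Lib_MP_4270a5_nt.GalB

open Polynomial IntermediateField

namespace MP4270

/-- (the minimal polynomial is the same) -/
theorem hW_conj (σ : Qb ≃ₐ[ℚ] Qb) (x : Qb) : hW (σ x) = hW x := by
  unfold hW dn
  rw [minpoly.algEquiv_eq]

private theorem hpa_nm_nonneg (ℓ : ℕ) (x : Qb) : 0 ≤ nm ℓ x := by
  unfold nm
  split_ifs with h
  · exact norm_nonneg _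
  · exact zero_le_one

private theorem hpa_log_pow {t : ℝ} (ht : 0 ≤ t) (n : ℕ) :
    Real.log (max 1 (t ^ n)) = n * Real.log (max 1 t) := by
  have h : max 1 (t ^ n) = (max 1 t) ^ n := by
    rcases le_total t 1 with h1 | h1
    · rw [max_eq_left h1, max_eq_left (pow_le_one₀ ht h1), one_pow]
    · rw [max_eq_right h1, max_eq_right (one_le_pow₀ h1)]
  rw [h, Real.log_pow]

private theorem hpa_log_inv {t : ℝ} (ht : 0 < t) :
    Real.log (max 1 t⁻¹) = Real.log (max 1 t) - Real.log t := by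
  rcases le_total t 1 with h1 | h1
  · rw [max_eq_left h1, max_eq_right ((one_le_inv₀ ht).mpr h1), Real.log_inv, Real.log_one,
      zero_sub]
  · rw [max_eq_right h1, max_eq_left (inv_le_one_of_one_le₀ h1), Real.log_one, sub_self]

private theorem hpa_exists (x : Qb) : ∃ M : IntermediateField ℚ Qb, FiniteDimensional ℚ M ∧
    Normal ℚ M ∧ x ∈ M := by
  obtain ⟨M, h1, h2, -, h3⟩ := exists_normal (⊥ : IntermediateField ℚ Qb) {x}
  exact ⟨M, h1, h2, h3 x (Finset.mem_singleton_self x)⟩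

/-- (`decomp` in a normal extension which contains `x`) -/
theorem hW_pow (x : Qb) (n : ℕ) : hW (x ^ n) = n * hW x := by
  obtain ⟨M, h1, h2, hx⟩ := hpa_exists x
  obtain ⟨T₁, hT₁⟩ := decomp M (⟨x, hx⟩ : M)
  obtain ⟨T₂, hT₂⟩ := decomp M ((⟨x, hx⟩ : M) ^ n)
  have e1 := hT₁ (T₁ ∪ T₂) Finset.subset_union_left
  have e2 := hT₂ (T₁ ∪ T₂) Finset.subset_union_right
  have hpos : (0 : ℝ) < (Module.finrank ℚ M : ℝ) := by
    exact_mod_cast Module.finrank_pos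
  have hC : ∀ σ : M ≃ₐ[ℚ] M, Real.log (max 1 (nmC ((σ ((⟨x, hx⟩ : M) ^ n) : M) : Qb))) =
      n * Real.log (max 1 (nmC ((σ (⟨x, hx⟩ : M) : M) : Qb))) := by
    intro σ
    have h3 : nmC ((σ ((⟨x, hx⟩ : M) ^ n) : M) : Qb) =
        nmC ((σ (⟨x, hx⟩ : M) : M) : Qb) ^ n := by
      unfold nmC
      rw [map_pow, SubmonoidClass.coe_pow, map_pow, norm_pow]
    rw [h3]
    exact hpa_log_pow (norm_nonneg _) n
  have hL : ∀ (ℓ : ℕ) (σ : M ≃ₐ[ℚ] M),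
      Real.log (max 1 (nm ℓ ((σ ((⟨x, hx⟩ : M) ^ n) : M) : Qb))) =
      n * Real.log (max 1 (nm ℓ ((σ (⟨x, hx⟩ : M) : M) : Qb))) := by
    intro ℓ σ
    rw [map_pow, SubmonoidClass.coe_pow, nm_pow, hpa_log_pow (hpa_nm_nonneg _ _)]
  simp only [hC, hL, ← Finset.mul_sum] at e2
  rw [← mul_add, ← e1] at e2
  have e3 : (Module.finrank ℚ M : ℝ) * hW (x ^ n) = (Module.finrank ℚ M : ℝ) * (n * hW x) := by
    refine Eq.trans ?_ (e2.trans ?_)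
    · rfl
    · ring
  exact mul_left_cancel₀ hpos.ne' e3

/-- (`log max(1, 1/t) = log max(1, t) - log t` and the product formula) -/
theorem hW_inv {x : Qb} (hx : x ≠ 0) : hW x⁻¹ = hW x := by
  obtain ⟨M, h1, h2, hxM⟩ := hpa_exists x
  have hx0 : (⟨x, hxM⟩ : M) ≠ 0 := fun h => hx (congrArg Subtype.val h)
  obtain ⟨T₁, hT₁⟩ := decomp M (⟨x, hxM⟩ : M)
  obtain ⟨T₂, hT₂⟩ := decomp M ((⟨x, hxM⟩ : M)⁻¹)
  obtain ⟨T₃, hT₃⟩ := product_formula M (⟨x, hxM⟩ : M) hx0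
  have e1 := hT₁ (T₁ ∪ T₂ ∪ T₃) (Finset.subset_union_left.trans Finset.subset_union_left)
  have e2 := hT₂ (T₁ ∪ T₂ ∪ T₃) (Finset.subset_union_right.trans Finset.subset_union_left)
  have e3 := hT₃ (T₁ ∪ T₂ ∪ T₃) Finset.subset_union_right
  have hpos : (0 : ℝ) < (Module.finrank ℚ M : ℝ) := by
    exact_mod_cast Module.finrank_pos
  have hσ0 : ∀ σ : M ≃ₐ[ℚ] M, ((σ (⟨x, hxM⟩ : M) : M) : Qb) ≠ 0 := by
    intro σ h
    have h3 : σ (⟨x, hxM⟩ : M) = 0 := Subtype.ext h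
    exact hx0 ((map_eq_zero σ).mp h3)
  have hC : ∀ σ : M ≃ₐ[ℚ] M, Real.log (max 1 (nmC ((σ ((⟨x, hxM⟩ : M)⁻¹) : M) : Qb))) =
      Real.log (max 1 (nmC ((σ (⟨x, hxM⟩ : M) : M) : Qb))) -
        Real.log (nmC ((σ (⟨x, hxM⟩ : M) : M) : Qb)) := by
    intro σ
    have h3 : nmC ((σ ((⟨x, hxM⟩ : M)⁻¹) : M) : Qb) =
        (nmC ((σ (⟨x, hxM⟩ : M) : M) : Qb))⁻¹ := by
      unfold nmC
      rw [map_inv₀, IntermediateField.coe_inv, map_inv₀, norm_inv]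
    rw [h3, hpa_log_inv]
    exact norm_pos_iff.mpr ((map_ne_zero ii).mpr (hσ0 σ))
  have hL : ∀ (ℓ : ℕ) (σ : M ≃ₐ[ℚ] M),
      Real.log (max 1 (nm ℓ ((σ ((⟨x, hxM⟩ : M)⁻¹) : M) : Qb))) =
      Real.log (max 1 (nm ℓ ((σ (⟨x, hxM⟩ : M) : M) : Qb))) -
        Real.log (nm ℓ ((σ (⟨x, hxM⟩ : M) : M) : Qb)) := by
    intro ℓ σ
    rw [map_inv₀, IntermediateField.coe_inv, nm_inv ℓ (hσ0 σ), hpa_log_inv (nm_pos ℓ (hσ0 σ))]
  simp only [hC, hL, Finset.sum_sub_distrib] at e2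
  have e4 : (Module.finrank ℚ M : ℝ) * hW x⁻¹ = (Module.finrank ℚ M : ℝ) * hW x := by
    refine Eq.trans ?_ (e2.trans ?_)
    · rfl
    · change _ = (Module.finrank ℚ M : ℝ) * hW (((⟨x, hxM⟩ : M) : M) : Qb)
      rw [e1]
      linarith
  exact mul_left_cancel₀ hpos.ne' e4

theorem hW_zpow {x : Qb} (hx : x ≠ 0) (n : ℤ) : hW (x ^ n) = |(n : ℝ)| * hW x := by
  cases n with
  | ofNat k =>
    rw [Int.ofNat_eq_natCast, zpow_natCast, hW_pow]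
    simp
  | negSucc k =>
    rw [zpow_negSucc, hW_inv (pow_ne_zero _ hx), hW_pow, Int.cast_negSucc, abs_neg, Nat.abs_cast]

end MP4270
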