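import Pool.Agent.Lib_MP_4270a5_nt.Defs

open Polynomial IntermediateField

namespace MP4270

variable {p : ℕ} [Fact p.Prime]

/-- `ℚ_p`-automorphisms are isometries (`spectralNorm_eq_of_equiv`). -/
theorem norm_equiv (σ : PadicAlgCl p ≃ₐ[ℚ_[p]] PadicAlgCl p) (x : PadicAlgCl p) : ‖σ x‖ = ‖x‖ :=
  (spectralNorm_eq_of_equiv (K := ℚ_[p]) (L := PadicAlgCl p) σ x).symm

/-- Galois correspondence: an element fixed by all automorphisms which fix `K` pointwise lies in `K`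
(`InfiniteGalois.fixedField_fixingSubgroup`). -/
theorem mem_of_fixed (K : IntermediateField ℚ_[p] (PadicAlgCl p)) (x : PadicAlgCl p)
    (h : ∀ σ : PadicAlgCl p ≃ₐ[ℚ_[p]] PadicAlgCl p, (∀ y ∈ K, σ y = y) → σ x = x) : x ∈ K := by
  have : IsGalois ℚ_[p] (PadicAlgCl p) := inferInstance
  rw [← InfiniteGalois.fixedField_fixingSubgroup K, IntermediateField.mem_fixedField_iff]
  intro σ hσ
  exact h σ ((IntermediateField.mem_fixingSubgroup_iff K σ).1 hσ)

/-- Conjugates over `K`: every root of the minimal polynomial of `x` over `K` is `σ x` with `σ` fixing `K`. -/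
theorem exists_conj (K : IntermediateField ℚ_[p] (PadicAlgCl p)) (x y : PadicAlgCl p)
    (h : aeval y (minpoly K x) = 0) :
    ∃ σ : PadicAlgCl p ≃ₐ[ℚ_[p]] PadicAlgCl p, (∀ z ∈ K, σ z = z) ∧ σ x = y := by
  have : Normal K (PadicAlgCl p) := Normal.tower_top_of_normal ℚ_[p] K (PadicAlgCl p)
  have hx : IsAlgebraic K x := Algebra.IsAlgebraic.isAlgebraic x
  obtain ⟨σ, hσ⟩ := minpoly.exists_algEquiv_of_root' (K := K) (L := PadicAlgCl p) hx h
  refine ⟨σ.restrictScalars ℚ_[p], ?_, hσ⟩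
  intro z hz
  exact σ.commutes (⟨z, hz⟩ : K)

/-- An automorphism fixing the coefficients (`K`) commutes with evaluation. -/
theorem map_aeval (K : IntermediateField ℚ_[p] (PadicAlgCl p)) (σ : PadicAlgCl p ≃ₐ[ℚ_[p]] PadicAlgCl p)
    (hσ : ∀ z ∈ K, σ z = z) (g : (↥K)[X]) (x : PadicAlgCl p) : σ (aeval x g) = aeval (σ x) g := by
  have h1 : σ (aeval x g) = ((σ : PadicAlgCl p →+* PadicAlgCl p)) (eval₂ (algebraMap K (PadicAlgCl p)) x g) := rfl
  rw [h1, Polynomial.hom_eval₂]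
  have h2 : ((σ : PadicAlgCl p →+* PadicAlgCl p)).comp (algebraMap K (PadicAlgCl p)) =
      algebraMap K (PadicAlgCl p) := by
    ext z
    exact hσ z.1 z.2
  rw [h2]
  rfl

/-- Krasner's lemma: if `y` is closer to `x` than every other conjugate of `x` over `K`, then `x ∈ K(y)`.
Proof: for `σ` fixing `K(y)`, `‖σ x - y‖ = ‖x - y‖`, so `‖σ x - x‖ ≤ ‖x - y‖`, hence `σ x = x`; `mem_of_fixed`. -/
theorem krasner (K : IntermediateField ℚ_[p] (PadicAlgCl p)) (x y : PadicAlgCl p)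
    (h : ∀ x' : PadicAlgCl p, aeval x' (minpoly K x) = 0 → x' ≠ x → ‖x - y‖ < ‖x - x'‖) :
    x ∈ K ⊔ ℚ_[p]⟮y⟯ := by
  apply mem_of_fixed
  intro σ hσ
  by_contra hne
  have hK : ∀ z ∈ K, σ z = z := fun z hz => hσ z ((le_sup_left : K ≤ K ⊔ ℚ_[p]⟮y⟯) hz)
  have hy : σ y = y := hσ y ((le_sup_right : ℚ_[p]⟮y⟯ ≤ K ⊔ ℚ_[p]⟮y⟯)
    (IntermediateField.mem_adjoin_simple_self _ _))
  have hroot : aeval (σ x) (minpoly K x) = 0 := by
    rw [← map_aeval K σ hK, minpoly.aeval, map_zero]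
  have h1 := h (σ x) hroot hne
  have h2 : ‖σ x - y‖ = ‖x - y‖ := by
    have h3 : σ x - y = σ (x - y) := by rw [map_sub, hy]
    rw [h3, norm_equiv]
  have h4 : ‖x - σ x‖ ≤ max ‖x - y‖ ‖y - σ x‖ := by
    have h5 : x - σ x = (x - y) + (y - σ x) := by ring
    rw [h5]
    exact IsUltrametricDist.norm_add_le_max _ _
  rw [norm_sub_rev y (σ x), h2, max_self] at h4
  exact absurd h4 (not_le.2 h1)

end MP4270
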