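import Pool.Agent.Lib_MP_4270a5_nt.HProp
import Pool.Agent.Lib_MP_4270a5_nt.Dir
import Pool.Agent.Lib_MP_4270a5_nt.DivB

open Polynomial IntermediateField

namespace MP4270

private theorem satb_hW_prod {r : ℕ} (a : Fin r → Qb) (ha0 : ∀ i, a i ≠ 0) (e : Fin r → ℤ) :
    hW (∏ i, a i ^ e i) ≤ ∑ i, |(e i : ℝ)| * hW (a i) :=
  (hW_prod_le _ _).trans (Finset.sum_le_sum fun i _ => (hW_zpow (ha0 i) (e i)).le)

/-- The division group in `K` is finite modulo `⟨a⟩` up to roots of unity: the same argument with `g = 1` (if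
`y^M = ∏ a_i^(e_i)`, then `y^n ∏ a_i^(-k_i)` has height `≤ ∑ |n e_i/M - k_i| hW (a i) < c_K` for some `n ≤ N^r`);
`B₀ = (N^r)!`. -/
theorem sat_bound (K : IntermediateField ℚ Qb) [FiniteDimensional ℚ K] {r : ℕ} (a : Fin r → Qb)
    (ha : ∀ i, a i ∈ K) (ha0 : ∀ i, a i ≠ 0) :
    ∃ B₀ : ℕ, 0 < B₀ ∧ ∀ y ∈ K, y ≠ 0 → DivG a y →
      ∃ w : Qb, (∃ N : ℕ, 0 < N ∧ w ^ N = 1) ∧ ∃ e : Fin r → ℤ, y ^ B₀ = w * ∏ i, a i ^ e i := by
  obtain ⟨c, hc, hgap⟩ := hW_gap K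
  obtain ⟨N, hN⟩ := exists_nat_gt ((∑ i, hW (a i)) / c)
  have hS : 0 ≤ ∑ i, hW (a i) := Finset.sum_nonneg fun i _ => hW_nonneg _
  have hN0 : 0 < N := by
    have : (0 : ℝ) < N := lt_of_le_of_lt (div_nonneg hS hc.le) hN
    exact_mod_cast this
  have hN0' : (0 : ℝ) < N := by exact_mod_cast hN0
  refine ⟨(N ^ r).factorial, Nat.factorial_pos _, fun y hy hy0 hdy => ?_⟩
  obtain ⟨M, hM, e, he⟩ := hdy
  have hM' : (0 : ℝ) < M := by exact_mod_cast hM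
  obtain ⟨n, hn, hnN, k, hk⟩ := dirichlet N hN0 (fun i => (e i : ℝ) / M)
  set z : Qb := y ^ n * ∏ i, a i ^ (- k i) with hz
  have hzK : z ∈ K := mul_mem (pow_mem hy n) (prod_mem fun i _ => zpow_mem (ha i) _)
  have hz0 : z ≠ 0 := mul_ne_zero (pow_ne_zero _ hy0)
    (Finset.prod_ne_zero_iff.2 fun i _ => zpow_ne_zero _ (ha0 i))
  have hzM : z ^ M = ∏ i, a i ^ (n * e i - M * k i) := by
    rw [hz, mul_pow, ← pow_mul, mul_comm n M, pow_mul, he, ← Finset.prod_pow, ← Finset.prod_pow,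
      ← Finset.prod_mul_distrib]
    refine Finset.prod_congr rfl fun i _ => ?_
    rw [← zpow_natCast, ← zpow_mul, ← zpow_natCast, ← zpow_mul, ← zpow_add₀ (ha0 i)]
    congr 1
    ring
  have hz1 : (M : ℝ) * hW z < M * c := by
    rw [← hW_pow, hzM]
    refine lt_of_le_of_lt (satb_hW_prod a ha0 _) ?_
    have h1 : ∀ i, |((n * e i - M * k i : ℤ) : ℝ)| * hW (a i) ≤ M * (hW (a i) / N) := by
      intro i
      have h2 : ((n * e i - M * k i : ℤ) : ℝ) = M * (n * ((e i : ℝ) / M) - k i) := by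
        push_cast
        field_simp
      rw [h2, abs_mul, abs_of_pos hM', mul_assoc, div_eq_inv_mul (hW (a i)) (N : ℝ)]
      refine mul_le_mul_of_nonneg_left (mul_le_mul_of_nonneg_right ?_ (hW_nonneg _)) hM'.le
      have := hk i
      rwa [one_div] at this
    refine lt_of_le_of_lt (Finset.sum_le_sum fun i _ => h1 i) ?_
    rw [← Finset.mul_sum, ← Finset.sum_div]
    refine mul_lt_mul_of_pos_left ?_ hM'
    rw [div_lt_iff₀ hN0']
    rw [div_lt_iff₀ hc] at hN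
    linarith
  obtain ⟨L, hL, hzL⟩ := hgap z hzK hz0 (lt_of_mul_lt_mul_left hz1 hM'.le)
  obtain ⟨d, hd⟩ := Nat.dvd_factorial hn hnN
  refine ⟨z ^ d, ⟨L, hL, by rw [← pow_mul, mul_comm, pow_mul, hzL, one_pow]⟩, fun i => k i * d, ?_⟩
  rw [hd, pow_mul]
  have h3 : y ^ n = z * ∏ i, a i ^ k i := by
    rw [hz, mul_assoc, ← Finset.prod_mul_distrib, Finset.prod_eq_one, mul_one]
    intro i _
    rw [← zpow_add₀ (ha0 i), neg_add_cancel, zpow_zero]
  rw [h3, mul_pow, ← Finset.prod_pow]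
  congr 1
  refine Finset.prod_congr rfl fun i _ => ?_
  rw [zpow_mul, zpow_natCast]

end MP4270
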