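import Pool.Agent.Lib_MP_4270a5_nt.T0
import Pool.Agent.Lib_MP_4270a5_nt.AbS
import Pool.Agent.Lib_MP_4270a5_nt.SatB

open Polynomial IntermediateField

namespace MP4270

/-- `c' = v_p((t₀ - 1) B₀)`, `t₀ = (1+p)^(d!)`, `B₀` from `sat_bound`: if `y = ∏ α_j^(b_j) ∈ K(μ_M)`, `M = p^k m`, then
`p^k ∣ p^c' b_j`. Proof: `y' = y^n`, `y'^(p^k) = ∏ a_j^(b_j)`; `ab_step` (`q = p^k`, `exists_t0`): `y'^(t₀-1) = w y₀` with
`y₀ ∈ K` in the division group; `y₀^(B₀) = w' ∏ a_j^(e_j)`, so `∏ a_j^(b_j (t₀-1) B₀ - p^k e_j)` is a root of unity and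
`b_j (t₀ - 1) B₀ = p^k e_j`. -/
theorem kum_div (K : IntermediateField ℚ Qb) [FiniteDimensional ℚ K] {r : ℕ} (a : Fin r → Qb)
    (ha : ∀ i, a i ∈ K) (ha0 : ∀ i, a i ≠ 0) (hind : ∀ e : Fin r → ℤ, ∏ i, a i ^ e i = 1 → e = 0)
    (p : ℕ) [Fact p.Prime] : ∃ c' : ℕ, ∀ k m n : ℕ, 0 < m → 0 < n → n ∣ m → m.Coprime p →
      ∀ α : Fin r → Qb, (∀ j, α j ^ (p ^ k * n) = a j) → ∀ b : Fin r → ℤ,
        ∏ j, α j ^ b j ∈ K ⊔ adjoin ℚ {x : Qb | x ^ (p ^ k * m) = 1} → ∀ j, (p : ℤ) ^ k ∣ (p : ℤ) ^ c' * b j := by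
  classical
  have hp : p.Prime := Fact.out
  obtain ⟨B₀, hB₀, hsat⟩ := sat_bound K a ha ha0
  set t₀ : ℕ := (1 + p) ^ (Nat.factorial (Module.finrank ℚ K)) with ht₀
  have ht₀2 : 2 ≤ t₀ := by
    have h1 : 1 + p ≤ t₀ := by
      rw [ht₀]
      exact Nat.le_self_pow (Nat.factorial_pos _).ne' (1 + p)
    have := hp.two_le
    omega
  have hne : (t₀ - 1) * B₀ ≠ 0 := Nat.mul_ne_zero (by omega) hB₀.ne'
  obtain ⟨c', u, hu, hcu⟩ := Nat.exists_eq_pow_mul_and_not_dvd hne p hp.ne_one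
  refine ⟨c', ?_⟩
  intro k m n hm hn hnm hcop α hα b hy j
  have hpk : 0 < p ^ k := pow_pos hp.pos k
  have hα0 : ∀ j, α j ≠ 0 := by
    intro j h0
    have h1 := hα j
    rw [h0, zero_pow (Nat.mul_pos hpk hn).ne'] at h1
    exact ha0 j h1.symm
  set y : Qb := ∏ j, α j ^ b j with hydef
  have hy0 : y ≠ 0 := Finset.prod_ne_zero_iff.2 fun j _ => zpow_ne_zero _ (hα0 j)
  -- the power of y
  have hyq : (y ^ n) ^ (p ^ k) = ∏ j, a j ^ b j := by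
    rw [← pow_mul, hydef, ← Finset.prod_pow]
    refine Finset.prod_congr rfl fun j _ => ?_
    rw [← hα j, ← zpow_natCast (α j ^ b j), ← zpow_mul, ← zpow_natCast (α j), ← zpow_mul]
    congr 1
    push_cast
    ring
  have hyK : (y ^ n) ^ (p ^ k) ∈ K := by
    rw [hyq]
    exact prod_mem fun j _ => zpow_mem (ha j) _
  obtain ⟨τ, hτ, hτq⟩ := exists_t0 K p k
  obtain ⟨y₀, hy₀K, w, hw, hyw⟩ := ab_step K (M := p ^ k * m) (q := p ^ k) (t := t₀)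
    (Nat.mul_pos hpk hm) hpk (by omega) (pow_mem hy n) (pow_ne_zero n hy0) hyK τ hτ
    (fun x hx => hτq x hx)
  have hy₀0 : y₀ ≠ 0 := by
    rintro rfl
    rw [mul_zero] at hyw
    exact pow_ne_zero _ (pow_ne_zero n hy0) hyw
  -- the power of y₀
  have hy₀q : y₀ ^ (p ^ k) = ∏ j, a j ^ (b j * ((t₀ - 1 : ℕ) : ℤ)) := by
    have h1 : ((y ^ n) ^ (t₀ - 1)) ^ (p ^ k) = y₀ ^ (p ^ k) := by
      rw [hyw, mul_pow, hw, one_mul]
    rw [← h1, ← pow_mul, mul_comm (t₀ - 1), pow_mul, hyq, ← Finset.prod_pow]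
    refine Finset.prod_congr rfl fun j _ => ?_
    rw [← zpow_natCast (a j ^ b j), ← zpow_mul]
  have hdiv : DivG a y₀ := ⟨p ^ k, hpk, _, hy₀q⟩
  obtain ⟨w', ⟨N, hN, hwN⟩, e, he⟩ := hsat y₀ hy₀K hy₀0 hdiv
  -- the relation
  have hrel : (fun j => ((N : ℤ) * (b j * ((t₀ - 1 : ℕ) : ℤ) * (B₀ : ℤ) - (p : ℤ) ^ k * e j))) = 0 := by
    refine hind _ ?_
    have h1 : (y₀ ^ B₀) ^ (p ^ k) = w' ^ (p ^ k) * ∏ j, a j ^ ((p : ℤ) ^ k * e j) := by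
      rw [he, mul_pow, ← Finset.prod_pow]
      congr 1
      refine Finset.prod_congr rfl fun j _ => ?_
      rw [← zpow_natCast (a j ^ e j), ← zpow_mul]
      congr 1
      push_cast
      ring
    have h2 : (y₀ ^ B₀) ^ (p ^ k) = ∏ j, a j ^ (b j * ((t₀ - 1 : ℕ) : ℤ) * (B₀ : ℤ)) := by
      rw [← pow_mul, mul_comm B₀, pow_mul, hy₀q, ← Finset.prod_pow]
      refine Finset.prod_congr rfl fun j _ => ?_
      rw [← zpow_natCast (a j ^ (b j * ((t₀ - 1 : ℕ) : ℤ))), ← zpow_mul]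
    have h3 : ∏ j, a j ^ (b j * ((t₀ - 1 : ℕ) : ℤ) * (B₀ : ℤ) - (p : ℤ) ^ k * e j) =
        w' ^ (p ^ k) := by
      have h4 : ∏ j, a j ^ (b j * ((t₀ - 1 : ℕ) : ℤ) * (B₀ : ℤ) - (p : ℤ) ^ k * e j) =
          (∏ j, a j ^ (b j * ((t₀ - 1 : ℕ) : ℤ) * (B₀ : ℤ))) *
            (∏ j, a j ^ ((p : ℤ) ^ k * e j))⁻¹ := by
        rw [← Finset.prod_inv_distrib, ← Finset.prod_mul_distrib]
        refine Finset.prod_congr rfl fun j _ => ?_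
        rw [zpow_sub₀ (ha0 j), div_eq_mul_inv]
      have h5 : (∏ j, a j ^ ((p : ℤ) ^ k * e j)) ≠ 0 :=
        Finset.prod_ne_zero_iff.2 fun j _ => zpow_ne_zero _ (ha0 j)
      rw [h4, ← h2, h1, mul_assoc, mul_inv_cancel₀ h5, mul_one]
    have h6 : ∏ j, a j ^ ((N : ℤ) * (b j * ((t₀ - 1 : ℕ) : ℤ) * (B₀ : ℤ) - (p : ℤ) ^ k * e j)) =
        (∏ j, a j ^ (b j * ((t₀ - 1 : ℕ) : ℤ) * (B₀ : ℤ) - (p : ℤ) ^ k * e j)) ^ N := by
      rw [← Finset.prod_pow]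
      refine Finset.prod_congr rfl fun j _ => ?_
      rw [← zpow_natCast (a j ^ (b j * ((t₀ - 1 : ℕ) : ℤ) * (B₀ : ℤ) - (p : ℤ) ^ k * e j)) N,
        ← zpow_mul]
      congr 1
      ring
    rw [h6, h3, ← pow_mul, mul_comm, pow_mul, hwN, one_pow]
  have hj := congrFun hrel j
  simp only [Pi.zero_apply] at hj
  have hN' : (N : ℤ) ≠ 0 := by exact_mod_cast hN.ne'
  have hj2 : b j * ((t₀ - 1 : ℕ) : ℤ) * (B₀ : ℤ) = (p : ℤ) ^ k * e j :=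
    sub_eq_zero.1 ((mul_eq_zero.1 hj).resolve_left hN')
  have hcu' : ((t₀ - 1 : ℕ) : ℤ) * (B₀ : ℤ) = (p : ℤ) ^ c' * (u : ℤ) := by exact_mod_cast hcu
  have h7 : (p : ℤ) ^ k ∣ ((p : ℤ) ^ c' * b j) * (u : ℤ) := by
    refine ⟨e j, ?_⟩
    rw [← hj2]
    linear_combination (-b j) * hcu'
  refine IsCoprime.dvd_of_dvd_mul_right ?_ h7
  have h8 : Nat.Coprime p u := (Nat.Prime.coprime_iff_not_dvd hp).2 hu
  exact IsCoprime.pow_left (Nat.isCoprime_iff_coprime.2 h8)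

end MP4270
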