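import Pool.Agent.Lib_MP_4270a5_nt.KumDiv
import Pool.Agent.Lib_MP_4270a5_nt.Dual

open Polynomial IntermediateField

namespace MP4270

private theorem kumidx_E_add {N : ℕ} [NeZero N] {η : Qb} (hη : η ^ N = 1) (v w : ZMod N) :
    η ^ (v + w).val = η ^ v.val * η ^ w.val := by
  rw [ZMod.val_add, ← pow_add]
  exact (pow_eq_pow_mod (v.val + w.val) hη).symm

private theorem kumidx_E_mul {N : ℕ} [NeZero N] {η : Qb} (hη : η ^ N = 1) (b v : ZMod N) :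
    η ^ (b * v).val = (η ^ v.val) ^ b.val := by
  rw [ZMod.val_mul, ← pow_mul, mul_comm v.val]
  exact (pow_eq_pow_mod (b.val * v.val) hη).symm

private theorem kumidx_E_sum {N : ℕ} [NeZero N] {η : Qb} (hη : η ^ N = 1) {ι : Type*}
    (s : Finset ι) (v : ι → ZMod N) : η ^ (∑ j ∈ s, v j).val = ∏ j ∈ s, η ^ (v j).val := by
  classical
  induction s using Finset.induction_on with
  | empty => simp
  | insert a s ha ih => rw [Finset.sum_insert ha, Finset.prod_insert ha, kumidx_E_add hη, ih]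

private theorem kumidx_E_int {N : ℕ} [NeZero N] {η : Qb} (hη : η ^ N = 1) (hη0 : η ≠ 0) (z : ℤ) :
    η ^ ((z : ZMod N)).val = η ^ z := by
  rw [← zpow_natCast, ZMod.val_intCast]
  conv_rhs => rw [← Int.mul_ediv_add_emod z N]
  rw [zpow_add₀ hη0, zpow_mul, zpow_natCast, hη, one_zpow, one_mul]

/-- KUMMER THEORY. `N = p^k n`, `ω` a primitive `N`-th root of unity, `W` = the subgroup of the exponent vectors
`(c α_j = ω^(x_j) α_j)` of the automorphisms `c` over `K(μ_M)`, `M = p^k m`. `ζ = ω^(n t)` for some `t`. If the vector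
`w_j = n t p^c' e_j` is not in `W`, `dual` gives `b` with `∑ b_j x_j = 0` on `W`, i.e. `∏ α_j^(b_j)` is fixed, so it is in
`K(μ_M)` (`mem_of_fixed_Qb`), and `p^k ∣ p^c' b_j` (`kum_div`) contradicts `∑ b_j w_j ≠ 0`. -/
theorem kum_idx (K : IntermediateField ℚ Qb) [FiniteDimensional ℚ K] {r : ℕ} (a : Fin r → Qb)
    (ha : ∀ i, a i ∈ K) (ha0 : ∀ i, a i ≠ 0) (hind : ∀ e : Fin r → ℤ, ∏ i, a i ^ e i = 1 → e = 0)
    (p : ℕ) [Fact p.Prime] : ∃ c' : ℕ, ∀ k m n : ℕ, 0 < m → 0 < n → n ∣ m → m.Coprime p →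
      ∀ ζ : Qb, IsPrimitiveRoot ζ (p ^ k) → ∀ α : Fin r → Qb, (∀ j, α j ^ (p ^ k * n) = a j) →
        ∀ e : Fin r → ℤ, ∃ c : Qb ≃ₐ[ℚ] Qb, (∀ x ∈ K, c x = x) ∧ c ζ = ζ ∧
          ∀ j, c (α j) = ζ ^ ((p : ℤ) ^ c' * e j) * α j := by
  classical
  obtain ⟨c', hc'⟩ := kum_div K a ha ha0 hind p
  refine ⟨c', fun k m n hm hn hnm hmp ζ hζ α hα e => ?_⟩
  have hp : p.Prime := Fact.out
  have hpk : 0 < p ^ k := pow_pos hp.pos k
  set N := p ^ k * n with hN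
  have hN0 : 0 < N := Nat.mul_pos hpk hn
  have hNne : NeZero N := ⟨hN0.ne'⟩
  have hNne' : NeZero ((N : ℕ) : Qb) := ⟨by exact_mod_cast hN0.ne'⟩
  obtain ⟨ω, hω⟩ := HasEnoughRootsOfUnity.exists_primitiveRoot Qb N
  have hω1 : ω ^ N = 1 := hω.pow_eq_one
  have hω0 : ω ≠ 0 := hω.ne_zero hN0.ne'
  have hα0 : ∀ i, α i ≠ 0 := by
    intro i h
    apply ha0 i
    rw [← hα i, h, zero_pow hN0.ne']
  set F := K ⊔ adjoin ℚ {x : Qb | x ^ (p ^ k * m) = 1} with hF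
  have hKF : K ≤ F := le_sup_left
  have hrootF : ∀ x : Qb, x ^ (p ^ k * m) = 1 → x ∈ F := fun x hx =>
    (le_sup_right : _ ≤ F) (subset_adjoin ℚ _ hx)
  have hωF : ω ∈ F := by
    apply hrootF
    obtain ⟨q, hq⟩ := hnm
    rw [hq, ← mul_assoc, pow_mul, hω1, one_pow]
  have hζF : ζ ∈ F := hrootF ζ (by rw [pow_mul, hζ.pow_eq_one, one_pow])
  -- `ζ = ω^(n t)`
  obtain ⟨t, ht⟩ : ∃ t : ℕ, ζ = ω ^ (n * t) := by
    have h1 : ζ ^ N = 1 := by rw [hN, pow_mul, hζ.pow_eq_one, one_pow]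
    obtain ⟨i, -, hi⟩ := hω.eq_pow_of_pow_eq_one h1
    have h2 : ω ^ (i * p ^ k) = 1 := by rw [pow_mul, hi, hζ.pow_eq_one]
    have h3 : N ∣ i * p ^ k := (hω.pow_eq_one_iff_dvd _).1 h2
    rw [hN, mul_comm] at h3
    obtain ⟨t, ht⟩ := Nat.dvd_of_mul_dvd_mul_right hpk h3
    exact ⟨t, by rw [← hi, ht]⟩
  -- shape of automorphisms over `F`
  have hshape : ∀ σ : Qb ≃ₐ[ℚ] Qb, (∀ x ∈ F, σ x = x) →
      ∃ v : Fin r → ZMod N, ∀ j, σ (α j) = ω ^ (v j).val * α j := by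
    intro σ hσ
    have h1 : ∀ j, ∃ i : ℕ, σ (α j) = ω ^ i * α j := by
      intro j
      have h2 : (σ (α j) / α j) ^ N = 1 := by
        rw [div_pow, ← map_pow, hα j, hσ (a j) (hKF (ha j))]
        exact div_self (ha0 j)
      obtain ⟨i, -, hi⟩ := hω.eq_pow_of_pow_eq_one h2
      exact ⟨i, by rw [hi, div_mul_cancel₀ _ (hα0 j)]⟩
    choose u hu using h1
    refine ⟨fun j => (u j : ZMod N), fun j => ?_⟩
    rw [hu j, ZMod.val_natCast, ← pow_eq_pow_mod (u j) hω1]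
  have hvmul : ∀ (σ τ : Qb ≃ₐ[ℚ] Qb) (v w : Fin r → ZMod N), (∀ x ∈ F, σ x = x) →
      (∀ j, σ (α j) = ω ^ (v j).val * α j) → (∀ j, τ (α j) = ω ^ (w j).val * α j) →
      ∀ j, (σ * τ) (α j) = ω ^ ((v + w) j).val * α j := by
    intro σ τ v w hσ hv hw j
    show σ (τ (α j)) = _
    rw [hw j, map_mul, map_pow, hσ ω hωF, hv j, Pi.add_apply, kumidx_E_add hω1]
    ring
  have hmulF : ∀ σ τ : Qb ≃ₐ[ℚ] Qb, (∀ x ∈ F, σ x = x) → (∀ x ∈ F, τ x = x) →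
      ∀ x ∈ F, (σ * τ) x = x := by
    intro σ τ hσ hτ x hx
    show σ (τ x) = x
    rw [hτ x hx, hσ x hx]
  let W : AddSubgroup (Fin r → ZMod N) :=
    { carrier := {v | ∃ σ : Qb ≃ₐ[ℚ] Qb, (∀ x ∈ F, σ x = x) ∧ ∀ j, σ (α j) = ω ^ (v j).val * α j}
      zero_mem' := ⟨1, fun x _ => rfl, fun j => by
        rw [Pi.zero_apply, ZMod.val_zero, pow_zero, one_mul]
        rfl⟩
      add_mem' := by
        rintro v w ⟨σ, hσ, hv⟩ ⟨τ, hτ, hw⟩
        exact ⟨σ * τ, hmulF _ _ hσ hτ, hvmul _ _ _ _ hσ hv hw⟩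
      neg_mem' := by
        rintro v ⟨σ, hσ, hv⟩
        have hσ' : ∀ x ∈ F, σ.symm x = x := by
          intro x hx
          rw [AlgEquiv.symm_apply_eq, hσ x hx]
        refine ⟨σ.symm, hσ', fun j => ?_⟩
        rw [AlgEquiv.symm_apply_eq, map_mul, map_pow, hσ ω hωF, hv j, ← mul_assoc,
          ← kumidx_E_add hω1, Pi.neg_apply, neg_add_cancel, ZMod.val_zero, pow_zero, one_mul] }
  -- the vector
  have hw : (fun j => ((((n * t : ℕ) : ℤ) * ((p : ℤ) ^ c' * e j) : ℤ) : ZMod N)) ∈ W := by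
    by_contra hw
    obtain ⟨b, hb1, hb2⟩ := dual N hN0 W _ hw
    apply hb2
    have hy : ∏ j, α j ^ (((b j).val : ℕ) : ℤ) ∈ K ⊔ adjoin ℚ {x : Qb | x ^ (p ^ k * m) = 1} := by
      apply mem_of_fixed_Qb
      intro σ hσ
      obtain ⟨v, hv⟩ := hshape σ hσ
      have h1 := hb1 v ⟨σ, hσ, hv⟩
      rw [map_prod]
      have h2 : ∀ j, σ (α j ^ (((b j).val : ℕ) : ℤ)) =
          ω ^ (b j * v j).val * α j ^ (((b j).val : ℕ) : ℤ) := by
        intro j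
        rw [zpow_natCast, map_pow, hv j, mul_pow, kumidx_E_mul hω1]
      rw [Finset.prod_congr rfl fun j _ => h2 j, Finset.prod_mul_distrib, ← kumidx_E_sum hω1, h1,
        ZMod.val_zero, pow_zero, one_mul]
    have hd := hc' k m n hm hn hnm hmp α hα _ hy
    refine Finset.sum_eq_zero fun j _ => ?_
    have h3 : b j = (((b j).val : ℤ) : ZMod N) := by
      rw [Int.cast_natCast, ZMod.natCast_zmod_val]
    rw [h3, ← Int.cast_mul, ZMod.intCast_zmod_eq_zero_iff_dvd]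
    obtain ⟨q, hq⟩ := hd j
    refine ⟨t * e j * q, ?_⟩
    have h4 : (N : ℤ) = (p : ℤ) ^ k * n := by
      rw [hN]
      push_cast
      ring
    push_cast
    linear_combination (n : ℤ) * t * e j * hq - t * e j * q * h4
  obtain ⟨c, hc1, hc2⟩ := hw
  refine ⟨c, fun x hx => hc1 x (hKF hx), hc1 ζ hζF, fun j => ?_⟩
  rw [hc2 j, kumidx_E_int hω1 hω0, zpow_mul, zpow_natCast, ← ht]

end MP4270
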