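import Pool.Agent.Lib_MP_4270a5_nt.PowB
import Pool.Agent.Lib_MP_4270a5_nt.Iso

open Polynomial IntermediateField

namespace MP4270

variable {p : ℕ} [Fact p.Prime]

theorem levC_pow_sub_le (x y : PadicAlgCl p) (hx : ‖x‖ ≤ 1) (hy : ‖y‖ ≤ 1) (n : ℕ) :
    ‖x ^ n - y ^ n‖ ≤ ‖x - y‖ := by
  induction n with
  | zero => simp
  | succ n ih =>
    have h1 : x ^ (n + 1) - y ^ (n + 1) = x * (x ^ n - y ^ n) + (x - y) * y ^ n := by ring
    rw [h1]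
    refine (IsUltrametricDist.norm_add_le_max _ _).trans (max_le ?_ ?_)
    · rw [norm_mul]
      exact (mul_le_of_le_one_left (norm_nonneg _) hx).trans ih
    · rw [norm_mul, norm_pow]
      exact mul_le_of_le_one_right (norm_nonneg _) (pow_le_one₀ (norm_nonneg _) hy)

theorem levC_aeval_sub_le (K : IntermediateField ℚ_[p] (PadicAlgCl p)) (g : (↥K)[X])
    (hg : ∀ i, ‖((g.coeff i : ↥K) : PadicAlgCl p)‖ ≤ 1) (x y : PadicAlgCl p) (hx : ‖x‖ ≤ 1) (hy : ‖y‖ ≤ 1) :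
    ‖aeval x g - aeval y g‖ ≤ ‖x - y‖ := by
  rw [aeval_eq_sum_range, aeval_eq_sum_range, ← Finset.sum_sub_distrib]
  refine IsUltrametricDist.norm_sum_le_of_forall_le_of_nonneg (norm_nonneg _) ?_
  intro i _
  have h1 : g.coeff i • x ^ i - g.coeff i • y ^ i = ((g.coeff i : ↥K) : PadicAlgCl p) * (x ^ i - y ^ i) := by
    rw [← smul_sub]; rfl
  rw [h1, norm_mul]
  exact (mul_le_of_le_one_left (norm_nonneg _) (hg i)).trans (levC_pow_sub_le x y hx hy i)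

theorem levC_zpow_sub_one (t : PadicAlgCl p) (ht : ‖t‖ = 1) (n : ℤ) : ‖t ^ n - 1‖ ≤ ‖t - 1‖ := by
  have ht0 : t ≠ 0 := by
    rintro rfl
    rw [norm_zero] at ht
    exact zero_ne_one ht
  have hnat : ∀ m : ℕ, ‖t ^ m - 1‖ ≤ ‖t - 1‖ := by
    intro m
    have := levC_pow_sub_le t 1 ht.le (by simp) m
    rwa [one_pow] at this
  rcases Int.eq_nat_or_neg n with ⟨m, rfl | rfl⟩
  · rw [zpow_natCast]; exact hnat m
  · rw [zpow_neg, zpow_natCast]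
    have h1 : (t ^ m)⁻¹ - 1 = -((t ^ m)⁻¹ * (t ^ m - 1)) := by
      rw [mul_sub, inv_mul_cancel₀ (pow_ne_zero _ ht0), mul_one]; ring
    rw [h1, norm_neg, norm_mul, norm_inv, norm_pow, ht, one_pow, inv_one, one_mul]
    exact hnat m

/-- From one conjugate to the whole field: if `‖ρ w - w‖ ≤ p^(-δ)` for a uniformizer `w` of `L` and `p^(-δ/2) ≤ ‖w‖`, then
`‖ρ x - x‖ ≤ p^(-δ/2) ‖x‖` on `L`. (`x = w^n y`, `‖y‖ = 1`, `y = g(w)` with `g` integral over `K`, `ρ y = g(ρ w)`.) -/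
theorem unif_to_all (K L : IntermediateField ℚ_[p] (PadicAlgCl p)) [FiniteDimensional ℚ_[p] L]
    (h : ResTriv K L) {w : PadicAlgCl p} (hw : IsUnif L w) (ρ : PadicAlgCl p ≃ₐ[ℚ_[p]] PadicAlgCl p)
    (hρ : ∀ x ∈ K, ρ x = x) (δ : ℝ) (hδ : 0 < δ) (h1 : ‖ρ w - w‖ ≤ (p : ℝ) ^ (-δ))
    (h2 : (p : ℝ) ^ (-(δ / 2)) ≤ ‖w‖) : ∀ x ∈ L, ‖ρ x - x‖ ≤ (p : ℝ) ^ (-(δ / 2)) * ‖x‖ := by
  have hp : p.Prime := Fact.out
  have hp1 : (1 : ℝ) < p := by exact_mod_cast hp.one_lt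
  have hp0 : (0 : ℝ) < p := by linarith
  intro x hx
  by_cases hx0 : x = 0
  · subst hx0
    rw [map_zero, sub_zero, norm_zero, mul_zero]
  obtain ⟨n, hn⟩ := unif_norm L hw hx hx0
  have hw0 : w ≠ 0 := hw.2.1
  have hwn0 : ‖w‖ ≠ 0 := norm_ne_zero_iff.mpr hw0
  have hw1 : ‖w‖ ≤ 1 := hw.2.2.1.le
  set y : PadicAlgCl p := x / w ^ n with hy
  have hyL : y ∈ L := div_mem hx (zpow_mem hw.1 _)
  have hy1 : ‖y‖ = 1 := by
    rw [hy, norm_div, norm_zpow, hn, div_self]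
    exact zpow_ne_zero _ hwn0
  obtain ⟨g, hg, hgw⟩ := pow_int K L h hw hyL hy1.le
  have hρy : ρ y = aeval (ρ w) g := by rw [← hgw, map_aeval K ρ hρ g w]
  have hρw : ‖ρ w‖ = ‖w‖ := norm_equiv ρ w
  have hyd : ‖ρ y - y‖ ≤ (p : ℝ) ^ (-δ) := by
    rw [hρy]
    conv_lhs => rw [← hgw]
    exact (levC_aeval_sub_le K g hg (ρ w) w (by rw [hρw]; exact hw1) hw1).trans h1
  have hδle : (p : ℝ) ^ (-δ) ≤ (p : ℝ) ^ (-(δ / 2)) :=
    Real.rpow_le_rpow_of_exponent_le hp1.le (by linarith)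
  set t : PadicAlgCl p := ρ w / w with ht
  have ht1 : ‖t‖ = 1 := by rw [ht, norm_div, hρw, div_self hwn0]
  have htd : ‖t - 1‖ ≤ (p : ℝ) ^ (-(δ / 2)) := by
    have h3 : t - 1 = (ρ w - w) / w := by rw [ht, sub_div, div_self hw0]
    rw [h3, norm_div, div_le_iff₀ (norm_pos_iff.mpr hw0)]
    refine h1.trans ?_
    calc (p : ℝ) ^ (-δ) = (p : ℝ) ^ (-(δ / 2)) * (p : ℝ) ^ (-(δ / 2)) := by
          rw [← Real.rpow_add hp0]; congr 1; ring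
      _ ≤ (p : ℝ) ^ (-(δ / 2)) * ‖w‖ := mul_le_mul_of_nonneg_left h2 (Real.rpow_nonneg hp0.le _)
  have hxe : x = w ^ n * y := by
    rw [hy, mul_div_cancel₀ _ (zpow_ne_zero _ hw0)]
  have hxn : ‖x‖ = ‖w‖ ^ n := hn
  have hdec : ρ x - x = (ρ w) ^ n * (ρ y - y) + w ^ n * ((t ^ n - 1) * y) := by
    have h4 : (ρ w) ^ n = w ^ n * t ^ n := by
      rw [ht, div_zpow, mul_div_cancel₀ _ (zpow_ne_zero _ hw0)]
    conv_lhs => rw [hxe]
    rw [map_mul, map_zpow₀, h4]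
    ring
  rw [hdec]
  refine (IsUltrametricDist.norm_add_le_max _ _).trans (max_le ?_ ?_)
  · rw [norm_mul, norm_zpow, hρw, ← hxn, mul_comm]
    exact mul_le_mul_of_nonneg_right (hyd.trans hδle) (norm_nonneg _)
  · rw [norm_mul, norm_mul, norm_zpow, ← hxn, hy1, mul_one, mul_comm]
    exact mul_le_mul_of_nonneg_right ((levC_zpow_sub_one t ht1 n).trans htd) (norm_nonneg _)

end MP4270
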