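import Pool.Agent.Lib_MP_4270a5_nt.GalB

open Polynomial IntermediateField

namespace MP4270

/-- If `x^n = a_i` and `y^n' = a_i` then `x = ξ y^(n'/n)` with `ξ^n = 1`. -/
theorem lf_mono (K : IntermediateField ℚ Qb) {r : ℕ} (a : Fin r → Qb) {m n m' n' : ℕ} (hm' : 0 < m')
    (hn' : 0 < n') (hm : m ∣ m') (hn : n ∣ n') (hnm : n' ∣ m') : Lf K a m n ≤ Lf K a m' n' := by
  have hmem1 : ∀ x : Qb, x ^ m' = 1 → x ∈ Lf K a m' n' := fun x hx =>
    (le_sup_right : _ ≤ Lf K a m' n') (subset_adjoin ℚ _ (Or.inl hx))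
  have hmem2 : ∀ (x : Qb) (i : Fin r), x ^ n' = a i → x ∈ Lf K a m' n' := fun x i hx =>
    (le_sup_right : _ ≤ Lf K a m' n') (subset_adjoin ℚ _ (Or.inr ⟨i, hx⟩))
  refine sup_le le_sup_left (adjoin_le_iff.2 ?_)
  rintro x (hx | ⟨i, hx⟩)
  · obtain ⟨c, rfl⟩ := hm
    exact hmem1 x (by rw [pow_mul, show x ^ m = 1 from hx, one_pow])
  · have hn0 : 0 < n := Nat.pos_of_dvd_of_pos hn hn'
    obtain ⟨c, hc⟩ := hn
    by_cases ha : a i = 0
    · rw [ha] at hx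
      have : x = 0 := pow_eq_zero_iff hn0.ne' |>.1 hx
      rw [this]
      exact zero_mem _
    obtain ⟨y, hy⟩ := IsAlgClosed.exists_pow_nat_eq (a i) hn'
    have hy0 : y ≠ 0 := by
      rintro rfl
      rw [zero_pow hn'.ne'] at hy
      exact ha hy.symm
    have h1 : (x / y ^ c) ^ n = 1 := by
      rw [div_pow, ← pow_mul, mul_comm c n, ← hc, hy, hx, div_self ha]
    obtain ⟨b, hb⟩ := hnm
    have h2 : x / y ^ c ∈ Lf K a m' n' := by
      refine hmem1 _ ?_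
      rw [hb, hc, mul_assoc, pow_mul, h1, one_pow]
    have h3 : x = x / y ^ c * y ^ c := by
      field_simp
    rw [h3]
    exact mul_mem h2 (pow_mem (hmem2 y i hy) c)

theorem lf_gen (K : IntermediateField ℚ Qb) {r : ℕ} (a : Fin r → Qb) {m n : ℕ} (hm : 0 < m) (hnm : n ∣ m)
    {ζ : Qb} (hζ : IsPrimitiveRoot ζ m) (α : Fin r → Qb) (hα : ∀ i, α i ^ n = a i) :
    Lf K a m n = K ⊔ adjoin ℚ ({ζ} ∪ Set.range α) := by
  have hn : 0 < n := Nat.pos_of_dvd_of_pos hnm hm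
  have : NeZero m := ⟨hm.ne'⟩
  apply le_antisymm
  · have hζm : ζ ∈ K ⊔ adjoin ℚ ({ζ} ∪ Set.range α) :=
      (le_sup_right : _ ≤ K ⊔ adjoin ℚ ({ζ} ∪ Set.range α)) (subset_adjoin ℚ _ (Or.inl rfl))
    have hroot : ∀ x : Qb, x ^ m = 1 → x ∈ K ⊔ adjoin ℚ ({ζ} ∪ Set.range α) := by
      intro x hx
      obtain ⟨i, -, rfl⟩ := hζ.eq_pow_of_pow_eq_one hx
      exact pow_mem hζm i
    refine sup_le le_sup_left (adjoin_le_iff.2 ?_)
    rintro x (hx | ⟨i, hx⟩)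
    · exact hroot x hx
    · by_cases ha : a i = 0
      · rw [ha] at hx
        have : x = 0 := pow_eq_zero_iff hn.ne' |>.1 hx
        rw [this]
        exact zero_mem _
      have h0 : α i ≠ 0 := by
        intro h
        have h1 := hα i
        rw [h, zero_pow hn.ne'] at h1
        exact ha h1.symm
      have h1 : (x / α i) ^ n = 1 := by
        rw [div_pow, hα i, hx, div_self ha]
      obtain ⟨b, hb⟩ := hnm
      have h2 := hroot (x / α i) (by rw [hb, pow_mul, h1, one_pow])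
      have h3 : x = x / α i * α i := by field_simp
      rw [h3]
      exact mul_mem h2 ((le_sup_right : _ ≤ K ⊔ adjoin ℚ ({ζ} ∪ Set.range α))
        (subset_adjoin ℚ _ (Or.inr ⟨i, rfl⟩)))
  · refine sup_le le_sup_left (adjoin_le_iff.2 ?_)
    rintro x (hx | ⟨i, rfl⟩)
    · rw [Set.mem_singleton_iff] at hx
      rw [hx]
      exact (le_sup_right : _ ≤ Lf K a m n) (subset_adjoin ℚ _ (Or.inl hζ.pow_eq_one))
    · exact (le_sup_right : _ ≤ Lf K a m n) (subset_adjoin ℚ _ (Or.inr ⟨i, hα i⟩))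

theorem lf_stable (K : IntermediateField ℚ Qb) {r : ℕ} (a : Fin r → Qb) (ha : ∀ i, a i ∈ K) {m n : ℕ}
    (σ : Qb ≃ₐ[ℚ] Qb) (hσ : ∀ x ∈ K, σ x = x) : ∀ x ∈ Lf K a m n, σ x ∈ Lf K a m n := by
  have h : Lf K a m n ≤ (Lf K a m n).comap (σ : Qb →ₐ[ℚ] Qb) := by
    refine sup_le ?_ (adjoin_le_iff.2 ?_)
    · intro x hx
      show σ x ∈ Lf K a m n
      rw [hσ x hx]
      exact lf_le K a m n hx
    · rintro x (hx | ⟨i, hx⟩)
      · show σ x ∈ Lf K a m n
        refine (le_sup_right : _ ≤ Lf K a m n) (subset_adjoin ℚ _ (Or.inl ?_))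
        show (σ x) ^ m = 1
        rw [← map_pow, show x ^ m = 1 from hx, map_one]
      · show σ x ∈ Lf K a m n
        refine (le_sup_right : _ ≤ Lf K a m n) (subset_adjoin ℚ _ (Or.inr ⟨i, ?_⟩))
        rw [← map_pow, hx, hσ _ (ha i)]
  exact fun x hx => h hx

end MP4270
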