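import Pool.Agent.Lib_MP_4270a5_nt.Count
import Pool.Agent.Lib_MP_4270a5_nt.LevC

open Polynomial IntermediateField

namespace MP4270

/-- UNIFORM WILD RAMIFICATION. `m₀ = 4 (c + d + 4) + c' + 4`, `δ = δ₁/2`, `δ₁ = 1/(2 p^(m₀(r+1)))`, `k₀` so large that
`p^(k₀ - 1) ≥ 2/δ₁`: then `‖w‖ ≥ ‖ζ - 1‖ = p^(-1/(p^(k-1)(p-1))) ≥ p^(-δ₁/2)` and `unif_to_all` applies. -/
theorem local_main (p : ℕ) [Fact p.Prime] (r d c c' : ℕ) : ∃ m₀ k₀ : ℕ, ∃ δ : ℝ, 0 < δ ∧ m₀ < k₀ ∧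
    ∀ (B K' : IntermediateField ℚ_[p] (PadicAlgCl p)) [FiniteDimensional ℚ_[p] K'] (e k : ℕ)
      (ζ : PadicAlgCl p) (α : Fin r → PadicAlgCl p), k₀ ≤ k → B ≤ K' →
      (∀ x ∈ B, x ≠ 0 → ∃ n : ℤ, ‖x‖ = (p : ℝ) ^ n) →
      Module.finrank ℚ_[p] K' = Module.finrank ℚ_[p] B * e → padicValNat p e ≤ d →
      IsPrimitiveRoot ζ (p ^ k) → (∀ i, α i ^ (p ^ k) ∈ K') →
      (∀ i, (p : ℝ) ^ (-(c : ℝ)) ≤ ‖α i ^ (p ^ k)‖ ∧ ‖α i ^ (p ^ k)‖ ≤ (p : ℝ) ^ (c : ℝ)) →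
      ResTriv B (KumL K' ζ α) →
      ∃ (ρ : PadicAlgCl p ≃ₐ[ℚ_[p]] PadicAlgCl p) (i u : ℕ), i ≤ m₀ ∧ m₀ + 1 + c' ≤ 2 * i ∧ ¬ p ∣ u ∧
        (∀ x ∈ KumL K' (ζ ^ p ^ m₀) (fun i => α i ^ p ^ m₀), ρ x = x) ∧ ρ ζ = ζ ^ (1 + p ^ (k - i) * u) ∧
        ∀ x ∈ KumL K' ζ α, ‖ρ x - x‖ ≤ (p : ℝ) ^ (-δ) * ‖x‖ := by
  have hp : p.Prime := Fact.out
  have hp1 : (1 : ℝ) < p := by exact_mod_cast hp.one_lt
  have hp0 : (0 : ℝ) < p := by linarith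
  set m₀ : ℕ := 4 * (c + d + 4) + c' + 4 with hm₀
  set δ₁ : ℝ := 1 / (2 * (p : ℝ) ^ (m₀ * (r + 1))) with hδ₁
  have hden : (0 : ℝ) < 2 * (p : ℝ) ^ (m₀ * (r + 1)) := mul_pos two_pos (pow_pos hp0 _)
  have hδ₁0 : 0 < δ₁ := div_pos one_pos hden
  -- the level `k₀`
  set k₁ : ℕ := m₀ * (r + 1) + 4 with hk₁
  refine ⟨m₀, m₀ + 1 + k₁, δ₁ / 2, half_pos hδ₁0, by omega, ?_⟩
  intro B K' _ e k ζ α hk hBK hB he hd hζ hα hαc hres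
  have hfd : FiniteDimensional ℚ_[p] (KumL K' ζ α) := by
    have h1 : FiniteDimensional ℚ_[p] (adjoin ℚ_[p] ({ζ} ∪ Set.range α)) := by
      have hfin : Finite (↥({ζ} ∪ Set.range α : Set (PadicAlgCl p))) :=
        ((Set.finite_singleton ζ).union (Set.finite_range α)).to_subtype
      exact IntermediateField.finiteDimensional_adjoin fun x _ =>
        (Algebra.IsAlgebraic.isAlgebraic x).isIntegral
    exact IntermediateField.finiteDimensional_sup _ _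
  obtain ⟨w, hw⟩ := exists_unif (KumL K' ζ α)
  have hmk : m₀ < k := by omega
  obtain ⟨ρ, i, u, hi, h2i, hu, hfix, hρζ, hnear⟩ := exists_level B K' hB hBK he hd (r := r) (k := k) (c := c)
    (c' := c') (m := m₀) le_rfl hmk hζ α hα hαc hres hw
  have hK'L : K' ≤ KumL K' ζ α := le_sup_left
  have hresK : ResTriv K' (KumL K' ζ α) := by
    refine ⟨hK'L, fun x hx h1 => ?_⟩
    obtain ⟨y, hy, hxy⟩ := hres.2 x hx h1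
    exact ⟨y, hBK hy, hxy⟩
  have hρK : ∀ x ∈ K', ρ x = x := fun x hx => hfix x ((le_sup_left : K' ≤ _) hx)
  have hζL : ζ ∈ KumL K' ζ α :=
    (le_sup_right : adjoin ℚ_[p] ({ζ} ∪ Set.range α) ≤ _) (subset_adjoin _ _ (Or.inl rfl))
  have hk1 : k - 1 + 1 = k := by omega
  have hζn : ‖ζ - 1‖ = (p : ℝ) ^ (-(1 : ℝ) / (p ^ (k - 1) * (p - 1))) := by
    refine norm_primitive_sub_one ?_
    rw [hk1]
    exact hζ
  have hp2 : (2 : ℝ) ≤ p := by exact_mod_cast hp.two_le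
  have hpk : (0 : ℝ) < (p : ℝ) ^ (k - 1) * (p - 1) := mul_pos (pow_pos hp0 _) (by linarith)
  have hexp : -(1 : ℝ) / (p ^ (k - 1) * (p - 1)) < 0 := by
    rw [neg_div]
    exact neg_neg_of_pos (div_pos one_pos hpk)
  have hlt : ‖ζ - 1‖ < 1 := by
    rw [hζn]
    exact Real.rpow_lt_one_of_one_lt_of_neg hp1 hexp
  have hle : ‖ζ - 1‖ ≤ ‖w‖ := hw.2.2.2 _ (sub_mem hζL (one_mem _)) hlt
  have h2 : (p : ℝ) ^ (-(δ₁ / 2)) ≤ ‖w‖ := by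
    refine le_trans ?_ hle
    rw [hζn]
    apply Real.rpow_le_rpow_of_exponent_le hp1.le
    rw [neg_div, neg_le_neg_iff]
    -- 1/(p^(k-1)(p-1)) ≤ δ₁/2
    have h3 : 2 * (2 * (p : ℝ) ^ (m₀ * (r + 1))) ≤ (p : ℝ) ^ (k - 1) * (p - 1) := by
      have h4 : (p : ℝ) ^ (m₀ * (r + 1) + 2) ≤ (p : ℝ) ^ (k - 1) :=
        pow_le_pow_right₀ hp1.le (by omega)
      have h5 : (p : ℝ) ^ (m₀ * (r + 1) + 2) = (p : ℝ) ^ (m₀ * (r + 1)) * p ^ 2 := pow_add _ _ _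
      have h6 : (4 : ℝ) ≤ (p : ℝ) ^ 2 := by nlinarith
      have h7 : (0 : ℝ) < (p : ℝ) ^ (m₀ * (r + 1)) := pow_pos hp0 _
      have h8 : (p : ℝ) ^ (k - 1) ≤ (p : ℝ) ^ (k - 1) * (p - 1) := by
        have : (0 : ℝ) < (p : ℝ) ^ (k - 1) := pow_pos hp0 _
        nlinarith
      nlinarith
    rw [hδ₁, div_div, one_div, one_div]
    apply inv_anti₀
    · positivity
    · linarith
  have hall := unif_to_all K' (KumL K' ζ α) hresK hw ρ hρK δ₁ hδ₁0 hnear h2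
  exact ⟨ρ, i, u, hi, h2i, hu, hfix, hρζ, hall⟩

end MP4270
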