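import Pool.Agent.Lib_MP_4270a5_nt.OnePrime

open Polynomial IntermediateField

namespace MP4270

/-- SEVERAL PRIMES (induction on `S`: apply `one_prime` for `p`, with `p^(k)` split off, and the induction hypothesis for
`m := p^(k₁) m`, `n := p^(k₁) n`). -/
theorem several_primes (K : IntermediateField ℚ Qb) [FiniteDimensional ℚ K] {r : ℕ} (a : Fin r → Qb)
    (ha : ∀ i, a i ∈ K) (ha0 : ∀ i, a i ≠ 0) (hind : ∀ e : Fin r → ℤ, ∏ i, a i ^ e i = 1 → e = 0)
    (S : Finset ℕ) (hS : ∀ p ∈ S, p.Prime) : ∃ N₀ : ℕ, 0 < N₀ ∧ N₀.primeFactors ⊆ S ∧ ∃ c : ℝ, 0 < c ∧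
      ∀ N m n : ℕ, 0 < N → N.primeFactors ⊆ S → 0 < m → 0 < n → n ∣ m → (∀ p ∈ S, m.Coprime p) →
      ∀ β ∈ Lf K a (N * m) (N * n), β ≠ 0 → ∀ g : Qb, g ≠ 0 → DivG a g → hW (β * g) < c →
        ∃ β' ∈ Lf K a (N₀ * m) (N₀ * n), β' ≠ 0 ∧ ∃ g' : Qb, g' ≠ 0 ∧ DivG a g' ∧ β * g = β' * g' := by
  classical
  induction S using Finset.induction_on with
  | empty =>
    refine ⟨1, one_pos, by simp, 1, one_pos, ?_⟩
    intro N m n hN hNS _ _ _ _ β hβ hβ0 g hg0 hg _
    have hN1 : N = 1 := by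
      have h1 : N.primeFactors = ∅ := Finset.subset_empty.mp hNS
      rcases Nat.primeFactors_eq_empty.mp h1 with h | h
      · omega
      · exact h
    subst hN1
    exact ⟨β, hβ, hβ0, g, hg0, hg, rfl⟩
  | insert p S hpS ih =>
    have hp : p.Prime := hS p (Finset.mem_insert_self _ _)
    have hS' : ∀ q ∈ S, q.Prime := fun q hq => hS q (Finset.mem_insert_of_mem hq)
    obtain ⟨N₀, hN₀, hN₀S, c₁, hc₁, H1⟩ := ih hS'
    have : Fact p.Prime := ⟨hp⟩
    obtain ⟨k₁, c₂, hc₂, H2⟩ := one_prime K a ha ha0 hind p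
    refine ⟨N₀ * p ^ k₁, Nat.mul_pos hN₀ (pow_pos hp.pos _), ?_, min c₁ c₂, lt_min hc₁ hc₂, ?_⟩
    · intro q hq
      have hq' := Nat.mem_primeFactors.mp hq
      rcases (Nat.Prime.dvd_mul hq'.1).mp hq'.2.1 with h | h
      · exact Finset.mem_insert_of_mem (hN₀S (Nat.mem_primeFactors.mpr ⟨hq'.1, h, hN₀.ne'⟩))
      · have : q = p := (Nat.prime_dvd_prime_iff_eq hq'.1 hp).mp (hq'.1.dvd_of_dvd_pow h)
        rw [this]
        exact Finset.mem_insert_self _ _
    · intro N m n hN hNS hm hn hnm hmS β hβ hβ0 g hg0 hg hlt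
      -- split off the power of `p`
      obtain ⟨k, N', hN'p, hNe⟩ := Nat.exists_eq_pow_mul_and_not_dvd hN.ne' p hp.ne_one
      have hN' : 0 < N' := by
        rcases Nat.eq_zero_or_pos N' with h | h
        · exact absurd (h ▸ dvd_zero p) hN'p
        · exact h
      have hN'S : N'.primeFactors ⊆ S := by
        intro q hq
        have hq' := Nat.mem_primeFactors.mp hq
        have hqN : q ∈ insert p S :=
          hNS (Nat.mem_primeFactors.mpr ⟨hq'.1, hNe ▸ Dvd.dvd.mul_left hq'.2.1 _, hN.ne'⟩)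
        rcases Finset.mem_insert.mp hqN with h | h
        · exact absurd (h ▸ hq'.2.1) hN'p
        · exact h
      have hcop : (N' * m).Coprime p := by
        refine Nat.Coprime.mul_left ?_ (hmS p (Finset.mem_insert_self _ _))
        exact ((Nat.Prime.coprime_iff_not_dvd hp).mpr hN'p).symm
      have e1 : N * m = p ^ k * (N' * m) := by rw [hNe]; ring
      have e2 : N * n = p ^ k * (N' * n) := by rw [hNe]; ring
      rw [e1, e2] at hβ
      obtain ⟨β₁, hβ₁, hβ₁0, g₁, hg₁0, hg₁, he₁⟩ := H2 k (N' * m) (N' * n) (Nat.mul_pos hN' hm)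
        (Nat.mul_pos hN' hn) (Nat.mul_dvd_mul_left _ hnm) hcop β hβ hβ0 g hg0 hg
        (lt_of_lt_of_le hlt (min_le_right _ _))
      have e3 : p ^ k₁ * (N' * m) = N' * (p ^ k₁ * m) := by ring
      have e4 : p ^ k₁ * (N' * n) = N' * (p ^ k₁ * n) := by ring
      rw [e3, e4] at hβ₁
      obtain ⟨β₂, hβ₂, hβ₂0, g₂, hg₂0, hg₂, he₂⟩ := H1 N' (p ^ k₁ * m) (p ^ k₁ * n) hN' hN'S
        (Nat.mul_pos (pow_pos hp.pos _) hm) (Nat.mul_pos (pow_pos hp.pos _) hn)
        (Nat.mul_dvd_mul_left _ hnm)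
        (by
          intro q hq
          refine Nat.Coprime.mul_left ?_ (hmS q (Finset.mem_insert_of_mem hq))
          refine Nat.Coprime.pow_left _ ?_
          refine (Nat.coprime_primes hp (hS' q hq)).mpr ?_
          rintro rfl
          exact hpS hq)
        β₁ hβ₁ hβ₁0 g₁ hg₁0 hg₁ (by rw [← he₁]; exact lt_of_lt_of_le hlt (min_le_left _ _))
      have e5 : N₀ * (p ^ k₁ * m) = N₀ * p ^ k₁ * m := by ring
      have e6 : N₀ * (p ^ k₁ * n) = N₀ * p ^ k₁ * n := by ring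
      rw [e5, e6] at hβ₂
      exact ⟨β₂, hβ₂, hβ₂0, g₂, hg₂0, hg₂, he₁.trans he₂⟩

/-- The case used in the end (`m` replaced by a multiple of the form `N m''`, `n` by `N`). -/
theorem all_primes (K : IntermediateField ℚ Qb) [FiniteDimensional ℚ K] {r : ℕ} (a : Fin r → Qb)
    (ha : ∀ i, a i ∈ K) (ha0 : ∀ i, a i ≠ 0) (hind : ∀ e : Fin r → ℤ, ∏ i, a i ^ e i = 1 → e = 0)
    (S : Finset ℕ) (hS : ∀ p ∈ S, p.Prime) : ∃ N₀ : ℕ, 0 < N₀ ∧ N₀.primeFactors ⊆ S ∧ ∃ c : ℝ, 0 < c ∧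
      ∀ m n : ℕ, 0 < m → 0 < n → n.primeFactors ⊆ S →
      ∀ β ∈ Lf K a m n, β ≠ 0 → ∀ g : Qb, g ≠ 0 → DivG a g → hW (β * g) < c →
        ∃ m' : ℕ, 0 < m' ∧ (∀ p ∈ S, m'.Coprime p) ∧
          ∃ β' ∈ Lf K a (N₀ * m') N₀, β' ≠ 0 ∧ ∃ g' : Qb, g' ≠ 0 ∧ DivG a g' ∧ β * g = β' * g' := by
  classical
  obtain ⟨N₀, hN₀, hN₀S, c, hc, H⟩ := several_primes K a ha ha0 hind S hS
  refine ⟨N₀, hN₀, hN₀S, c, hc, ?_⟩
  intro m n hm hn hnS β hβ hβ0 g hg0 hg hlt
  have hmn : m * n ≠ 0 := (Nat.mul_pos hm hn).ne'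
  set N : ℕ := ∏ p ∈ S, p ^ (m * n).factorization p with hNdef
  have hN : 0 < N := Finset.prod_pos fun p hp => pow_pos (hS p hp).pos _
  have hNfac : ∀ q, q.Prime → N.factorization q = if q ∈ S then (m * n).factorization q else 0 := by
    intro q hq
    rw [hNdef, Nat.factorization_prod (fun p hp => (pow_pos (hS p hp).pos _).ne')]
    rw [Finsupp.finsetSum_apply]
    rw [Finset.sum_congr rfl (fun p hp => by
      rw [Nat.Prime.factorization_pow (hS p hp)])]
    simp only [Finsupp.single_apply]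
    rw [Finset.sum_ite_eq']
  have hNdvd : N ∣ m * n := by
    rw [← Nat.factorization_prime_le_iff_dvd hN.ne' hmn]
    intro q hq
    rw [hNfac q hq]
    split_ifs with h
    · exact le_refl _
    · exact Nat.zero_le _
  obtain ⟨m', hm'⟩ := hNdvd
  have hm'0 : 0 < m' := by
    rcases Nat.eq_zero_or_pos m' with h | h
    · rw [h, mul_zero] at hm'
      exact absurd hm' hmn
    · exact h
  have hNS : N.primeFactors ⊆ S := by
    intro q hq
    have hq' := Nat.mem_primeFactors.mp hq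
    by_contra hqS
    have h1 := hNfac q hq'.1
    rw [if_neg hqS] at h1
    have h2 := (Nat.factorization_eq_zero_iff N q).mp h1
    rcases h2 with h2 | h2 | h2
    · exact h2 hq'.1
    · exact h2 hq'.2.1
    · exact hN.ne' h2
  have hm'S : ∀ p ∈ S, m'.Coprime p := by
    intro p hp
    have hpp := hS p hp
    refine ((Nat.Prime.coprime_iff_not_dvd hpp).mpr ?_).symm
    intro hdvd
    have h1 : (m * n).factorization p = N.factorization p + m'.factorization p := by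
      rw [hm', Nat.factorization_mul hN.ne' hm'0.ne']
      rfl
    rw [hNfac p hpp, if_pos hp] at h1
    have h2 : m'.factorization p = 0 := by omega
    rcases (Nat.factorization_eq_zero_iff m' p).mp h2 with h2 | h2 | h2
    · exact h2 hpp
    · exact h2 hdvd
    · exact hm'0.ne' h2
  have hnN : n ∣ N := by
    rw [← Nat.factorization_prime_le_iff_dvd hn.ne' hN.ne']
    intro q hq
    rw [hNfac q hq]
    split_ifs with h
    · rw [Nat.factorization_mul hm.ne' hn.ne']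
      exact Nat.le_add_left _ _
    · have : ¬ q ∣ n := by
        intro hqn
        exact h (hnS (Nat.mem_primeFactors.mpr ⟨hq, hqn, hn.ne'⟩))
      rw [Nat.factorization_eq_zero_of_not_dvd this]
  have hle : Lf K a m n ≤ Lf K a (N * m') (N * 1) := by
    rw [mul_one]
    refine lf_mono K a (Nat.mul_pos hN hm'0) hN ?_ hnN (Dvd.intro _ rfl)
    rw [← hm']
    exact Dvd.intro _ rfl
  obtain ⟨β', hβ', hβ'0, g', hg'0, hg', he⟩ := H N m' 1 hN hNS hm'0 one_pos (one_dvd _) hm'S β (hle hβ) hβ0 g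
    hg0 hg hlt
  rw [mul_one] at hβ'
  exact ⟨m', hm'0, hm'S, β', hβ', hβ'0, g', hg'0, hg', he⟩

end MP4270
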