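import Pool.Agent.Lib_MP_4270a5_nt.LfE

open Polynomial IntermediateField

namespace MP4270

section Gen

variable {F E M : Type*} [Field F] [Field E] [Field M] [Algebra F E] [Algebra F M] [Algebra M E]
  [IsScalarTower F M E]

/-- the number of elements of the Galois group which fix `K` -/
theorem orb_card_gen [FiniteDimensional F M] [IsGalois F M] (K : IntermediateField F E)
    (hK : ∀ x ∈ K, ∃ y : M, algebraMap M E y = x) (S : Finset (M ≃ₐ[F] M))
    (hS : ∀ g : M ≃ₐ[F] M, (∀ y : M, algebraMap M E y ∈ K → g y = y) → g ∈ S) :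
    Module.finrank F M ≤ Module.finrank F K * S.card := by
  set f : M →ₐ[F] E := IsScalarTower.toAlgHom F M E with hf
  have h1 := Module.finrank_mul_finrank F (K.comap f) M
  have h2 := IsGalois.card_fixingSubgroup_eq_finrank (K.comap f)
  have h3 : Module.finrank F (K.comap f) = Module.finrank F K := by
    have e := (IntermediateField.equivMap (K.comap f) f).toLinearEquiv.finrank_eq
    rw [e]
    have : (K.comap f).map f = K := by
      rw [IntermediateField.map_comap_eq]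
      refine inf_eq_left.2 ?_
      intro x hx
      obtain ⟨y, hy⟩ := hK x hx
      exact ⟨y, hy⟩
    rw [this]
  rw [← h1, ← h2, h3]
  refine Nat.mul_le_mul le_rfl ?_
  have h4 : ((K.comap f).fixingSubgroup : Set (M ≃ₐ[F] M)) ⊆ (S : Set (M ≃ₐ[F] M)) := by
    intro g hg
    refine hS g fun y hy => ?_
    exact (IntermediateField.mem_fixingSubgroup_iff _ _).1 hg y hy
  have h5 := Nat.card_mono (Finset.finite_toSet S) h4
  have h6 : Nat.card (S : Set (M ≃ₐ[F] M)) = S.card := by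
    simp
  rw [h6] at h5
  exact h5

end Gen

section Aux

variable (M : IntermediateField ℚ Qb) [Normal ℚ M]

theorem orb_lift (g : M ≃ₐ[ℚ] M) : ∃ σ : Qb ≃ₐ[ℚ] Qb, AlgEquiv.restrictNormal σ M = g :=
  AlgEquiv.restrictNormalHom_surjective (K₁ := M) Qb g

theorem orb_restrict_mul (σ τ : Qb ≃ₐ[ℚ] Qb) :
    AlgEquiv.restrictNormal (σ * τ) M = AlgEquiv.restrictNormal σ M * AlgEquiv.restrictNormal τ M :=
  map_mul (AlgEquiv.restrictNormalHom M) σ τ

theorem orb_restrict_inv (σ : Qb ≃ₐ[ℚ] Qb) :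
    AlgEquiv.restrictNormal σ⁻¹ M = (AlgEquiv.restrictNormal σ M)⁻¹ :=
  map_inv (AlgEquiv.restrictNormalHom M) σ

theorem orb_commutes (σ : Qb ≃ₐ[ℚ] Qb) (x : M) :
    ((AlgEquiv.restrictNormal σ M) x : Qb) = σ (x : Qb) :=
  AlgEquiv.restrictNormal_commutes σ M x

theorem orb_restrict_eq {σ τ : Qb ≃ₐ[ℚ] Qb}
    (h : AlgEquiv.restrictNormal σ M = AlgEquiv.restrictNormal τ M) {x : Qb} (hx : x ∈ M) :
    σ x = τ x := by
  have h1 := orb_commutes M σ ⟨x, hx⟩
  have h2 := orb_commutes M τ ⟨x, hx⟩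
  rw [h] at h1
  exact h1.symm.trans h2

theorem orb_map_mem (σ : Qb ≃ₐ[ℚ] Qb) {x : Qb} (hx : x ∈ M) : σ x ∈ M := by
  have h1 := orb_commutes M σ ⟨x, hx⟩
  have h2 : ((AlgEquiv.restrictNormal σ M) ⟨x, hx⟩ : Qb) ∈ M := Subtype.property _
  rwa [h1] at h2

theorem orb_card [FiniteDimensional ℚ M] (K : IntermediateField ℚ Qb) (hK : K ≤ M)
    (S : Finset (M ≃ₐ[ℚ] M))
    (hS : ∀ g : M ≃ₐ[ℚ] M, (∀ x (hx : x ∈ K), g ⟨x, hK hx⟩ = ⟨x, hK hx⟩) → g ∈ S) :
    Module.finrank ℚ M ≤ Module.finrank ℚ K * S.card := by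
  have hfd : @FiniteDimensional ℚ M _ _ (Algebra.toModule) := by
    convert (inferInstance : FiniteDimensional ℚ M)
  have hgal : IsGalois ℚ M := {}
  exact orb_card_gen (F := ℚ) (E := Qb) (M := M) K (fun x hx => ⟨⟨x, hK hx⟩, rfl⟩) S
    (fun g hg => hS g fun x hx => hg ⟨x, hK hx⟩ hx)

end Aux

theorem orb_card_roots (N : ℕ) : (Polynomial.nthRootsFinset N (1 : Qb)).card ≤ N := by
  classical
  unfold Polynomial.nthRootsFinset
  exact (Multiset.toFinset_card_le _).trans (Polynomial.card_nthRoots N 1)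

theorem orb_inv_fix (K : IntermediateField ℚ Qb) (σ : Qb ≃ₐ[ℚ] Qb) (hσ : ∀ x ∈ K, σ x = x) :
    ∀ x ∈ K, σ⁻¹ x = x := by
  intro x hx
  have h := congrArg (fun z => σ⁻¹ z) (hσ x hx)
  have h2 : σ⁻¹ (σ x) = x := σ.symm_apply_apply x
  exact h.symm.trans h2

/-- ORBIT COUNT. `G_K` = the elements of `Gal(M/ℚ)` which fix `K`: `[M:ℚ] = [K:ℚ] |G_K|`. `T` = the `σ ∈ G_K` with
`σ h' σ⁻¹ = h` on `Lf_k`, `h' = τ h τ⁻¹`. The map `σ ↦ σ⁻¹ h σ` on `Lf_k` from `G_K` to the set of restrictions to `Lf_k` of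
automorphisms which fix `Lf_(k-m₀)` (this field is normal over `K`) has at most `p^(m₀(r+1))` values (`lf_shape`, `lf_ext`)
and every nonempty fibre, e.g. the fibre `T` over `h'` (it contains `τ⁻¹`), has as many elements as the stabilizer of
`h`. -/
theorem orb_count (K : IntermediateField ℚ Qb) [FiniteDimensional ℚ K] {r : ℕ} (a : Fin r → Qb)
    (ha : ∀ i, a i ∈ K) (ha0 : ∀ i, a i ≠ 0) (p : ℕ) [Fact p.Prime] {k m n m₀ : ℕ} (hm₀ : m₀ ≤ k)
    (hm : 0 < m) (hn : 0 < n) (hnm : n ∣ m) (hmp : m.Coprime p) (h τ : Qb ≃ₐ[ℚ] Qb)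
    (hh : ∀ x ∈ Lf K a (p ^ (k - m₀) * m) (p ^ (k - m₀) * n), h x = x) (hτ : ∀ x ∈ K, τ x = x)
    (M : IntermediateField ℚ Qb) [FiniteDimensional ℚ M] [Normal ℚ M]
    (hM : Lf K a (p ^ k * m) (p ^ k * n) ≤ M) :
    ∃ T : Finset (M ≃ₐ[ℚ] M), Module.finrank ℚ M ≤ T.card * (Module.finrank ℚ K * p ^ (m₀ * (r + 1))) ∧
      ∀ σ : Qb ≃ₐ[ℚ] Qb, AlgEquiv.restrictNormal σ M ∈ T → (∀ x ∈ K, σ x = x) ∧
        ∀ y ∈ Lf K a (p ^ k * m) (p ^ k * n), σ (τ (h (τ⁻¹ y))) = h (σ y) := by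
  classical
  have hp : p.Prime := Fact.out
  have hppos : 0 < p := hp.pos
  set L := Lf K a (p ^ k * m) (p ^ k * n) with hL
  set L₀ := Lf K a (p ^ (k - m₀) * m) (p ^ (k - m₀) * n) with hL₀
  have hKL : K ≤ L := lf_le K a _ _
  have hKL₀ : K ≤ L₀ := lf_le K a _ _
  have hKM : K ≤ M := hKL.trans hM
  have hstab : ∀ σ : Qb ≃ₐ[ℚ] Qb, (∀ x ∈ K, σ x = x) → ∀ x ∈ L, σ x ∈ L :=
    fun σ hσ => lf_stable K a ha σ hσ
  have hstab₀ : ∀ σ : Qb ≃ₐ[ℚ] Qb, (∀ x ∈ K, σ x = x) → ∀ x ∈ L₀, σ x ∈ L₀ :=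
    fun σ hσ => lf_stable K a ha σ hσ
  have hfinGal : Finite (M ≃ₐ[ℚ] M) := by
    have hfd : @FiniteDimensional ℚ M _ _ (Algebra.toModule) := by
      convert (inferInstance : FiniteDimensional ℚ M)
    infer_instance
  have hFintype : Fintype (M ≃ₐ[ℚ] M) := Fintype.ofFinite _
  -- generators
  obtain ⟨ζ, hζ⟩ : ∃ ζ : Qb, IsPrimitiveRoot ζ (p ^ k) := by
    have hpk : 0 < p ^ k := pow_pos hppos k
    have hne : NeZero ((p ^ k : ℕ) : Qb) := ⟨by exact_mod_cast hpk.ne'⟩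
    have hdeg : (cyclotomic (p ^ k) Qb).degree ≠ 0 := (degree_cyclotomic_pos _ _ hpk).ne'
    obtain ⟨ζ, hζ⟩ := IsAlgClosed.exists_root (cyclotomic (p ^ k) Qb) hdeg
    exact ⟨ζ, isRoot_cyclotomic_iff.1 hζ⟩
  have hζ0 : ζ ≠ 0 := hζ.ne_zero (pow_pos hppos k).ne'
  have hα' : ∀ i, ∃ z : Qb, z ^ (p ^ k * n) = a i := fun i =>
    IsAlgClosed.exists_pow_nat_eq (a i) (Nat.mul_pos (pow_pos hppos k) hn)
  choose α hα using hα'
  have hα0 : ∀ i, α i ≠ 0 := by
    intro i h0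
    have := hα i
    rw [h0, zero_pow (Nat.mul_pos (pow_pos hppos k) hn).ne'] at this
    exact ha0 i this.symm
  choose lift hlift using orb_lift M
  set s : (M ≃ₐ[ℚ] M) → (Qb ≃ₐ[ℚ] Qb) := fun g => (lift g)⁻¹ * h * lift g with hs
  have hsapp : ∀ g x, s g x = (lift g)⁻¹ (h (lift g x)) := fun g x => rfl
  have hcancel : ∀ (σ : Qb ≃ₐ[ℚ] Qb) x, σ (σ⁻¹ x) = x := fun σ x => σ.apply_symm_apply x
  have hcancel' : ∀ (σ : Qb ≃ₐ[ℚ] Qb) x, σ⁻¹ (σ x) = x := fun σ x => σ.symm_apply_apply x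
  set GK : Finset (M ≃ₐ[ℚ] M) := Finset.univ.filter (fun g => ∀ x ∈ K, lift g x = x) with hGK
  have hsfix : ∀ g ∈ GK, ∀ x ∈ L₀, s g x = x := by
    intro g hg x hx
    have hg' : ∀ x ∈ K, lift g x = x := (Finset.mem_filter.1 hg).2
    rw [hsapp, hh _ (hstab₀ (lift g) hg' x hx), hcancel']
  set T : Finset (M ≃ₐ[ℚ] M) := Finset.univ.filter (fun g => ∃ σ : Qb ≃ₐ[ℚ] Qb,
    AlgEquiv.restrictNormal σ M = g ∧ (∀ x ∈ K, σ x = x) ∧
      ∀ y ∈ L, σ (τ (h (τ⁻¹ y))) = h (σ y)) with hT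
  set Φ : (M ≃ₐ[ℚ] M) → Qb × (Fin r → Qb) := fun g =>
    (s g ζ / ζ, fun i => s g (α i) / α i) with hΦ
  set S : Finset (Qb × (Fin r → Qb)) := (Polynomial.nthRootsFinset (p ^ m₀) (1 : Qb)) ×ˢ
    Fintype.piFinset (fun _ : Fin r => Polynomial.nthRootsFinset (p ^ m₀) (1 : Qb)) with hS
  have hScard : S.card ≤ p ^ (m₀ * (r + 1)) := by
    rw [hS, Finset.card_product, Fintype.card_piFinset]
    simp only [Finset.prod_const, Finset.card_univ, Fintype.card_fin]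
    have h1 := orb_card_roots (p ^ m₀)
    calc _ ≤ p ^ m₀ * (p ^ m₀) ^ r := Nat.mul_le_mul h1 (Nat.pow_le_pow_left h1 r)
      _ = p ^ (m₀ * (r + 1)) := by
        rw [← pow_succ', ← pow_mul]
  have hmaps : ∀ g ∈ GK, Φ g ∈ S := by
    intro g hg
    obtain ⟨⟨t, ht⟩, ht'⟩ := lf_shape K a ha0 hp hm₀ hm hn hζ α hα (s g) (hsfix g hg)
    have hroot : ∀ t : ℕ, (ζ ^ (p ^ (k - m₀) * t)) ^ p ^ m₀ = 1 := by
      intro t
      rw [← pow_mul]
      have : p ^ (k - m₀) * t * p ^ m₀ = p ^ k * t := by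
        have : p ^ k = p ^ (k - m₀) * p ^ m₀ := by
          rw [← pow_add, Nat.sub_add_cancel hm₀]
        rw [this]
        ring
      rw [this, pow_mul, hζ.pow_eq_one, one_pow]
    rw [hS, Finset.mem_product]
    refine ⟨?_, ?_⟩
    · rw [Polynomial.mem_nthRootsFinset (pow_pos hppos _)]
      have : s g ζ / ζ = ζ ^ (p ^ (k - m₀) * t) := by
        rw [ht, pow_add, pow_one]
        field_simp
      simp only [hΦ]
      rw [this]
      exact hroot t
    · rw [Fintype.mem_piFinset]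
      intro i
      obtain ⟨t', ht''⟩ := ht' i
      rw [Polynomial.mem_nthRootsFinset (pow_pos hppos _)]
      have : s g (α i) / α i = ζ ^ (p ^ (k - m₀) * t') := by
        rw [ht'', mul_div_assoc, div_self (hα0 i), mul_one]
      simp only [hΦ]
      rw [this]
      exact hroot t'
  have hfib : ∀ b ∈ S, (GK.filter (fun g => Φ g = b)).card ≤ T.card := by
    intro b _
    rcases (GK.filter (fun g => Φ g = b)).eq_empty_or_nonempty with h0 | ⟨c, hc⟩
    · rw [h0]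
      simp
    · obtain ⟨hcG, hcb⟩ := Finset.mem_filter.1 hc
      have hcK : ∀ x ∈ K, lift c x = x := (Finset.mem_filter.1 hcG).2
      refine Finset.card_le_card_of_injOn
        (fun d => d * c⁻¹ * (AlgEquiv.restrictNormal τ M)⁻¹) ?_ ?_
      · intro d hd
        obtain ⟨hdG, hdb⟩ := Finset.mem_filter.1 hd
        have hdK : ∀ x ∈ K, lift d x = x := (Finset.mem_filter.1 hdG).2
        have hcd : Φ c = Φ d := hcb.trans hdb.symm
        have heq : ∀ x ∈ L, s c x = s d x := by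
          refine lf_ext K a hp hm hnm hmp hζ α hα (s c) (s d) ?_ ?_ ?_ ?_
          · intro x hx
            rw [hsfix c hcG x (hKL₀ hx), hsfix d hdG x (hKL₀ hx)]
          · intro x hx
            have hxL : x ∈ L₀ := by
              rw [hL₀]
              unfold Lf
              refine (le_sup_right : adjoin ℚ _ ≤ _) ?_
              refine subset_adjoin ℚ _ (Or.inl ?_)
              show x ^ (p ^ (k - m₀) * m) = 1
              rw [mul_comm, pow_mul, hx, one_pow]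
            rw [hsfix c hcG x hxL, hsfix d hdG x hxL]
          · have h1 : s c ζ / ζ = s d ζ / ζ := congrArg Prod.fst hcd
            exact (div_left_inj' hζ0).1 h1
          · intro i
            have h1 : s c (α i) / α i = s d (α i) / α i := congrFun (congrArg Prod.snd hcd) i
            exact (div_left_inj' (hα0 i)).1 h1
        refine Finset.mem_coe.2 (Finset.mem_filter.2 ⟨Finset.mem_univ _, ?_⟩)
        refine ⟨lift d * (lift c)⁻¹ * τ⁻¹, ?_, ?_, ?_⟩
        · rw [orb_restrict_mul, orb_restrict_mul, orb_restrict_inv, orb_restrict_inv, hlift, hlift]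
        · intro x hx
          show lift d ((lift c)⁻¹ (τ⁻¹ x)) = x
          rw [orb_inv_fix K τ hτ x hx, orb_inv_fix K (lift c) hcK x hx, hdK x hx]
        · intro y hy
          have hy' : τ⁻¹ y ∈ L := hstab τ⁻¹ (orb_inv_fix K τ hτ) y hy
          have hx' : (lift c)⁻¹ (τ⁻¹ y) ∈ L := hstab (lift c)⁻¹ (orb_inv_fix K _ hcK) _ hy'
          have h1 := heq _ hx'
          rw [hsapp, hsapp, hcancel] at h1
          show lift d ((lift c)⁻¹ (τ⁻¹ (τ (h (τ⁻¹ y))))) = h (lift d ((lift c)⁻¹ (τ⁻¹ y)))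
          rw [hcancel', h1, hcancel]
      · intro d _ e _ hde
        exact mul_right_cancel (mul_right_cancel hde)
  have hGKcard : GK.card ≤ T.card * S.card :=
    Finset.card_le_mul_card_image_of_maps_to hmaps _ hfib
  have hfin := orb_card M K hKM GK (by
    intro g hg
    refine Finset.mem_filter.2 ⟨Finset.mem_univ _, fun x hx => ?_⟩
    have h1 := orb_commutes M (lift g) ⟨x, hKM hx⟩
    rw [hlift, hg x hx] at h1
    exact h1.symm)
  refine ⟨T, ?_, ?_⟩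
  · calc Module.finrank ℚ M ≤ Module.finrank ℚ K * GK.card := hfin
      _ ≤ Module.finrank ℚ K * (T.card * p ^ (m₀ * (r + 1))) :=
        Nat.mul_le_mul le_rfl (hGKcard.trans (Nat.mul_le_mul le_rfl hScard))
      _ = T.card * (Module.finrank ℚ K * p ^ (m₀ * (r + 1))) := by ring
  · intro σ hσ
    obtain ⟨σ', h1, h2, h3⟩ := (Finset.mem_filter.1 hσ).2
    have hag : ∀ x ∈ M, σ' x = σ x := fun x hx => orb_restrict_eq M h1 hx
    refine ⟨fun x hx => ?_, fun y hy => ?_⟩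
    · rw [← hag x (hKM hx), h2 x hx]
    · have hy1 : τ⁻¹ y ∈ M := orb_map_mem M _ (hM hy)
      have hy2 : h (τ⁻¹ y) ∈ M := orb_map_mem M _ hy1
      have hy3 : τ (h (τ⁻¹ y)) ∈ M := orb_map_mem M _ hy2
      rw [← hag _ hy3, ← hag _ (hM hy), h3 y hy]

end MP4270
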