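import Pool.Agent.Lib_MP_4270a5_nt.FixPower
import Pool.Agent.Lib_MP_4270a5_nt.Orb
import Pool.Agent.Lib_MP_4270a5_nt.GoodElt
import Pool.Agent.Lib_MP_4270a5_nt.KumIdx
import Pool.Agent.Lib_MP_4270a5_nt.Group
import Pool.Agent.Lib_MP_4270a5_nt.Desc

open Polynomial IntermediateField

namespace MP4270

/-- ONE PRIME. `c'` from `kum_idx`, `m₀, k₀, δ` from `good_elt`, `D = [K:ℚ] p^(m₀(r+1))`, `s, c` from `fix_power`,
`k₁ = max(k₀, s + 1, 2)`. Induction on `k`; `k ≤ k₁`: `lf_mono`. `k > k₁`: `h` from `good_elt`; for every `τ` over `K` and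
`h' = τ h τ⁻¹`: `(h' β)^(p^s) = β^(p^s)` (`fix_power`, `orb_count`, `lf_stable`, `divG_conj`); the `σ` with `σ(β^(p^s)) =
β^(p^s)` form a subgroup `H`; `group_gen`; `desc`; induction for `β'` and `g' g`. -/
theorem one_prime (K : IntermediateField ℚ Qb) [FiniteDimensional ℚ K] {r : ℕ} (a : Fin r → Qb)
    (ha : ∀ i, a i ∈ K) (ha0 : ∀ i, a i ≠ 0) (hind : ∀ e : Fin r → ℤ, ∏ i, a i ^ e i = 1 → e = 0)
    (p : ℕ) [Fact p.Prime] : ∃ k₁ : ℕ, ∃ c : ℝ, 0 < c ∧ ∀ k m n : ℕ, 0 < m → 0 < n → n ∣ m → m.Coprime p →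
      ∀ β ∈ Lf K a (p ^ k * m) (p ^ k * n), β ≠ 0 → ∀ g : Qb, g ≠ 0 → DivG a g → hW (β * g) < c →
        ∃ β' ∈ Lf K a (p ^ k₁ * m) (p ^ k₁ * n), β' ≠ 0 ∧ ∃ g' : Qb, g' ≠ 0 ∧ DivG a g' ∧ β * g = β' * g' := by
  classical
  have hp : p.Prime := Fact.out
  obtain ⟨c', Hc'⟩ := kum_idx K a ha ha0 hind p
  obtain ⟨m₀, k₀, δ, hδ, hmk, Hg⟩ := good_elt K a ha ha0 p c'
  have hDpos : 0 < Module.finrank ℚ K * p ^ (m₀ * (r + 1)) :=
    Nat.mul_pos Module.finrank_pos (pow_pos hp.pos _)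
  obtain ⟨s, c, hc, Hf⟩ := fix_power p δ hδ (Module.finrank ℚ K * p ^ (m₀ * (r + 1))) hDpos
  refine ⟨max k₀ (max (s + 1) 2), c, hc, ?_⟩
  set k₁ := max k₀ (max (s + 1) 2) with hk₁
  have hk₁0 : k₀ ≤ k₁ := le_max_left _ _
  have hk₁s : s + 1 ≤ k₁ := (le_max_left _ _).trans (le_max_right _ _)
  have hk₁2 : 2 ≤ k₁ := (le_max_right _ _).trans (le_max_right _ _)
  intro k
  induction k with
  | zero =>
    intro m n hm hn hnm hmp β hβ hβ0 g hg0 hg _
    refine ⟨β, ?_, hβ0, g, hg0, hg, rfl⟩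
    refine lf_mono K a (Nat.mul_pos (pow_pos hp.pos _) hm) (Nat.mul_pos (pow_pos hp.pos _) hn) ?_ ?_
      (Nat.mul_dvd_mul_left _ hnm) hβ
    · rw [pow_zero, one_mul]; exact Dvd.intro_left _ rfl
    · rw [pow_zero, one_mul]; exact Dvd.intro_left _ rfl
  | succ k ih =>
    intro m n hm hn hnm hmp β hβ hβ0 g hg0 hg hlt
    rcases le_or_gt (k + 1) k₁ with hle | hgt
    · refine ⟨β, ?_, hβ0, g, hg0, hg, rfl⟩
      refine lf_mono K a (Nat.mul_pos (pow_pos hp.pos _) hm) (Nat.mul_pos (pow_pos hp.pos _) hn) ?_ ?_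
        (Nat.mul_dvd_mul_left _ hnm) hβ
      · exact Nat.mul_dvd_mul_right (pow_dvd_pow _ hle) _
      · exact Nat.mul_dvd_mul_right (pow_dvd_pow _ hle) _
    · -- the descent step
      have hpk : 0 < p ^ (k + 1) := pow_pos hp.pos _
      have : NeZero ((p ^ (k + 1) : ℕ) : Qb) := ⟨by exact_mod_cast hpk.ne'⟩
      obtain ⟨ζ, hζ⟩ : ∃ ζ : Qb, IsPrimitiveRoot ζ (p ^ (k + 1)) :=
        HasEnoughRootsOfUnity.exists_primitiveRoot Qb (p ^ (k + 1))
      have hαex : ∀ j, ∃ α : Qb, α ^ (p ^ (k + 1) * n) = a j := fun j =>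
        IsAlgClosed.exists_pow_nat_eq (a j) (Nat.mul_pos hpk hn)
      choose α hα using hαex
      obtain ⟨h, i, u, hi, h2i, hu, hfix, hhζ, hnear⟩ := Hg (k + 1) m n (by omega) hm hn hnm hmp ζ hζ
      have hhK : ∀ x ∈ K, h x = x := fun x hx => hfix x (lf_le K a _ _ hx)
      have : FiniteDimensional ℚ (Lf K a (p ^ (k + 1) * m) (p ^ (k + 1) * n)) :=
        lf_fd K a (Nat.mul_pos hpk hm) (Nat.mul_pos hpk hn)
      have key : ∀ τ : Qb ≃ₐ[ℚ] Qb, (∀ x ∈ K, τ x = x) →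
          ((τ * h * τ⁻¹) β) ^ p ^ s = β ^ p ^ s := by
        intro τ hτ
        have hτinv : ∀ x ∈ K, τ⁻¹ x = x := by
          intro x hx
          have := hτ x hx
          calc τ⁻¹ x = τ⁻¹ (τ x) := by rw [this]
            _ = x := by rw [← AlgEquiv.mul_apply, inv_mul_cancel]; rfl
        refine Hf (Lf K a (p ^ (k + 1) * m) (p ^ (k + 1) * n)) h (τ * h * τ⁻¹) hnear ?_ β hβ hβ0 g hg0 ?_ hlt
        · intro M _ _ hM
          obtain ⟨T, hT, hT2⟩ := orb_count K a ha ha0 p (k := k + 1) (m := m) (n := n) (m₀ := m₀) (by omega)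
            hm hn hnm hmp h τ hfix hτ M hM
          refine ⟨T, hT, ?_⟩
          intro σ hσ y hy
          obtain ⟨h1, h2⟩ := hT2 σ hσ
          exact ⟨lf_stable K a ha σ h1 y hy, h2 y hy⟩
        · refine divG_conj a hg (τ * h * τ⁻¹) ?_
          intro j
          rw [AlgEquiv.mul_apply, AlgEquiv.mul_apply, hτinv _ (ha j), hhK _ (ha j), hτ _ (ha j)]
      -- the stabilizer of `β ^ p ^ s`
      let H : Subgroup (Qb ≃ₐ[ℚ] Qb) :=
        { carrier := {σ | σ (β ^ p ^ s) = β ^ p ^ s}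
          mul_mem' := by
            intro x y hx hy
            change (x * y) (β ^ p ^ s) = β ^ p ^ s
            rw [AlgEquiv.mul_apply]
            have hx' : x (β ^ p ^ s) = β ^ p ^ s := hx
            have hy' : y (β ^ p ^ s) = β ^ p ^ s := hy
            rw [hy', hx']
          one_mem' := rfl
          inv_mem' := by
            intro x hx
            change x⁻¹ (β ^ p ^ s) = β ^ p ^ s
            have hx' : x (β ^ p ^ s) = β ^ p ^ s := hx
            calc x⁻¹ (β ^ p ^ s) = x⁻¹ (x (β ^ p ^ s)) := by rw [hx']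
              _ = β ^ p ^ s := by rw [← AlgEquiv.mul_apply, inv_mul_cancel]; rfl }
      have hHmem : ∀ σ : Qb ≃ₐ[ℚ] Qb, σ ∈ H ↔ σ (β ^ p ^ s) = β ^ p ^ s := fun σ => Iff.rfl
      have hgen := group_gen K a ha ha0 p (k := k + 1) (m := m) (n := n) (m₀ := m₀) (c' := c') (i := i) (u := u)
        (by omega) hm hn hnm hmp hζ α hα hi h2i hu h hfix hhζ
        (fun e => Hc' (k + 1) m n hm hn hnm hmp ζ hζ α hα e) H
        (by
          intro σ hσ
          rw [hHmem, map_pow, hσ β hβ])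
        (by
          intro τ hτ
          rw [hHmem, map_pow]
          exact key τ hτ)
      have hk1 : k + 1 - 1 = k := by omega
      rw [hk1] at hgen
      obtain ⟨β', hβ', hβ'0, g', hg'0, hg', he⟩ := desc K a ha ha0 p (k := k + 1) (m := m) (n := n) (s := s)
        (by omega) (by omega) hm hn hnm hmp hβ hβ0 (by
          intro σ hσ
          rw [hk1] at hσ
          have := hgen σ hσ
          rw [hHmem, map_pow] at this
          exact this)
      rw [hk1] at hβ'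
      have hgg : DivG a (g' * g) := divG_mul a ha0 hg' hg
      have hbg : β * g = β' * (g' * g) := by rw [he]; ring
      obtain ⟨β₂, hβ₂, hβ₂0, g₂, hg₂0, hg₂, he₂⟩ := ih m n hm hn hnm hmp β' hβ' hβ'0 (g' * g)
        (mul_ne_zero hg'0 hg0) hgg (by rw [← hbg]; exact hlt)
      exact ⟨β₂, hβ₂, hβ₂0, g₂, hg₂0, hg₂, hbg.trans he₂⟩

end MP4270
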