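import Pool.Agent.Lib_MP_4270a5_nt.Unif

open Polynomial IntermediateField

namespace MP4270

variable {p : ℕ} [Fact p.Prime]

/-- the exponent `e` -/
theorem pwb_exp (K L : IntermediateField ℚ_[p] (PadicAlgCl p)) (h : ResTriv K L)
    {w v : PadicAlgCl p} (hw : IsUnif L w) (hv : IsUnif K v) :
    ∃ e : ℕ, 1 ≤ e ∧ ‖w‖ ^ e = ‖v‖ := by
  obtain ⟨n, hn⟩ := unif_norm L hw (h.1 hv.1) hv.2.1
  have hw0 : 0 < ‖w‖ := norm_pos_iff.2 hw.2.1
  have hn1 : 1 ≤ n := by
    by_contra hc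
    have hc' : n ≤ 0 := by omega
    have : 1 ≤ ‖w‖ ^ n := by
      obtain ⟨k, hk⟩ := Int.eq_ofNat_of_zero_le (show 0 ≤ -n by omega)
      have e1 : n = -(k : ℤ) := by omega
      rw [e1, zpow_neg, zpow_natCast]
      exact (one_le_inv₀ (pow_pos hw0 k)).2 (pow_le_one₀ hw0.le hw.2.2.1.le)
    rw [← hn] at this
    exact absurd hv.2.2.1 (not_lt.2 this)
  refine ⟨n.toNat, by omega, ?_⟩
  rw [hn, ← zpow_natCast, Int.toNat_of_nonneg (by omega)]

theorem pwb_zpow_inj {a : ℝ} (h0 : 0 < a) (h1 : a < 1) {m n : ℤ} (h : a ^ m = a ^ n) : m = n :=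
  zpow_right_injective₀ h0 h1.ne h

/-- norms of the terms are different -/
theorem pwb_norm (K L : IntermediateField ℚ_[p] (PadicAlgCl p))
    {w v : PadicAlgCl p} (hw : IsUnif L w) (hv : IsUnif K v) {e : ℕ} (he : ‖w‖ ^ e = ‖v‖)
    (c : ℕ → ↥K) (i : ℕ) (hi : i < e) :
    ‖((c i : ↥K) : PadicAlgCl p) * w ^ i‖ ≤
      ‖∑ j ∈ Finset.range e, ((c j : ↥K) : PadicAlgCl p) * w ^ j‖ := by
  classical
  have hw0 : 0 < ‖w‖ := norm_pos_iff.2 hw.2.1
  have hne : (Finset.range e).Nonempty := ⟨i, Finset.mem_range.2 hi⟩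
  obtain ⟨i₀, hi₀, hmax⟩ := Finset.exists_max_image (Finset.range e)
    (fun j => ‖((c j : ↥K) : PadicAlgCl p) * w ^ j‖) hne
  refine (hmax i (Finset.mem_range.2 hi)).trans ?_
  by_cases h0 : ‖((c i₀ : ↥K) : PadicAlgCl p) * w ^ i₀‖ = 0
  · rw [h0]
    exact norm_nonneg _
  have hdist : ∀ j ∈ Finset.range e, j ≠ i₀ →
      ‖((c j : ↥K) : PadicAlgCl p) * w ^ j‖ < ‖((c i₀ : ↥K) : PadicAlgCl p) * w ^ i₀‖ := by
    intro j hj hji
    refine lt_of_le_of_ne (hmax j hj) ?_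
    intro heq
    have hcj : ((c j : ↥K) : PadicAlgCl p) ≠ 0 := by
      intro hz
      rw [← heq, hz, zero_mul, norm_zero] at h0
      exact h0 rfl
    have hci : ((c i₀ : ↥K) : PadicAlgCl p) ≠ 0 := by
      intro hz
      rw [hz, zero_mul, norm_zero] at h0
      exact h0 rfl
    obtain ⟨a, ha⟩ := unif_norm K hv (c j).2 hcj
    obtain ⟨b, hb⟩ := unif_norm K hv (c i₀).2 hci
    rw [norm_mul, norm_mul, norm_pow, norm_pow, ha, hb, ← he] at heq
    have h2 : ‖w‖ ^ ((e : ℤ) * a + j) = ‖w‖ ^ ((e : ℤ) * b + i₀) := by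
      rw [zpow_add₀ hw0.ne', zpow_add₀ hw0.ne', zpow_mul, zpow_mul, zpow_natCast, zpow_natCast,
        zpow_natCast]
      exact heq
    have h3 := pwb_zpow_inj hw0 hw.2.2.1 h2
    have hj' := Finset.mem_range.1 hj
    have hi' := Finset.mem_range.1 hi₀
    have h4 : ((e : ℤ) * a + j) % e = ((e : ℤ) * b + i₀) % e := by rw [h3]
    rw [Int.mul_add_emod_self_left, Int.mul_add_emod_self_left,
      Int.emod_eq_of_lt (by omega) (by omega), Int.emod_eq_of_lt (by omega) (by omega)] at h4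
    exact hji (by exact_mod_cast h4)
  have := (PadicAlgCl.isNonarchimedean p).apply_sum_eq_of_lt (fun a => (norm_neg a).symm)
    (l := fun j => ((c j : ↥K) : PadicAlgCl p) * w ^ j) hi₀ hdist
  exact this.ge

/-- one step of the approximation -/
theorem pwb_step (K L : IntermediateField ℚ_[p] (PadicAlgCl p)) (h : ResTriv K L)
    {w v : PadicAlgCl p} (hw : IsUnif L w) (hv : IsUnif K v) {e : ℕ} (he1 : 1 ≤ e)
    (he : ‖w‖ ^ e = ‖v‖) {x : PadicAlgCl p} (hx : x ∈ L) (hx0 : x ≠ 0) :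
    ∃ (c : ↥K) (r : ℕ), r < e ∧ ‖x - (c : PadicAlgCl p) * w ^ r‖ ≤ ‖w‖ * ‖x‖ := by
  have hw0 : 0 < ‖w‖ := norm_pos_iff.2 hw.2.1
  obtain ⟨n, hn⟩ := unif_norm L hw hx hx0
  have hepos : (0 : ℤ) < e := by exact_mod_cast he1
  have hr0 : 0 ≤ n % e := Int.emod_nonneg _ hepos.ne'
  have hr1 : n % e < e := Int.emod_lt_of_pos _ hepos
  set r : ℕ := (n % e).toNat with hr
  have hrr : (r : ℤ) = n % e := Int.toNat_of_nonneg hr0
  set q : ℤ := n / e with hq
  have hnq : n = e * q + r := by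
    rw [hrr, hq]
    exact (Int.mul_ediv_add_emod n e).symm
  have hvL : v ∈ L := h.1 hv.1
  set y : PadicAlgCl p := v ^ q * w ^ r with hy
  have hyn : ‖y‖ = ‖x‖ := by
    rw [hy, norm_mul, norm_zpow, norm_pow, hn, hnq, zpow_add₀ hw0.ne', zpow_mul, zpow_natCast,
      zpow_natCast, he]
  have hyL : y ∈ L := L.mul_mem (zpow_mem hvL q) (pow_mem hw.1 r)
  have hy0 : y ≠ 0 := by
    rw [← norm_pos_iff, hyn]
    exact norm_pos_iff.2 hx0
  have h1 : ‖x / y‖ ≤ 1 := by
    rw [norm_div, hyn, div_self (norm_pos_iff.2 hx0).ne']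
  obtain ⟨c, hcK, hc⟩ := h.2 (x / y) (L.div_mem hx hyL) h1
  have hc2 : ‖x / y - c‖ ≤ ‖w‖ := hw.2.2.2 _ (L.sub_mem (L.div_mem hx hyL) (h.1 hcK)) hc
  refine ⟨⟨c * v ^ q, K.mul_mem hcK (zpow_mem hv.1 q)⟩, r, by omega, ?_⟩
  have e1 : x - c * v ^ q * w ^ r = (x / y - c) * y := by
    rw [sub_mul, div_mul_cancel₀ x hy0, hy, mul_assoc]
  show ‖x - c * v ^ q * w ^ r‖ ≤ _
  rw [e1, norm_mul, hyn]
  exact mul_le_mul_of_nonneg_right hc2 (norm_nonneg _)

/-- the map `c ↦ ∑ c_i w^i` -/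
noncomputable def pwbMap (K : IntermediateField ℚ_[p] (PadicAlgCl p)) (w : PadicAlgCl p) (e : ℕ) :
    (Fin e → ↥K) →ₗ[ℚ_[p]] PadicAlgCl p where
  toFun c := ∑ i : Fin e, ((c i : ↥K) : PadicAlgCl p) * w ^ (i : ℕ)
  map_add' a b := by
    rw [← Finset.sum_add_distrib]
    refine Finset.sum_congr rfl fun i _ => ?_
    rw [← add_mul]
    rfl
  map_smul' r a := by
    rw [RingHom.id_apply, Finset.smul_sum]
    refine Finset.sum_congr rfl fun i _ => ?_
    rw [← smul_mul_assoc]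
    rfl

theorem pwb_surj (K L : IntermediateField ℚ_[p] (PadicAlgCl p)) [FiniteDimensional ℚ_[p] L]
    (h : ResTriv K L) {w v : PadicAlgCl p} (hw : IsUnif L w) (hv : IsUnif K v) {e : ℕ} (he1 : 1 ≤ e)
    (he : ‖w‖ ^ e = ‖v‖) {x : PadicAlgCl p} (hx : x ∈ L) :
    ∃ c : Fin e → ↥K, pwbMap K w e c = x := by
  have hw0 : 0 < ‖w‖ := norm_pos_iff.2 hw.2.1
  have : FiniteDimensional ℚ_[p] K :=
    FiniteDimensional.of_injective (IntermediateField.inclusion h.1).toLinearMap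
      (IntermediateField.inclusion h.1).injective
  have hcl : IsClosed ((LinearMap.range (pwbMap K w e) : Submodule ℚ_[p] (PadicAlgCl p)) :
      Set (PadicAlgCl p)) := Submodule.closed_of_finiteDimensional _
  have hL : ∀ c : Fin e → ↥K, pwbMap K w e c ∈ L := by
    intro c
    show ∑ i : Fin e, ((c i : ↥K) : PadicAlgCl p) * w ^ (i : ℕ) ∈ L
    exact L.sum_mem fun i _ => L.mul_mem (h.1 (c i).2) (pow_mem hw.1 _)
  have happ : ∀ N : ℕ, ∃ c : Fin e → ↥K, ‖x - pwbMap K w e c‖ ≤ ‖w‖ ^ N * ‖x‖ := by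
    intro N
    induction N with
    | zero => exact ⟨0, by simp⟩
    | succ N ih =>
      obtain ⟨c, hc⟩ := ih
      by_cases hz : x - pwbMap K w e c = 0
      · refine ⟨c, ?_⟩
        rw [hz, norm_zero]
        positivity
      · obtain ⟨d, r, hr, hd⟩ := pwb_step K L h hw hv he1 he (L.sub_mem hx (hL c)) hz
        refine ⟨c + Pi.single ⟨r, hr⟩ d, ?_⟩
        have e1 : pwbMap K w e (Pi.single ⟨r, hr⟩ d) = (d : PadicAlgCl p) * w ^ r := by
          show ∑ i : Fin e, (((Pi.single ⟨r, hr⟩ d : Fin e → ↥K) i : ↥K) : PadicAlgCl p) *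
            w ^ (i : ℕ) = _
          rw [Finset.sum_eq_single ⟨r, hr⟩]
          · rw [Pi.single_eq_same]
          · intro b _ hb
            rw [Pi.single_eq_of_ne hb]
            simp
          · intro hb
            exact absurd (Finset.mem_univ _) hb
        rw [map_add, e1, ← sub_sub]
        refine hd.trans ?_
        calc ‖w‖ * ‖x - pwbMap K w e c‖ ≤ ‖w‖ * (‖w‖ ^ N * ‖x‖) :=
              mul_le_mul_of_nonneg_left hc (norm_nonneg _)
          _ = ‖w‖ ^ (N + 1) * ‖x‖ := by ring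
  have hmem : x ∈ closure ((LinearMap.range (pwbMap K w e) : Submodule ℚ_[p] (PadicAlgCl p)) :
      Set (PadicAlgCl p)) := by
    rw [Metric.mem_closure_iff]
    intro ε hε
    have hlim : Filter.Tendsto (fun N : ℕ => ‖w‖ ^ N * ‖x‖) Filter.atTop (nhds 0) := by
      have := (tendsto_pow_atTop_nhds_zero_of_lt_one hw0.le hw.2.2.1).mul_const ‖x‖
      rwa [zero_mul] at this
    obtain ⟨N, hN⟩ := (hlim.eventually_lt_const hε).exists
    obtain ⟨c, hc⟩ := happ N
    exact ⟨pwbMap K w e c, ⟨c, rfl⟩, by rw [dist_eq_norm]; exact hc.trans_lt hN⟩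
  rw [hcl.closure_eq] at hmem
  exact hmem

theorem pwb_poly (K L : IntermediateField ℚ_[p] (PadicAlgCl p)) [FiniteDimensional ℚ_[p] L]
    (h : ResTriv K L) {w v : PadicAlgCl p} (hw : IsUnif L w) (hv : IsUnif K v) {e : ℕ} (he1 : 1 ≤ e)
    (he : ‖w‖ ^ e = ‖v‖) {x : PadicAlgCl p} (hx : x ∈ L) :
    ∃ g : (↥K)[X], g.natDegree < e ∧ aeval w g = x ∧
        (∀ i, ‖((g.coeff i : ↥K) : PadicAlgCl p) * w ^ i‖ ≤ ‖x‖) := by
  obtain ⟨c, hc⟩ := pwb_surj K L h hw hv he1 he hx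
  let d : ℕ → ↥K := fun i => if hi : i < e then c ⟨i, hi⟩ else 0
  have hsum : ∑ j ∈ Finset.range e, ((d j : ↥K) : PadicAlgCl p) * w ^ j = x := by
    rw [← hc, ← Fin.sum_univ_eq_sum_range (fun j => ((d j : ↥K) : PadicAlgCl p) * w ^ j) e]
    refine Finset.sum_congr rfl fun i _ => ?_
    have : d (i : ℕ) = c i := by
      show (if hi : (i : ℕ) < e then c ⟨i, hi⟩ else 0) = c i
      rw [dif_pos i.2]
    rw [this]
  let g : (↥K)[X] := ∑ j ∈ Finset.range e, C (d j) * X ^ j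
  have hcoeff : ∀ i, g.coeff i = d i := by
    intro i
    show (∑ j ∈ Finset.range e, C (d j) * X ^ j).coeff i = d i
    rw [Polynomial.finsetSum_coeff]
    simp only [Polynomial.coeff_C_mul_X_pow]
    by_cases hi : i < e
    · rw [Finset.sum_eq_single i]
      · rw [if_pos rfl]
      · intro b _ hb
        rw [if_neg (fun h => hb h.symm)]
      · intro hb
        exact absurd (Finset.mem_range.2 hi) hb
    · rw [Finset.sum_eq_zero]
      · show 0 = (if hi : i < e then c ⟨i, hi⟩ else 0)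
        rw [dif_neg hi]
      · intro j hj
        rw [if_neg]
        intro hij
        rw [hij] at hi
        exact hi (Finset.mem_range.1 hj)
  refine ⟨g, ?_, ?_, ?_⟩
  · have h1 : g.natDegree ≤ e - 1 := by
      rw [Polynomial.natDegree_le_iff_coeff_eq_zero]
      intro N hN
      rw [hcoeff]
      show (if hi : N < e then c ⟨N, hi⟩ else 0) = 0
      rw [dif_neg (by omega)]
    omega
  · rw [← hsum]
    show aeval w (∑ j ∈ Finset.range e, C (d j) * X ^ j) = _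
    rw [map_sum]
    refine Finset.sum_congr rfl fun j _ => ?_
    rw [map_mul, map_pow, aeval_C, aeval_X]
    rfl
  · intro i
    rw [hcoeff]
    by_cases hi : i < e
    · rw [← hsum]
      exact pwb_norm K L hw hv he d i hi
    · have : d i = 0 := by
        show (if hi : i < e then c ⟨i, hi⟩ else 0) = 0
        rw [dif_neg hi]
      rw [this]
      simp

/-- TOTALLY RAMIFIED EXTENSIONS. Let `L/K` be residually trivial, `w` a uniformizer of `L`, `v` one of `K`,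
`‖v‖ = ‖w‖^e` (`unif_norm`). Every integral `x ∈ L` is `∑_{i<e} c_i w^i` with integral `c_i ∈ K`: successive
approximation `x = c_0 + w x_1`, ..., and completeness of `K`. The norms `‖c_i w^i‖` are different for the `i` with
`c_i ≠ 0`, so `1, w, …, w^(e-1)` is a basis of `L/K` and `‖x‖ = max ‖c_i w^i‖`. -/
theorem pow_basis (K L : IntermediateField ℚ_[p] (PadicAlgCl p)) [FiniteDimensional ℚ_[p] L]
    (h : ResTriv K L) {w v : PadicAlgCl p} (hw : IsUnif L w) (hv : IsUnif K v) :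
    ∃ e : ℕ, 1 ≤ e ∧ ‖w‖ ^ e = ‖v‖ ∧ (minpoly K w).natDegree = e ∧ L = K ⊔ ℚ_[p]⟮w⟯ ∧
      Module.finrank ℚ_[p] L = Module.finrank ℚ_[p] K * e ∧
      (∀ x ∈ L, ∃ g : (↥K)[X], g.natDegree < e ∧ aeval w g = x ∧
        (∀ i, ‖((g.coeff i : ↥K) : PadicAlgCl p) * w ^ i‖ ≤ ‖x‖)) := by
  obtain ⟨e, he1, he⟩ := pwb_exp K L h hw hv
  have hpoly := fun x (hx : x ∈ L) => pwb_poly K L h hw hv he1 he hx
  have hint : IsIntegral (↥K) w := (Algebra.IsAlgebraic.isAlgebraic w).isIntegral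
  have hw0 : 0 < ‖w‖ := norm_pos_iff.2 hw.2.1
  have hdeg : (minpoly K w).natDegree = e := by
    refine le_antisymm ?_ ?_
    · obtain ⟨g, hg1, hg2, -⟩ := hpoly (w ^ e) (pow_mem hw.1 e)
      have hlt : g.degree < ((X : (↥K)[X]) ^ e).degree := by
        rw [degree_X_pow]
        by_cases hg0 : g = 0
        · rw [hg0, degree_zero]
          exact WithBot.bot_lt_coe _
        · exact (natDegree_lt_iff_degree_lt hg0).1 hg1
      have hmon : ((X : (↥K)[X]) ^ e - g).Monic := by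
        refine (monic_X_pow e).sub_of_left hlt
      have h1 : (minpoly K w).natDegree ≤ ((X : (↥K)[X]) ^ e - g).natDegree := by
        refine natDegree_le_natDegree (minpoly.min K w hmon ?_)
        rw [map_sub, map_pow, aeval_X, hg2, sub_self]
      have h2 : ((X : (↥K)[X]) ^ e - g).natDegree = e := by
        rw [natDegree_sub_eq_left_of_natDegree_lt, natDegree_X_pow]
        rwa [natDegree_X_pow]
      rwa [h2] at h1
    · by_contra hc
      push Not at hc
      set d := (minpoly K w).natDegree with hd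
      have h1 := pwb_norm K L hw hv he (fun i => (minpoly K w).coeff i) d hc
      have h2 : ∑ j ∈ Finset.range e, (((minpoly K w).coeff j : ↥K) : PadicAlgCl p) * w ^ j = 0 := by
        have h3 := minpoly.aeval K w
        rw [aeval_eq_sum_range' (n := e) (by rw [← hd]; exact hc)] at h3
        rw [← h3]
        exact Finset.sum_congr rfl fun j _ => rfl
      rw [h2, norm_zero] at h1
      have h4 : ((minpoly K w).coeff d : ↥K) = 1 := by
        rw [hd]
        exact (minpoly.monic hint)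
      have h1' : ‖((((minpoly K w).coeff d : ↥K)) : PadicAlgCl p) * w ^ d‖ ≤ 0 := h1
      rw [h4, norm_mul, norm_pow] at h1'
      have h5 : ‖((1 : ↥K) : PadicAlgCl p)‖ = 1 := norm_one
      rw [h5, one_mul] at h1'
      exact absurd (pow_pos hw0 d) (not_lt.2 h1')
  have hKw : L ≤ K ⊔ ℚ_[p]⟮w⟯ := by
    intro x hx
    obtain ⟨c, hc⟩ := pwb_surj K L h hw hv he1 he hx
    rw [← hc]
    show ∑ i : Fin e, ((c i : ↥K) : PadicAlgCl p) * w ^ (i : ℕ) ∈ K ⊔ ℚ_[p]⟮w⟯
    refine IntermediateField.sum_mem _ fun i _ => IntermediateField.mul_mem _ ?_ (pow_mem ?_ _)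
    · exact (le_sup_left : K ≤ K ⊔ ℚ_[p]⟮w⟯) (c i).2
    · exact (le_sup_right : ℚ_[p]⟮w⟯ ≤ K ⊔ ℚ_[p]⟮w⟯) (mem_adjoin_simple_self _ _)
  refine ⟨e, he1, he, hdeg, le_antisymm hKw (sup_le h.1 ?_), ?_, hpoly⟩
  · rw [adjoin_simple_le_iff]
    exact hw.1
  · have hE : extendScalars h.1 = (↥K)⟮w⟯ := by
      refine le_antisymm ?_ ?_
      · intro x hx
        obtain ⟨g, -, hg, -⟩ := hpoly x hx
        rw [← hg]
        exact IntermediateField.algebra_adjoin_le_adjoin _ _ (aeval_mem_adjoin_singleton _ _)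
      · rw [adjoin_simple_le_iff]
        exact hw.1
    have h1 : Module.finrank (↥K) (extendScalars h.1) = e := by
      rw [hE, adjoin.finrank hint, hdeg]
    have h2 := Module.finrank_mul_finrank ℚ_[p] (↥K) (extendScalars h.1)
    rw [h1] at h2
    rw [h2]
    rfl

/-- Integral elements are integral polynomials in `w` (consequence of `pow_basis`: `‖w^i‖ > ‖v‖` for `i < e`). -/
theorem pow_int (K L : IntermediateField ℚ_[p] (PadicAlgCl p)) [FiniteDimensional ℚ_[p] L]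
    (h : ResTriv K L) {w : PadicAlgCl p} (hw : IsUnif L w) {x : PadicAlgCl p} (hx : x ∈ L) (h1 : ‖x‖ ≤ 1) :
    ∃ g : (↥K)[X], (∀ i, ‖((g.coeff i : ↥K) : PadicAlgCl p)‖ ≤ 1) ∧ aeval w g = x := by
  have : FiniteDimensional ℚ_[p] K :=
    FiniteDimensional.of_injective (IntermediateField.inclusion h.1).toLinearMap
      (IntermediateField.inclusion h.1).injective
  obtain ⟨v, hv⟩ := exists_unif K
  obtain ⟨e, he1, he⟩ := pwb_exp K L h hw hv
  obtain ⟨g, hg1, hg2, hg3⟩ := pwb_poly K L h hw hv he1 he hx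
  have hw0 : 0 < ‖w‖ := norm_pos_iff.2 hw.2.1
  have hv0 : 0 < ‖v‖ := norm_pos_iff.2 hv.2.1
  refine ⟨g, fun i => ?_, hg2⟩
  by_contra hc
  push Not at hc
  have hne : ((g.coeff i : ↥K) : PadicAlgCl p) ≠ 0 := by
    intro hz
    rw [hz, norm_zero] at hc
    linarith
  have hi : i < e := by
    by_contra hi
    refine hne ?_
    rw [coeff_eq_zero_of_natDegree_lt (by omega)]
    rfl
  obtain ⟨n, hn⟩ := unif_norm K hv (g.coeff i).2 hne
  have hn1 : n ≤ -1 := by
    by_contra hh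
    have h0 : 0 ≤ n := by omega
    obtain ⟨k, hk⟩ := Int.eq_ofNat_of_zero_le h0
    rw [hn, hk, zpow_natCast] at hc
    exact absurd (pow_le_one₀ hv0.le hv.2.2.1.le) (not_le.2 hc)
  have h2 := (hg3 i).trans h1
  rw [norm_mul, norm_pow, hn, ← he, ← zpow_natCast, ← zpow_mul, ← zpow_natCast,
    ← zpow_add₀ hw0.ne'] at h2
  have h3 : ((e : ℤ) * n + i) < 0 := by
    have : (e : ℤ) * n ≤ (e : ℤ) * (-1) := mul_le_mul_of_nonneg_left hn1 (by omega)
    have hi' : (i : ℤ) < e := by exact_mod_cast hi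
    linarith
  have h4 : 1 < ‖w‖ ^ ((e : ℤ) * n + i) := by
    have := zpow_lt_zpow_right_of_lt_one₀ hw0 hw.2.2.1 h3
    rwa [zpow_zero] at this
  linarith

end MP4270
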