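import Pool.Agent.Lib_MP_4270a5_nt.GalB

open Polynomial IntermediateField

namespace MP4270

private theorem t0_index (K : IntermediateField ℚ Qb) [FiniteDimensional ℚ K] {n : ℕ} [NeZero n]
    {ζ : Qb} (hζ : IsPrimitiveRoot ζ n) :
    (hζ.autToPow K).range.index ≤ Module.finrank ℚ K := by
  classical
  have hn : 0 < n := Nat.pos_of_ne_zero (NeZero.ne n)
  have hintQ : IsIntegral ℚ ζ := (hζ.isIntegral hn).tower_top
  have hint : IsIntegral K ζ := hintQ.tower_top
  -- the roots of the minimal polynomial over `K`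
  have h1 : (minpoly K ζ).natDegree ≤ Nat.card (hζ.autToPow K).range := by
    have hsep : (minpoly K ζ).Separable := (minpoly.irreducible hint).separable
    have hspl : ((minpoly K ζ).map (algebraMap K Qb)).Splits := IsAlgClosed.splits _
    have h2 : Fintype.card ((minpoly K ζ).rootSet Qb) = (minpoly K ζ).natDegree :=
      card_rootSet_eq_natDegree hsep hspl
    rw [← h2, ← Nat.card_eq_fintype_card]
    have hex : ∀ y : (minpoly K ζ).rootSet Qb, ∃ f : Qb ≃ₐ[K] Qb, f ζ = y.1 := by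
      intro y
      obtain ⟨σ, h3, h4⟩ := exists_conj_Qb K ζ y.1 (by
        have := y.2
        rw [mem_rootSet] at this
        exact this.2)
      refine ⟨{ σ with commutes' := fun r => h3 r.1 r.2 }, h4⟩
    choose f hf using hex
    refine Nat.card_le_card_of_injective
      (fun y => (⟨hζ.autToPow K (f y), ⟨f y, rfl⟩⟩ : (hζ.autToPow K).range)) ?_
    intro y y' hyy
    have h3 : hζ.autToPow K (f y) = hζ.autToPow K (f y') := congrArg Subtype.val hyy
    have h4 := hζ.autToPow_spec K (f y)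
    have h5 := hζ.autToPow_spec K (f y')
    rw [h3] at h4
    apply Subtype.ext
    rw [← hf y, ← hf y', ← h4, ← h5]
  -- the degree over `ℚ`
  have h2 : n.totient ≤ Module.finrank ℚ K * (minpoly K ζ).natDegree := by
    have e1 : (minpoly ℚ ζ).natDegree = n.totient := by
      rw [← cyclotomic_eq_minpoly_rat hζ hn, natDegree_cyclotomic]
    have e2 : Module.finrank ℚ K * Module.finrank K K⟮ζ⟯ = Module.finrank ℚ K⟮ζ⟯ :=
      Module.finrank_mul_finrank ℚ K K⟮ζ⟯
    have e3 : Module.finrank K K⟮ζ⟯ = (minpoly K ζ).natDegree := adjoin.finrank hint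
    rw [← e1, ← e3, e2]
    have hfd : FiniteDimensional K K⟮ζ⟯ := adjoin.finiteDimensional hint
    have hfd2 : FiniteDimensional ℚ K⟮ζ⟯ := FiniteDimensional.trans ℚ K K⟮ζ⟯
    have e4 : minpoly ℚ (AdjoinSimple.gen K ζ) = minpoly ℚ ζ := by
      have := minpoly.algebraMap_eq (A := ℚ) (B := K⟮ζ⟯) (B' := Qb)
        (algebraMap K⟮ζ⟯ Qb).injective (AdjoinSimple.gen K ζ)
      rw [← this]
      simp
    rw [← e4]
    exact minpoly.natDegree_le _
  have h3 : Nat.card (ZMod n)ˣ = n.totient := by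
    rw [Nat.card_eq_fintype_card, ZMod.card_units_eq_totient]
  have h4 := Subgroup.card_mul_index (hζ.autToPow K).range
  rw [h3] at h4
  have h5 : 0 < Nat.card (hζ.autToPow K).range := Nat.card_pos
  have h6 : Nat.card (hζ.autToPow K).range * (hζ.autToPow K).range.index ≤
      Nat.card (hζ.autToPow K).range * Module.finrank ℚ K := by
    rw [h4]
    refine h2.trans ?_
    rw [mul_comm]
    gcongr
  exact Nat.le_of_mul_le_mul_left h6 h5

/-- An automorphism over `K` which acts on `μ_(p^k)` by the power `t₀ = (1+p)^(d!)`, `d = [K : ℚ]`: the image of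
`Gal(Qb/K)` in `(ℤ/p^k)^*` has index `≤ d` (the index is `[K ∩ ℚ(μ_(p^k)) : ℚ]`; `ℚ(ζ)` over `ℚ` has degree `φ(p^k)`), so it
contains all `d!`-th powers. -/
theorem exists_t0 (K : IntermediateField ℚ Qb) [FiniteDimensional ℚ K] (p : ℕ) [Fact p.Prime] (k : ℕ) :
    ∃ τ : Qb ≃ₐ[ℚ] Qb, (∀ x ∈ K, τ x = x) ∧
      ∀ ζ : Qb, ζ ^ p ^ k = 1 → τ ζ = ζ ^ ((1 + p) ^ (Nat.factorial (Module.finrank ℚ K))) := by
  classical
  have hp : p.Prime := Fact.out
  have : NeZero (p ^ k) := ⟨(pow_pos hp.pos k).ne'⟩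
  have : NeZero ((p ^ k : ℕ) : Qb) := ⟨by exact_mod_cast (pow_pos hp.pos k).ne'⟩
  obtain ⟨ζ, hζ⟩ := HasEnoughRootsOfUnity.exists_primitiveRoot Qb (p ^ k)
  have hidx := t0_index K hζ
  have hidx0 : (hζ.autToPow K).range.index ≠ 0 := Subgroup.index_ne_zero_of_finite
  have hcop : Nat.Coprime (1 + p) (p ^ k) := by
    refine Nat.Coprime.pow_right k ?_
    rw [Nat.coprime_add_self_left]
    exact Nat.coprime_one_left p
  have hmem : (ZMod.unitOfCoprime (1 + p) hcop) ^ (Nat.factorial (Module.finrank ℚ K)) ∈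
      (hζ.autToPow K).range := by
    obtain ⟨m, hm⟩ := Nat.dvd_factorial (Nat.pos_of_ne_zero hidx0) hidx
    rw [hm, pow_mul]
    exact Subgroup.pow_mem _ (Subgroup.pow_index_mem _ _) m
  obtain ⟨f, hf⟩ := hmem
  refine ⟨f.restrictScalars ℚ, fun x hx => f.commutes ⟨x, hx⟩, fun ξ hξ => ?_⟩
  have h1 : f ζ = ζ ^ ((1 + p) ^ (Nat.factorial (Module.finrank ℚ K))) := by
    rw [← hζ.autToPow_spec K f, hf]
    have h2 : (((ZMod.unitOfCoprime (1 + p) hcop) ^ (Nat.factorial (Module.finrank ℚ K)) :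
        (ZMod (p ^ k))ˣ) : ZMod (p ^ k)) =
        (((1 + p) ^ (Nat.factorial (Module.finrank ℚ K)) : ℕ) : ZMod (p ^ k)) := by
      rw [Units.val_pow_eq_pow_val, ZMod.coe_unitOfCoprime]
      push_cast
      rfl
    rw [h2, ZMod.val_natCast]
    have h3 := pow_mod_orderOf ζ ((1 + p) ^ (Nat.factorial (Module.finrank ℚ K)))
    rw [← hζ.eq_orderOf] at h3
    exact h3
  obtain ⟨i, _, hi⟩ := hζ.eq_pow_of_pow_eq_one hξ
  change f ξ = _
  rw [← hi, map_pow, h1, ← pow_mul, ← pow_mul, mul_comm]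

end MP4270
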