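import Pool.Agent.Lib_MP_4270a5_nt.PowB
import Pool.Agent.Lib_MP_4270a5_nt.IsoB

open Polynomial IntermediateField

namespace MP4270

variable {p : ℕ} [Fact p.Prime]

private theorem tow_int (K : IntermediateField ℚ_[p] (PadicAlgCl p)) (x : PadicAlgCl p) :
    IsIntegral K x :=
  ((Algebra.IsAlgebraic.isAlgebraic (R := ℚ_[p]) x).tower_top K).isIntegral

private theorem tow_mem [DecidableEq (PadicAlgCl p)] (K : IntermediateField ℚ_[p] (PadicAlgCl p)) (x y : PadicAlgCl p) :
    y ∈ ((minpoly K x).aroots (PadicAlgCl p)).toFinset ↔ aeval y (minpoly K x) = 0 := by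
  rw [Multiset.mem_toFinset, mem_aroots]
  exact ⟨fun h => h.2, fun h => ⟨minpoly.ne_zero (tow_int K x), h⟩⟩

private theorem tow_conj (K : IntermediateField ℚ_[p] (PadicAlgCl p)) (x : PadicAlgCl p)
    (σ : PadicAlgCl p ≃ₐ[ℚ_[p]] PadicAlgCl p) (hσ : ∀ z ∈ K, σ z = z) :
    aeval (σ x) (minpoly K x) = 0 := by
  rw [← map_aeval K σ hσ, minpoly.aeval, map_zero]

/-- a difference of values of an integral polynomial -/
private theorem tow_pow_sub {a b : PadicAlgCl p} (ha : ‖a‖ ≤ 1) (hb : ‖b‖ ≤ 1) (i : ℕ) :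
    ‖a ^ i - b ^ i‖ ≤ ‖a - b‖ := by
  induction i with
  | zero => simp
  | succ i ih =>
    have e : a ^ (i + 1) - b ^ (i + 1) = a * (a ^ i - b ^ i) + (a - b) * b ^ i := by ring
    rw [e]
    refine (IsUltrametricDist.norm_add_le_max _ _).trans (max_le ?_ ?_)
    · rw [norm_mul]
      calc ‖a‖ * ‖a ^ i - b ^ i‖ ≤ 1 * ‖a - b‖ := by
            apply mul_le_mul ha ih (norm_nonneg _) zero_le_one
        _ = ‖a - b‖ := one_mul _
    · rw [norm_mul, norm_pow]
      calc ‖a - b‖ * ‖b‖ ^ i ≤ ‖a - b‖ * 1 := by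
            apply mul_le_mul_of_nonneg_left (pow_le_one₀ (norm_nonneg _) hb) (norm_nonneg _)
        _ = ‖a - b‖ := mul_one _

private theorem tow_aeval_sub (K : IntermediateField ℚ_[p] (PadicAlgCl p)) (g : (↥K)[X])
    (hg : ∀ i, ‖((g.coeff i : ↥K) : PadicAlgCl p)‖ ≤ 1) {a b : PadicAlgCl p} (ha : ‖a‖ ≤ 1)
    (hb : ‖b‖ ≤ 1) : ‖aeval a g - aeval b g‖ ≤ ‖a - b‖ := by
  rw [aeval_eq_sum_range, aeval_eq_sum_range, ← Finset.sum_sub_distrib]
  refine IsUltrametricDist.norm_sum_le_of_forall_le_of_nonneg (norm_nonneg _) fun i _ => ?_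
  rw [← smul_sub, Algebra.smul_def, norm_mul]
  calc ‖algebraMap (↥K) (PadicAlgCl p) (g.coeff i)‖ * ‖a ^ i - b ^ i‖ ≤ 1 * ‖a - b‖ := by
        apply mul_le_mul (hg i) (tow_pow_sub ha hb i) (norm_nonneg _) zero_le_one
    _ = ‖a - b‖ := one_mul _

/-- TOWER FORMULA (formula of Serre). `K ≤ F ≤ L`, `L/K` residually trivial, `w`, `v` uniformizers of `L`, `F`;
`P`, `f` the minimal polynomials of `w` over `K` and `F`, `P_F` the one of `v` over `K`. The conjugates `θ` of `w` over `K`
are the roots of the polynomials `σ f`, `σ` running over the embeddings of `F` over `K`, i.e. over the conjugates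
`v' = σ v` of `v` (`F = K(v)`, `pow_basis`). So `dif K w = dif F w * ∏_{v' ≠ v} ‖(σ f)(w)‖`, and it is enough to show
`‖(σ f)(w)‖ = ‖σ v - v‖` if `σ v ≠ v`.
`≤`: `(σ f)(w) = (σ f - f)(w)`, and every coefficient `c` of `f` is an integral element of `F`, `c = g(v)` with integral `g`
over `K` (`pow_int`), so `‖σ c - c‖ = ‖g(σ v) - g(v)‖ ≤ ‖σ v - v‖`.
`≥`: `v = g(w)` with `g` integral over `K`; `f` divides `g - v` over `F`: `g - v = f h` with `h` integral (division by a
monic integral polynomial); apply `σ`: `g - σ v = (σ f)(σ h)`; at `w`: `v - σ v = (σ f)(w) (σ h)(w)`. -/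
theorem tower (K F L : IntermediateField ℚ_[p] (PadicAlgCl p)) [FiniteDimensional ℚ_[p] L] (hKF : K ≤ F)
    (hFL : F ≤ L) (h : ResTriv K L) {w v : PadicAlgCl p} (hw : IsUnif L w) (hv : IsUnif F v) :
    dif K w = dif F w * dif K v := by
  classical
  have hF : FiniteDimensional ℚ_[p] F :=
    FiniteDimensional.of_injective (IntermediateField.inclusion hFL).toLinearMap
      (IntermediateField.inclusion_injective hFL)
  have hK : FiniteDimensional ℚ_[p] K :=
    FiniteDimensional.of_injective (IntermediateField.inclusion hKF).toLinearMap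
      (IntermediateField.inclusion_injective hKF)
  have hKFr : ResTriv K F := ⟨hKF, fun x hx hx1 => h.2 x (hFL hx) hx1⟩
  obtain ⟨u, hu⟩ := exists_unif K
  obtain ⟨e, -, -, -, hgen, -, -⟩ := pow_basis K F hKFr hv hu
  have hw1 : ‖w‖ ≤ 1 := hw.2.2.1.le
  have hv1 : ‖v‖ ≤ 1 := hv.2.2.1.le
  obtain ⟨g, hgi, hgw⟩ := pow_int K L h hw (hFL hv.1) hv1
  -- automorphisms fixing K and v fix F
  have fixF : ∀ σ : PadicAlgCl p ≃ₐ[ℚ_[p]] PadicAlgCl p, (∀ z ∈ K, σ z = z) → σ v = v →
      ∀ z ∈ F, σ z = z := by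
    intro σ hσ hσv z hz
    rw [hgen] at hz
    let E : IntermediateField ℚ_[p] (PadicAlgCl p) :=
      { carrier := {z | σ z = z}
        mul_mem' := by
          intro a b ha hb
          change σ (a * b) = a * b
          rw [map_mul, show σ a = a from ha, show σ b = b from hb]
        add_mem' := by
          intro a b ha hb
          change σ (a + b) = a + b
          rw [map_add, show σ a = a from ha, show σ b = b from hb]
        algebraMap_mem' := fun r => σ.commutes r
        inv_mem' := by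
          intro a ha
          change σ (a⁻¹) = a⁻¹
          rw [map_inv₀, show σ a = a from ha] }
    have hle : K ⊔ ℚ_[p]⟮v⟯ ≤ E := by
      refine sup_le (fun z hz => hσ z hz) ?_
      rw [IntermediateField.adjoin_simple_le_iff]
      exact hσv
    exact hle hz
  -- the conjugates of `w` over `K` and `F`, those of `v` over `K`
  set SK := ((minpoly K w).aroots (PadicAlgCl p)).toFinset with hSK
  set SF := ((minpoly F w).aroots (PadicAlgCl p)).toFinset with hSF
  set SV := ((minpoly K v).aroots (PadicAlgCl p)).toFinset with hSV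
  have memSK : ∀ y, y ∈ SK ↔ aeval y (minpoly K w) = 0 := tow_mem K w
  have memSF : ∀ y, y ∈ SF ↔ aeval y (minpoly F w) = 0 := tow_mem F w
  have memSV : ∀ y, y ∈ SV ↔ aeval y (minpoly K v) = 0 := tow_mem K v
  have hSKw : w ∈ SK := (memSK w).2 (minpoly.aeval K w)
  have hSVv : v ∈ SV := (memSV v).2 (minpoly.aeval K v)
  -- the projection
  have hproj : ∀ θ ∈ SK, aeval θ g ∈ SV := by
    intro θ hθ
    obtain ⟨σ, hσ, hσw⟩ := exists_conj K w θ ((memSK θ).1 hθ)
    rw [memSV, ← hσw, ← map_aeval K σ hσ, hgw]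
    exact tow_conj K v σ hσ
  -- the fibre over `v`
  have hfib : SK.filter (fun θ => aeval θ g = v) = SF := by
    ext θ
    rw [Finset.mem_filter, memSK, memSF]
    constructor
    · rintro ⟨h1, h2⟩
      obtain ⟨σ, hσ, hσw⟩ := exists_conj K w θ h1
      have hσv : σ v = v := by
        rw [← hgw, map_aeval K σ hσ, hσw, h2, hgw]
      rw [← hσw]
      exact tow_conj F w σ (fixF σ hσ hσv)
    · intro h1
      obtain ⟨σ, hσ, hσw⟩ := exists_conj F w θ h1
      have hσK : ∀ z ∈ K, σ z = z := fun z hz => hσ z (hKF hz)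
      refine ⟨by rw [← hσw]; exact tow_conj K w σ hσK, ?_⟩
      rw [← hσw, ← map_aeval K σ hσK, hgw]
      exact hσ v hv.1
  -- the product over the fibre over `v'`
  have key : ∀ v' ∈ SV.erase v,
      ∏ θ ∈ (SK.erase w).filter (fun θ => aeval θ g = v'), ‖w - θ‖ = ‖v - v'‖ := by
    intro v' hv'
    obtain ⟨hne, hv'S⟩ := Finset.mem_erase.1 hv'
    obtain ⟨τ, hτ, hτv⟩ := exists_conj K v v' ((memSV v').1 hv'S)
    have hset : (SK.erase w).filter (fun θ => aeval θ g = v') = SF.image τ := by
      ext θ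
      rw [Finset.mem_filter, Finset.mem_erase, Finset.mem_image]
      constructor
      · rintro ⟨⟨h1, h2⟩, h3⟩
        refine ⟨τ.symm θ, ?_, τ.apply_symm_apply θ⟩
        rw [← hfib, Finset.mem_filter, memSK]
        obtain ⟨σ, hσ, hσw⟩ := exists_conj K w θ ((memSK θ).1 h2)
        have hτs : ∀ z ∈ K, τ.symm z = z := fun z hz => by
          rw [AlgEquiv.symm_apply_eq, hτ z hz]
        constructor
        · rw [← map_aeval K τ.symm hτs, (memSK θ).1 h2, map_zero]
        · rw [← map_aeval K τ.symm hτs, h3, ← hτv, τ.symm_apply_apply]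
      · rintro ⟨ρ, hρ, rfl⟩
        rw [← hfib, Finset.mem_filter, memSK] at hρ
        have h3 : aeval (τ ρ) g = v' := by
          rw [← map_aeval K τ hτ, hρ.2, hτv]
        refine ⟨⟨?_, ?_⟩, h3⟩
        · intro h4
          apply hne
          rw [← h3, h4, hgw]
        · rw [memSK, ← map_aeval K τ hτ, hρ.1, map_zero]
    rw [hset]
    have hτinj : Function.Injective τ := τ.injective
    rw [Finset.prod_image (fun a _ b _ hab => hτinj hab)]
    apply le_antisymm
    · -- the product is the value of the conjugate polynomial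
      set f : (PadicAlgCl p)[X] := (minpoly F w).map (algebraMap F (PadicAlgCl p)) with hf
      have hmonic : f.Monic := (minpoly.monic (tow_int F w)).map _
      have hsplit : f.Splits := IsAlgClosed.splits f
      have hfprod : f = ∏ θ ∈ SF, (X - C θ) := by
        have e1 := hsplit.eq_prod_roots_of_monic hmonic
        have hsep : (minpoly F w).Separable :=
          (minpoly.irreducible (tow_int F w)).separable
        have hnd : ((minpoly F w).aroots (PadicAlgCl p)).Nodup := nodup_roots hsep.map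
        rw [e1]
        change (((minpoly F w).aroots (PadicAlgCl p)).map fun a => X - C a).prod = _
        rw [hSF, Finset.prod, Multiset.toFinset_val, Multiset.Nodup.dedup hnd]
      have hτf : (f.map (τ : PadicAlgCl p →+* PadicAlgCl p)).eval w = ∏ θ ∈ SF, (w - τ θ) := by
        rw [hfprod, Polynomial.map_prod, eval_prod]
        refine Finset.prod_congr rfl fun θ _ => ?_
        simp
      have hf0 : f.eval w = 0 := by
        rw [hf, eval_map_algebraMap, minpoly.aeval]
      have hcoef : ∀ i, ‖τ (f.coeff i) - f.coeff i‖ ≤ ‖v - v'‖ := by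
        intro i
        have hc : f.coeff i = (((minpoly F w).coeff i : ↥F) : PadicAlgCl p) := by
          rw [hf, coeff_map]; rfl
        obtain ⟨q, hqi, hqv⟩ := pow_int K F hKFr hv (x := f.coeff i)
          (by rw [hc]; exact ((minpoly F w).coeff i).2) (by rw [hc]; exact minpoly_coeff_le F w hw1 i)
        rw [← hqv, map_aeval K τ hτ, hτv, norm_sub_rev v v']
        refine tow_aeval_sub K q hqi ?_ hv1
        rw [← hτv, norm_equiv]
        exact hv1
      have e2 : ∏ θ ∈ SF, ‖w - τ θ‖ = ‖∑ i ∈ Finset.range (f.natDegree + 1),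
          (τ (f.coeff i) - f.coeff i) * w ^ i‖ := by
        rw [← norm_prod, ← hτf, ← sub_zero ((f.map (τ : PadicAlgCl p →+* PadicAlgCl p)).eval w),
          ← hf0, eval_eq_sum_range, eval_eq_sum_range,
          natDegree_map_eq_of_injective (τ : PadicAlgCl p →+* PadicAlgCl p).injective,
          ← Finset.sum_sub_distrib]
        congr 1
        refine Finset.sum_congr rfl fun i _ => ?_
        rw [coeff_map, sub_mul]
        rfl
      rw [e2]
      refine IsUltrametricDist.norm_sum_le_of_forall_le_of_nonneg (norm_nonneg _) fun i _ => ?_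
      rw [norm_mul, norm_pow]
      calc ‖τ (f.coeff i) - f.coeff i‖ * ‖w‖ ^ i ≤ ‖v - v'‖ * 1 :=
            mul_le_mul (hcoef i) (pow_le_one₀ (norm_nonneg _) hw1) (by positivity) (norm_nonneg _)
        _ = ‖v - v'‖ := mul_one _
    · have h5 := norm_eval_le_prod (g.map (algebraMap K (PadicAlgCl p)) - C v') ?_ (SF.image τ) ?_ w hw1
      · rw [eval_sub, eval_C, eval_map_algebraMap, hgw,
          Finset.prod_image (fun a _ b _ hab => hτinj hab)] at h5
        exact h5
      · intro i
        rw [coeff_sub, coeff_map, coeff_C, sub_eq_add_neg]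
        refine (IsUltrametricDist.norm_add_le_max _ _).trans (max_le (hgi i) ?_)
        rw [norm_neg]
        split_ifs
        · rw [← hτv, norm_equiv]
          exact hv1
        · simp
      · intro θ hθ
        rw [← hset, Finset.mem_filter, Finset.mem_erase] at hθ
        obtain ⟨σ, hσ, hσw⟩ := exists_conj K w θ ((memSK θ).1 hθ.1.2)
        refine ⟨by rw [← hσw, norm_equiv]; exact hw1, ?_⟩
        rw [eval_sub, eval_C, eval_map_algebraMap, hθ.2, sub_self]
  rw [dif_eq_prod K w, dif_eq_prod F w, dif_eq_prod K v]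
  have e3 : ∏ θ ∈ SK.erase w, ‖w - θ‖ =
      ∏ v' ∈ SV, ∏ θ ∈ (SK.erase w).filter (fun θ => aeval θ g = v'), ‖w - θ‖ :=
    (Finset.prod_fiberwise_of_maps_to (fun θ hθ => hproj θ (Finset.mem_of_mem_erase hθ)) _).symm
  have e4 : (SK.erase w).filter (fun θ => aeval θ g = v) = SF.erase w := by
    rw [← hfib, Finset.filter_erase]
  rw [e3, ← Finset.mul_prod_erase SV _ hSVv, e4]
  congr 1
  exact Finset.prod_congr rfl key

end MP4270
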