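import Pool.Agent.Lib_MP_4270a5_nt.IsoB
import Pool.Agent.Lib_MP_4270a5_nt.RootU

open Polynomial IntermediateField

namespace MP4270

variable {p : ℕ} [Fact p.Prime]

/-- The polynomials with coefficients of norm at most one. -/
private theorem unramA_prod {ι : Type} (s : Finset ι) (f : ι → (PadicAlgCl p)[X])
    (h : ∀ i ∈ s, ∀ k, ‖(f i).coeff k‖ ≤ 1) : ∀ k, ‖(∏ i ∈ s, f i).coeff k‖ ≤ 1 := by
  classical
  induction s using Finset.induction_on with
  | empty =>
    intro k
    rw [Finset.prod_empty, Polynomial.coeff_one]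
    split_ifs
    · rw [norm_one]
    · rw [norm_zero]
      exact zero_le_one
  | insert a s ha ih =>
    intro k
    rw [Finset.prod_insert ha, Polynomial.coeff_mul]
    refine IsUltrametricDist.norm_sum_le_of_forall_le_of_nonneg zero_le_one ?_
    rintro ⟨i, j⟩ _
    rw [norm_mul]
    exact mul_le_one₀ (h a (Finset.mem_insert_self a s) i) (norm_nonneg _)
      (ih (fun i hi => h i (Finset.mem_insert_of_mem hi)) j)

/-- Roots of unity of order prime to `p`: `x ∈ K(ζ)` is a polynomial in `ζ` over `K` with coefficients of norm `≤ ‖x‖`.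
Proof: `x = ∑_{i<m} c_i ζ^i`, `m` the degree of `ζ` over `K`; the conjugates `x_j = ∑ c_i ζ_j^i` have norm `‖x‖` and
`‖ζ_i - ζ_j‖ = 1` (`norm_sub_one_coprime`), so the inverse of the Vandermonde matrix is integral. -/
theorem unram_expand (K : IntermediateField ℚ_[p] (PadicAlgCl p)) {n : ℕ} (hn0 : 0 < n) (hn : n.Coprime p)
    {ζ : PadicAlgCl p} (hζ : ζ ^ n = 1) {x : PadicAlgCl p} (hx : x ∈ K ⊔ ℚ_[p]⟮ζ⟯) :
    ∃ g : (↥K)[X], aeval ζ g = x ∧ ∀ i, ‖((g.coeff i : ↥K) : PadicAlgCl p)‖ ≤ ‖x‖ := by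
  classical
  have hint : IsIntegral K ζ := Algebra.IsIntegral.isIntegral ζ
  have hx' : x ∈ (K⟮ζ⟯ : IntermediateField K (PadicAlgCl p)) := by
    have h1 : (K⟮ζ⟯ : IntermediateField K (PadicAlgCl p)).restrictScalars ℚ_[p] =
        K ⊔ ℚ_[p]⟮ζ⟯ := by
      rw [IntermediateField.restrictScalars_adjoin, IntermediateField.adjoin_union,
        IntermediateField.adjoin_self]
    rw [← h1] at hx
    exact hx
  have hx2 : x ∈ Algebra.adjoin K {ζ} := by
    rw [← IntermediateField.adjoin_simple_toSubalgebra_of_isAlgebraic hint.isAlgebraic]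
    exact hx'
  rw [Algebra.adjoin_singleton_eq_range_aeval] at hx2
  obtain ⟨f, hf⟩ := hx2
  set P := minpoly K ζ with hP
  have hPm : P.Monic := minpoly.monic hint
  set g := f %ₘ P with hg
  have hgx : aeval ζ g = x := by
    rw [hg, ← hf]
    exact Polynomial.aeval_modByMonic_eq_self_of_root (minpoly.aeval K ζ)
  refine ⟨g, hgx, ?_⟩
  set S := (P.aroots (PadicAlgCl p)).toFinset with hS
  have hsep : P.Separable := (minpoly.irreducible hint).separable
  have hPn : P ∣ (X ^ n - 1 : (↥K)[X]) := by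
    refine minpoly.dvd K ζ ?_
    rw [map_sub, map_pow, aeval_X, map_one, hζ, sub_self]
  have hSroot : ∀ θ ∈ S, θ ^ n = 1 ∧ aeval θ P = 0 := by
    intro θ hθ
    rw [hS, Multiset.mem_toFinset, Polynomial.mem_aroots] at hθ
    refine ⟨?_, hθ.2⟩
    obtain ⟨Q, hQ⟩ := hPn
    have h1 := congrArg (aeval θ) hQ
    rw [map_mul, hθ.2, zero_mul, map_sub, map_pow, aeval_X, map_one] at h1
    exact sub_eq_zero.mp h1
  have hScard : S.card = P.natDegree := by
    have h1 : (P.aroots (PadicAlgCl p)).Nodup := Polynomial.nodup_aroots_iff_of_splits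
      (hPm.ne_zero) (IsAlgClosed.splits _) |>.mpr hsep
    rw [hS, Multiset.toFinset_card_of_nodup h1]
    have h2 := (IsAlgClosed.splits (P.map (algebraMap K (PadicAlgCl p)))).natDegree_eq_card_roots
    rw [Polynomial.natDegree_map] at h2
    exact h2.symm
  set G := g.map (algebraMap K (PadicAlgCl p)) with hG
  have hev : ∀ θ ∈ S, ‖G.eval θ‖ = ‖x‖ := by
    intro θ hθ
    obtain ⟨σ, hσ1, hσ2⟩ := exists_conj K ζ θ (hSroot θ hθ).2
    have h1 := map_aeval K σ hσ1 g ζ
    rw [hgx, hσ2] at h1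
    have h2 : G.eval θ = aeval θ g := by
      rw [hG, Polynomial.eval_map_algebraMap]
    rw [h2, ← h1, norm_equiv]
  have hlag : G = Lagrange.interpolate S id (fun θ => G.eval θ) := by
    refine Lagrange.eq_interpolate_of_eval_eq (fun θ => G.eval θ) (Function.injective_id.injOn) ?_
      (fun θ _ => rfl)
    rw [hScard, hG, Polynomial.degree_map]
    have h1 := Polynomial.degree_modByMonic_lt f hPm
    rw [Polynomial.degree_eq_natDegree hPm.ne_zero] at h1
    exact h1
  have hdiff : ∀ θ ∈ S, ∀ θ' ∈ S, θ ≠ θ' → ‖θ - θ'‖ = 1 := by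
    intro θ hθ θ' hθ' hne
    have h1 := (hSroot θ hθ).1
    have h2 := (hSroot θ' hθ').1
    have h3 : ‖θ'‖ = 1 := norm_root_one hn0 h2
    have h4 : θ' ≠ 0 := by
      intro h5
      rw [h5, norm_zero] at h3
      exact zero_ne_one h3
    have h5 : ‖θ / θ' - 1‖ = 1 := by
      refine norm_sub_one_coprime hn ?_ ?_
      · rw [div_pow, h1, h2, div_one]
      · intro h6
        exact hne ((div_eq_one_iff_eq h4).mp h6)
    have h6 : θ - θ' = (θ / θ' - 1) * θ' := by
      field_simp
    rw [h6, norm_mul, h5, h3, one_mul]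
  intro i
  have h1 : ((g.coeff i : ↥K) : PadicAlgCl p) = G.coeff i := by
    rw [hG, Polynomial.coeff_map]
    rfl
  rw [h1, hlag, Lagrange.interpolate_apply, Polynomial.finsetSum_coeff]
  refine IsUltrametricDist.norm_sum_le_of_forall_le_of_nonneg (norm_nonneg _) ?_
  intro θ hθ
  rw [Polynomial.coeff_C_mul, norm_mul, hev θ hθ]
  refine mul_le_of_le_one_right (norm_nonneg _) ?_
  unfold Lagrange.basis
  refine unramA_prod (S.erase θ) (fun θ' => Lagrange.basisDivisor (id θ) (id θ')) ?_ i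
  intro θ' hθ' k
  have hne : θ ≠ θ' := (Finset.ne_of_mem_erase hθ').symm
  have hθ'S := Finset.mem_of_mem_erase hθ'
  unfold Lagrange.basisDivisor
  rw [Polynomial.coeff_C_mul, norm_mul, norm_inv, id, id, hdiff θ hθ θ' hθ'S hne, inv_one, one_mul,
    sub_eq_add_neg, Polynomial.coeff_add, Polynomial.coeff_neg, Polynomial.coeff_X,
    Polynomial.coeff_C]
  have h3 : ‖θ'‖ = 1 := norm_root_one hn0 (hSroot θ' hθ'S).1
  refine (IsUltrametricDist.norm_add_le_max _ _).trans (max_le ?_ ?_)
  · split_ifs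
    · rw [norm_one]
    · rw [norm_zero]
      exact zero_le_one
  · rw [norm_neg]
    split_ifs
    · exact h3.le
    · rw [norm_zero]
      exact zero_le_one

end MP4270
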