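import Pool.Agent.Lib_MP_4270a5_nt.HProp
import Pool.Agent.Lib_MP_4270a5_nt.RootU

open Polynomial IntermediateField

namespace MP4270

private theorem vs1_prod {ι : Type} (J : Finset ι) (f : ι → ℝ) (hf : ∀ j ∈ J, 1 ≤ f j) :
    1 ≤ ∏ j ∈ J, f j ∧ ∀ j ∈ J, f j ≤ ∏ j ∈ J, f j := by
  classical
  induction J using Finset.induction_on with
  | empty => simp
  | insert a s ha ih =>
    obtain ⟨h1, h2⟩ := ih fun j hj => hf j (Finset.mem_insert_of_mem hj)
    have h3 := hf a (Finset.mem_insert_self a s)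
    rw [Finset.prod_insert ha]
    refine ⟨one_le_mul_of_one_le_of_one_le h3 h1, fun j hj => ?_⟩
    rcases Finset.mem_insert.1 hj with rfl | hj
    · exact le_mul_of_one_le_right (by linarith) h1
    · exact (h2 j hj).trans (le_mul_of_one_le_left (by linarith) h3)

private theorem vs1_step (p : ℕ) [Fact p.Prime] {a b : PadicAlgCl p} {B : ℝ} (ha : ‖a‖ ≤ B)
    (hb : ‖b‖ ≤ B) : ‖(a + b) ^ p - a ^ p - b ^ p‖ ≤ (p : ℝ)⁻¹ * B ^ p := by
  have hp : p.Prime := Fact.out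
  have hB0 : 0 ≤ B := (norm_nonneg _).trans ha
  have h1 := add_pow_prime_eq' hp a b
  have h2 : (a + b) ^ p - a ^ p - b ^ p =
      p * ∑ k ∈ Finset.Ioo 0 p, a ^ k * b ^ (p - k) * ((p.choose k / p : ℕ) : PadicAlgCl p) := by
    rw [h1]
    ring
  rw [h2, norm_mul, RootU_norm_p]
  refine mul_le_mul_of_nonneg_left ?_ (by positivity)
  refine IsUltrametricDist.norm_sum_le_of_forall_le_of_nonneg (by positivity) fun k hk => ?_
  rw [Finset.mem_Ioo] at hk
  rw [norm_mul, norm_mul, norm_pow, norm_pow]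
  have g1 : ‖a‖ ^ k ≤ B ^ k := pow_le_pow_left₀ (norm_nonneg _) ha _
  have g2 : ‖b‖ ^ (p - k) ≤ B ^ (p - k) := pow_le_pow_left₀ (norm_nonneg _) hb _
  have g3 : ‖((p.choose k / p : ℕ) : PadicAlgCl p)‖ ≤ 1 :=
    IsUltrametricDist.norm_natCast_le_one _ _
  calc ‖a‖ ^ k * ‖b‖ ^ (p - k) * ‖((p.choose k / p : ℕ) : PadicAlgCl p)‖
      ≤ B ^ k * B ^ (p - k) * 1 := by gcongr
    _ = B ^ p := by rw [mul_one, ← pow_add, Nat.add_sub_cancel' hk.2.le]

private theorem vs1_sum_norm (p : ℕ) [Fact p.Prime] {ι : Type} (J : Finset ι)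
    (z : ι → PadicAlgCl p) (B : ℝ) (hB : ∀ j ∈ J, ‖z j‖ ≤ B) (hB0 : 0 ≤ B) :
    ‖∑ j ∈ J, z j‖ ≤ B :=
  IsUltrametricDist.norm_sum_le_of_forall_le_of_nonneg hB0 hB

/-- Ultrametric freshman's dream (`add_pow_prime_eq`, the binomial coefficients divided by `p` are integers of norm
`≤ 1`; induction on `J`). -/
theorem sum_pow_sub_le (p : ℕ) [Fact p.Prime] {ι : Type} (J : Finset ι) (z : ι → PadicAlgCl p) (B : ℝ)
    (hB : ∀ j ∈ J, ‖z j‖ ≤ B) (hB0 : 0 ≤ B) :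
    ‖(∑ j ∈ J, z j) ^ p - ∑ j ∈ J, z j ^ p‖ ≤ (p : ℝ)⁻¹ * B ^ p := by
  classical
  induction J using Finset.induction_on with
  | empty =>
    have hp : p.Prime := Fact.out
    simp only [Finset.sum_empty, zero_pow hp.ne_zero, sub_zero, norm_zero]
    positivity
  | insert a s ha ih =>
    have h1 := ih fun j hj => hB j (Finset.mem_insert_of_mem hj)
    have h2 := hB a (Finset.mem_insert_self a s)
    have h3 := vs1_sum_norm p s z B (fun j hj => hB j (Finset.mem_insert_of_mem hj)) hB0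
    have h4 := vs1_step p h2 h3
    rw [Finset.sum_insert ha, Finset.sum_insert ha]
    have e : (z a + ∑ j ∈ s, z j) ^ p - (z a ^ p + ∑ j ∈ s, z j ^ p) =
        ((z a + ∑ j ∈ s, z j) ^ p - z a ^ p - (∑ j ∈ s, z j) ^ p) +
          ((∑ j ∈ s, z j) ^ p - ∑ j ∈ s, z j ^ p) := by ring
    rw [e]
    exact (IsUltrametricDist.norm_add_le_max _ _).trans (max_le h4 h1)

private theorem vs1_nm_sum (ℓ : ℕ) {ι : Type} (J : Finset ι) (x : ι → Qb) (C : ℝ) (hC1 : 1 ≤ C)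
    (hC : ∀ j ∈ J, nm ℓ (x j) ≤ C) : nm ℓ (∑ j ∈ J, x j) ≤ C := by
  classical
  by_cases h : ℓ.Prime
  · haveI : Fact ℓ.Prime := ⟨h⟩
    rw [nm_eq ℓ, map_sum]
    refine IsUltrametricDist.norm_sum_le_of_forall_le_of_nonneg (by linarith) fun j hj => ?_
    rw [← nm_eq ℓ]
    exact hC j hj
  · rw [pf_nonprime ℓ h]
    exact hC1

private theorem vs1_log (p : ℕ) {ι : Type} (J : Finset ι) (f : ι → ℝ) (hf : ∀ j ∈ J, 1 ≤ f j) :
    Real.log (∏ j ∈ J, f j ^ p) = p * ∑ j ∈ J, Real.log (f j) := by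
  rw [Real.log_prod (fun j hj => (pow_pos (by linarith [hf j hj]) p).ne'), Finset.mul_sum]
  exact Finset.sum_congr rfl fun j _ => Real.log_pow _ _


/-- VANISHING SUMS, ONE STEP. Let `A = ∑ y_j^p` and suppose `A ≠ 0` (so `J` is not empty). Take a normal `M` which
contains the `y_j` (`exists_normal`), the product formula for `A` and the decompositions of the `hW (y j)`
(`product_formula`, `decomp`; one finite set of primes, containing `p`): for `σ ∈ Gal(M/ℚ)`,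
`nmC (σ A) ≤ |J| ∏ max(1, nmC (σ y_j))^p`, `nm ℓ (σ A) ≤ ∏ max(1, nm ℓ (σ y_j))^p`, and for `ℓ = p` the additional factor
`p⁻¹` by `sum_pow_sub_le` (`∑ σ y_j = 0`). The sum of the logarithms is
`0 ≤ [M : ℚ] (log |J| - log p + p ∑ hW (y j))`, a contradiction. -/
theorem vs_step (p : ℕ) [Fact p.Prime] {ι : Type} (J : Finset ι) (y : ι → Qb)
    (hsum : ∑ j ∈ J, y j = 0) (hlt : (p : ℝ) * ∑ j ∈ J, hW (y j) < Real.log ((p : ℝ) / J.card)) :
    ∑ j ∈ J, y j ^ p = 0 := by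
  classical
  by_contra hA
  have hp : p.Prime := Fact.out
  have hp0 : (0 : ℝ) < p := by exact_mod_cast hp.pos
  have hJ : J.Nonempty := by
    by_contra hcon
    rw [Finset.not_nonempty_iff_eq_empty] at hcon
    exact hA (by rw [hcon, Finset.sum_empty])
  have hJc : (0 : ℝ) < J.card := by exact_mod_cast hJ.card_pos
  obtain ⟨M, hfd, hnor, -, hX⟩ := exists_normal (⊥ : IntermediateField ℚ Qb) (J.image y)
  haveI := hfd
  haveI := hnor
  have hyM : ∀ j ∈ J, y j ∈ M := fun j hj => hX _ (Finset.mem_image_of_mem y hj)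
  set Y : ι → M := fun j => if h : y j ∈ M then ⟨y j, h⟩ else 0 with hY
  have hYj : ∀ j ∈ J, ((Y j : M) : Qb) = y j := by
    intro j hj
    simp only [hY]
    rw [dif_pos (hyM j hj)]
  have hYsum : ∑ j ∈ J, Y j = 0 := by
    apply Subtype.ext
    have : ((∑ j ∈ J, Y j : M) : Qb) = ∑ j ∈ J, ((Y j : M) : Qb) := map_sum M.val _ _
    rw [this, Finset.sum_congr rfl hYj, hsum]
    rfl
  set A : M := ∑ j ∈ J, Y j ^ p with hAdef
  have hAval : ((A : M) : Qb) = ∑ j ∈ J, y j ^ p := by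
    have : ((∑ j ∈ J, Y j ^ p : M) : Qb) = ∑ j ∈ J, ((Y j ^ p : M) : Qb) := map_sum M.val _ _
    rw [hAdef, this]
    refine Finset.sum_congr rfl fun j hj => ?_
    rw [← hYj j hj]
    rfl
  have hA0 : A ≠ 0 := by
    intro h
    apply hA
    rw [← hAval, h]
    rfl
  obtain ⟨T₀, hT₀⟩ := product_formula M A hA0
  choose Tj hTj using fun j => decomp M (Y j)
  set T : Finset ℕ := T₀ ∪ J.biUnion Tj ∪ {p} with hT
  have hPF := hT₀ T (by
    rw [hT]
    exact Finset.subset_union_left.trans Finset.subset_union_left)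
  have hD : ∀ j ∈ J, (Module.finrank ℚ M : ℝ) * hW (y j) =
      ∑ σ : M ≃ₐ[ℚ] M, Real.log (max 1 (nmC ((σ (Y j) : M) : Qb))) +
        ∑ ℓ ∈ T, ∑ σ : M ≃ₐ[ℚ] M, Real.log (max 1 (nm ℓ ((σ (Y j) : M) : Qb))) := by
    intro j hj
    have h := hTj j T (by
      rw [hT]
      exact (Finset.subset_biUnion_of_mem Tj hj).trans
        (Finset.subset_union_right.trans Finset.subset_union_left))
    rw [hYj j hj] at h
    exact h
  have hpT : p ∈ T := by
    rw [hT]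
    exact Finset.mem_union_right _ (Finset.mem_singleton_self p)
  -- the conjugates of `A`
  have hσA : ∀ σ : M ≃ₐ[ℚ] M, ((σ A : M) : Qb) = ∑ j ∈ J, ((σ (Y j) : M) : Qb) ^ p := by
    intro σ
    rw [hAdef, map_sum]
    have : ((∑ j ∈ J, σ (Y j ^ p) : M) : Qb) = ∑ j ∈ J, ((σ (Y j ^ p) : M) : Qb) :=
      map_sum M.val _ _
    rw [this]
    refine Finset.sum_congr rfl fun j _ => ?_
    rw [map_pow]
    rfl
  have hσ0 : ∀ σ : M ≃ₐ[ℚ] M, ∑ j ∈ J, ((σ (Y j) : M) : Qb) = 0 := by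
    intro σ
    have : ((∑ j ∈ J, σ (Y j) : M) : Qb) = ∑ j ∈ J, ((σ (Y j) : M) : Qb) :=
      map_sum M.val _ _
    rw [← this, ← map_sum, hYsum, map_zero]
    rfl
  have hσne : ∀ σ : M ≃ₐ[ℚ] M, ((σ A : M) : Qb) ≠ 0 := by
    intro σ h
    have h1 : σ A = 0 := Subtype.ext h
    exact hA0 ((map_eq_zero_iff σ σ.injective).1 h1)
  -- the archimedean bound
  have hC : ∀ σ : M ≃ₐ[ℚ] M, Real.log (nmC ((σ A : M) : Qb)) ≤
      Real.log J.card + p * ∑ j ∈ J, Real.log (max 1 (nmC ((σ (Y j) : M) : Qb))) := by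
    intro σ
    have hf : ∀ j ∈ J, (1 : ℝ) ≤ max 1 (nmC ((σ (Y j) : M) : Qb)) := fun j _ => le_max_left _ _
    rw [← vs1_log p J _ hf]
    obtain ⟨q1, q2⟩ := vs1_prod J (fun j => max 1 (nmC ((σ (Y j) : M) : Qb)) ^ p)
      (fun j _ => one_le_pow₀ (le_max_left _ _))
    have hpos : 0 < nmC ((σ A : M) : Qb) := by
      unfold nmC
      rw [norm_pos_iff]
      exact (map_ne_zero_iff ii ii.injective).2 (hσne σ)
    rw [← Real.log_mul hJc.ne' (by linarith)]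
    refine Real.log_le_log hpos ?_
    rw [hσA]
    unfold nmC
    rw [map_sum]
    refine (norm_sum_le _ _).trans ?_
    have : ∀ j ∈ J, ‖ii (((σ (Y j) : M) : Qb) ^ p)‖ ≤
        ∏ j ∈ J, max 1 (nmC ((σ (Y j) : M) : Qb)) ^ p := by
      intro j hj
      rw [map_pow, norm_pow]
      refine le_trans ?_ (q2 j hj)
      exact pow_le_pow_left₀ (norm_nonneg _) (le_max_right _ _) p
    refine (Finset.sum_le_sum this).trans (le_of_eq ?_)
    rw [Finset.sum_const, nsmul_eq_mul]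
    rfl
  -- the bound at the finite places
  have hF : ∀ ℓ ∈ T, ∀ σ : M ≃ₐ[ℚ] M, Real.log (nm ℓ ((σ A : M) : Qb)) ≤
      (if ℓ = p then -Real.log p else 0) +
        p * ∑ j ∈ J, Real.log (max 1 (nm ℓ ((σ (Y j) : M) : Qb))) := by
    intro ℓ _ σ
    have hf : ∀ j ∈ J, (1 : ℝ) ≤ max 1 (nm ℓ ((σ (Y j) : M) : Qb)) := fun j _ => le_max_left _ _
    obtain ⟨r1, r2⟩ := vs1_prod J (fun j => max 1 (nm ℓ ((σ (Y j) : M) : Qb))) hf
    rw [← vs1_log p J _ hf]
    obtain ⟨q1, q2⟩ := vs1_prod J (fun j => max 1 (nm ℓ ((σ (Y j) : M) : Qb)) ^ p)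
      (fun j _ => one_le_pow₀ (le_max_left _ _))
    have hpos : 0 < nm ℓ ((σ A : M) : Qb) := nm_pos ℓ (hσne σ)
    have hnn : ∀ j, 0 ≤ nm ℓ ((σ (Y j) : M) : Qb) := by
      intro j
      unfold nm
      split_ifs
      · exact norm_nonneg _
      · exact zero_le_one
    split_ifs with hℓ
    · subst hℓ
      rw [← Real.log_inv, ← Real.log_mul (inv_pos.2 hp0).ne' (by linarith)]
      refine Real.log_le_log hpos ?_
      rw [hσA, nm_eq, map_sum]
      have h1 := sum_pow_sub_le ℓ J (fun j => jj ℓ ((σ (Y j) : M) : Qb))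
        (∏ j ∈ J, max 1 (nm ℓ ((σ (Y j) : M) : Qb)))
        (fun j hj => by
          rw [← nm_eq ℓ]
          exact (le_max_right _ _).trans (r2 j hj)) (by linarith)
      have h2 : ∑ j ∈ J, jj ℓ ((σ (Y j) : M) : Qb) = 0 := by
        rw [← map_sum, hσ0, map_zero]
      rw [h2, zero_pow hp.ne_zero, zero_sub, norm_neg, ← Finset.prod_pow] at h1
      simpa only [map_pow] using h1
    · rw [zero_add]
      refine Real.log_le_log hpos ?_
      rw [hσA]
      refine vs1_nm_sum ℓ J _ _ q1 fun j hj => ?_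
      rw [nm_pow]
      exact (pow_le_pow_left₀ (hnn j) (le_max_right _ _) p).trans (q2 j hj)
  -- summation
  have hcard : (Fintype.card (M ≃ₐ[ℚ] M) : ℝ) = (Module.finrank ℚ M : ℝ) := by
    have : IsGalois ℚ M := ⟨⟩
    rw [← Nat.card_eq_fintype_card, IsGalois.card_aut_eq_finrank]
  have hn : (0 : ℝ) < (Module.finrank ℚ M : ℝ) := by exact_mod_cast Module.finrank_pos
  have hS1 : ∑ σ : M ≃ₐ[ℚ] M, Real.log (nmC ((σ A : M) : Qb)) ≤
      (Module.finrank ℚ M : ℝ) * Real.log J.card +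
        p * ∑ j ∈ J, ∑ σ : M ≃ₐ[ℚ] M, Real.log (max 1 (nmC ((σ (Y j) : M) : Qb))) := by
    refine (Finset.sum_le_sum fun σ _ => hC σ).trans (le_of_eq ?_)
    rw [Finset.sum_add_distrib, Finset.sum_const, Finset.card_univ, nsmul_eq_mul, hcard,
      ← Finset.mul_sum, Finset.sum_comm]
  have hS2 : ∑ ℓ ∈ T, ∑ σ : M ≃ₐ[ℚ] M, Real.log (nm ℓ ((σ A : M) : Qb)) ≤
      -((Module.finrank ℚ M : ℝ) * Real.log p) +
        p * ∑ j ∈ J, ∑ ℓ ∈ T, ∑ σ : M ≃ₐ[ℚ] M,
          Real.log (max 1 (nm ℓ ((σ (Y j) : M) : Qb))) := by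
    refine (Finset.sum_le_sum fun ℓ hℓ => Finset.sum_le_sum fun σ _ => hF ℓ hℓ σ).trans
      (le_of_eq ?_)
    have e1 : ∀ ℓ ∈ T, ∑ σ : M ≃ₐ[ℚ] M, ((if ℓ = p then -Real.log p else 0) +
        p * ∑ j ∈ J, Real.log (max 1 (nm ℓ ((σ (Y j) : M) : Qb)))) =
        (Module.finrank ℚ M : ℝ) * (if ℓ = p then -Real.log p else 0) +
        p * ∑ j ∈ J, ∑ σ : M ≃ₐ[ℚ] M, Real.log (max 1 (nm ℓ ((σ (Y j) : M) : Qb))) := by
      intro ℓ _
      rw [Finset.sum_add_distrib, Finset.sum_const, Finset.card_univ, nsmul_eq_mul, hcard,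
        ← Finset.mul_sum, Finset.sum_comm]
    rw [Finset.sum_congr rfl e1, Finset.sum_add_distrib, ← Finset.mul_sum, ← Finset.mul_sum,
      Finset.sum_ite_eq' T p, if_pos hpT, Finset.sum_comm (s := T) (t := J)]
    ring
  have hS3 : (Module.finrank ℚ M : ℝ) * ∑ j ∈ J, hW (y j) =
      ∑ j ∈ J, ∑ σ : M ≃ₐ[ℚ] M, Real.log (max 1 (nmC ((σ (Y j) : M) : Qb))) +
      ∑ j ∈ J, ∑ ℓ ∈ T, ∑ σ : M ≃ₐ[ℚ] M, Real.log (max 1 (nm ℓ ((σ (Y j) : M) : Qb))) := by
    rw [Finset.mul_sum, Finset.sum_congr rfl hD, Finset.sum_add_distrib]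
  have hlog : Real.log ((p : ℝ) / J.card) = Real.log p - Real.log J.card :=
    Real.log_div hp0.ne' hJc.ne'
  rw [hlog] at hlt
  have hfin : 0 ≤ (Module.finrank ℚ M : ℝ) *
      (Real.log J.card - Real.log p + p * ∑ j ∈ J, hW (y j)) := by
    have e : (Module.finrank ℚ M : ℝ) *
        (Real.log J.card - Real.log p + p * ∑ j ∈ J, hW (y j)) =
        (Module.finrank ℚ M : ℝ) * Real.log J.card - (Module.finrank ℚ M : ℝ) * Real.log p +
          p * ((Module.finrank ℚ M : ℝ) * ∑ j ∈ J, hW (y j)) := by ring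
    rw [e, hS3]
    linarith
  have := nonneg_of_mul_nonneg_right hfin hn
  linarith

end MP4270
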